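import Pool.Agent.MP_36f34d_co.H52.Spec

/-!
The theorem of Borsuk and Ulam, by cochains modulo two on lists: a prism operator builds chains
of small lists on the boundary of the cross-polytope, and the parity count of Ky Fan gives the
contradiction.
-/

namespace Pool.Agent.MP_36f34d_co.H52

open Finset

namespace BU

section Cochains

variable {X Y : Type}

theorem two : (2 : ZMod 2) = 0 := by decide

/-- The value of a cochain on the boundary of a list. -/
def cb : List X → (List X → ZMod 2) → ZMod 2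
  | [], _ => 0
  | x :: l, φ => φ l + cb l fun m => φ (x :: m)

/-- The value of a cochain on the prism over a list. -/
def pr (f g : X → X) : List X → (List X → ZMod 2) → ZMod 2
  | [], _ => 0
  | x :: l, φ => φ (f x :: g x :: l.map g) + pr f g l fun m => φ (f x :: m)

theorem cb_add (l : List X) : ∀ φ ψ : List X → ZMod 2,
    cb l (fun m => φ m + ψ m) = cb l φ + cb l ψ := by
  induction l with
  | nil => intro φ ψ; simp [cb]
  | cons x l ih => intro φ ψ; simp only [cb, ih]; ring

theorem cb_map (f : X → Y) (l : List X) : ∀ φ : List Y → ZMod 2,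
    cb l (fun m => φ (m.map f)) = cb (l.map f) φ := by
  induction l with
  | nil => intro φ; rfl
  | cons x l ih =>
    intro φ
    simp only [cb, List.map_cons]
    rw [ih fun m => φ (f x :: m)]

theorem cb_congr (l : List X) : ∀ φ ψ : List X → ZMod 2, (∀ m, m.Sublist l → φ m = ψ m) →
    cb l φ = cb l ψ := by
  induction l with
  | nil => intro φ ψ _; rfl
  | cons x l ih =>
    intro φ ψ h
    simp only [cb]
    rw [h l (List.sublist_cons_self x l), ih _ _ fun m hm => h _ (hm.cons_cons x)]

theorem cb_perm {l l' : List X} (h : l.Perm l') : ∀ φ : List X → ZMod 2,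
    (∀ m m', m.Perm m' → φ m = φ m') → cb l φ = cb l' φ := by
  induction h with
  | nil => intro φ _; rfl
  | cons x h ih =>
    intro φ hφ
    simp only [cb]
    rw [hφ _ _ h, ih _ fun m m' hm => hφ _ _ (hm.cons x)]
  | swap x y l =>
    intro φ hφ
    simp only [cb]
    have : (fun m => φ (y :: x :: m)) = fun m => φ (x :: y :: m) :=
      funext fun m => hφ _ _ (List.Perm.swap x y m)
    rw [this]
    ring
  | trans _ _ ih ih' => intro φ hφ; rw [ih φ hφ, ih' φ hφ]

theorem pr_add (f g : X → X) (l : List X) : ∀ φ ψ : List X → ZMod 2,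
    pr f g l (fun m => φ m + ψ m) = pr f g l φ + pr f g l ψ := by
  induction l with
  | nil => intro φ ψ; simp [pr]
  | cons x l ih => intro φ ψ; simp only [pr, ih]; ring

theorem pr_zero (f g : X → X) (l : List X) : ∀ φ : List X → ZMod 2,
    (∀ m : List X, m.length = l.length + 1 → (∀ y ∈ m, ∃ x ∈ l, y = f x ∨ y = g x) → φ m = 0) →
      pr f g l φ = 0 := by
  induction l with
  | nil => intro φ _; rfl
  | cons x l ih =>
    intro φ h
    simp only [pr]
    rw [h, ih, add_zero]
    · intro m hm hm'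
      refine h _ (by simp [hm]) fun y hy => ?_
      rcases List.mem_cons.1 hy with rfl | hy
      · exact ⟨x, List.mem_cons_self, Or.inl rfl⟩
      · obtain ⟨z, hz, hz'⟩ := hm' y hy
        exact ⟨z, List.mem_cons_of_mem _ hz, hz'⟩
    · simp
    · intro y hy
      rcases List.mem_cons.1 hy with rfl | hy
      · exact ⟨x, List.mem_cons_self, Or.inl rfl⟩
      rcases List.mem_cons.1 hy with rfl | hy
      · exact ⟨x, List.mem_cons_self, Or.inr rfl⟩
      · obtain ⟨z, hz, rfl⟩ := List.mem_map.1 hy
        exact ⟨z, List.mem_cons_of_mem _ hz, Or.inr rfl⟩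

theorem prism (f g : X → X) (l : List X) : ∀ φ : List X → ZMod 2,
    pr f g l (fun m => cb m φ) + cb l (fun m => pr f g m φ) = φ (l.map f) + φ (l.map g) := by
  induction l with
  | nil =>
    intro φ
    simp only [pr, cb, List.map_nil]
    linear_combination (-φ []) * two
  | cons x l ih =>
    intro φ
    have h1 := ih fun m => φ (f x :: m)
    have h2 := cb_map g l fun m => φ (f x :: g x :: m)
    simp only [pr, cb, List.map_cons]
    rw [pr_add, cb_add, h2]
    linear_combination h1 + (φ (f x :: l.map g) + pr f g l φ +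
      cb (l.map g) fun m => φ (f x :: g x :: m)) * two

/-- A chain, seen as an additive functional on cochains, that lives on the lists with `S`. -/
structure Ch (S : List X → Prop) (c : (List X → ZMod 2) → ZMod 2) : Prop where
  add : ∀ φ ψ, c (fun l => φ l + ψ l) = c φ + c ψ
  supp : ∀ φ, (∀ l, S l → φ l = 0) → c φ = 0

theorem Ch.congr {S : List X → Prop} {c : (List X → ZMod 2) → ZMod 2} (h : Ch S c)
    {φ ψ : List X → ZMod 2} (he : ∀ l, S l → φ l = ψ l) : c φ = c ψ := by
  have h1 := h.supp (fun l => φ l + ψ l) fun l hl => by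
    rw [he l hl]
    linear_combination ψ l * two
  rw [h.add] at h1
  linear_combination h1 - c ψ * two

/-- The symmetrised cochain. -/
def th (ν : X → X) (φ : List X → ZMod 2) (l : List X) : ZMod 2 := φ l + φ (l.map ν)

theorem step (ν : X → X) (hν : ∀ x, ν (ν x) = x) (S S' : List X → Prop)
    (hS : ∀ l, S l → S (l.map ν)) (H : ℕ → X → X) (M : ℕ) (h0 : ∀ x, H 0 x = x)
    (hM : ∀ x y, H M x = H M y)
    (hH : ∀ j < M, ∀ l m : List X, S l → m.length = l.length + 1 →
      (∀ y ∈ m, ∃ x ∈ l, y = H j x ∨ y = H (j + 1) x) → S' m)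
    (c : (List X → ZMod 2) → ZMod 2) (hc : Ch S c)
    (hz : ∀ φ, c (th ν fun l => cb l φ) = 0) :
    ∃ c', Ch S' c' ∧ (∀ φ, c' (fun l => cb l φ) = c (th ν φ)) ∧
      ∀ φ, c' (th ν fun l => cb l φ) = 0 := by
  have zadd (φ ψ : List X → ZMod 2) :
      c (th ν fun l => φ l + ψ l) = c (th ν φ) + c (th ν ψ) := by
    rw [← hc.add]
    congr 1
    funext l
    unfold th
    ring
  have hd (φ : List X → ZMod 2) :
      ∑ j ∈ range M, c (th ν fun l => pr (H j) (H (j + 1)) l fun m => cb m φ) = c (th ν φ) := by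
    have h1 (j : ℕ) : c (th ν fun l => pr (H j) (H (j + 1)) l fun m => cb m φ) =
        c (th ν fun l => φ (l.map (H j))) - c (th ν fun l => φ (l.map (H (j + 1)))) := by
      have h2 := zadd (fun l => pr (H j) (H (j + 1)) l fun m => cb m φ)
        fun l => cb l fun m => pr (H j) (H (j + 1)) m φ
      simp only [prism] at h2
      rw [zadd, hz] at h2
      linear_combination -h2 + c (th ν fun l => φ (l.map (H (j + 1)))) * two
    simp only [h1]
    rw [sum_range_sub' fun j => c (th ν fun l => φ (l.map (H j)))]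
    have h3 : (fun l : List X => φ (l.map (H 0))) = φ := by
      funext l
      rw [show H 0 = id from funext h0, List.map_id]
    have h4 : c (th ν fun l => φ (l.map (H M))) = 0 := by
      refine hc.supp _ fun l _ => ?_
      unfold th
      beta_reduce
      rw [List.map_map, show H M ∘ ν = H M from funext fun x => hM _ _]
      linear_combination φ (l.map (H M)) * two
    rw [h3, h4, sub_zero]
  refine ⟨fun φ => ∑ j ∈ range M, c (th ν fun l => pr (H j) (H (j + 1)) l φ), ⟨?_, ?_⟩, hd, ?_⟩
  · intro φ ψ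
    simp only [pr_add, zadd, sum_add_distrib]
  · intro φ hφ
    refine sum_eq_zero fun j hj => hc.supp _ fun l hl => ?_
    unfold th
    beta_reduce
    rw [pr_zero _ _ l φ fun m h1 h2 => hφ m (hH j (mem_range.1 hj) l m hl h1 h2),
      pr_zero _ _ _ φ fun m h1 h2 => hφ m (hH j (mem_range.1 hj) _ m (hS l hl) h1 h2), add_zero]
  · intro φ
    have h1 : (th ν fun l => cb l φ) = fun l => cb l (th ν φ) := by
      funext l
      unfold th
      rw [cb_add, cb_map]
    rw [h1]
    refine (hd _).trans (hc.supp _ fun l _ => ?_)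
    unfold th
    rw [List.map_map, show ν ∘ ν = id from funext hν, List.map_id]
    linear_combination (φ l + φ (l.map ν)) * two

end Cochains

/-! ### The parity count -/

/-- The parities of the list alternate, starting with `b`. -/
def alt : ℕ → List ℕ → ZMod 2
  | _, [] => 1
  | b, x :: l => if x % 2 = b % 2 then alt (b + 1) l else 0

theorem alt_two (l : List ℕ) : ∀ b, alt (b + 1 + 1) l = alt b l := by
  induction l with
  | nil => intro b; rfl
  | cons x l ih =>
    intro b
    simp only [alt]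
    rw [ih (b + 1), show (b + 1 + 1) % 2 = b % 2 by omega]

theorem cb_alt (l : List ℕ) : ∀ b, cb l (alt b) = alt b l + alt (b + 1) l := by
  induction l with
  | nil => intro b; simp only [cb, alt]; decide
  | cons x l ih =>
    intro b
    by_cases h : x % 2 = b % 2
    · have h' : ¬ x % 2 = (b + 1) % 2 := by omega
      simp only [cb, alt, h', if_false]
      simp only [h, if_true]
      rw [show (fun m => alt (b + 1) m) = alt (b + 1) from rfl, ih, alt_two]
      linear_combination alt b l * two
    · have h' : x % 2 = (b + 1) % 2 := by omega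
      simp only [cb, alt, h, if_false]
      simp only [h', if_true]
      have h0 : cb l (fun _ => (0 : ZMod 2)) = 0 := by
        have h1 := cb_add l (fun _ => 0) fun _ => 0
        simp only [add_zero] at h1
        linear_combination -h1
      rw [h0, alt_two]
      ring

/-- The opposite label. -/
def opp (a : ℕ) : ℕ := if a % 2 = 0 then a + 1 else a - 1

theorem alt_opp (l : List ℕ) : ∀ b, alt b (l.map opp) = alt (b + 1) l := by
  induction l with
  | nil => intro b; rfl
  | cons x l ih =>
    intro b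
    simp only [alt, List.map_cons, ih]
    have : opp x % 2 = b % 2 ↔ x % 2 = (b + 1) % 2 := by
      unfold opp
      split_ifs <;> omega
    simp only [this]

theorem alt_lt (l : List ℕ) : ∀ b, l.Pairwise (· ≤ ·) → alt b l ≠ 0 → l.Pairwise (· < ·) := by
  induction l with
  | nil => intro _ _ _; exact List.Pairwise.nil
  | cons x l ih =>
    intro b hl h
    simp only [alt] at h
    split_ifs at h with hx
    · rw [List.pairwise_cons] at hl ⊢
      refine ⟨?_, ih _ hl.2 h⟩
      rcases l with _ | ⟨y, l⟩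
      · simp
      · simp only [alt] at h
        split_ifs at h with hy
        · intro a ha
          have h1 := hl.1 y List.mem_cons_self
          rcases List.mem_cons.1 ha with rfl | ha
          · omega
          · have h2 := (List.pairwise_cons.1 hl.2).1 a ha
            omega
        · exact absurd rfl h
    · exact absurd rfl h

/-- No two opposite labels. -/
def Good (l : List ℕ) : Prop := ∀ a ∈ l, ∀ b ∈ l, a / 2 = b / 2 → a = b

/-- The sorted list alternates. -/
def E (b : ℕ) (l : List ℕ) : ZMod 2 := alt b (l.insertionSort (· ≤ ·))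

theorem E_perm (b : ℕ) (l l' : List ℕ) (h : l.Perm l') : E b l = E b l' := by
  unfold E
  congr 1
  exact ((List.perm_insertionSort _ l).trans
    (h.trans (List.perm_insertionSort _ l').symm)).eq_of_pairwise'
    (List.pairwise_insertionSort _ l) (List.pairwise_insertionSort _ l')

theorem cb_E (b : ℕ) (l : List ℕ) : cb l (E b) = E b l + E (b + 1) l := by
  rw [cb_perm (List.perm_insertionSort (· ≤ ·) l).symm _ (E_perm b),
    cb_congr _ (E b) (alt b), cb_alt]
  · rfl
  · intro m hm
    unfold E
    rw [((List.pairwise_insertionSort (· ≤ ·) l).sublist hm).insertionSort_eq]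

theorem E_opp (b : ℕ) {l : List ℕ} (h : Good l) : E b (l.map opp) = E (b + 1) l := by
  unfold E
  rw [← alt_opp, List.map_insertionSort (· ≤ ·) (· ≤ ·) opp l]
  intro x hx y hy
  have h1 := h x hx y hy
  unfold opp
  split_ifs <;> omega

theorem E_top (b N : ℕ) {l : List ℕ} (h : Good l) (hN : ∀ a ∈ l, a / 2 < N)
    (hl : l.length = N + 1) : E b l = 0 := by
  by_contra h0
  have h1 := alt_lt _ b (List.pairwise_insertionSort (· ≤ ·) l) h0
  have h2 : l.Nodup := (List.perm_insertionSort (· ≤ ·) l).nodup_iff.1 (h1.imp ne_of_lt)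
  have h3 : (l.map (· / 2)).Nodup := h2.map_on h
  have h4 := h3.length_le_of_subset (l₂ := List.range N) fun a ha => by
    obtain ⟨c, hc, rfl⟩ := List.mem_map.1 ha
    exact List.mem_range.2 (hN c hc)
  rw [List.length_map, List.length_range] at h4
  omega

/-! ### Small lists on the cross-polytope -/

variable {N : ℕ}

/-- A vertex. -/
def ve (N k : ℕ) : Fin (N + 1) → ℝ := fun i => if i.val = k then 1 else 0

/-- The points at level `k`. -/
def Pt (k : ℕ) (v : Fin (N + 1) → ℝ) : Prop := (∀ i, k < i.val → v i = 0) ∧ ∑ i, |v i| = 1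

/-- The small lists at level `k`. -/
def Ok (ε : ℝ) (k : ℕ) (l : List (Fin (N + 1) → ℝ)) : Prop :=
  l.length = k + 1 ∧ (∀ x ∈ l, Pt k x) ∧ ∀ x ∈ l, ∀ y ∈ l, ‖x - y‖ ≤ k * ε

theorem sum_ve {k : ℕ} (hk : k ≤ N) : ∑ i, ve N k i = 1 := by
  rw [sum_eq_single (⟨k, by omega⟩ : Fin (N + 1))]
  · simp [ve]
  · intro i _ hi
    have : i.val ≠ k := fun h => hi (Fin.ext h)
    simp [ve, this]
  · simp

theorem norm_le {v : Fin (N + 1) → ℝ} (h : ∑ i, |v i| = 1) : ‖v‖ ≤ 1 := by
  refine (pi_norm_le_iff_of_nonneg zero_le_one).2 fun i => ?_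
  rw [← h]
  exact single_le_sum (f := fun i => |v i|) (fun i _ => abs_nonneg _) (mem_univ i)

theorem norm_ve (k : ℕ) : ‖ve N k‖ ≤ 1 := by
  refine (pi_norm_le_iff_of_nonneg zero_le_one).2 fun i => ?_
  unfold ve
  split_ifs <;> simp

theorem pt_mix {k : ℕ} (hk : k + 1 ≤ N) {v : Fin (N + 1) → ℝ} (hv : Pt k v) {t : ℝ}
    (h0 : 0 ≤ t) (h1 : t ≤ 1) : Pt (k + 1) ((1 - t) • v + t • ve N (k + 1)) := by
  constructor
  · intro i hi
    have : i.val ≠ k + 1 := by omega
    simp [ve, this, hv.1 i (by omega)]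
  · have h2 (i : Fin (N + 1)) :
        |((1 - t) • v + t • ve N (k + 1)) i| = (1 - t) * |v i| + t * ve N (k + 1) i := by
      by_cases hi : i.val = k + 1
      · simp [ve, hi, hv.1 i (by omega), abs_of_nonneg h0]
      · simp [ve, hi, abs_mul, abs_of_nonneg (sub_nonneg.2 h1)]
    simp only [h2]
    rw [sum_add_distrib, ← mul_sum, ← mul_sum, hv.2, sum_ve hk]
    ring

theorem dist_mix {x y e : Fin (N + 1) → ℝ} (hy : ‖y‖ ≤ 1) (he : ‖e‖ ≤ 1) {s t : ℝ}
    (h0 : 0 ≤ s) (h1 : s ≤ 1) :
    ‖(1 - s) • x + s • e - ((1 - t) • y + t • e)‖ ≤ ‖x - y‖ + |t - s| * 2 := by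
  have h2 : (1 - s) • x + s • e - ((1 - t) • y + t • e) =
      (1 - s) • (x - y) + (t - s) • (y - e) := by module
  rw [h2]
  refine (norm_add_le _ _).trans (add_le_add ?_ ?_)
  · rw [norm_smul, Real.norm_eq_abs, abs_of_nonneg (sub_nonneg.2 h1)]
    nlinarith [norm_nonneg (x - y)]
  · rw [norm_smul, Real.norm_eq_abs]
    exact mul_le_mul_of_nonneg_left ((norm_sub_le _ _).trans (by linarith)) (abs_nonneg _)

theorem chains (M : ℕ) (hM : 0 < M) (F : List (Fin (N + 1) → ℝ) → ZMod 2)
    (hF : ∀ k ≤ N, ∀ l, Ok (2 / M) k l → th Neg.neg F l = cb l F) (k : ℕ) (hk : k ≤ N) :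
    ∃ c, Ch (Ok (N := N) (2 / M) k) c ∧ (∀ φ, c (th Neg.neg fun l => cb l φ) = 0) ∧
      c (th Neg.neg F) = cb [ve N 0] F := by
  have hM' : (0 : ℝ) < M := by exact_mod_cast hM
  induction k with
  | zero =>
    have h0 : Ok (N := N) (2 / M) 0 [ve N 0] := by
      refine ⟨rfl, fun x hx => ?_, fun x hx y hy => ?_⟩
      · rw [List.mem_singleton.1 hx]
        refine ⟨fun i hi => if_neg (by omega), ?_⟩
        rw [← sum_ve (N := N) (Nat.zero_le N)]
        refine sum_congr rfl fun i _ => abs_of_nonneg ?_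
        unfold ve
        split_ifs <;> simp
      · rw [List.mem_singleton.1 hx, List.mem_singleton.1 hy]
        simp
    refine ⟨fun φ => φ [ve N 0], ⟨fun _ _ => rfl, fun φ h => h _ h0⟩, fun φ => ?_, hF 0 hk _ h0⟩
    simp only [th, cb, List.map_cons, List.map_nil]
    linear_combination φ [] * two
  | succ k ih =>
    obtain ⟨c, hc, hz, hv⟩ := ih (by omega)
    obtain ⟨c', h1, h2, h3⟩ := step Neg.neg neg_neg (Ok (N := N) (2 / M) k) (Ok (2 / M) (k + 1))
      (by
        rintro l ⟨h1, h2, h3⟩
        refine ⟨by simpa using h1, fun x hx => ?_, fun x hx y hy => ?_⟩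
        · obtain ⟨x, hx', rfl⟩ := List.mem_map.1 hx
          exact ⟨fun i hi => by simp [(h2 x hx').1 i hi], by simpa using (h2 x hx').2⟩
        · obtain ⟨x, hx', rfl⟩ := List.mem_map.1 hx
          obtain ⟨y, hy', rfl⟩ := List.mem_map.1 hy
          rw [neg_sub_neg]
          exact h3 y hy' x hx')
      (fun j v => (1 - (j : ℝ) / M) • v + ((j : ℝ) / M) • ve N (k + 1)) M
      (fun x => by simp) (fun x y => by simp [div_self hM'.ne'])
      (by
        rintro j hj l m ⟨h1, h2, h3⟩ hm hm'
        have hj' : (j : ℝ) + 1 ≤ M := by exact_mod_cast hj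
        have hj0 : (0 : ℝ) ≤ j := Nat.cast_nonneg j
        have key (y : Fin (N + 1) → ℝ) (hy : y ∈ m) : ∃ x ∈ l, ∃ t : ℝ, 0 ≤ t ∧ t ≤ 1 ∧
            j / M ≤ t ∧ t ≤ j / M + 1 / M ∧ y = (1 - t) • x + t • ve N (k + 1) := by
          have hp : (0 : ℝ) < 1 / M := by positivity
          obtain ⟨x, hx, h | h⟩ := hm' y hy
          · exact ⟨x, hx, j / M, by positivity, (div_le_one hM').2 (by linarith), le_rfl,
              by linarith, h⟩
          · refine ⟨x, hx, ((j + 1 : ℕ) : ℝ) / M, by positivity,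
              (div_le_one hM').2 (by push_cast; linarith), ?_, ?_, h⟩
            · push_cast
              rw [add_div]
              linarith
            · push_cast
              rw [add_div]
        refine ⟨by omega, fun y hy => ?_, fun y hy y' hy' => ?_⟩
        · obtain ⟨x, hx, t, t0, t1, -, -, rfl⟩ := key y hy
          exact pt_mix hk (h2 x hx) t0 t1
        · obtain ⟨x, hx, t, t0, t1, t2, t3, rfl⟩ := key y hy
          obtain ⟨x', hx', s, -, -, s2, s3, rfl⟩ := key y' hy'
          refine (dist_mix (norm_le (h2 x' hx').2) (norm_ve _) t0 t1).trans ?_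
          have h4 : |s - t| ≤ 1 / M := abs_le.2 ⟨by linarith, by linarith⟩
          have h5 := h3 x hx x' hx'
          have h6 : (2 : ℝ) / M = 1 / M * 2 := by ring
          push_cast
          rw [add_mul, one_mul]
          linarith)
      c hc hz
    exact ⟨c', h1, h3, by rw [h1.congr (hF _ hk), h2, hv]⟩

end BU

open BU in
theorem bu : StmtBU := by
  intro N g hg hodd
  by_contra hcon
  have hne (v : Fin (N + 1) → ℝ) (hv : ∑ i, |v i| = 1) : g v ≠ 0 := by
    intro h
    refine hcon ⟨v, ?_, h⟩
    rintro rfl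
    simp at hv
  rcases N with _ | N
  · exact hne (ve 0 0) (by simp [ve]) (Subsingleton.elim _ _)
  have hK : IsCompact {v : Fin (N + 1 + 1) → ℝ | ∑ i, |v i| = 1} :=
    (isCompact_closedBall 0 1).of_isClosed_subset (isClosed_eq (by fun_prop) continuous_const)
      fun v hv => mem_closedBall_zero_iff.2 (norm_le hv)
  obtain ⟨η, hη, hη'⟩ := hK.exists_forall_le' (f := fun v => ‖g v‖) (a := 0)
    hg.norm.continuousOn fun v hv => norm_pos_iff.2 (hne v hv)
  obtain ⟨δ, hδ, hδ'⟩ := Metric.uniformContinuousOn_iff.1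
    (hK.uniformContinuousOn_of_continuous hg.continuousOn) η hη
  obtain ⟨M, hM⟩ := exists_nat_gt (((N + 1 : ℕ) : ℝ) * 2 / δ)
  have hM' : (0 : ℝ) < M := lt_trans (by positivity) hM
  have hMδ : ((N + 1 : ℕ) : ℝ) * (2 / M) < δ := by
    rw [div_lt_iff₀ hδ] at hM
    rw [← mul_div_assoc, div_lt_iff₀ hM']
    linarith
  choose idx hidx using fun w : Fin (N + 1) → ℝ => Finite.exists_max w
  let ix : (Fin (N + 1 + 1) → ℝ) → Fin (N + 1) := fun v => idx fun j => |g v j|
  have hix (v : Fin (N + 1 + 1) → ℝ) (hv : ∑ i, |v i| = 1) : η ≤ |g v (ix v)| :=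
    (hη' v hv).trans ((pi_norm_le_iff_of_nonneg (abs_nonneg _)).2 fun i =>
      hidx (fun j => |g v j|) i)
  have hix' (v : Fin (N + 1 + 1) → ℝ) : ix (-v) = ix v := by
    simp only [ix, hodd, Pi.neg_apply, abs_neg]
  let lab : (Fin (N + 1 + 1) → ℝ) → ℕ := fun v => 2 * (ix v).val + if 0 < g v (ix v) then 1 else 0
  have hl2 (v : Fin (N + 1 + 1) → ℝ) : lab v / 2 = (ix v).val := by
    simp only [lab]
    split_ifs <;> omega
  have hneg (v : Fin (N + 1 + 1) → ℝ) (hv : ∑ i, |v i| = 1) : lab (-v) = opp (lab v) := by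
    have h1 : g v (ix v) ≠ 0 := abs_pos.1 (hη.trans_le (hix v hv))
    simp only [lab, hix', hodd, Pi.neg_apply, opp]
    rcases lt_or_gt_of_ne h1 with h | h
    · rw [if_pos (neg_pos.2 h), if_neg h.not_gt, if_pos (by omega)]
    · rw [if_neg (neg_neg_of_pos h).not_gt, if_pos h, if_neg (by omega)]
      omega
  have hgood (k : ℕ) (hk : k ≤ N + 1) (l : List (Fin (N + 1 + 1) → ℝ)) (hl : Ok (2 / M) k l) :
      Good (l.map lab) := by
    intro a ha b hb hab
    obtain ⟨x, hx, rfl⟩ := List.mem_map.1 ha
    obtain ⟨y, hy, rfl⟩ := List.mem_map.1 hb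
    rw [hl2, hl2] at hab
    have h1 : ix x = ix y := Fin.ext hab
    have hx1 := (hl.2.1 x hx).2
    have hy1 := (hl.2.1 y hy).2
    have hk' : (k : ℝ) ≤ ((N + 1 : ℕ) : ℝ) := by exact_mod_cast hk
    have h2 : dist x y < δ := by
      rw [dist_eq_norm]
      exact ((hl.2.2 x hx y hy).trans
        (mul_le_mul_of_nonneg_right hk' (by positivity))).trans_lt hMδ
    have h3 := (dist_le_pi_dist (g x) (g y) (ix y)).trans_lt (hδ' x hx1 y hy1 h2)
    have h4 := hix x hx1
    have h5 := hix y hy1
    rw [Real.dist_eq, abs_lt] at h3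
    simp only [lab]
    rw [h1] at h4 ⊢
    have h6 : 0 < g x (ix y) ↔ 0 < g y (ix y) := by
      rcases le_abs.1 h4 with h4 | h4 <;> rcases le_abs.1 h5 with h5 | h5 <;>
        constructor <;> intro h <;> linarith [h3.1, h3.2]
    simp only [h6]
  have hth (k : ℕ) (hk : k ≤ N + 1) (l : List (Fin (N + 1 + 1) → ℝ)) (hl : Ok (2 / M) k l) :
      th Neg.neg (fun l => E 0 (l.map lab)) l = E 0 (l.map lab) + E 1 (l.map lab) := by
    unfold th
    beta_reduce
    rw [← E_opp 0 (hgood k hk l hl), List.map_map, List.map_map]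
    congr 2
    exact List.map_congr_left fun x hx => hneg x (hl.2.1 x hx).2
  obtain ⟨c, hc, -, hv⟩ := chains (N := N + 1) M (by exact_mod_cast hM')
    (fun l => E 0 (l.map lab)) (fun k hk l hl => by rw [hth k hk l hl, cb_map, cb_E]) (N + 1) le_rfl
  rw [hc.supp] at hv
  · simp [cb, E, alt] at hv
  · intro l hl
    have h1 (b : ℕ) : E b (l.map lab) = 0 := by
      refine E_top b (N + 1) (hgood _ le_rfl l hl) (fun a ha => ?_) (by simpa using hl.1)
      obtain ⟨x, -, rfl⟩ := List.mem_map.1 ha
      rw [hl2]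
      exact (ix x).isLt
    rw [hth _ le_rfl l hl, h1, h1, add_zero]

end Pool.Agent.MP_36f34d_co.H52
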