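import Pool.Agent.MP_36f34d_co.H52.Spec

/-! Lines and circles are algebraic curves; tangents on the zero set of a polynomial. -/

namespace Pool.Agent.MP_36f34d_co.H52

open Finset Matrix MvPolynomial

namespace AlgA

variable {d : ℕ}

theorem few_of_rat (γ : ℝ → Fin d → ℝ) (q : Fin d → Polynomial ℝ) (w : Polynomial ℝ)
    (hq : ∀ i, (q i).natDegree ≤ 2) (hw : w.natDegree ≤ 2) (h0 : ∀ t, w.eval t ≠ 0)
    (h : ∀ t i, γ t i * w.eval t = (q i).eval t) (f : MvPolynomial (Fin d) ℝ) :
    (∀ t, eval (γ t) f = 0) ∨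
      ∃ Z : Finset ℝ, #Z ≤ 2 * f.totalDegree ∧ ∀ t, eval (γ t) f = 0 → t ∈ Z := by
  have hm : ∀ m ∈ f.support, ∑ i, m i ≤ f.totalDegree := fun m hm => by
    have := le_totalDegree hm
    rwa [Finsupp.sum_fintype _ _ fun _ => rfl] at this
  obtain ⟨G, hG⟩ : ∃ G : Polynomial ℝ, G = ∑ m ∈ f.support,
    Polynomial.C (coeff m f) * ((∏ i, q i ^ m i) * w ^ (f.totalDegree - ∑ i, m i)) := ⟨_, rfl⟩
  have h1 : G.natDegree ≤ 2 * f.totalDegree := by
    rw [hG]
    refine Polynomial.natDegree_sum_le_of_forall_le _ _ fun m hs => ?_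
    refine (Polynomial.natDegree_C_mul_le _ _).trans (Polynomial.natDegree_mul_le.trans ?_)
    have a1 : (∏ i, q i ^ m i).natDegree ≤ (∑ i, m i) * 2 := by
      rw [sum_mul]
      exact (Polynomial.natDegree_prod_le _ _).trans
        (sum_le_sum fun i _ => Polynomial.natDegree_pow_le_of_le _ (hq i))
    have a2 := Polynomial.natDegree_pow_le_of_le (f.totalDegree - ∑ i, m i) hw
    have a3 := hm m hs
    omega
  have h2 : ∀ t, G.eval t = eval (γ t) f * w.eval t ^ f.totalDegree := fun t => by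
    rw [hG, eval_eq', Polynomial.eval_finsetSum, sum_mul]
    refine sum_congr rfl fun m hs => ?_
    rw [Polynomial.eval_mul, Polynomial.eval_C, Polynomial.eval_mul, Polynomial.eval_prod,
      Polynomial.eval_pow, mul_assoc]
    congr 1
    simp only [Polynomial.eval_pow, ← h, mul_pow]
    rw [prod_mul_distrib, prod_pow_eq_pow_sum, mul_assoc, ← pow_add,
      Nat.add_sub_cancel' (hm m hs)]
  by_cases hG0 : G = 0
  · refine .inl fun t => ?_
    have := h2 t
    rw [hG0, Polynomial.eval_zero] at this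
    exact (mul_eq_zero.1 this.symm).resolve_right (pow_ne_zero _ (h0 t))
  · refine .inr ⟨G.roots.toFinset, (Multiset.toFinset_card_le _).trans
      ((Polynomial.card_roots' G).trans h1), fun t ht => ?_⟩
    rw [Multiset.mem_toFinset, Polynomial.mem_roots hG0, Polynomial.IsRoot, h2, ht, zero_mul]

theorem chain {γ : ℝ → Fin d → ℝ} (hγ : Differentiable ℝ γ) (t : ℝ) (f : MvPolynomial (Fin d) ℝ) :
    HasDerivAt (fun t => eval (γ t) f) (deriv γ t ⬝ᵥ fun i => eval (γ t) (pderiv i f)) t := by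
  induction f using MvPolynomial.induction_on with
  | C a => simpa using hasDerivAt_const t a
  | add p q hp hq =>
    simp only [map_add]
    exact (hp.add hq).congr_deriv (dotProduct_add _ _ _).symm
  | mul_X p j hp =>
    have h1 : HasDerivAt (fun t => γ t j) (deriv γ t j) t :=
      hasDerivAt_pi.1 (hγ t).hasDerivAt j
    simp only [map_mul, eval_X]
    refine (hp.mul h1).congr_deriv (Eq.symm ?_)
    simp only [pderiv_mul, map_add, map_mul, eval_X, dotProduct, mul_add, sum_add_distrib,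
      sum_mul, mul_assoc]
    congr 1
    rw [sum_eq_single j]
    · simp [mul_comm]
    · intro i _ hi
      simp [pderiv_X_of_ne hi.symm]
    · simp

theorem exists_pderiv {f : MvPolynomial (Fin d) ℝ} (h : f.totalDegree ≠ 0) :
    ∃ i, pderiv i f ≠ 0 ∧ (pderiv i f).totalDegree < f.totalDegree := by
  obtain ⟨m, hm, i, hi⟩ : ∃ m ∈ f.support, ∃ i, m i ≠ 0 := by
    by_contra hc
    push Not at hc
    exact h ((totalDegree_eq_zero_iff _ _).2 hc)
  refine ⟨i, fun h0 => ?_, ?_⟩
  · have h1 := coeff_pderiv (i := i) f (m - Finsupp.single i 1)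
    rw [h0, coeff_zero, tsub_add_cancel_of_le
      (Finsupp.single_le_iff.2 (Nat.one_le_iff_ne_zero.2 hi))] at h1
    exact mul_ne_zero (mem_support_iff.1 hm) (by positivity) h1.symm
  · refine (Finset.sup_lt_iff (Nat.pos_of_ne_zero h)).2 fun s hs => ?_
    have h1 := mem_support_iff.1 hs
    rw [coeff_pderiv] at h1
    have h2 := le_totalDegree (mem_support_iff.2 (left_ne_zero_of_mul h1))
    rw [Finsupp.sum_add_index' (fun _ => rfl) fun _ _ _ => rfl, Finsupp.sum_single_index rfl] at h2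
    exact h2

end AlgA

open AlgA

theorem alg : StmtALG := by
  refine fun d => ⟨fun p u => ⟨by fun_prop, few_of_rat _
    (fun i => Polynomial.C (p i) + Polynomial.C (u i) * Polynomial.X) 1 (fun i => ?_) (by simp)
    (by simp) fun t i => by simp [mul_comm t]⟩, fun o u v => ⟨?_, few_of_rat _
    (fun i => Polynomial.C (o i) * (1 + Polynomial.X ^ 2) +
      Polynomial.C (u i) * (1 - Polynomial.X ^ 2) + Polynomial.C (v i) * (2 * Polynomial.X))
    (1 + Polynomial.X ^ 2) (fun i => ?_) ?_ (fun t => ?_) fun t i => ?_⟩⟩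
  · compute_degree!
  · have h : ∀ t : ℝ, 1 + t ^ 2 ≠ 0 := fun t => by positivity
    unfold circ
    fun_prop (disch := exact h _)
  · compute_degree!
  · compute_degree!
  · simp only [Polynomial.eval_add, Polynomial.eval_one, Polynomial.eval_pow, Polynomial.eval_X]
    positivity
  · have h : 1 + t ^ 2 ≠ 0 := by positivity
    simp [circ]
    field_simp

theorem bad : StmtBAD := by
  classical
  intro d hd f
  induction hn : f.totalDegree using Nat.strong_induction_on generalizing f with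
  | _ n ih =>
    intro hf
    subst hn
    by_cases h0 : f.totalDegree = 0
    · refine ⟨fun _ => ∅, fun _ _ => 1, fun _ h => one_ne_zero (congrFun h ⟨0, hd⟩),
        fun γ _ => ⟨by simp, fun t ht _ => (hf ?_).elim⟩⟩
      rw [totalDegree_eq_zero_iff_eq_C] at h0
      rw [h0, eval_C] at ht
      rw [h0, ht, C_0]
    obtain ⟨i, h1, h2⟩ := exists_pderiv h0
    obtain ⟨bad', ν', h3, h4⟩ := ih _ h2 (pderiv i f) rfl h1
    have h5 : ∀ γ : ℝ → Fin d → ℝ, ∃ Z : Finset ℝ, Alg γ → #Z ≤ 2 * f.totalDegree ∧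
        ((∀ t, eval (γ t) f = 0 → t ∈ Z) ∨ ((∀ t, eval (γ t) f = 0) ∧ Z = bad' γ)) := fun γ => by
      by_cases hγ : Alg γ
      · rcases hγ.few f with h | ⟨Z, h, h'⟩
        · exact ⟨bad' γ, fun _ => ⟨(h4 γ hγ).1.trans (by omega), .inr ⟨h, rfl⟩⟩⟩
        · exact ⟨Z, fun _ => ⟨h, .inl h'⟩⟩
      · exact ⟨∅, fun h => absurd h hγ⟩
    choose Z hZ using h5
    refine ⟨Z, fun x => if (fun j => eval x (pderiv j f)) = 0 then ν' x
      else fun j => eval x (pderiv j f), fun x => ?_, fun γ hγ => ⟨(hZ γ hγ).1, fun t ht hb => ?_⟩⟩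
    · beta_reduce
      split_ifs with h
      exacts [h3 x, h]
    · obtain ⟨h6, h7⟩ := (hZ γ hγ).2.resolve_left fun h => hb (h t ht)
      beta_reduce
      split_ifs with h
      · exact (h4 γ hγ).2 t (congrFun h i) (h7 ▸ hb)
      · have h8 := chain hγ.diff t f
        rw [funext h6] at h8
        exact h8.unique (hasDerivAt_const t 0)

end Pool.Agent.MP_36f34d_co.H52
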