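import Pool.Agent.MP_36f34d_co.H52.Spec

/-!
A theorem of Beck type from the bound for rich lines.
-/

namespace Pool.Agent.MP_36f34d_co.H52

open Finset Matrix

namespace BeckAux

lemma left_mem {A : Finset V3} {x : V3} (hx : x ∈ A) (y : V3) : x ∈ ln A x y :=
  mem_filter.2 ⟨hx, by simp⟩

lemma right_mem {A : Finset V3} {y : V3} (hy : y ∈ A) (x : V3) : y ∈ ln A x y :=
  mem_filter.2 ⟨hy, cross_self _⟩

/-- Pairs on poor lines. -/
lemma small (hrep : StmtREP) (A : Finset V3) (k s : ℕ) (hd : ∀ x ∈ A, #(dirs A x) ≤ k) :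
    #{p ∈ A.offDiag | #(ln A p.1 p.2) < s} ≤ s * k * #A := by
  refine (card_le_mul_card_image_of_maps_to (f := Prod.fst) (t := A)
    (fun p hp => (mem_offDiag.1 (mem_filter.1 hp).1).1) (s * k) (fun x hx => ?_))
  have h1 : #{p ∈ {p ∈ A.offDiag | #(ln A p.1 p.2) < s} | p.1 = x} ≤
      #{y ∈ A.erase x | #(ln A x y) < s} := by
    refine card_le_card_of_injOn Prod.snd (fun p hp => ?_) (fun p hp p' hp' h => ?_)
    · simp only [coe_filter, mem_filter, mem_offDiag, Set.mem_ofPred_eq, mem_erase] at hp ⊢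
      obtain ⟨⟨⟨_, h2, h3⟩, h4⟩, rfl⟩ := hp
      exact ⟨⟨h3.symm, h2⟩, h4⟩
    · simp only [coe_filter, Set.mem_ofPred_eq] at hp hp'
      exact Prod.ext (hp.2.trans hp'.2.symm) h
  refine h1.trans ((card_le_mul_card_image (f := fun y => rep (y - x)) _ s (fun b hb => ?_)).trans
    (Nat.mul_le_mul_left _ ((card_le_card (image_subset_image (filter_subset _ _))).trans
      (hd x hx))))
  obtain ⟨y0, hy0, rfl⟩ := mem_image.1 hb
  obtain ⟨h2, h3⟩ := mem_filter.1 hy0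
  refine (card_le_card (fun y hy => ?_)).trans h3.le
  obtain ⟨h4, h5⟩ := mem_filter.1 hy
  have h6 := mem_erase.1 (mem_filter.1 h4).1
  exact mem_filter.2 ⟨h6.2, (hrep.eq _ _ (sub_ne_zero.2 h6.1)
    (sub_ne_zero.2 (mem_erase.1 h2).1)).1 h5⟩

/-- Pairs on rich lines. -/
lemma big (A : Finset V3) (k s : ℕ) (hl : ∀ x ∈ A, ∀ y ∈ A, x ≠ y → #(ln A x y) ≤ k) :
    #{p ∈ A.offDiag | ¬ #(ln A p.1 p.2) < s} ≤
      s * ∑ l ∈ lines A with s ≤ #l, #l + ∑ j ∈ Ioc s k, ∑ l ∈ lines A with j ≤ #l, #l := by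
  rw [card_eq_sum_card_fiberwise (f := fun p : V3 × V3 => ln A p.1 p.2)
    (t := {l ∈ lines A | s ≤ #l}) (fun p hp => by
      have hp' := mem_filter.1 (mem_coe.1 hp)
      exact mem_coe.2 (mem_filter.2 ⟨mem_image_of_mem _ hp'.1, not_lt.1 hp'.2⟩))]
  have h1 : ∀ l ∈ {l ∈ lines A | s ≤ #l},
      #{p ∈ {p ∈ A.offDiag | ¬ #(ln A p.1 p.2) < s} | ln A p.1 p.2 = l} ≤
        s * #l + ∑ j ∈ Ioc s k, if j ≤ #l then #l else 0 := by
    intro l hl'
    obtain ⟨h2, h3⟩ := mem_filter.1 hl'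
    obtain ⟨p, hp, rfl⟩ := mem_image.1 h2
    obtain ⟨hp1, hp2, hp3⟩ := mem_offDiag.1 hp
    have h4 := hl _ hp1 _ hp2 hp3
    generalize ln A p.1 p.2 = l at h3 h4
    have h5 : #{p ∈ {p ∈ A.offDiag | ¬ #(ln A p.1 p.2) < s} | ln A p.1 p.2 = l} ≤ #l * #l := by
      rw [← card_product]
      refine card_le_card (fun q hq => ?_)
      obtain ⟨h6, rfl⟩ := mem_filter.1 hq
      obtain ⟨h7, h8, _⟩ := mem_offDiag.1 (mem_filter.1 h6).1
      exact mem_product.2 ⟨left_mem h7 _, right_mem h8 _⟩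
    refine h5.trans (le_of_eq ?_)
    have h6 : (Ioc s k).filter (fun j => j ≤ #l) = Ioc s #l := by
      ext j
      simp only [mem_filter, mem_Ioc]
      omega
    rw [← sum_filter, h6, sum_const, Nat.card_Ioc, smul_eq_mul, ← add_mul,
      Nat.add_sub_cancel' h3]
  refine (sum_le_sum h1).trans ?_
  rw [sum_add_distrib, ← mul_sum, sum_comm]
  refine Nat.add_le_add_left (sum_le_sum (fun j _ => ?_)) _
  rw [sum_filter (fun l : Finset V3 => j ≤ #l)]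
  exact sum_le_sum_of_subset (filter_subset _ _)

end BeckAux

open BeckAux

theorem beck (hrep : StmtREP) (hrl : StmtRL) : StmtBECK := by
  obtain ⟨C, hC⟩ := hrl
  obtain ⟨s, hs⟩ : ∃ s : ℕ, s = 4 * C + 2 := ⟨_, rfl⟩
  refine ⟨2 * (1 + s + C + C * s), fun A k hk hl hd => ?_⟩
  have hT : ∀ j : ℕ, 2 ≤ j → ((∑ l ∈ lines A with j ≤ #l, #l : ℕ) : ℝ) ≤
      C * (#A : ℝ) ^ 2 * ((j : ℝ) ^ 2)⁻¹ + C * #A := by
    intro j hj
    have h1 : ((j ^ 2 * ∑ l ∈ lines A with j ≤ #l, #l : ℕ) : ℝ) ≤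
        (C * (#A ^ 2 + j ^ 2 * #A) : ℕ) := by exact_mod_cast hC A j hj
    have h2 : (0 : ℝ) < (j : ℝ) ^ 2 := by positivity
    rw [Nat.cast_mul, Nat.cast_pow] at h1
    refine le_of_mul_le_mul_left (h1.trans (le_of_eq ?_)) h2
    push_cast
    field_simp
  have hs2 : 2 ≤ s := by omega
  have hs0 : (0 : ℝ) < s := by positivity
  have h1 := small hrep A k s hd
  have h2 := big A k s hl
  have h3 : #A * #A - #A = #{p ∈ A.offDiag | #(ln A p.1 p.2) < s} +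
      #{p ∈ A.offDiag | ¬ #(ln A p.1 p.2) < s} := by
    rw [card_filter_add_card_filter_not, offDiag_card]
  have h4 : #A * #A ≤ #A + s * k * #A + (s * ∑ l ∈ lines A with s ≤ #l, #l +
      ∑ j ∈ Ioc s k, ∑ l ∈ lines A with j ≤ #l, #l) := by omega
  have h5 : ∑ j ∈ Ioc s k, ((j : ℝ) ^ 2)⁻¹ ≤ (s : ℝ)⁻¹ := by
    rcases le_or_gt s k with h | h
    · refine (sum_Ioc_inv_sq_le_sub (by omega) h).trans ?_
      have : (0 : ℝ) ≤ (k : ℝ)⁻¹ := by positivity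
      linarith
    · rw [Ioc_eq_empty (by omega), sum_empty]
      positivity
  have h6 : ((∑ j ∈ Ioc s k, ∑ l ∈ lines A with j ≤ #l, #l : ℕ) : ℝ) ≤
      C * (#A : ℝ) ^ 2 * (s : ℝ)⁻¹ + k * (C * #A) := by
    rw [Nat.cast_sum]
    refine (sum_le_sum (fun j hj => hT j (by have := (mem_Ioc.1 hj).1; omega))).trans ?_
    rw [sum_add_distrib, ← mul_sum, sum_const, Nat.card_Ioc, nsmul_eq_mul]
    have : ((k - s : ℕ) : ℝ) ≤ k := by exact_mod_cast Nat.sub_le k s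
    gcongr
  have h7 : (s : ℝ) * ((∑ l ∈ lines A with s ≤ #l, #l : ℕ) : ℝ) ≤
      C * (#A : ℝ) ^ 2 * (s : ℝ)⁻¹ + s * (C * #A) := by
    refine (mul_le_mul_of_nonneg_left (hT s hs2) hs0.le).trans (le_of_eq ?_)
    field_simp
  have h8 : C * (#A : ℝ) ^ 2 * (s : ℝ)⁻¹ ≤ (#A : ℝ) ^ 2 / 4 := by
    rw [← div_eq_mul_inv, div_le_div_iff₀ hs0 (by norm_num), hs]
    push_cast
    nlinarith [sq_nonneg (#A : ℝ)]
  have h9 : (#A : ℝ) * #A ≤ #A + s * k * #A + ((s : ℝ) * ((∑ l ∈ lines A with s ≤ #l, #l : ℕ) : ℝ) +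
      ((∑ j ∈ Ioc s k, ∑ l ∈ lines A with j ≤ #l, #l : ℕ) : ℝ)) := by exact_mod_cast h4
  rcases Nat.eq_zero_or_pos #A with h0 | h0
  · omega
  have hm : (0 : ℝ) < #A := by exact_mod_cast h0
  have h10 : (#A : ℝ) ≤ 2 * (1 + s * k + s * C + k * C) := by
    refine le_of_mul_le_mul_right ?_ hm
    nlinarith
  have h11 : #A ≤ 2 * (1 + s * k + s * C + k * C) := by exact_mod_cast h10
  refine h11.trans ?_
  have := Nat.mul_le_mul_left (s * C) hk
  nlinarith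

end Pool.Agent.MP_36f34d_co.H52
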