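import Pool.Agent.MP_36f34d_co.H52.Spec

/-!
The circle of third vertices over a base.
-/

namespace Pool.Agent.MP_36f34d_co.H52

open Finset Matrix MvPolynomial

namespace CircAux

/-- An orthogonal frame adapted to the base vector `w`. -/
structure Frame (e L : ℝ) (w u v : V3) : Prop where
  ww : w ⬝ᵥ w = L ^ 2
  wu : w ⬝ᵥ u = 0
  wv : w ⬝ᵥ v = 0
  uv : u ⬝ᵥ v = 0
  uu : u ⬝ᵥ u = e * L ^ 2
  vv : v ⬝ᵥ v = e * L ^ 2
  cwu : crossProduct w u = L • v
  cwv : crossProduct w v = -(L • u)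
  cuv : crossProduct u v = (e * L) • w

theorem dot_pos {w : V3} (hw : w ≠ 0) : 0 < w ⬝ᵥ w := by
  have h : 0 ≤ w ⬝ᵥ w := by
    simp only [dotProduct, Fin.sum_univ_three]
    nlinarith [mul_self_nonneg (w 0), mul_self_nonneg (w 1), mul_self_nonneg (w 2)]
  rcases h.lt_or_eq with h | h
  · exact h
  · exact absurd (dotProduct_self_eq_zero.1 h.symm) hw

theorem exists_perp (w : V3) : ∃ u : V3, u ≠ 0 ∧ w ⬝ᵥ u = 0 := by
  by_cases h : w 0 = 0
  · refine ⟨![1, 0, 0], ?_, ?_⟩
    · intro h0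
      have := congrFun h0 0
      simp at this
    · simp [dotProduct, Fin.sum_univ_three, h]
  · refine ⟨![-w 1, w 0, 0], ?_, ?_⟩
    · intro h0
      have := congrFun h0 1
      simp at this
      exact h this
    · simp [dotProduct, Fin.sum_univ_three]
      ring

theorem exists_frame {e : ℝ} (he : 0 < e) {w : V3} (hw : w ≠ 0) :
    ∃ (L : ℝ) (u v : V3), 0 < L ∧ Frame e L w u v := by
  obtain ⟨p, hp, hwp⟩ := exists_perp w
  have hW := dot_pos hw
  have hP := dot_pos hp
  obtain ⟨L, hL, hLL⟩ : ∃ L : ℝ, 0 < L ∧ w ⬝ᵥ w = L ^ 2 :=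
    ⟨√(w ⬝ᵥ w), Real.sqrt_pos.2 hW, (Real.sq_sqrt hW.le).symm⟩
  obtain ⟨u, hwu, huu⟩ : ∃ u : V3, w ⬝ᵥ u = 0 ∧ u ⬝ᵥ u = e * L ^ 2 := by
    have hq : 0 ≤ e * L ^ 2 / (p ⬝ᵥ p) := by positivity
    refine ⟨√(e * L ^ 2 / (p ⬝ᵥ p)) • p, ?_, ?_⟩
    · rw [dotProduct_smul, hwp, smul_zero]
    · rw [dotProduct_smul, smul_dotProduct, smul_eq_mul, smul_eq_mul, ← mul_assoc,
        Real.mul_self_sqrt hq, div_mul_cancel₀ _ hP.ne']
  refine ⟨L, u, L⁻¹ • crossProduct w u, hL, hLL, hwu, ?_, ?_, huu, ?_, ?_, ?_, ?_⟩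
  · rw [dotProduct_smul, dot_self_cross, smul_zero]
  · rw [dotProduct_smul, dot_cross_self, smul_zero]
  · rw [dotProduct_smul, smul_dotProduct, cross_dot_cross, hLL, huu, hwu, smul_eq_mul,
      smul_eq_mul]
    field_simp
    ring
  · rw [smul_smul, mul_inv_cancel₀ hL.ne', one_smul]
  · rw [map_smul, cross_cross_eq_smul_sub_smul', hwu, hLL, zero_smul, zero_sub, smul_neg,
      smul_smul]
    congr 2
    field_simp
  · rw [map_smul, cross_cross_eq_smul_sub_smul', huu, hwu, zero_smul, sub_zero, smul_smul]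
    congr 1
    field_simp

variable {e L : ℝ} {w u v : V3}

theorem Frame.dw (F : Frame e L w u v) (x y z : ℝ) :
    (x • w + y • u + z • v) ⬝ᵥ w = x * L ^ 2 := by
  rw [dotProduct_comm]
  simp [dotProduct_add, dotProduct_smul, F.ww, F.wu, F.wv]

theorem Frame.du (F : Frame e L w u v) (x y z : ℝ) :
    (x • w + y • u + z • v) ⬝ᵥ u = y * (e * L ^ 2) := by
  have h : v ⬝ᵥ u = 0 := by rw [dotProduct_comm, F.uv]
  simp [add_dotProduct, smul_dotProduct, F.uu, F.wu, h]

theorem Frame.dv (F : Frame e L w u v) (x y z : ℝ) :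
    (x • w + y • u + z • v) ⬝ᵥ v = z * (e * L ^ 2) := by
  simp [add_dotProduct, smul_dotProduct, F.vv, F.wv, F.uv]

theorem Frame.dd (F : Frame e L w u v) (x y z : ℝ) :
    (x • w + y • u + z • v) ⬝ᵥ (x • w + y • u + z • v) =
      (x ^ 2 + (y ^ 2 + z ^ 2) * e) * L ^ 2 := by
  rw [dotProduct_add, dotProduct_add, dotProduct_smul, dotProduct_smul, dotProduct_smul,
    F.dw, F.du, F.dv]
  simp only [smul_eq_mul]
  ring

/-- A vector orthogonal to the frame vanishes. -/
theorem Frame.eq_zero (F : Frame e L w u v) (he : 0 < e) (hL : 0 < L) {x : V3}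
    (h1 : x ⬝ᵥ w = 0) (h2 : x ⬝ᵥ u = 0) (h3 : x ⬝ᵥ v = 0) : x = 0 := by
  have h4 : crossProduct x (crossProduct u v) = 0 := by
    rw [cross_cross_eq_smul_sub_smul', h3, dotProduct_comm u x, h2]
    simp
  have h5 : crossProduct x w = 0 := by
    rw [F.cuv, map_smul] at h4
    exact (smul_eq_zero.1 h4).resolve_left (by positivity)
  have h6 : crossProduct w (crossProduct x w) = 0 := by rw [h5, map_zero]
  rw [cross_cross_eq_smul_sub_smul', F.ww, h1, zero_smul, sub_zero] at h6
  exact (smul_eq_zero.1 h6).resolve_left (by positivity)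

theorem Frame.span (F : Frame e L w u v) (he : 0 < e) (hL : 0 < L) (x : V3) :
    ∃ p q r : ℝ, x = p • w + q • u + r • v := by
  refine ⟨x ⬝ᵥ w / L ^ 2, x ⬝ᵥ u / (e * L ^ 2), x ⬝ᵥ v / (e * L ^ 2), ?_⟩
  rw [← sub_eq_zero]
  refine F.eq_zero he hL ?_ ?_ ?_
  · rw [sub_dotProduct, F.dw, div_mul_cancel₀ _ (by positivity), sub_self]
  · rw [sub_dotProduct, F.du, div_mul_cancel₀ _ (by positivity), sub_self]
  · rw [sub_dotProduct, F.dv, div_mul_cancel₀ _ (by positivity), sub_self]

theorem Frame.cross_dw (F : Frame e L w u v) (y z x' y' z' : ℝ) :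
    crossProduct (y • u + z • v) (x' • w + y' • u + z' • v) ⬝ᵥ w =
      (y * z' - z * y') * (e * L ^ 3) := by
  have h : crossProduct u v ⬝ᵥ w = e * L ^ 3 := by
    rw [F.cuv, smul_dotProduct, F.ww, smul_eq_mul]
    ring
  rw [← h]
  simp [cross_apply, dotProduct, Fin.sum_univ_three]
  ring

/-- Cosine and sine in the rational parameter. -/
noncomputable def co (t : ℝ) : ℝ := (1 - t ^ 2) / (1 + t ^ 2)

noncomputable def si (t : ℝ) : ℝ := 2 * t / (1 + t ^ 2)

theorem circ_sub (a : V3) (τ t : ℝ) :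
    circ (a + τ • w) u v t - a = τ • w + co t • u + si t • v := by
  simp only [circ, co, si]
  abel

theorem circ_sub_circ (o : V3) (s t : ℝ) :
    circ o u v s - circ o u v t = (co s - co t) • u + (si s - si t) • v := by
  simp only [circ, co, si, sub_smul]
  abel

theorem co_sq_add (t : ℝ) : co t ^ 2 + si t ^ 2 = 1 := by
  have : 0 < 1 + t ^ 2 := by positivity
  simp only [co, si]
  field_simp
  ring

theorem recover (t : ℝ) : si t = t * (1 + co t) ∧ 0 < 1 + co t := by
  have h : 0 < 1 + t ^ 2 := by positivity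
  have h2 : 1 + co t = 2 / (1 + t ^ 2) := by
    simp only [co]
    field_simp
    ring
  rw [h2]
  refine ⟨?_, by positivity⟩
  simp only [si]
  ring

theorem exists_param {y z : ℝ} (h : y ^ 2 + z ^ 2 = 1) (hy : y ≠ -1) :
    ∃ t, co t = y ∧ si t = z := by
  have h1 : 1 + y ≠ 0 := fun h0 => hy (by linarith)
  have h2 : 1 + (z / (1 + y)) ^ 2 = 2 / (1 + y) := by
    field_simp
    nlinarith
  refine ⟨z / (1 + y), ?_, ?_⟩
  · have h3 : 1 - (z / (1 + y)) ^ 2 = 2 * y / (1 + y) := by
      field_simp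
      nlinarith
    simp only [co]
    rw [h2, h3]
    field_simp
  · simp only [si]
    rw [h2]
    field_simp

theorem hasDeriv (o u v : V3) (t : ℝ) :
    HasDerivAt (circ o u v) ((2 / (1 + t ^ 2)) • (co t • v - si t • u)) t := by
  have h : (1 + t ^ 2) ≠ 0 := by positivity
  have hd : HasDerivAt (fun t : ℝ => 1 + t ^ 2) (2 * t) t := by
    simpa using (hasDerivAt_pow 2 t).const_add 1
  have hn : HasDerivAt (fun t : ℝ => 1 - t ^ 2) (-(2 * t)) t := by
    simpa using (hasDerivAt_pow 2 t).const_sub 1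
  have hm : HasDerivAt (fun t : ℝ => 2 * t) 2 t := by
    simpa using (hasDerivAt_id t).const_mul 2
  have h1 : HasDerivAt (fun t : ℝ => (1 - t ^ 2) / (1 + t ^ 2)) (-(2 / (1 + t ^ 2) * si t)) t := by
    refine (hn.fun_div hd h).congr_deriv ?_
    simp only [si]
    field_simp
    ring
  have h2 : HasDerivAt (fun t : ℝ => 2 * t / (1 + t ^ 2)) (2 / (1 + t ^ 2) * co t) t := by
    refine (hm.fun_div hd h).congr_deriv ?_
    simp only [co]
    field_simp
    ring
  have h3 := ((h1.smul_const u).const_add o).fun_add (h2.smul_const v)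
  refine HasDerivAt.congr_deriv h3 ?_
  simp only [smul_sub, smul_smul, neg_smul]
  abel

theorem one_add_mul_pos {p q x y : ℝ} (h1 : (1 : ℝ) ∉ Set.Icc p q) (h2 : (-1 : ℝ) ∉ Set.Icc p q)
    (hx : p ≤ x) (hx' : x ≤ q) (hy : p ≤ y) (hy' : y ≤ q) : 0 < 1 + x * y := by
  simp only [Set.mem_Icc, not_and_or, not_le] at h1 h2
  rcases h1 with h1 | h1
  · nlinarith [mul_pos (show 0 < x by linarith) (show 0 < y by linarith)]
  rcases h2 with h2 | h2
  · nlinarith [mul_pos (show 0 < 1 + x by linarith) (show 0 < 1 + y by linarith),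
      mul_pos (show 0 < 1 - x by linarith) (show 0 < 1 - y by linarith)]
  · nlinarith [mul_pos_of_neg_of_neg (show x < 0 by linarith) (show y < 0 by linarith)]

theorem chord_eq (s t : ℝ) : (co s - co t) * si t - (si s - si t) * co t =
    -(2 * (s - t) * (1 + s * t) / ((1 + s ^ 2) * (1 + t ^ 2))) := by
  have h1 : 0 < 1 + t ^ 2 := by positivity
  have h2 : 0 < 1 + s ^ 2 := by positivity
  simp only [co, si]
  field_simp
  ring

theorem mono_eq (s t s' t' : ℝ) :
    (co s - co t) * (si s' - si t') - (si s - si t) * (co s' - co t') =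
      4 * (s - t) * (s' - t') * ((s' - s) * (1 + t * t') + (t' - t) * (1 + s * s')) /
        ((1 + s ^ 2) * (1 + t ^ 2) * ((1 + s' ^ 2) * (1 + t' ^ 2))) := by
  have h1 : 0 < 1 + t ^ 2 := by positivity
  have h2 : 0 < 1 + s ^ 2 := by positivity
  have h3 : 0 < 1 + t' ^ 2 := by positivity
  have h4 : 0 < 1 + s' ^ 2 := by positivity
  simp only [co, si]
  field_simp
  ring

end CircAux

open CircAux in
theorem circ' : StmtALG → StmtCIRC := by
  intro halg τ e a b he hab
  have hw : b - a ≠ 0 := sub_ne_zero.2 hab.symm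
  obtain ⟨L, u, v, hL, F⟩ := exists_frame he hw
  have heL : e * L ^ 2 ≠ 0 := by positivity
  refine ⟨circ (a + τ • (b - a)) u v, (halg 3).2 _ _ _, ?_, ?_, ?_, ?_, ?_, ?_⟩
  · intro s t hst
    have h : τ • (b - a) + co s • u + si s • v = τ • (b - a) + co t • u + si t • v := by
      rw [← circ_sub, ← circ_sub, hst]
    have h1 : co s = co t := by
      have := congrArg (· ⬝ᵥ u) h
      simp only [F.du] at this
      exact mul_right_cancel₀ heL this
    have h2 : si s = si t := by
      have := congrArg (· ⬝ᵥ v) h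
      simp only [F.dv] at this
      exact mul_right_cancel₀ heL this
    rw [(recover s).1, (recover t).1, h1] at h2
    exact mul_right_cancel₀ (recover t).2.ne' h2
  · intro t
    refine ⟨hab, ?_, ?_⟩
    · rw [circ_sub, F.dw, F.ww]
    · rw [circ_sub, F.dd, F.ww, co_sq_add, one_mul]
  · refine ⟨a + τ • (b - a) - u, fun c hc => ?_⟩
    obtain ⟨p, q, r, hc'⟩ := F.span he hL (c - a)
    obtain ⟨-, h1, h2⟩ := hc
    rw [hc', F.dw, F.ww] at h1
    have hp : p = τ := mul_right_cancel₀ (by positivity) h1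
    subst hp
    rw [hc', F.dd, F.ww] at h2
    have h3 : q ^ 2 + r ^ 2 = 1 := by
      have h4 := mul_right_cancel₀ (by positivity) h2
      have h5 : (q ^ 2 + r ^ 2) * e = 1 * e := by linarith
      exact mul_right_cancel₀ he.ne' h5
    by_cases hq : q = -1
    · left
      subst hq
      have hr : r = 0 := by nlinarith
      subst hr
      rw [sub_eq_iff_eq_add.1 hc']
      simp only [neg_smul, one_smul, zero_smul]
      abel
    · right
      obtain ⟨t, ht1, ht2⟩ := exists_param h3 hq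
      refine ⟨t, ?_⟩
      rw [← sub_left_inj (a := a), circ_sub, ht1, ht2, hc']
  · intro t ν h
    rw [(hasDeriv _ u v t).deriv, smul_dotProduct, smul_eq_mul] at h
    have h1 : (co t • v - si t • u) ⬝ᵥ ν = 0 := (mul_eq_zero.1 h).resolve_left (by positivity)
    have h2 : crossProduct (b - a) (τ • (b - a) + co t • u + si t • v) =
        L • (co t • v - si t • u) := by
      rw [map_add, map_add, map_smul, map_smul, map_smul, cross_self, F.cwu, F.cwv]
      simp only [smul_zero, zero_add, smul_sub, smul_neg, smul_smul, mul_comm]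
      abel
    rw [circ_sub, h2, smul_dotProduct, h1, smul_zero]
  · intro t s hts h1 h2 h0
    have h := congrArg (· ⬝ᵥ (b - a)) h0
    simp only [circ_sub_circ, circ_sub, F.cross_dw, zero_dotProduct, chord_eq] at h
    have h3 : 0 < 1 + s * t := one_add_mul_pos h1 h2 hts.le le_rfl le_rfl hts.le
    have h4 : 0 < s - t := sub_pos.2 hts
    have h5 : 0 < 2 * (s - t) * (1 + s * t) / ((1 + s ^ 2) * (1 + t ^ 2)) * (e * L ^ 3) := by
      positivity
    linarith
  · intro t s t' s' hts hst hts' h1 h2 h0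
    have h := congrArg (· ⬝ᵥ (b - a)) h0
    have hc := F.cross_dw (co s - co t) (si s - si t) 0 (co s' - co t') (si s' - si t')
    rw [zero_smul, zero_add] at hc
    simp only [circ_sub_circ, hc, zero_dotProduct, mono_eq] at h
    have h3 : 0 < 1 + t * t' := one_add_mul_pos h1 h2 le_rfl (by linarith) (by linarith) hts'.le
    have h4 : 0 < 1 + s * s' := one_add_mul_pos h1 h2 hts.le (by linarith) (by linarith) le_rfl
    have h5 : 0 < s - t := sub_pos.2 hts
    have h6 : 0 < s' - t' := sub_pos.2 hts'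
    have h7 : 0 < s' - s := by linarith
    have h8 : 0 < t' - t := by linarith
    refine absurd h (ne_of_gt ?_)
    positivity

end Pool.Agent.MP_36f34d_co.H52
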