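import Pool.Agent.MP_36f34d_co.H52.Spec

/-!
Consecutive third vertices on the circle over a base.
-/

namespace Pool.Agent.MP_36f34d_co.H52

open Finset Matrix MvPolynomial

namespace Cons

/-- The interval cut out by `-1` and `1` that contains `t`. -/
noncomputable def reg (t : ℝ) : ℕ := if t < -1 then 0 else if t < 1 then 1 else 2

theorem reg_lt (t : ℝ) : reg t < 3 := by
  unfold reg
  split_ifs <;> norm_num

theorem reg_one {t t' : ℝ} (h : reg t = reg t') (h1 : t < 1) : t' < 1 := by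
  unfold reg at h
  by_contra hc
  have h2 : ¬ t' < -1 := by linarith
  rw [if_neg h2, if_neg hc] at h
  split_ifs at h
  omega

theorem reg_neg {t t' : ℝ} (h : reg t = reg t') (h1 : t < -1) : t' < -1 := by
  unfold reg at h
  by_contra hc
  rw [if_pos h1, if_neg hc] at h
  split_ifs at h

theorem not_mem {t s t' s' c : ℝ} (hts : t < s) (h1 : c ∉ Set.Icc t s) (h2 : c ∉ Set.Icc t' s')
    (h : t < c → t' < c) : c ∉ Set.Icc t s' := by
  rintro ⟨h3, h4⟩
  rcases h3.lt_or_eq with h5 | h5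
  · exact h2 ⟨(h h5).le, h4⟩
  · exact h1 ⟨h5.le, h5 ▸ hts.le⟩

end Cons

open Cons in
theorem cons : StmtGAP → StmtCIRC → StmtREP → StmtCONS := by
  classical
  intro hgap hcirc hrep P r D f cls τ e a b hP he hab
  obtain ⟨γ, hγ⟩ := hcirc τ e a b he hab
  obtain ⟨z, hz⟩ := hγ.surj
  rcases hγ.alg.few f with h0 | ⟨Z0, hZ0, hZ⟩
  · refine ⟨∅, by simp, by simp, ?_, by simp⟩
    refine le_trans (card_le_card (t := {z}) ?_) (by simp)
    intro c hc
    rw [mem_filter] at hc
    rcases hz c hc.2.1 with h | ⟨t, rfl⟩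
    · simp [h]
    · exact absurd (h0 t) hc.2.2
  set S : Finset ℝ := (P.preimage γ hγ.inj.injOn).filter fun t => eval (γ t) f ≠ 0 with hS
  have hmem : ∀ t, t ∈ S ↔ γ t ∈ P ∧ eval (γ t) f ≠ 0 := by
    intro t
    rw [hS, mem_filter, mem_preimage]
  obtain ⟨S', nx, hsub, hcard, hnx⟩ := hgap S (insert 1 (insert (-1) Z0))
  have hone : ∀ t ∈ S', (1 : ℝ) ∉ Set.Icc t (nx t) := fun t ht =>
    (hnx t ht).2.2.1 1 (mem_insert_self _ _)
  have hneg : ∀ t ∈ S', (-1 : ℝ) ∉ Set.Icc t (nx t) := fun t ht =>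
    (hnx t ht).2.2.1 (-1) (mem_insert_of_mem (mem_insert_self _ _))
  have hinj : Function.Injective fun t => (γ t, γ (nx t)) := fun t t' h =>
    hγ.inj (congrArg Prod.fst h)
  refine ⟨S'.image fun t => (γ t, γ (nx t)), ?_, ?_, ?_, ?_⟩
  · intro p hp
    obtain ⟨t, ht, rfl⟩ := mem_image.1 hp
    obtain ⟨h1, h2, h3, -⟩ := hnx t ht
    have h4 := (hmem t).1 (hsub ht)
    have h5 := (hmem _).1 h1
    refine ⟨h4.1, h5.1, hγ.sh _, hγ.sh _, h4.2, h5.2, ?_, hγ.chord _ _ h2 (hone t ht) (hneg t ht)⟩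
    refine (hP.loc γ hγ.alg.diff.continuous t (nx t) h2.le fun u hu hu0 => ?_).symm
    exact h3 u (mem_insert_of_mem (mem_insert_of_mem (hZ u hu0))) hu
  · intro p hp p' hp' h
    obtain ⟨t, -, rfl⟩ := mem_image.1 hp
    obtain ⟨t', -, rfl⟩ := mem_image.1 hp'
    rw [hγ.inj h]
  · rw [card_image_of_injective _ hinj]
    have h1 : #{c ∈ P | Sh τ e a b c ∧ eval c f ≠ 0} ≤ #(insert z (S.image γ)) := by
      refine card_le_card fun c hc => ?_
      rw [mem_filter] at hc
      rcases hz c hc.2.1 with h | ⟨t, rfl⟩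
      · rw [h]
        exact mem_insert_self _ _
      · exact mem_insert_of_mem (mem_image_of_mem _ ((hmem t).2 ⟨hc.1, hc.2.2⟩))
    have h2 := card_insert_le z (S.image γ)
    have h3 : #(S.image γ) ≤ #S := card_image_le
    have h4 := card_insert_le (1 : ℝ) (insert (-1) Z0)
    have h5 := card_insert_le (-1 : ℝ) Z0
    have h6 := hP.deg
    omega
  · intro ν hν
    rw [filter_image]
    refine le_trans card_image_le ?_
    have key : ∀ t ∈ S', ∀ t' ∈ S', crossProduct (γ (nx t) - γ t) ν = 0 →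
        crossProduct (γ (nx t') - γ t') ν = 0 → reg t = reg t' → ¬ t < t' := by
      intro t ht t' ht' h1 h2 h3 hlt
      obtain ⟨x, hx⟩ := hrep.par _ _ hν h1
      obtain ⟨y, hy⟩ := hrep.par _ _ hν h2
      refine hγ.mono t (nx t) t' (nx t') (hnx t ht).2.1 ((hnx t ht).2.2.2 t' (hsub ht') hlt)
        (hnx t' ht').2.1 (not_mem (hnx t ht).2.1 (hone t ht) (hone t' ht') (reg_one h3))
        (not_mem (hnx t ht).2.1 (hneg t ht) (hneg t' ht') (reg_neg h3)) ?_
      rw [hx, hy]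
      simp
    refine le_trans (card_le_card_of_injOn (t := range 3) reg
      (fun t _ => by simpa using reg_lt t) ?_) (by simp)
    intro t ht t' ht' h
    have ht1 := mem_filter.1 (mem_coe.1 ht)
    have ht2 := mem_filter.1 (mem_coe.1 ht')
    exact le_antisymm (not_lt.1 (key t' ht2.1 t ht1.1 ht2.2 ht1.2 h.symm))
      (not_lt.1 (key t ht1.1 t' ht2.1 ht1.2 ht2.2 h))

end Pool.Agent.MP_36f34d_co.H52
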