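import Pool.Agent.MP_36f34d_co.H52.Spec

/-!
The ham sandwich theorem for finite sets, and gaps between consecutive elements.
-/

namespace Pool.Agent.MP_36f34d_co.H52

open Finset Matrix

namespace HamAux

/-- A continuous function that detects a positive majority. -/
lemma major {X : Type} (S : Finset X) : ∃ U : (X → ℝ) → ℝ, Continuous U ∧
    ∀ f, 0 < U f ↔ #S < 2 * #{x ∈ S | 0 < f x} := by
  refine ⟨fun f => ∑ A ∈ S.powerset with #S < 2 * #A, ∏ x ∈ A, max (f x) 0, by fun_prop,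
    fun f => ⟨fun h => ?_, fun h => ?_⟩⟩
  · obtain ⟨A, hA, h1⟩ := exists_ne_zero_of_sum_ne_zero h.ne'
    rw [mem_filter, mem_powerset] at hA
    have h2 : A ⊆ {x ∈ S | 0 < f x} := fun x hx => mem_filter.2 ⟨hA.1 hx, by
      by_contra h3
      exact prod_ne_zero_iff.1 h1 x hx (max_eq_right (not_lt.1 h3))⟩
    have := card_le_card h2
    omega
  · exact sum_pos' (fun A _ => prod_nonneg (fun x _ => le_max_right _ _))
      ⟨_, mem_filter.2 ⟨mem_powerset.2 (filter_subset _ _), h⟩,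
        prod_pos (fun x hx => lt_max_of_lt_left (mem_filter.1 hx).2)⟩

/-- A continuous odd function whose zeros are balanced. -/
lemma balance {X : Type} (S : Finset X) : ∃ g : (X → ℝ) → ℝ, Continuous g ∧
    (∀ f, g (-f) = -g f) ∧ ∀ f, g f = 0 →
      2 * #{x ∈ S | 0 < f x} ≤ #S ∧ 2 * #{x ∈ S | f x < 0} ≤ #S := by
  classical
  obtain ⟨U, h1, h2⟩ := major S
  refine ⟨fun f => U f - U (-f), by fun_prop, fun f => by simp, fun f hf => ?_⟩
  have h3 := h2 f
  have h4 := h2 (-f)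
  simp only [Pi.neg_apply, neg_pos, ← sub_eq_zero.1 hf] at h4
  have h5 : #{x ∈ S | 0 < f x} + #{x ∈ S | f x < 0} ≤ #S := by
    rw [← card_union_of_disjoint (disjoint_filter.2 (fun x _ h => not_lt.2 h.le))]
    exact card_le_card (union_subset (filter_subset _ _) (filter_subset _ _))
  have h6 := h3.symm.trans h4
  omega

end HamAux

open HamAux in
theorem ham (h : StmtBU) : StmtHAM := by
  classical
  intro ι κ X _ _ hc S φ
  obtain ⟨N, hN⟩ : ∃ N, Fintype.card κ = N + 1 := ⟨Fintype.card κ - 1, by omega⟩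
  obtain ⟨e⟩ : Nonempty (ι ↪ Fin N) := Function.Embedding.nonempty_of_card_le (by
    rw [Fintype.card_fin]
    omega)
  have σ : κ ≃ Fin (N + 1) := Fintype.equivFinOfCardEq hN
  choose g g1 g2 g3 using fun i => balance (S i)
  obtain ⟨v, hv, h0⟩ := h N (fun v j => ∑ i with e i = j, g i (fun x => (v ∘ σ) ⬝ᵥ φ x))
    (continuous_pi (fun j => continuous_finsetSum _ (fun i _ => (g1 i).comp (by
      unfold dotProduct
      fun_prop))))
    (fun v => by
      ext j
      rw [Pi.neg_apply, ← sum_neg_distrib]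
      refine sum_congr rfl (fun i _ => ?_)
      rw [← g2]
      congr 1
      ext x
      rw [Pi.neg_apply, ← neg_dotProduct]
      rfl)
  refine ⟨v ∘ σ, fun h1 => hv ?_, fun i => g3 i _ ?_⟩
  · ext j
    simpa using congrFun h1 (σ.symm j)
  · have := congrFun h0 (e i)
    rwa [sum_eq_single i (fun k hk hki => absurd (e.injective (mem_filter.1 hk).2) hki)
      (fun hi => absurd (by simp) hi)] at this

theorem gap : StmtGAP := by
  classical
  intro S Z
  have h : ∀ t : ℝ, ∃ n : ℝ, (∃ s ∈ S, t < s) → n ∈ S ∧ t < n ∧ ∀ s ∈ S, t < s → n ≤ s := by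
    intro t
    by_cases ht : ({s ∈ S | t < s} : Finset ℝ).Nonempty
    · have h1 := mem_filter.1 (min'_mem _ ht)
      exact ⟨_, fun _ => ⟨h1.1, h1.2, fun s hs h2 => min'_le _ _ (mem_filter.2 ⟨hs, h2⟩)⟩⟩
    · exact ⟨t, fun ⟨s, h1, h2⟩ => absurd ⟨s, mem_filter.2 ⟨h1, h2⟩⟩ ht⟩
  choose nx hnx using h
  refine ⟨{t ∈ S | (∃ s ∈ S, t < s) ∧ ∀ z ∈ Z, z ∉ Set.Icc t (nx t)}, nx, filter_subset _ _, ?_,
    fun t ht => ?_⟩
  · have h1 : S ⊆ {t ∈ S | (∃ s ∈ S, t < s) ∧ ∀ z ∈ Z, z ∉ Set.Icc t (nx t)} ∪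
        (Z ∪ Z.biUnion fun z => {t ∈ S | t < z ∧ z ≤ nx t}) ∪ {t ∈ S | ¬ ∃ s ∈ S, t < s} := by
      intro t ht
      simp only [mem_union, mem_filter, mem_biUnion]
      by_cases h2 : ∃ s ∈ S, t < s
      · left
        by_cases h3 : ∀ z ∈ Z, z ∉ Set.Icc t (nx t)
        · exact Or.inl ⟨ht, h2, h3⟩
        · push Not at h3
          obtain ⟨z, hz, h4, h5⟩ := h3
          rcases h4.lt_or_eq with h6 | h6
          · exact Or.inr (Or.inr ⟨z, hz, ht, h6, h5⟩)
          · exact Or.inr (Or.inl (h6 ▸ hz))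
      · exact Or.inr ⟨ht, h2⟩
    have h2 : #{t ∈ S | ¬ ∃ s ∈ S, t < s} ≤ 1 := card_le_one.2 (fun a ha b hb => by
      rw [mem_filter] at ha hb
      exact le_antisymm (not_lt.1 fun h => hb.2 ⟨a, ha.1, h⟩) (not_lt.1 fun h => ha.2 ⟨b, hb.1, h⟩))
    have h3 : #(Z.biUnion fun z => {t ∈ S | t < z ∧ z ≤ nx t}) ≤ #Z * 1 :=
      card_biUnion_le_card_mul _ _ _ (fun z _ => card_le_one.2 (fun a ha b hb => by
        rw [mem_filter] at ha hb
        refine le_antisymm (not_lt.1 fun h => ?_) (not_lt.1 fun h => ?_)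
        · have := (hnx b ⟨a, ha.1, h⟩).2.2 a ha.1 h
          linarith [ha.2.1, hb.2.2]
        · have := (hnx a ⟨b, hb.1, h⟩).2.2 b hb.1 h
          linarith [hb.2.1, ha.2.2]))
    have h4 := (card_le_card h1).trans ((card_union_le _ _).trans (Nat.add_le_add
      ((card_union_le _ _).trans (Nat.add_le_add_left ((card_union_le _ _).trans
        (Nat.add_le_add_left h3 _)) _)) h2))
    omega
  · obtain ⟨-, h1, h2⟩ := mem_filter.1 ht
    exact ⟨(hnx t h1).1, (hnx t h1).2.1, h2, (hnx t h1).2.2⟩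

end Pool.Agent.MP_36f34d_co.H52
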