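import Pool.Agent.MP_36f34d_co.H52.Spec

/-!
Row PST: the theorem of Szemeredi and Trotter from the polynomial partition.
-/

namespace Pool.Agent.MP_36f34d_co.H52

open Finset Matrix MvPolynomial

namespace PSTAux

/-- Points of the plane. -/
abbrev V2 : Type := Fin 2 → ℝ

/-- The parametrisation of the line `a x + b y + c = 0`. -/
noncomputable def gam (a b c : ℝ) (t : ℝ) : V2 :=
  ![-c * a / (a ^ 2 + b ^ 2), -c * b / (a ^ 2 + b ^ 2)] + t • ![-b, a]

lemma on_iff {a b c : ℝ} (h : a ^ 2 + b ^ 2 ≠ 0) (x : V2) :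
    a * x 0 + b * x 1 + c = 0 ↔ ∃ t, gam a b c t = x := by
  constructor
  · intro hx
    have hc : c = -a * x 0 - b * x 1 := by linarith
    refine ⟨(-b * x 0 + a * x 1) / (a ^ 2 + b ^ 2), ?_⟩
    ext i
    fin_cases i
    · simp only [gam, hc]
      simp
      field_simp
      ring
    · simp only [gam, hc]
      simp
      field_simp
      ring
  · rintro ⟨t, rfl⟩
    simp only [gam]
    simp
    field_simp
    ring

lemma gam_inj {a b c : ℝ} (h : a ^ 2 + b ^ 2 ≠ 0) : Function.Injective (gam a b c) := by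
  intro s t hst
  have h0 := congrFun hst 0
  have h1 := congrFun hst 1
  simp only [gam, Pi.add_apply, Pi.smul_apply, smul_eq_mul, cons_val_zero, cons_val_one,
    add_right_inj] at h0 h1
  have : (s - t) * (a ^ 2 + b ^ 2) = 0 := by
    have e : (s - t) * (a ^ 2 + b ^ 2) = a * (s * a - t * a) - b * (s * -b - t * -b) := by ring
    rw [e, h0, h1]
    ring
  exact sub_eq_zero.1 ((mul_eq_zero.1 this).resolve_right h)

lemma gam_deriv (a b c t : ℝ) : deriv (gam a b c) t = ![-b, a] := by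
  have := (((hasDerivAt_id t).smul_const (![-b, a] : V2)).const_add
    ![-c * a / (a ^ 2 + b ^ 2), -c * b / (a ^ 2 + b ^ 2)]).deriv
  rw [one_smul] at this
  exact this

/-- Two vectors of the plane orthogonal to a nonzero vector are parallel. -/
lemma det_zero {a b a' b' p q : ℝ} (h : p ≠ 0 ∨ q ≠ 0) (h1 : a * p + b * q = 0)
    (h2 : a' * p + b' * q = 0) : a * b' = a' * b := by
  rcases h with h | h
  · refine mul_right_cancel₀ h ?_
    linear_combination b' * h1 - b * h2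
  · refine mul_right_cancel₀ h ?_
    linear_combination a * h2 - a' * h1

lemma ne_two {x y : V2} (h : x ≠ y) : x 0 - y 0 ≠ 0 ∨ x 1 - y 1 ≠ 0 := by
  by_contra hc
  push Not at hc
  refine h (funext fun i => ?_)
  fin_cases i
  · exact sub_eq_zero.1 hc.1
  · exact sub_eq_zero.1 hc.2

/-- The points of one line off the zero set. -/
lemma off (hALG : StmtALG) (hGAP : StmtGAP) {P : Finset V2} {r D : ℕ} {f : MvPolynomial (Fin 2) ℝ}
    {cls : V2 → ℕ} (hP : Part P r D f cls) {a b c : ℝ} (h : a ^ 2 + b ^ 2 ≠ 0) :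
    ∃ Q : Finset (V2 × V2), (∀ p ∈ Q, p.1 ∈ P ∧ p.2 ∈ P ∧ eval p.2 f ≠ 0 ∧ cls p.2 = cls p.1 ∧
      p.1 ≠ p.2 ∧ a * p.1 0 + b * p.1 1 + c = 0 ∧ a * p.2 0 + b * p.2 1 + c = 0) ∧
      #{x ∈ P | a * x 0 + b * x 1 + c = 0 ∧ eval x f ≠ 0} ≤ #Q + (4 * D + 1) := by
  classical
  have hA : Alg (gam a b c) := (hALG 2).1 _ _
  rcases hA.few f with h0 | ⟨Z, hZ, hZ'⟩
  · refine ⟨∅, by simp, ?_⟩
    rw [filter_eq_empty_iff.2 (fun x _ hx => ?_)]
    · simp
    · obtain ⟨t, rfl⟩ := (on_iff h x).1 hx.1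
      exact hx.2 (h0 t)
  obtain ⟨S', nx, h1, h2, h3⟩ := hGAP (({x ∈ P | eval x f ≠ 0} : Finset V2).preimage (gam a b c)
    (gam_inj h).injOn) Z
  refine ⟨S'.image fun t => (gam a b c t, gam a b c (nx t)), fun p hp => ?_, ?_⟩
  · obtain ⟨t, ht, rfl⟩ := mem_image.1 hp
    obtain ⟨k1, k2, k3, -⟩ := h3 t ht
    have k4 := mem_filter.1 (mem_preimage.1 (h1 ht))
    have k5 := mem_filter.1 (mem_preimage.1 k1)
    refine ⟨k4.1, k5.1, k5.2, (hP.loc _ hA.diff.continuous t (nx t) k2.le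
      (fun u hu h0 => k3 u (hZ' u h0) hu)).symm, fun e => k2.ne (gam_inj h e),
      (on_iff h _).2 ⟨t, rfl⟩, (on_iff h _).2 ⟨nx t, rfl⟩⟩
  · rw [card_image_of_injective _ (fun s t e => gam_inj h (congrArg Prod.fst e))]
    have k1 : #{x ∈ P | a * x 0 + b * x 1 + c = 0 ∧ eval x f ≠ 0} ≤
        #(({x ∈ P | eval x f ≠ 0} : Finset V2).preimage (gam a b c) (gam_inj h).injOn) := by
      refine le_trans (card_le_card (fun x hx => ?_)) (card_image_le (f := gam a b c))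
      obtain ⟨x1, x2, x3⟩ := mem_filter.1 hx
      obtain ⟨t, rfl⟩ := (on_iff h x).1 x2
      exact mem_image_of_mem _ (mem_preimage.2 (mem_filter.2 ⟨x1, x3⟩))
    have := hP.deg
    omega

/-- The planar form. -/
lemma plane (hPART : StmtPART) (hALG : StmtALG) (hBAD : StmtBAD) (hGAP : StmtGAP) :
    ∃ C : ℕ, ∀ (P : Finset V2) (B : Finset V3) (a b c : V3 → ℝ),
      (∀ v ∈ B, a v ^ 2 + b v ^ 2 ≠ 0) →
      (∀ v ∈ B, ∀ v' ∈ B, a v * b v' = a v' * b v → a v * c v' = a v' * c v →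
        b v * c v' = b v' * c v → v = v') → ∀ r, 1 ≤ r →
      r ^ 2 * ∑ v ∈ B, #{x ∈ P | a v * x 0 + b v * x 1 + c v = 0} ≤
        C * (r ^ 3 * #B + #P ^ 2 + r ^ 2 * #P) := by
  classical
  obtain ⟨C, hC⟩ := hPART 2 (by norm_num)
  refine ⟨6 * C + 1, fun P B a b c hab hB r hr => ?_⟩
  obtain ⟨f, cls, hP⟩ := hC P r hr
  obtain ⟨bad, ν, hν, hbad⟩ := hBAD 2 (by norm_num) f hP.ne
  have hB' : ∀ v ∈ B, ∀ v' ∈ B, ∀ x : V2, a v * x 0 + b v * x 1 + c v = 0 →
      a v' * x 0 + b v' * x 1 + c v' = 0 → a v * b v' = a v' * b v → v = v' :=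
    fun v hv v' hv' x h1 h2 h3 => hB v hv v' hv' h3
      (by linear_combination a v * h2 - a v' * h1 - x 1 * h3)
      (by linear_combination b v * h2 - b v' * h1 + x 0 * h3)
  choose! Q hQ hQ' using fun v (hv : v ∈ B) => off hALG hGAP hP (c := c v) (hab v hv)
  set G : V3 → Finset V2 := fun v =>
    {x ∈ P | a v * x 0 + b v * x 1 + c v = 0 ∧ -b v * ν x 0 + a v * ν x 1 = 0} with hG
  have h1 : ∀ v ∈ B, #{x ∈ P | a v * x 0 + b v * x 1 + c v = 0} ≤
      #(G v) + #(Q v) + (6 * C + 1) * r := by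
    intro v hv
    obtain ⟨k1, k2⟩ := hbad _ ((hALG 2).1 ![-c v * a v / (a v ^ 2 + b v ^ 2),
      -c v * b v / (a v ^ 2 + b v ^ 2)] ![-b v, a v])
    change #(bad (gam (a v) (b v) (c v))) ≤ _ at k1
    have k3 : {x ∈ P | a v * x 0 + b v * x 1 + c v = 0} ⊆
        (G v ∪ (bad (gam (a v) (b v) (c v))).image (gam (a v) (b v) (c v))) ∪
        {x ∈ P | a v * x 0 + b v * x 1 + c v = 0 ∧ eval x f ≠ 0} := by
      intro x hx
      obtain ⟨x1, x2⟩ := mem_filter.1 hx
      by_cases x3 : eval x f = 0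
      · obtain ⟨t, rfl⟩ := (on_iff (hab v hv) x).1 x2
        refine mem_union_left _ ?_
        by_cases x4 : t ∈ bad (gam (a v) (b v) (c v))
        · exact mem_union_right _ (mem_image_of_mem _ x4)
        · have x5 : deriv (gam (a v) (b v) (c v)) t ⬝ᵥ ν (gam (a v) (b v) (c v) t) = 0 :=
            k2 t x3 x4
          rw [gam_deriv] at x5
          refine mem_union_left _ (mem_filter.2 ⟨x1, x2, ?_⟩)
          simpa [dotProduct, Fin.sum_univ_two] using x5
      · exact mem_union_right _ (mem_filter.2 ⟨x1, x2, x3⟩)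
    have k4 := (card_le_card k3).trans ((card_union_le _ _).trans
      (add_le_add ((card_union_le _ _).trans (add_le_add le_rfl card_image_le)) (hQ' v hv)))
    have k5 := hP.deg
    have k6 : (6 * C + 1) * r = 6 * (C * r) + r := by ring
    omega
  have h2 : ∑ v ∈ B, #(G v) ≤ #P := by
    rw [← card_biUnion (fun v hv v' hv' hne => disjoint_left.2 (fun x hx hx' => hne ?_))]
    · exact card_le_card (biUnion_subset.2 (fun v _ => filter_subset _ _))
    · obtain ⟨-, x1, x2⟩ := mem_filter.1 hx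
      obtain ⟨-, x3, x4⟩ := mem_filter.1 hx'
      refine hB' v hv v' hv' x x1 x3 ?_
      have k := det_zero (by simpa using ne_two (hν x)) x2 x4
      linarith
  have h3 : r ^ 2 * ∑ v ∈ B, #(Q v) ≤ #P ^ 2 := by
    rw [← card_biUnion (fun v hv v' hv' hne => disjoint_left.2 (fun p hp hp' => hne ?_))]
    · have k1 : B.biUnion Q ⊆ P.biUnion
          (fun x => ({y ∈ P | eval y f ≠ 0 ∧ cls y = cls x} : Finset V2).image (Prod.mk x)) := by
        intro p hp
        obtain ⟨v, hv, hp⟩ := mem_biUnion.1 hp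
        obtain ⟨p1, p2, p3, p4, -⟩ := hQ v hv p hp
        exact mem_biUnion.2 ⟨p.1, p1, mem_image.2 ⟨p.2, mem_filter.2 ⟨p2, p3, p4⟩, rfl⟩⟩
      refine (Nat.mul_le_mul_left _ ((card_le_card k1).trans card_biUnion_le)).trans ?_
      rw [mul_sum, sq (#P), ← smul_eq_mul (#P)]
      exact sum_le_card_nsmul _ _ _ (fun x _ =>
        (Nat.mul_le_mul_left _ card_image_le).trans (hP.size _))
    · obtain ⟨-, -, -, -, p5, p6, p7⟩ := hQ v hv p hp
      obtain ⟨-, -, -, -, -, p8, p9⟩ := hQ v' hv' p hp'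
      exact hB' v hv v' hv' p.1 p6 p8
        (det_zero (ne_two p5) (by linear_combination p6 - p7) (by linear_combination p8 - p9))
  have h4 := sum_le_sum h1
  rw [sum_add_distrib, sum_add_distrib, sum_const, smul_eq_mul] at h4
  calc r ^ 2 * ∑ v ∈ B, #{x ∈ P | a v * x 0 + b v * x 1 + c v = 0}
      ≤ r ^ 2 * (#P + ∑ v ∈ B, #(Q v) + #B * ((6 * C + 1) * r)) :=
        Nat.mul_le_mul_left _ (by omega)
    _ = r ^ 2 * #P + r ^ 2 * ∑ v ∈ B, #(Q v) + (6 * C + 1) * (r ^ 3 * #B) := by ring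
    _ ≤ r ^ 2 * #P + #P ^ 2 + (6 * C + 1) * (r ^ 3 * #B) := by omega
    _ ≤ _ := by nlinarith [Nat.zero_le (C * (#P ^ 2 + r ^ 2 * #P))]

end PSTAux

open PSTAux

theorem pst (hPART : StmtPART) (hALG : StmtALG) (hBAD : StmtBAD) (hGAP : StmtGAP)
    (hREP : StmtREP) : StmtPST := by
  classical
  obtain ⟨C, hC⟩ := plane hPART hALG hBAD hGAP
  refine ⟨C, fun A B hA hB r hr => ?_⟩
  obtain ⟨w, hw⟩ := hREP.gen ((insert ![0, 0, 1] A).image fun u => (u, (0 : ℝ))) (by
    intro p hp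
    obtain ⟨u, hu, rfl⟩ := mem_image.1 hp
    rcases mem_insert.1 hu with rfl | hu
    · intro h
      simpa using congrFun h 2
    · exact hA.ne u hu)
  have hw2 : w 2 ≠ 0 := by
    have := hw _ (mem_image_of_mem _ (mem_insert_self _ _))
    simpa [dotProduct, Fin.sum_univ_three] using this
  have hwA : ∀ u ∈ A, u ⬝ᵥ w ≠ 0 := fun u hu => hw _ (mem_image_of_mem _ (mem_insert_of_mem hu))
  set π : V3 → V2 := fun u => ![u 0 / (u ⬝ᵥ w), u 1 / (u ⬝ᵥ w)] with hπ
  set a : V3 → ℝ := fun v => w 2 * v 0 - w 0 * v 2 with ha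
  set b : V3 → ℝ := fun v => w 2 * v 1 - w 1 * v 2 with hb
  have hon : ∀ u ∈ A, ∀ v : V3, u ⬝ᵥ v = 0 → a v * π u 0 + b v * π u 1 + v 2 = 0 := by
    intro u hu v h
    have h0 := hwA u hu
    simp only [ha, hb, hπ, cons_val_zero, cons_val_one]
    field_simp
    simp only [dotProduct, Fin.sum_univ_three] at h ⊢
    linear_combination w 2 * h
  have hinj : Set.InjOn π A := by
    intro u hu u' hu' h
    have h0 := congrFun h 0
    have h1 := congrFun h 1
    simp only [hπ, cons_val_zero, cons_val_one] at h0 h1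
    rw [div_eq_div_iff (hwA u hu) (hwA u' hu')] at h0 h1
    have e : u ⬝ᵥ w = u 0 * w 0 + u 1 * w 1 + u 2 * w 2 := by
      simp [dotProduct, Fin.sum_univ_three]
    have e' : u' ⬝ᵥ w = u' 0 * w 0 + u' 1 * w 1 + u' 2 * w 2 := by
      simp [dotProduct, Fin.sum_univ_three]
    have h2 : u 2 * (u' ⬝ᵥ w) = u' 2 * (u ⬝ᵥ w) := mul_left_cancel₀ hw2 (by
      linear_combination (u ⬝ᵥ w) * e' - (u' ⬝ᵥ w) * e - w 0 * h0 - w 1 * h1)
    have h3 := hwA u' hu'
    have k1 : u 1 * u' 2 - u 2 * u' 1 = 0 :=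
      mul_left_cancel₀ h3 (by linear_combination u' 2 * h1 - u' 1 * h2)
    have k2 : u 2 * u' 0 - u 0 * u' 2 = 0 :=
      mul_left_cancel₀ h3 (by linear_combination u' 0 * h2 - u' 2 * h0)
    have k3 : u 0 * u' 1 - u 1 * u' 0 = 0 :=
      mul_left_cancel₀ h3 (by linear_combination u' 1 * h0 - u' 0 * h1)
    refine hA.inj u hu u' hu' ?_
    rw [cross_apply, k1, k2, k3]
    ext i
    fin_cases i <;> rfl
  have key := hC (A.image π) {v ∈ B | a v ^ 2 + b v ^ 2 ≠ 0} a b (fun v => v 2)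
    (fun v hv => (mem_filter.1 hv).2) (by
      intro v hv v' hv' h1 h2 h3
      refine hB.inj v (mem_filter.1 hv).1 v' (mem_filter.1 hv').1 ?_
      simp only [ha, hb] at h1 h2 h3
      have k1 : v 1 * v' 2 - v 2 * v' 1 = 0 :=
        mul_left_cancel₀ hw2 (by linear_combination h3)
      have k2 : v 2 * v' 0 - v 0 * v' 2 = 0 :=
        mul_left_cancel₀ hw2 (by linear_combination -h2)
      have k3 : v 0 * v' 1 - v 1 * v' 0 = 0 :=
        mul_left_cancel₀ (mul_ne_zero hw2 hw2)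
          (by linear_combination h1 - w 2 * w 0 * k1 - w 2 * w 1 * k2)
      rw [cross_apply, k1, k2, k3]
      ext i
      fin_cases i <;> rfl) r hr
  have h1 : #{p ∈ A ×ˢ B | p.1 ⬝ᵥ p.2 = 0} ≤ ∑ v ∈ B with a v ^ 2 + b v ^ 2 ≠ 0,
      #{x ∈ A.image π | a v * x 0 + b v * x 1 + v 2 = 0} := by
    rw [← card_sigma]
    refine card_le_card_of_injOn (fun p => ⟨p.2, π p.1⟩) (fun p hp => ?_) (fun p hp p' hp' h => ?_)
    · obtain ⟨p1, p2⟩ := mem_filter.1 (mem_coe.1 hp)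
      obtain ⟨p3, p4⟩ := mem_product.1 p1
      have p5 := hon p.1 p3 p.2 p2
      refine mem_coe.2 (mem_sigma.2 ⟨mem_filter.2 ⟨p4, fun h => hB.ne p.2 p4 ?_⟩,
        mem_filter.2 ⟨mem_image_of_mem _ p3, p5⟩⟩)
      have q1 : a p.2 = 0 := by nlinarith [sq_nonneg (a p.2), sq_nonneg (b p.2)]
      have q2 : b p.2 = 0 := by nlinarith [sq_nonneg (a p.2), sq_nonneg (b p.2)]
      have q3 : p.2 2 = 0 := by simpa [q1, q2] using p5
      simp only [ha, hb, q3, mul_zero, sub_zero, mul_eq_zero, hw2, false_or] at q1 q2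
      ext i
      fin_cases i
      exacts [q1, q2, q3]
    · obtain ⟨e1, e2⟩ := Sigma.mk.inj_iff.1 h
      exact Prod.ext (hinj (mem_product.1 (mem_filter.1 (mem_coe.1 hp)).1).1
        (mem_product.1 (mem_filter.1 (mem_coe.1 hp')).1).1 (eq_of_heq e2)) e1
  refine (Nat.mul_le_mul_left _ h1).trans (key.trans (Nat.mul_le_mul_left _ ?_))
  have h2 : #(A.image π) ≤ #A := card_image_le
  have h3 : #{v ∈ B | a v ^ 2 + b v ^ 2 ≠ 0} ≤ #B := card_filter_le _ _
  gcongr

end Pool.Agent.MP_36f34d_co.H52
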