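import Pool.Agent.MP_36f34d_co.H52.Spec

/-! Polynomial partitioning from the ham sandwich theorem. -/

namespace Pool.Agent.MP_36f34d_co.H52

open Finset Matrix MvPolynomial

namespace PartAux

variable {d : ℕ}

/-- The state after `j` bisections. -/
def Iv (P : Finset (Fin d → ℝ)) (j D : ℕ) : Prop :=
  ∃ (f : MvPolynomial (Fin d) ℝ) (cls : (Fin d → ℝ) → ℕ), f ≠ 0 ∧ f.totalDegree ≤ D ∧
    (∀ x, cls x < 2 ^ j) ∧ (∀ i, 2 ^ j * #{y ∈ P | eval y f ≠ 0 ∧ cls y = i} ≤ #P) ∧
    ∀ γ : ℝ → Fin d → ℝ, Continuous γ → ∀ s t, s ≤ t →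
      (∀ u ∈ Set.Icc s t, eval (γ u) f ≠ 0) → cls (γ s) = cls (γ t)

lemma sgn {F : ℝ → ℝ} (hF : Continuous F) {s t : ℝ} (h : s ≤ t) (h0 : ∀ u ∈ Set.Icc s t, F u ≠ 0) :
    0 < F s ↔ 0 < F t := by
  constructor <;> intro h1 <;> by_contra h2
  · obtain ⟨u, hu, e⟩ := intermediate_value_Icc' h hF.continuousOn ⟨not_lt.1 h2, h1.le⟩
    exact h0 u hu e
  · obtain ⟨u, hu, e⟩ := intermediate_value_Icc h hF.continuousOn ⟨not_lt.1 h2, h1.le⟩
    exact h0 u hu e

/-- A bisecting polynomial. -/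
lemma bis (H : StmtHAM) {n m : ℕ} (h : n < m ^ d) (S : Fin n → Finset (Fin d → ℝ)) :
    ∃ g : MvPolynomial (Fin d) ℝ, g ≠ 0 ∧ g.totalDegree ≤ d * m ∧ ∀ i,
      2 * #{x ∈ S i | 0 < eval x g} ≤ #(S i) ∧ 2 * #{x ∈ S i | eval x g < 0} ≤ #(S i) := by
  obtain ⟨c, hc, h1⟩ := H (Fin n) (Fin d → Fin m) _ (by simpa using h) S
    fun x a => ∏ k, x k ^ (a k : ℕ)
  let e : (Fin d → Fin m) → Fin d →₀ ℕ := fun a => Finsupp.equivFunOnFinite.symm fun k => a k
  have he : Function.Injective e := fun a b h => funext fun k =>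
    Fin.ext (congrFun (Finsupp.equivFunOnFinite.symm.injective h) k)
  have hv : ∀ x, eval x (∑ a, monomial (e a) (c a)) = c ⬝ᵥ fun a => ∏ k, x k ^ (a k : ℕ) :=
    fun x => by
      rw [map_sum]
      refine sum_congr rfl fun a _ => ?_
      rw [eval_monomial, Finsupp.prod_fintype _ _ fun _ => pow_zero _]
      rfl
  refine ⟨∑ a, monomial (e a) (c a), fun h0 => hc (funext fun a => ?_),
    totalDegree_finsetSum_le fun a _ => (totalDegree_monomial_le _ _).trans ?_, fun i => ?_⟩
  · have := congrArg (coeff (e a)) h0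
    rw [coeff_sum] at this
    simpa [coeff_monomial, he.eq_iff] using this
  · rw [Finsupp.sum_fintype _ _ fun _ => rfl]
    simpa [e] using sum_le_card_nsmul univ (fun k => (a k : ℕ)) m fun k _ => (a k).2.le
  · simp only [hv]
    exact h1 i

lemma step (H : StmtHAM) {P : Finset (Fin d → ℝ)} {j D m : ℕ} (h : 2 ^ j < m ^ d) :
    Iv P j D → Iv P (j + 1) (D + d * m) := by
  rintro ⟨f, cls, h1, h2, h3, h4, h5⟩
  obtain ⟨g, g1, g2, g3⟩ := bis H h fun i => {y ∈ P | eval y f ≠ 0 ∧ cls y = i}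
  refine ⟨f * g, fun x => 2 * cls x + if 0 < eval x g then 1 else 0, mul_ne_zero h1 g1,
    (totalDegree_mul f g).trans (add_le_add h2 g2), fun x => ?_, fun i => ?_,
    fun γ hγ s t hst h0 => ?_⟩
  · have := h3 x
    rw [pow_succ]
    dsimp only
    split_ifs <;> omega
  · by_cases hi : i / 2 < 2 ^ j
    · obtain ⟨a1, a2⟩ := g3 ⟨i / 2, hi⟩
      refine le_trans ?_ (h4 (i / 2))
      rw [pow_succ, mul_assoc]
      refine Nat.mul_le_mul_left _ ?_
      rcases Nat.mod_two_eq_zero_or_one i with e | e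
      · refine (Nat.mul_le_mul_left _ (card_le_card fun y hy => ?_)).trans a2
        simp only [mem_filter, map_mul, mul_ne_zero_iff] at hy ⊢
        obtain ⟨b1, b2, b3⟩ := hy
        split_ifs at b3 with b4
        · omega
        · exact ⟨⟨b1, b2.1, by omega⟩, lt_of_le_of_ne (not_lt.1 b4) b2.2⟩
      · refine (Nat.mul_le_mul_left _ (card_le_card fun y hy => ?_)).trans a1
        simp only [mem_filter, map_mul, mul_ne_zero_iff] at hy ⊢
        obtain ⟨b1, b2, b3⟩ := hy
        split_ifs at b3 with b4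
        · exact ⟨⟨b1, b2.1, by omega⟩, b4⟩
        · omega
    · rw [filter_false_of_mem fun y _ hy => hi ?_]
      · simp
      · have := h3 y
        have := hy.2
        dsimp only at this
        split_ifs at this <;> omega
  · simp only [map_mul, mul_ne_zero_iff] at h0
    have := sgn ((MvPolynomial.continuous_eval g).comp hγ) hst fun u hu => (h0 u hu).2
    simp only [Function.comp] at this
    simp only [this, h5 γ hγ s t hst fun u hu => (h0 u hu).1]

lemma block (H : StmtHAM) {P : Finset (Fin d → ℝ)} {i D : ℕ} (h : Iv P (d * i) D) :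
    ∀ t ≤ d, Iv P (d * i + t) (D + t * (d * 2 ^ (i + 1))) := by
  intro t
  induction t with
  | zero => simpa using h
  | succ t ih =>
    intro ht
    rw [← add_assoc, add_mul, one_mul, ← add_assoc]
    refine step H ?_ (ih (by omega))
    rw [← pow_mul]
    exact Nat.pow_lt_pow_right one_lt_two (by rw [add_mul, mul_comm i]; omega)

lemma all (H : StmtHAM) (P : Finset (Fin d → ℝ)) (q : ℕ) : Iv P (d * q) (d * d * 2 ^ (q + 1)) := by
  induction q with
  | zero => exact ⟨1, fun _ => 0, one_ne_zero, by simp, by simp,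
      fun i => by rw [mul_zero, pow_zero, one_mul]; exact card_filter_le _ _,
      fun _ _ _ _ _ _ => rfl⟩
  | succ q ih =>
    have := block H ih d le_rfl
    rwa [← mul_add_one, show d * d * 2 ^ (q + 1) + d * (d * 2 ^ (q + 1)) = d * d * 2 ^ (q + 1 + 1)
      by ring] at this

end PartAux

theorem part : StmtHAM → StmtPART := by
  intro H d _
  refine ⟨4 * (d * d), fun P r hr => ?_⟩
  obtain ⟨f, cls, h1, h2, -, h4, h5⟩ := PartAux.all H P (Nat.clog 2 r)
  refine ⟨f, cls, h1, h2.trans ?_, fun i => le_trans (Nat.mul_le_mul_right _ ?_) (h4 i), h5⟩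
  · have : 2 ^ Nat.clog 2 r ≤ 2 * r := by
      rcases hr.eq_or_lt with rfl | h
      · simp
      · have h6 := Nat.pow_pred_clog_lt_self one_lt_two h
        have h7 := Nat.clog_pos one_lt_two h
        rw [← Nat.succ_pred_eq_of_pos h7, pow_succ]
        omega
    calc _ = d * d * 2 * 2 ^ Nat.clog 2 r := by ring
      _ ≤ d * d * 2 * (2 * r) := Nat.mul_le_mul_left _ this
      _ = _ := by ring
  · rw [mul_comm, pow_mul]
    exact Nat.pow_le_pow_left (Nat.le_pow_clog one_lt_two r) d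

end Pool.Agent.MP_36f34d_co.H52
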