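import Pool.Agent.MP_36f34d_co.H52.Spec

/-! Row RB: a layered incidence count. -/

namespace Pool.Agent.MP_36f34d_co.H52

open Finset Matrix

namespace RBAux

/-- The points on lines through `x` of the `i`-th layer. -/
noncomputable def Y (P : Finset V3) (x : V3) (i : ℕ) : Finset V3 :=
  {y ∈ P.erase x | 8 ^ i + 1 ≤ #(ln P x y) ∧ #(ln P x y) ≤ 8 ^ (i + 1)}

/-- The directions of the `i`-th layer. -/
noncomputable def A (P : Finset V3) (x : V3) (i : ℕ) : Finset V3 :=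
  (Y P x i).image fun y => rep (y - x)

/-- The rich normals. -/
noncomputable def L (P N : Finset V3) (k : ℕ) (x : V3) : Finset V3 :=
  {ν ∈ N | k ≤ #(dirs (pl P x ν) x)}

/-- The pairs of the `i`-th layer. -/
noncomputable def T (P N : Finset V3) (k : ℕ) (x : V3) (i : ℕ) : Finset (V3 × V3) :=
  {p ∈ Y P x i ×ˢ L P N k x | (p.1 - x) ⬝ᵥ p.2 = 0}

theorem NP.mono {B B' : Finset V3} (h : NP B) (hB : B' ⊆ B) : NP B' :=
  ⟨fun u hu => h.ne u (hB hu), fun u hu v hv => h.inj u (hB hu) v (hB hv)⟩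

theorem np_dirs (hR : StmtREP) (P : Finset V3) (x : V3) : NP (dirs P x) := by
  have := hR.np ((P.erase x).image fun y => y - x) fun u hu => by
    obtain ⟨y, hy, rfl⟩ := mem_image.1 hu
    exact sub_ne_zero.2 (ne_of_mem_erase hy)
  rwa [image_image] at this

theorem rep_dot (hR : StmtREP) {v ν : V3} (hv : v ≠ 0) (h : v ⬝ᵥ ν = 0) : rep v ⬝ᵥ ν = 0 := by
  obtain ⟨t, -, ht⟩ := hR.smul v hv
  rw [ht, smul_dotProduct, h, smul_zero]

theorem L_le (hR : StmtREP) {C : ℕ} (hC : ∀ A B : Finset V3, NP A → NP B → ∀ k, 2 ≤ k →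
      (∀ v ∈ B, k ≤ #{u ∈ A | u ⬝ᵥ v = 0}) →
      k ^ 2 * #{p ∈ A ×ˢ B | p.1 ⬝ᵥ p.2 = 0} ≤ C * (#A ^ 2 + k ^ 2 * #A))
    {P N : Finset V3} (hN : NP N) {q : ℕ} (hq : 2 ≤ q) (hP : #P ≤ q ^ 9) (x : V3) :
    #(L P N (q ^ 4) x) ≤ 2 * C * q ^ 6 := by
  have h1 : ∀ v ∈ L P N (q ^ 4) x, q ^ 4 ≤ #{u ∈ dirs P x | u ⬝ᵥ v = 0} := fun v hv => by
    refine (mem_filter.1 hv).2.trans (card_le_card fun u hu => ?_)
    obtain ⟨y, hy, rfl⟩ := mem_image.1 hu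
    obtain ⟨h2, h3⟩ := mem_erase.1 hy
    obtain ⟨h4, h5⟩ := mem_filter.1 h3
    exact mem_filter.2 ⟨mem_image_of_mem _ (mem_erase.2 ⟨h2, h4⟩),
      rep_dot hR (sub_ne_zero.2 h2) h5⟩
  have h2 := hC _ _ (np_dirs hR P x) (NP.mono hN (filter_subset _ _)) (q ^ 4)
    (hq.trans (Nat.le_self_pow (by norm_num) q)) h1
  have h3 : #(L P N (q ^ 4) x) * q ^ 4 ≤
      #{p ∈ dirs P x ×ˢ L P N (q ^ 4) x | p.1 ⬝ᵥ p.2 = 0} := by
    rw [card_filter, sum_product_right, ← smul_eq_mul]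
    exact card_nsmul_le_sum _ _ _ fun v hv => (h1 v hv).trans (card_filter _ _).le
  have h4 : #(dirs P x) ≤ q ^ 9 := card_image_le.trans (card_erase_le.trans hP)
  refine Nat.le_of_mul_le_mul_left ?_ (show 0 < q ^ 12 by positivity)
  calc _ = (q ^ 4) ^ 2 * (#(L P N (q ^ 4) x) * q ^ 4) := by ring
    _ ≤ C * (#(dirs P x) ^ 2 + (q ^ 4) ^ 2 * #(dirs P x)) := (Nat.mul_le_mul_left _ h3).trans h2
    _ ≤ C * ((q ^ 9) ^ 2 + (q ^ 4) ^ 2 * (q ^ 9 * q)) := by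
        gcongr
        exact h4.trans (Nat.le_mul_of_pos_right _ (by omega))
    _ = _ := by ring

theorem T_le (hR : StmtREP) (P N : Finset V3) (k : ℕ) (x : V3) (i : ℕ) :
    #(T P N k x i) ≤ 8 ^ (i + 1) * #{p ∈ L P N k x ×ˢ A P x i | p.1 ⬝ᵥ p.2 = 0} := by
  have h0 : ∀ p ∈ T P N k x i, p.1 ∈ P ∧ p.1 - x ≠ 0 := fun p hp => by
    have := mem_erase.1 (mem_filter.1 (mem_product.1 (mem_filter.1 hp).1).1).1
    exact ⟨this.2, sub_ne_zero.2 this.1⟩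
  refine card_le_mul_card_image_of_maps_to (f := fun p => (p.2, rep (p.1 - x))) (fun p hp => ?_) _
    fun b _ => ?_
  · obtain ⟨h1, h2⟩ := mem_filter.1 hp
    obtain ⟨h3, h4⟩ := mem_product.1 h1
    exact mem_filter.2 ⟨mem_product.2 ⟨h4, mem_image_of_mem _ h3⟩,
      (dotProduct_comm _ _).trans (rep_dot hR (h0 p hp).2 h2)⟩
  · rcases ({p ∈ T P N k x i | (p.2, rep (p.1 - x)) = b}).eq_empty_or_nonempty with h | ⟨p, hp⟩
    · rw [h]
      exact Nat.zero_le _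
    obtain ⟨h1, h2⟩ := mem_filter.1 hp
    refine le_trans (card_le_card_of_injOn (t := ln P x p.1) Prod.fst (fun p' hp' => ?_)
      fun p' hp' p'' hp'' h => Prod.ext h ?_)
      (mem_filter.1 (mem_product.1 (mem_filter.1 h1).1).1).2.2
    · obtain ⟨h3, h4⟩ := mem_filter.1 hp'
      exact mem_filter.2 ⟨(h0 p' h3).1, (hR.eq _ _ (h0 p' h3).2 (h0 p h1).2).1
        (congrArg Prod.snd (h4.trans h2.symm))⟩
    · exact congrArg Prod.fst ((mem_filter.1 hp').2.trans (mem_filter.1 hp'').2.symm)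

theorem A_le (hR : StmtREP) (P : Finset V3) (i : ℕ) :
    ∑ x ∈ P, #(A P x i) ≤ ∑ l ∈ lines P with 8 ^ i + 1 ≤ #l, #l := by
  have h1 : ∀ x ∈ P, #(A P x i) ≤ ∑ l ∈ lines P with 8 ^ i + 1 ≤ #l, if x ∈ l then 1 else 0 := by
    intro x hx
    have h2 : ∀ y ∈ Y P x i, {z ∈ P | crossProduct (z - x) (rep (y - x)) = 0} = ln P x y := by
      intro y hy
      obtain ⟨t, h3, h4⟩ := hR.smul _ (sub_ne_zero.2 (ne_of_mem_erase (mem_filter.1 hy).1))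
      simp only [ln, h4, map_smul, smul_eq_zero, h3, false_or]
    rw [← card_filter]
    refine card_le_card_of_injOn (fun u => {z ∈ P | crossProduct (z - x) u = 0}) (fun u hu => ?_)
      fun u hu u' hu' h => ?_
    · obtain ⟨y, hy, rfl⟩ := mem_image.1 hu
      obtain ⟨h3, h4, -⟩ := mem_filter.1 hy
      obtain ⟨h5, h6⟩ := mem_erase.1 h3
      refine mem_filter.2 ⟨mem_filter.2 ⟨mem_image.2 ⟨(x, y), mem_offDiag.2 ⟨hx, h6, h5.symm⟩,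
        (h2 y hy).symm⟩, h4.trans_eq (congrArg card (h2 y hy).symm)⟩, mem_filter.2 ⟨hx, by simp⟩⟩
    · obtain ⟨y, hy, rfl⟩ := mem_image.1 hu
      obtain ⟨y', hy', rfl⟩ := mem_image.1 hu'
      obtain ⟨h3, h4⟩ := mem_erase.1 (mem_filter.1 hy).1
      have h5 : ln P x y = ln P x y' := (h2 y hy).symm.trans (h.trans (h2 y' hy'))
      have h6 : y ∈ ln P x y' := h5 ▸ mem_filter.2 ⟨h4, cross_self _⟩
      exact (hR.eq _ _ (sub_ne_zero.2 h3)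
        (sub_ne_zero.2 (ne_of_mem_erase (mem_filter.1 hy').1))).2 (mem_filter.1 h6).2
  refine (sum_le_sum h1).trans ?_
  rw [sum_comm]
  refine sum_le_sum fun l _ => ?_
  rw [← card_filter]
  exact card_le_card fun z hz => (mem_filter.1 hz).2

theorem RT_le (P N : Finset V3) (k : ℕ) :
    #(RT P N k) ≤ ∑ i ∈ range (Nat.log 8 k + 1), ∑ x ∈ P, #(T P N k x i) := by
  refine le_trans (card_le_card (t := (range (Nat.log 8 k + 1)).biUnion fun i =>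
    P.biUnion fun x => (T P N k x i).image fun p => (x, p)) fun p hp => ?_)
    (card_biUnion_le.trans (sum_le_sum fun i _ => card_biUnion_le.trans
      (sum_le_sum fun x _ => card_image_le)))
  obtain ⟨h1, h2, h3, h4, h5⟩ := mem_filter.1 hp
  obtain ⟨h6, h7⟩ := mem_product.1 h1
  obtain ⟨h8, h9⟩ := mem_product.1 h7
  have h10 : 1 < #(ln P p.1 p.2.1) := one_lt_card.2 ⟨p.1, mem_filter.2 ⟨h6, by simp⟩, p.2.1,
    mem_filter.2 ⟨h8, cross_self _⟩, h2⟩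
  have h11 := Nat.pow_log_le_self 8 (show #(ln P p.1 p.2.1) - 1 ≠ 0 by omega)
  have h12 := Nat.lt_pow_succ_log_self (show 1 < 8 by norm_num) (#(ln P p.1 p.2.1) - 1)
  exact mem_biUnion.2 ⟨Nat.log 8 (#(ln P p.1 p.2.1) - 1), mem_range.2 (Nat.lt_succ_of_le
    (Nat.log_mono_right (by omega))), mem_biUnion.2 ⟨p.1, h6, mem_image.2 ⟨p.2, mem_filter.2
      ⟨mem_product.2 ⟨mem_filter.2 ⟨mem_erase.2 ⟨h2.symm, h8⟩, by omega, by
        rw [Nat.succ_eq_add_one] at h12; omega⟩, mem_filter.2 ⟨h9, h5⟩⟩, h3⟩, rfl⟩⟩⟩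

theorem arith {C₁ C₂ C₃ a q n S I : ℕ} (hq : 0 < q) (ha : 0 < a) (haq : a ^ 3 ≤ q ^ 4)
    (hn : n ≤ q ^ 9) (h1 : (a ^ 3 + 1) ^ 2 * S ≤ C₃ * (n ^ 2 + (a ^ 3 + 1) ^ 2 * n))
    (h2 : (a ^ 2 * q) ^ 2 * I ≤ C₁ * ((a ^ 2 * q) ^ 3 * S + n * (2 * C₂ * q ^ 6) ^ 2 +
      (a ^ 2 * q) ^ 2 * (n * (2 * C₂ * q ^ 6)))) :
    a ^ 4 * I ≤ C₁ * (4 * C₃ + 4 * C₂ ^ 2 + 2 * C₂) * (q ^ 19 + a ^ 4 * q ^ 15) := by
  have h3 : a ^ 2 ≤ q ^ 5 := (Nat.pow_le_pow_right ha (by norm_num)).trans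
    (haq.trans (Nat.pow_le_pow_right hq (by norm_num)))
  have h4 : a ^ 6 * S ≤ C₃ * (q ^ 18 + 4 * a ^ 4 * q ^ 14) :=
    calc _ = (a ^ 3) ^ 2 * S := by ring
      _ ≤ (a ^ 3 + 1) ^ 2 * S := by gcongr; omega
      _ ≤ C₃ * (n ^ 2 + (a ^ 3 + 1) ^ 2 * n) := h1
      _ ≤ C₃ * ((q ^ 9) ^ 2 + (a ^ 3 + a ^ 3) ^ 2 * q ^ 9) := by
          gcongr
          exact Nat.one_le_pow _ _ ha
      _ = C₃ * (q ^ 18 + 4 * a ^ 4 * a ^ 2 * q ^ 9) := by ring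
      _ ≤ C₃ * (q ^ 18 + 4 * a ^ 4 * q ^ 5 * q ^ 9) := by gcongr
      _ = _ := by ring
  refine Nat.le_of_mul_le_mul_left ?_ (show 0 < q ^ 2 by positivity)
  calc _ = (a ^ 2 * q) ^ 2 * I := by ring
    _ ≤ _ := h2
    _ = C₁ * (q ^ 3 * (a ^ 6 * S) + n * (2 * C₂ * q ^ 6) ^ 2 +
        (a ^ 2 * q) ^ 2 * (n * (2 * C₂ * q ^ 6))) := by ring
    _ ≤ C₁ * (q ^ 3 * (C₃ * (q ^ 18 + 4 * a ^ 4 * q ^ 14)) + q ^ 9 * (2 * C₂ * q ^ 6) ^ 2 +
        (a ^ 2 * q) ^ 2 * (q ^ 9 * (2 * C₂ * q ^ 6))) := by gcongr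
    _ = q ^ 2 * (C₁ * ((C₃ + 4 * C₂ ^ 2) * q ^ 19 + (4 * C₃ + 2 * C₂) * (a ^ 4 * q ^ 15))) := by
        ring
    _ ≤ q ^ 2 * (C₁ * ((4 * C₃ + 4 * C₂ ^ 2 + 2 * C₂) * q ^ 19 +
        (4 * C₃ + 4 * C₂ ^ 2 + 2 * C₂) * (a ^ 4 * q ^ 15))) :=
        Nat.mul_le_mul_left _ (Nat.mul_le_mul_left _ (Nat.add_le_add
          (Nat.mul_le_mul_right _ (by omega)) (Nat.mul_le_mul_right _ (by omega))))
    _ = _ := by ring

end RBAux

open RBAux in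
theorem rb (hR : StmtREP) (hS : StmtPST) (hP : StmtRP) (hL : StmtRL) : StmtRB := by
  obtain ⟨C₁, h₁⟩ := hS
  obtain ⟨C₂, h₂⟩ := hP
  obtain ⟨C₃, h₃⟩ := hL
  set K := C₁ * (4 * C₃ + 4 * C₂ ^ 2 + 2 * C₂) with hK
  refine ⟨80 * K, fun P N q hN hq hn => ?_⟩
  rcases hq.eq_or_lt with rfl | hq2
  · rw [RT, filter_false_of_mem fun p hp h => h.1 (card_le_one.1 (by simpa using hn) _
      (mem_product.1 hp).1 _ (mem_product.1 (mem_product.1 hp).2).1)]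
    exact Nat.zero_le _
  have hl := L_le hR h₂ hN hq2 hn
  have key : ∀ i ∈ range (Nat.log 8 (q ^ 4) + 1), ((∑ x ∈ P, #(T P N (q ^ 4) x i) : ℕ) : ℝ) ≤
      8 * K * q ^ 19 * (1 / 2) ^ i + 8 * K * q ^ 15 * (8 ^ i : ℕ) := by
    intro i hi
    have e8 : 8 ^ i = (2 ^ i) ^ 3 := by rw [← pow_mul, mul_comm, pow_mul]; norm_num
    have h1 : 8 ^ i ≤ q ^ 4 :=
      Nat.pow_le_of_le_log (by positivity) (Nat.lt_succ_iff.1 (mem_range.1 hi))
    have h2 := (Nat.mul_le_mul_left ((8 ^ i + 1) ^ 2) (A_le hR P i)).trans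
      (h₃ P (8 ^ i + 1) (Nat.succ_le_succ (Nat.one_le_pow _ _ (by norm_num))))
    set I := ∑ x ∈ P, #{p ∈ L P N (q ^ 4) x ×ˢ A P x i | p.1 ⬝ᵥ p.2 = 0} with hI
    have h3 : ∑ x ∈ P, #(T P N (q ^ 4) x i) ≤ 8 ^ (i + 1) * I := by
      rw [hI, mul_sum]
      exact sum_le_sum fun x _ => T_le hR P N _ x i
    have h4 := arith (C₁ := C₁) (C₂ := C₂) (I := I) hq (show 0 < 2 ^ i by positivity) (e8 ▸ h1) hn
      (e8 ▸ h2) (by
        rw [hI, mul_sum]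
        refine (sum_le_sum fun x _ => (h₁ _ _ (NP.mono hN (filter_subset _ _))
          (NP.mono (np_dirs hR P x) (image_subset_image (filter_subset _ _))) _
          (Nat.mul_pos (by positivity) hq)).trans (Nat.mul_le_mul_left _ (Nat.add_le_add
            (Nat.add_le_add_left (Nat.pow_le_pow_left (hl x) 2) _)
            (Nat.mul_le_mul_left _ (hl x))))).trans (le_of_eq ?_)
        simp only [← mul_sum, sum_add_distrib, sum_const, smul_eq_mul, A, Y]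
        ring)
    have h5 : 2 ^ i * ∑ x ∈ P, #(T P N (q ^ 4) x i) ≤ 8 * (K * (q ^ 19 + (2 ^ i) ^ 4 * q ^ 15)) := by
      refine (Nat.mul_le_mul_left _ h3).trans (le_trans (le_of_eq ?_) (Nat.mul_le_mul_left 8 h4))
      rw [pow_succ, e8]
      ring
    refine le_of_mul_le_mul_left (((Nat.cast_mul _ _).symm.trans_le
      ((Nat.cast_le (α := ℝ)).2 h5)).trans (le_of_eq ?_)) (by positivity)
    rw [e8, _root_.one_div_pow]
    push_cast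
    field_simp
  have h1 : ∑ i ∈ range (Nat.log 8 (q ^ 4) + 1), 8 ^ i ≤ 8 * q ^ 4 := by
    refine (Nat.geomSum_lt (by norm_num) fun i hi => mem_range.1 hi).le.trans ?_
    rw [pow_succ']
    exact Nat.mul_le_mul_left 8 (Nat.pow_log_le_self 8 (by positivity))
  have h2 := ((Nat.cast_le (α := ℝ)).2 (RT_le P N (q ^ 4))).trans
    ((Nat.cast_sum _ _).trans_le (sum_le_sum key))
  rw [sum_add_distrib, ← mul_sum, ← mul_sum, ← Nat.cast_sum] at h2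
  refine (Nat.cast_le (α := ℝ)).1 (h2.trans ?_)
  calc _ ≤ (8 * K * q ^ 19 * 2 + 8 * K * q ^ 15 * (8 * q ^ 4 : ℕ) : ℝ) := by
        gcongr
        exact sum_geometric_two_le _
    _ = _ := by push_cast; ring

end Pool.Agent.MP_36f34d_co.H52
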