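import Pool.Agent.MP_36f34d_co.H52.Spec

/-!
Rich lines in the projective plane and in space.
-/

namespace Pool.Agent.MP_36f34d_co.H52

open Finset Matrix MvPolynomial

namespace RL

theorem inc_sum (A B : Finset V3) :
    #{p ∈ A ×ˢ B | p.1 ⬝ᵥ p.2 = 0} = ∑ v ∈ B, #{u ∈ A | u ⬝ᵥ v = 0} := by
  simp only [card_filter]
  rw [sum_product_right]

theorem cross_perp (u u' v : V3) (h : u ⬝ᵥ v = 0) (h' : u' ⬝ᵥ v = 0) :
    crossProduct v (crossProduct u u') = 0 := by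
  simp only [dotProduct, Fin.sum_univ_three] at h h'
  funext i
  fin_cases i
  · simp [cross_apply]
    linear_combination u 0 * h' - u' 0 * h
  · simp [cross_apply]
    linear_combination u 1 * h' - u' 1 * h
  · simp [cross_apply]
    linear_combination u 2 * h' - u' 2 * h

theorem inc_le (hR : StmtREP) {A B : Finset V3} (hA : NP A) (hB : NP B)
    (h2 : ∀ v ∈ B, 2 ≤ #{u ∈ A | u ⬝ᵥ v = 0}) :
    ∑ v ∈ B, #{u ∈ A | u ⬝ᵥ v = 0} ≤ #A ^ 2 := by
  have hd : (B : Set V3).PairwiseDisjoint fun v => ({u ∈ A | u ⬝ᵥ v = 0}).offDiag := by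
    intro v hv v' hv' hne
    rw [Function.onFun, disjoint_left]
    intro p hp hp'
    simp only [mem_offDiag, mem_filter] at hp hp'
    have hw : crossProduct p.1 p.2 ≠ 0 := fun h => hp.2.2 (hA.inj _ hp.1.1 _ hp.2.1.1 h)
    obtain ⟨t, ht⟩ := hR.par v _ hw (cross_perp _ _ _ hp.1.2 hp.2.1.2)
    obtain ⟨t', ht'⟩ := hR.par v' _ hw (cross_perp _ _ _ hp'.1.2 hp'.2.1.2)
    refine hne (hB.inj v hv v' hv' ?_)
    rw [ht, ht']
    simp
  calc ∑ v ∈ B, #{u ∈ A | u ⬝ᵥ v = 0}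
      ≤ ∑ v ∈ B, #(({u ∈ A | u ⬝ᵥ v = 0}).offDiag) := by
        refine sum_le_sum fun v hv => ?_
        rw [offDiag_card]
        have h := h2 v hv
        have h3 : 2 * #{u ∈ A | u ⬝ᵥ v = 0} ≤ #{u ∈ A | u ⬝ᵥ v = 0} * #{u ∈ A | u ⬝ᵥ v = 0} :=
          Nat.mul_le_mul_right _ h
        omega
    _ = #(B.biUnion fun v => ({u ∈ A | u ⬝ᵥ v = 0}).offDiag) := (card_biUnion hd).symm
    _ ≤ #(A ×ˢ A) := by
        refine card_le_card fun p hp => ?_
        simp only [mem_biUnion, mem_offDiag, mem_filter] at hp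
        obtain ⟨v, -, h1, h3, -⟩ := hp
        exact mem_product.2 ⟨h1.1, h3.1⟩
    _ = #A ^ 2 := by rw [card_product, sq]

theorem triple (x y z o : V3) : (z - o) ⬝ᵥ crossProduct (x - o) (y - o) =
    crossProduct (z - x) (y - x) ⬝ᵥ o - crossProduct (z - x) (y - x) ⬝ᵥ x := by
  simp [cross_apply, dotProduct, Fin.sum_univ_three]
  ring

theorem cross_off (x y o w : V3) (h : crossProduct (x - o) (y - o) = 0) :
    crossProduct w (y - x) ⬝ᵥ o = crossProduct w (y - x) ⬝ᵥ x := by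
  have h0 := congrFun h 0
  have h1 := congrFun h 1
  have h2 := congrFun h 2
  simp [cross_apply] at h0 h1 h2
  simp [cross_apply, dotProduct, Fin.sum_univ_three]
  linear_combination w 0 * h0 + w 1 * h1 + w 2 * h2

theorem exists_basis (d : V3) (hd : d ≠ 0) :
    ∃ i : Fin 3, crossProduct (Pi.single i 1 : V3) d ≠ 0 := by
  by_contra h
  push Not at h
  have h0 := congrFun (h 0) 1
  have h1 := congrFun (h 0) 2
  have h2 := congrFun (h 1) 2
  simp [cross_apply] at h0 h1 h2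
  apply hd
  funext i
  fin_cases i
  · simpa using h2
  · simpa using h1
  · simpa using h0

/-- A point in general position. -/
theorem generic (hR : StmtREP) (P : Finset V3) : ∃ o : V3, (∀ x ∈ P, x - o ≠ 0) ∧
    (∀ x ∈ P, ∀ y ∈ P, x ≠ y → crossProduct (x - o) (y - o) ≠ 0) ∧
    ∀ x ∈ P, ∀ y ∈ P, ∀ z ∈ P,
      ((z - o) ⬝ᵥ crossProduct (x - o) (y - o) = 0 ↔ crossProduct (z - x) (y - x) = 0) := by
  let W : Finset V3 := (P ×ˢ P).image (fun p => p.1 - p.2) ∪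
    (univ : Finset (Fin 3)).image fun i => (Pi.single i 1 : V3)
  let L : Finset (V3 × ℝ) :=
    {q ∈ (P ×ˢ P ×ˢ W).image (fun p => (crossProduct p.2.2 (p.2.1 - p.1),
        crossProduct p.2.2 (p.2.1 - p.1) ⬝ᵥ p.1)) ∪
      P.image (fun x => ((Pi.single 0 1 : V3), (Pi.single 0 1 : V3) ⬝ᵥ x)) | q.1 ≠ 0}
  obtain ⟨o, ho⟩ := hR.gen L fun p hp => (mem_filter.1 hp).2
  have key : ∀ x ∈ P, ∀ y ∈ P, ∀ w ∈ W, crossProduct w (y - x) ≠ 0 →
      crossProduct w (y - x) ⬝ᵥ o ≠ crossProduct w (y - x) ⬝ᵥ x := by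
    intro x hx y hy w hw hne
    exact ho (crossProduct w (y - x), crossProduct w (y - x) ⬝ᵥ x) (mem_filter.2
      ⟨mem_union_left _ (mem_image.2 ⟨(x, y, w), by simp [hx, hy, hw], rfl⟩), hne⟩)
  refine ⟨o, fun x hx h => ?_, fun x hx y hy hxy h => ?_, fun x hx y hy z hz => ⟨fun h => ?_,
    fun h => ?_⟩⟩
  · have h1 : (Pi.single 0 1 : V3) ≠ 0 := fun h2 => by simpa using congrFun h2 0
    refine ho ((Pi.single 0 1 : V3), (Pi.single 0 1 : V3) ⬝ᵥ x) (mem_filter.2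
      ⟨mem_union_right _ (mem_image.2 ⟨x, hx, rfl⟩), h1⟩) ?_
    rw [sub_eq_zero.1 h]
  · obtain ⟨i, hi⟩ := exists_basis (y - x) (sub_ne_zero.2 hxy.symm)
    exact key x hx y hy _ (mem_union_right _ (mem_image.2 ⟨i, mem_univ _, rfl⟩)) hi
      (cross_off x y o _ h)
  · by_contra hne
    refine key x hx y hy (z - x)
      (mem_union_left _ (mem_image.2 ⟨(z, x), mem_product.2 ⟨hz, hx⟩, rfl⟩)) hne ?_
    rw [triple] at h
    exact sub_eq_zero.1 h
  · rw [triple, h]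
    simp

end RL

open RL

theorem rp : StmtREP → StmtPST → StmtRP := by
  intro hR ⟨C0, hC⟩
  refine ⟨32 * (C0 + 1) ^ 3, fun A B hA hB k hk hdeg => ?_⟩
  set C := C0 + 1 with hCd
  have hC1 : 1 ≤ C := by omega
  set I := #{p ∈ A ×ˢ B | p.1 ⬝ᵥ p.2 = 0} with hI
  have hsum : I = ∑ v ∈ B, #{u ∈ A | u ⬝ᵥ v = 0} := inc_sum A B
  by_cases hbig : 2 * C ≤ k
  · have hkB : k * #B ≤ I := by
      rw [hsum, mul_comm, ← smul_eq_mul]
      exact card_nsmul_le_sum _ _ _ hdeg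
    set r := k / (2 * C) with hr
    have hr1 : 1 ≤ r := (Nat.one_le_div_iff (by omega)).2 hbig
    have h1 : 2 * C * r ≤ k := Nat.mul_div_le _ _
    have h2 : k < 2 * C * (r + 1) := Nat.lt_mul_div_succ _ (by omega)
    have h3 : k ≤ 4 * C * r := by nlinarith
    have h4 : r ^ 2 * I ≤ C * (r ^ 3 * #B + #A ^ 2 + r ^ 2 * #A) :=
      (hC A B hA hB r hr1).trans (Nat.mul_le_mul_right _ (by omega))
    have h5 : 2 * (C * (r ^ 3 * #B)) ≤ r ^ 2 * I :=
      calc 2 * (C * (r ^ 3 * #B)) = r ^ 2 * (2 * C * r * #B) := by ring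
        _ ≤ r ^ 2 * (k * #B) := by gcongr
        _ ≤ r ^ 2 * I := by gcongr
    have h6 : r ^ 2 * I ≤ 2 * (C * (#A ^ 2 + r ^ 2 * #A)) := by
      have : C * (r ^ 3 * #B + #A ^ 2 + r ^ 2 * #A) =
          C * (r ^ 3 * #B) + C * (#A ^ 2 + r ^ 2 * #A) := by ring
      omega
    have h7 : r ≤ k := by nlinarith
    calc k ^ 2 * I ≤ (4 * C * r) ^ 2 * I := by gcongr
      _ = 16 * C ^ 2 * (r ^ 2 * I) := by ring
      _ ≤ 16 * C ^ 2 * (2 * (C * (#A ^ 2 + k ^ 2 * #A))) := by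
          refine Nat.mul_le_mul_left _ (h6.trans ?_)
          gcongr
      _ = 32 * C ^ 3 * (#A ^ 2 + k ^ 2 * #A) := by ring
  · have h1 : I ≤ #A ^ 2 := by
      rw [hsum]
      exact inc_le hR hA hB fun v hv => hk.trans (hdeg v hv)
    have h2 : k ≤ 2 * C := by omega
    calc k ^ 2 * I ≤ (2 * C) ^ 2 * #A ^ 2 := by gcongr
      _ = 4 * 1 * C ^ 2 * (#A ^ 2 + 0) := by ring
      _ ≤ 32 * C * C ^ 2 * (#A ^ 2 + k ^ 2 * #A) := by
          gcongr
          · norm_num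
          · exact Nat.zero_le _
      _ = 32 * C ^ 3 * (#A ^ 2 + k ^ 2 * #A) := by ring

theorem rl : StmtREP → StmtRP → StmtRL := by
  intro hR ⟨C, hC⟩
  refine ⟨C, fun P k hk => ?_⟩
  obtain ⟨o, ho1, ho2, ho3⟩ := generic hR P
  have hl : ∀ l ∈ lines P, ∃ n : V3, n ≠ 0 ∧ l ⊆ P ∧
      ∀ z ∈ P, (z ∈ l ↔ rep (z - o) ⬝ᵥ rep n = 0) := by
    intro l hl
    obtain ⟨p, hp, rfl⟩ := mem_image.1 hl
    obtain ⟨hx, hy, hxy⟩ := mem_offDiag.1 hp
    have hn := ho2 _ hx _ hy hxy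
    refine ⟨_, hn, filter_subset _ _, fun z hz => ?_⟩
    obtain ⟨s, hs, hs'⟩ := hR.smul _ (ho1 z hz)
    obtain ⟨t, ht, ht'⟩ := hR.smul _ hn
    rw [hs', ht', smul_dotProduct, dotProduct_smul, smul_eq_mul, smul_eq_mul, mul_eq_zero,
      mul_eq_zero, ho3 _ hx _ hy z hz]
    simp [ln, hz, hs, ht]
  choose! n hn0 hnP hn using hl
  set R := {l ∈ lines P | k ≤ #l} with hRd
  set A := (P.image fun x => x - o).image rep with hAd
  set B := (R.image n).image rep with hBd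
  have hA : NP A := hR.np _ fun u hu => by
    obtain ⟨x, hx, rfl⟩ := mem_image.1 hu
    exact ho1 x hx
  have hB : NP B := hR.np _ fun u hu => by
    obtain ⟨l, hl, rfl⟩ := mem_image.1 hu
    exact hn0 l (mem_filter.1 hl).1
  have hAP : #A ≤ #P := card_image_le.trans card_image_le
  have hcard : ∀ l ∈ lines P, #{u ∈ A | u ⬝ᵥ rep (n l) = 0} = #l := by
    intro l hl
    have h1 : {u ∈ A | u ⬝ᵥ rep (n l) = 0} = l.image fun z => rep (z - o) := by
      ext u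
      simp only [hAd, mem_filter, mem_image]
      constructor
      · rintro ⟨⟨_, ⟨z, hz, rfl⟩, rfl⟩, h⟩
        exact ⟨z, (hn l hl z hz).2 h, rfl⟩
      · rintro ⟨z, hz, rfl⟩
        exact ⟨⟨_, ⟨z, hnP l hl hz, rfl⟩, rfl⟩, (hn l hl z (hnP l hl hz)).1 hz⟩
    rw [h1]
    refine card_image_of_injOn fun z hz z' hz' h => ?_
    have hzP := hnP l hl hz
    have hzP' := hnP l hl hz'
    by_contra hne
    exact ho2 z hzP z' hzP' hne ((hR.eq _ _ (ho1 z hzP) (ho1 z' hzP')).1 h)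
  have hinj : Set.InjOn (fun l => rep (n l)) R := by
    intro l hl l' hl' h
    have h1 := (mem_filter.1 hl).1
    have h2 := (mem_filter.1 hl').1
    have h3 : rep (n l) = rep (n l') := h
    ext z
    constructor
    · intro hz
      have hzP := hnP l h1 hz
      rw [hn l' h2 z hzP, ← h3]
      exact (hn l h1 z hzP).1 hz
    · intro hz
      have hzP := hnP l' h2 hz
      rw [hn l h1 z hzP, h3]
      exact (hn l' h2 z hzP).1 hz
  have hB' : B = R.image fun l => rep (n l) := by rw [hBd, image_image]; rfl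
  have hsum : #{p ∈ A ×ˢ B | p.1 ⬝ᵥ p.2 = 0} = ∑ l ∈ R, #l := by
    rw [inc_sum, hB', sum_image hinj]
    exact sum_congr rfl fun l hl => hcard l (mem_filter.1 hl).1
  have h1 := hC A B hA hB k hk fun v hv => by
    rw [hB'] at hv
    obtain ⟨l, hl, rfl⟩ := mem_image.1 hv
    rw [hcard l (mem_filter.1 hl).1]
    exact (mem_filter.1 hl).2
  rw [hsum] at h1
  refine h1.trans ?_
  gcongr

end Pool.Agent.MP_36f34d_co.H52
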