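import Pool.Agent.MP_36f34d_co.H52.Spec

/-!
Elementary facts on directions, lines and spheres in space.
-/

namespace Pool.Agent.MP_36f34d_co.H52

open Finset Matrix MvPolynomial

namespace RepAux

lemma smul (v : V3) (hv : v ≠ 0) : ∃ t : ℝ, t ≠ 0 ∧ rep v = t • v := by
  unfold rep
  split_ifs with h0 h1
  · exact ⟨_, inv_ne_zero h0, rfl⟩
  · exact ⟨_, inv_ne_zero h1, rfl⟩
  · refine ⟨_, inv_ne_zero fun h2 => hv ?_, rfl⟩
    funext i
    fin_cases i
    exacts [not_not.1 h0, not_not.1 h1, h2]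

lemma par (u v : V3) (hv : v ≠ 0) (h : crossProduct u v = 0) : ∃ t : ℝ, u = t • v := by
  have e := cross_cross_eq_smul_sub_smul u v v
  rw [h, map_zero, LinearMap.zero_apply, eq_comm, sub_eq_zero] at e
  have n : v ⬝ᵥ v ≠ 0 := fun x => hv (dotProduct_self_eq_zero.1 x)
  exact ⟨(v ⬝ᵥ v)⁻¹ * (u ⬝ᵥ v), by rw [mul_smul, e, inv_smul_smul₀ n]⟩

lemma rep_smul (t : ℝ) (ht : t ≠ 0) (v : V3) : rep (t • v) = rep v := by
  have e : ∀ a : ℝ, (t * a)⁻¹ • t • v = a⁻¹ • v := fun a => by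
    rw [smul_smul, mul_inv, mul_right_comm, inv_mul_cancel₀ ht, one_mul]
  simp only [rep, Pi.smul_apply, smul_eq_mul, ne_eq, mul_eq_zero, ht, false_or, e]

lemma cross_smul (s t : ℝ) (u v : V3) :
    crossProduct (s • u) (t • v) = (s * t) • crossProduct u v := by
  simp only [map_smul, LinearMap.smul_apply, smul_smul, mul_comm]

lemma eq (u v : V3) (hu : u ≠ 0) (hv : v ≠ 0) : rep u = rep v ↔ crossProduct u v = 0 := by
  constructor
  · intro h
    obtain ⟨s, s0, hs⟩ := smul u hu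
    obtain ⟨t, t0, ht⟩ := smul v hv
    have := cross_smul s t u v
    rw [← hs, ← ht, h, cross_self] at this
    exact (smul_eq_zero.1 this.symm).resolve_left (mul_ne_zero s0 t0)
  · intro h
    obtain ⟨t, rfl⟩ := par u v hv h
    exact rep_smul t (fun x => hu (by rw [x, zero_smul])) v

lemma np (A : Finset V3) (hA : ∀ u ∈ A, u ≠ 0) : NP (A.image rep) := by
  constructor
  · intro w hw
    obtain ⟨u, hu, rfl⟩ := mem_image.1 hw
    obtain ⟨s, s0, hs⟩ := smul u (hA u hu)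
    rw [hs]
    exact smul_ne_zero s0 (hA u hu)
  · intro w hw w' hw' h
    obtain ⟨u, hu, rfl⟩ := mem_image.1 hw
    obtain ⟨v, hv, rfl⟩ := mem_image.1 hw'
    obtain ⟨s, s0, hs⟩ := smul u (hA u hu)
    obtain ⟨t, t0, ht⟩ := smul v (hA v hv)
    rw [hs, ht, cross_smul] at h
    exact (eq u v (hA u hu) (hA v hv)).2 ((smul_eq_zero.1 h).resolve_left (mul_ne_zero s0 t0))

lemma ln_eq (P : Finset V3) (x y x' y' : V3) (h : x ≠ y) (h' : x' ≠ y') (hx : x' ∈ ln P x y)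
    (hy : y' ∈ ln P x y) : ln P x' y' = ln P x y := by
  have n : y - x ≠ 0 := sub_ne_zero.2 h.symm
  obtain ⟨s, hs⟩ := par _ _ n (mem_filter.1 hx).2
  obtain ⟨t, ht⟩ := par _ _ n (mem_filter.1 hy).2
  have e1 : y' - x' = (t - s) • (y - x) := by rw [sub_smul, ← hs, ← ht]; abel
  have ts : t - s ≠ 0 := fun z => h' (by rw [z, zero_smul, sub_eq_zero] at e1; exact e1.symm)
  refine filter_congr fun z _ => ?_
  have e2 : z - x' = (z - x) - s • (y - x) := by rw [← hs]; abel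
  rw [e1, e2, map_smul, map_sub crossProduct, LinearMap.sub_apply, map_smul, LinearMap.smul_apply,
    cross_self, smul_zero, sub_zero, smul_eq_zero, or_iff_right ts]

lemma gen (L : Finset (V3 × ℝ)) (hL : ∀ p ∈ L, p.1 ≠ 0) : ∃ o : V3, ∀ p ∈ L, p.1 ⬝ᵥ o ≠ p.2 := by
  by_contra h
  push Not at h
  have ev : ∀ (p : V3 × ℝ) (o : V3),
      eval o (∑ i, C (p.1 i) * X i - C p.2 : MvPolynomial (Fin 3) ℝ) = p.1 ⬝ᵥ o - p.2 := by
    intro p o
    simp [dotProduct]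
  have : ∏ p ∈ L, (∑ i, C (p.1 i) * X i - C p.2 : MvPolynomial (Fin 3) ℝ) = 0 :=
    MvPolynomial.funext fun o => by
      obtain ⟨p, hp, e⟩ := h o
      rw [map_prod, map_zero]
      exact prod_eq_zero hp (by rw [ev, e, sub_self])
  obtain ⟨p, hp, e⟩ := prod_eq_zero_iff.1 this
  have e1 := ev p 0
  have e2 := ev p p.1
  rw [e, map_zero] at e1 e2
  rw [dotProduct_zero] at e1
  exact hL p hp (dotProduct_self_eq_zero.1 (by linarith))

lemma one (S : Finset V3) (p u o : V3) (R : ℝ) (hu : u ≠ 0) :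
    #{x ∈ S | crossProduct (x - p) u = 0 ∧ (x - o) ⬝ᵥ (x - o) = R} ≤ 2 := by
  by_contra h
  obtain ⟨a, b, c, ha, hb, hc, ab, ac, bc⟩ := two_lt_card_iff.1 (not_le.1 h)
  have n : u ⬝ᵥ u ≠ 0 := fun x => hu (dotProduct_self_eq_zero.1 x)
  have key : ∀ x ∈ ({x ∈ S | crossProduct (x - p) u = 0 ∧ (x - o) ⬝ᵥ (x - o) = R} : Finset V3),
      ∃ t : ℝ, x = p + t • u ∧
        t ^ 2 * (u ⬝ᵥ u) + 2 * t * ((p - o) ⬝ᵥ u) + (p - o) ⬝ᵥ (p - o) = R := by
    intro x hx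
    obtain ⟨-, h1, h2⟩ := mem_filter.1 hx
    obtain ⟨t, ht⟩ := par _ _ hu h1
    refine ⟨t, by rw [← ht]; abel, ?_⟩
    rw [← h2, show x - o = (p - o) + t • u by rw [← ht]; abel]
    generalize p - o = w
    simp only [add_dotProduct, dotProduct_add, smul_dotProduct, dotProduct_smul, smul_eq_mul,
      dotProduct_comm u w]
    ring
  obtain ⟨r, rfl, hr⟩ := key a ha
  obtain ⟨s, rfl, hs⟩ := key b hb
  obtain ⟨t, rfl, ht⟩ := key c hc
  have rs : r - s ≠ 0 := sub_ne_zero.2 fun z => ab (by rw [z])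
  have rt : r - t ≠ 0 := sub_ne_zero.2 fun z => ac (by rw [z])
  have st : s - t ≠ 0 := sub_ne_zero.2 fun z => bc (by rw [z])
  refine mul_ne_zero (mul_ne_zero (mul_ne_zero rs rt) st) n ?_
  linear_combination (s - t) * hr - (r - t) * hs + (r - s) * ht

lemma two (S : Finset V3) (u v o : V3) (s t R : ℝ) (h : crossProduct u v ≠ 0) :
    #{x ∈ S | x ⬝ᵥ u = s ∧ x ⬝ᵥ v = t ∧ (x - o) ⬝ᵥ (x - o) = R} ≤ 2 := by
  rcases eq_empty_or_nonempty
    ({x ∈ S | x ⬝ᵥ u = s ∧ x ⬝ᵥ v = t ∧ (x - o) ⬝ᵥ (x - o) = R} : Finset V3) with e | ⟨p, hp⟩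
  · rw [e]; simp
  obtain ⟨-, p1, p2, -⟩ := mem_filter.1 hp
  refine le_trans (card_le_card fun x hx => ?_) (one S p _ o R h)
  obtain ⟨x0, x1, x2, x3⟩ := mem_filter.1 hx
  refine mem_filter.2 ⟨x0, ?_, x3⟩
  rw [cross_cross_eq_smul_sub_smul', dotProduct_comm u, sub_dotProduct, sub_dotProduct, x1, x2, p1,
    p2, sub_self, sub_self, zero_smul, zero_smul, sub_self]

end RepAux

theorem rep' : StmtREP :=
  ⟨RepAux.smul, RepAux.eq, RepAux.np, RepAux.par, RepAux.ln_eq, RepAux.gen⟩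

theorem geo : StmtGEO := ⟨RepAux.one, RepAux.two⟩

end Pool.Agent.MP_36f34d_co.H52
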