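import Pool.Agent.MP_36f34d_co.H52.Spec

/-! The bound for similar triangles from the modules. -/

namespace Pool.Agent.MP_36f34d_co.H52

open Finset Matrix MvPolynomial

namespace TriAux

theorem pl_rep (hREP : StmtREP) (P : Finset V3) (x ν : V3) (hν : ν ≠ 0) :
    pl P x (rep ν) = pl P x ν := by
  obtain ⟨t, ht, e⟩ := hREP.smul ν hν
  ext z
  simp [pl, e, ht]

theorem mem_ln_left (P : Finset V3) {x : V3} (y : V3) (hx : x ∈ P) : x ∈ ln P x y := by
  simp [ln, hx]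

theorem mem_ln_right (P : Finset V3) (x : V3) {y : V3} (hy : y ∈ P) : y ∈ ln P x y := by
  simp [ln, hy]

theorem perp {τ e : ℝ} {a b c c' : V3} (h : Sh τ e a b c) (h' : Sh τ e a b c') :
    (b - a) ⬝ᵥ (c' - c) = 0 := by
  have e1 : c' - c = (c' - a) - (c - a) := by abel
  rw [e1, dotProduct_sub, dotProduct_comm (b - a) (c' - a), dotProduct_comm (b - a) (c - a), h.2.1,
    h'.2.1, sub_self]

/-- Pairs in the same class. -/
theorem pairs {P : Finset V3} {r D : ℕ} {f : MvPolynomial (Fin 3) ℝ} {cls : V3 → ℕ}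
    (hf : Part P r D f cls) :
    r ^ 3 * #{p ∈ P ×ˢ P | eval p.2 f ≠ 0 ∧ cls p.2 = cls p.1} ≤ #P ^ 2 := by
  classical
  rw [card_eq_sum_card_fiberwise (f := Prod.fst) (t := P)
    (fun p hp => (mem_product.1 (mem_filter.1 hp).1).1), mul_sum, sq, ← smul_eq_mul #P #P,
    ← sum_const]
  refine sum_le_sum fun c _ => le_trans (Nat.mul_le_mul_left _ ?_) (hf.size (cls c))
  refine card_le_card_of_injOn Prod.snd ?_ ?_
  · intro p hp
    simp only [coe_filter, mem_filter, mem_product, Set.mem_ofPred_eq] at hp ⊢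
    exact ⟨hp.1.1.2, hp.1.2.1, hp.2 ▸ hp.1.2.2⟩
  · intro p hp p' hp' h
    simp only [coe_filter, mem_filter, Set.mem_ofPred_eq] at hp hp'
    exact Prod.ext (hp.2.trans hp'.2.symm) h

end TriAux

open TriAux

theorem tri (hPART : StmtPART) (hREP : StmtREP) (hRB : StmtRB) (hZ : StmtZERO) (hC : StmtCONS)
    (hL : StmtLINE) (hP : StmtPOOR) : StmtTRI := by
  classical
  obtain ⟨C1, hC1⟩ := hPART 3 (by norm_num)
  obtain ⟨C2, hC2⟩ := hRB
  obtain ⟨C3, hC3⟩ := hL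
  obtain ⟨C4, hC4⟩ := hP
  refine ⟨(2 * C1 + 5) + (4 * C1 + 6) + 2 * C3 + C4 + 6 * C2, fun P τ e q he hq hn => ?_⟩
  rcases hq.eq_or_lt with rfl | hq2
  · have : tris P τ e = ∅ := by
      refine eq_empty_of_forall_notMem fun p hp => ?_
      simp only [tris, mem_filter, mem_product] at hp
      exact hp.2.1 (card_le_one.1 (by simpa using hn) _ hp.1.1 _ hp.1.2.1)
    simp [this]
  have hk2 : 2 ≤ q ^ 4 := le_trans hq2 (Nat.le_self_pow (by norm_num) q)
  obtain ⟨f, cls, hf⟩ := hC1 P q hq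
  have hQ0 := fun (a b : V3) (h : a ≠ b) => hC P q (C1 * q) f cls τ e a b hf he h
  choose! Q hQ1 hQ2 hQ3 hQ4 using hQ0
  set W : Finset ((V3 × V3) × V3 × V3) :=
    {w ∈ (P ×ˢ P) ×ˢ P ×ˢ P | w.1.1 ≠ w.1.2 ∧ w.2 ∈ Q w.1.1 w.1.2} with hW
  have memW : ∀ w ∈ W, w.1.1 ∈ P ∧ w.1.2 ∈ P ∧ w.1.1 ≠ w.1.2 ∧ w.2 ∈ Q w.1.1 w.1.2 := by
    intro w hw
    simp only [hW, mem_filter, mem_product] at hw
    exact ⟨hw.1.1.1, hw.1.1.2, hw.2.1, hw.2.2⟩
  have hn2 : #P ^ 2 ≤ q ^ 18 := le_trans (Nat.pow_le_pow_left hn 2) (by rw [← pow_mul])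
  have hq1 : ∀ i j, i ≤ j → q ^ i ≤ q ^ j := fun i j h => Nat.pow_le_pow_right hq h
  -- the zero set
  have s0 : #{p ∈ tris P τ e | eval p.2.2 f = 0} ≤ (2 * C1 + 5) * q ^ 19 := by
    refine (hZ P τ e f he hf.ne).trans ?_
    have h1 := hf.deg
    calc (2 * f.totalDegree + 5) * #P ^ 2 ≤ (2 * (C1 * q) + 5 * q) * q ^ 18 := by
          gcongr
          omega
      _ = (2 * C1 + 5) * q ^ 19 := by ring
  -- off the zero set
  have s1 : #{p ∈ tris P τ e | ¬ eval p.2.2 f = 0} ≤ #W + (4 * C1 + 6) * q ^ 19 := by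
    have a1 : #{p ∈ tris P τ e | ¬ eval p.2.2 f = 0} ≤
        ∑ x ∈ P ×ˢ P, (#{w ∈ W | w.1 = x} + (4 * (C1 * q) + 6)) := by
      rw [card_eq_sum_card_fiberwise (f := fun p : V3 × V3 × V3 => (p.1, p.2.1)) (t := P ×ˢ P)]
      · refine sum_le_sum fun x hx => ?_
        by_cases hx2 : x.1 = x.2
        · rw [card_eq_zero.2]
          · exact Nat.zero_le _
          · refine eq_empty_of_forall_notMem fun p hp => ?_
            simp only [tris, mem_filter, mem_product] at hp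
            obtain ⟨⟨⟨-, h⟩, -⟩, rfl⟩ := hp
            exact h.1 hx2
        have b1 : #{p ∈ {p ∈ tris P τ e | ¬ eval p.2.2 f = 0} | (p.1, p.2.1) = x} ≤
            #{c ∈ P | Sh τ e x.1 x.2 c ∧ eval c f ≠ 0} := by
          refine card_le_card_of_injOn (fun p => p.2.2) ?_ ?_
          · intro p hp
            simp only [tris, coe_filter, mem_filter, mem_product, Set.mem_ofPred_eq] at hp ⊢
            obtain ⟨⟨⟨h1, h2⟩, h3⟩, rfl⟩ := hp
            exact ⟨h1.2.2, h2, h3⟩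
          · intro p hp p' hp' h
            simp only [coe_filter, mem_filter, Set.mem_ofPred_eq] at hp hp'
            have := hp.2.trans hp'.2.symm
            simp only [Prod.mk.injEq] at this
            exact Prod.ext this.1 (Prod.ext this.2 h)
        have b2 : #(Q x.1 x.2) ≤ #{w ∈ W | w.1 = x} := by
          refine card_le_card_of_injOn (fun p => (x, p)) ?_ ?_
          · intro p hp
            have := hQ1 x.1 x.2 hx2 p hp
            simp only [hW, coe_filter, mem_filter, mem_product, Set.mem_ofPred_eq, and_true]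
            exact ⟨⟨mem_product.1 hx, this.1, this.2.1⟩, hx2, hp⟩
          · intro p _ p' _ h
            exact (Prod.ext_iff.1 h).2
        have b3 := hQ3 x.1 x.2 hx2
        omega
      · intro p hp
        simp only [tris, coe_filter, mem_filter, mem_product, Set.mem_ofPred_eq, mem_coe] at hp ⊢
        exact ⟨hp.1.1.1, hp.1.1.2.1⟩
    rw [sum_add_distrib, ← card_eq_sum_card_fiberwise (f := Prod.fst), sum_const, card_product,
      smul_eq_mul] at a1
    · refine a1.trans (Nat.add_le_add_left ?_ _)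
      calc #P * #P * (4 * (C1 * q) + 6) ≤ q ^ 18 * (4 * (C1 * q) + 6 * q) := by
            rw [← sq]
            gcongr
            omega
        _ = (4 * C1 + 6) * q ^ 19 := by ring
    · intro w hw
      exact mem_coe.2 (mem_product.2 ⟨(memW w hw).1, (memW w hw).2.1⟩)
  -- rich lines
  have t1 : #{w ∈ W | q ^ 4 ≤ #(ln P w.1.1 w.1.2)} ≤ 2 * C3 * q ^ 19 := by
    have a1 : #{w ∈ W | q ^ 4 ≤ #(ln P w.1.1 w.1.2)} ≤
        #{p ∈ tris P τ e | q ^ 4 ≤ #(ln P p.1 p.2.1)} := by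
      refine card_le_card_of_injOn (fun w => (w.1.1, w.1.2, w.2.1)) ?_ ?_
      · intro w hw
        obtain ⟨hw, h⟩ := mem_filter.1 hw
        obtain ⟨h1, h2, h3, h4⟩ := memW w hw
        have := hQ1 _ _ h3 _ h4
        simp only [tris, coe_filter, mem_filter, mem_product, Set.mem_ofPred_eq]
        exact ⟨⟨⟨h1, h2, this.1⟩, this.2.2.1⟩, h⟩
      · intro w hw w' hw' h
        simp only [Prod.mk.injEq] at h
        obtain ⟨-, -, h3, h4⟩ := memW w (mem_filter.1 hw).1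
        obtain ⟨-, -, -, h4'⟩ := memW w' (mem_filter.1 hw').1
        rw [← h.1, ← h.2.1] at h4'
        exact Prod.ext (Prod.ext h.1 h.2.1) (hQ2 _ _ h3 _ h4 _ h4' h.2.2)
    have a2 := hC3 P τ e (q ^ 4) he hk2
    have a3 : (q ^ 4) ^ 3 * #{p ∈ tris P τ e | q ^ 4 ≤ #(ln P p.1 p.2.1)} ≤
        (q ^ 4) ^ 3 * (2 * C3 * q ^ 19) := by
      refine a2.trans ?_
      calc C3 * #P * (#P ^ 2 + (q ^ 4) ^ 2 * #P) ≤ C3 * q ^ 9 * (q ^ 22 + (q ^ 4) ^ 2 * q ^ 14) := by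
            have e1 := hn2.trans (hq1 18 22 (by norm_num))
            have e2 := hn.trans (hq1 9 14 (by norm_num))
            exact Nat.mul_le_mul (Nat.mul_le_mul_left _ hn)
              (Nat.add_le_add e1 (Nat.mul_le_mul_left _ e2))
        _ = (q ^ 4) ^ 3 * (2 * C3 * q ^ 19) := by ring
    exact a1.trans (Nat.le_of_mul_le_mul_left a3 (by positivity))
  -- poor planes
  have t2 : #{w ∈ W | #(ln P w.1.1 w.1.2) ≤ q ^ 4 ∧
      #(dirs (pl P w.1.1 (w.2.2 - w.2.1)) w.1.1) ≤ q ^ 4 ∧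
      #(dirs (pl P w.1.2 (w.2.2 - w.2.1)) w.1.2) ≤ q ^ 4} ≤ C4 * q ^ 19 := by
    have a1 := pairs hf
    set M := {p ∈ P ×ˢ P | eval p.2 f ≠ 0 ∧ cls p.2 = cls p.1} with hM
    have a2 : #M ≤ q ^ 15 := by
      refine Nat.le_of_mul_le_mul_left (c := q ^ 3) (a1.trans (hn2.trans ?_)) (by positivity)
      rw [← pow_add]
    refine le_trans (card_le_mul_card_image_of_maps_to (f := Prod.snd) (t := M) ?_ (C4 * q ^ 4) ?_) ?_
    · intro w hw
      obtain ⟨-, -, h3, h4⟩ := memW w (mem_filter.1 hw).1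
      have := hQ1 _ _ h3 _ h4
      exact mem_filter.2 ⟨mem_product.2 ⟨this.1, this.2.1⟩, this.2.2.2.2.2.1, this.2.2.2.2.2.2.1⟩
    · intro x _
      refine le_trans ?_ (hC4 P τ e (q ^ 4) x.1 x.2 he (by omega))
      refine card_le_card_of_injOn Prod.fst ?_ ?_
      · intro w hw
        obtain ⟨hw1, rfl⟩ := mem_filter.1 hw
        obtain ⟨hw2, h⟩ := mem_filter.1 hw1
        obtain ⟨h1, h2, h3, h4⟩ := memW w hw2
        have := hQ1 _ _ h3 _ h4
        simp only [coe_filter, mem_product, Set.mem_ofPred_eq]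
        exact ⟨⟨h1, h2⟩, this.2.2.1, this.2.2.2.1, this.2.2.2.2.2.2.2, h⟩
      · intro w hw w' hw' h
        exact Prod.ext h ((mem_filter.1 hw).2.trans (mem_filter.1 hw').2.symm)
    · calc C4 * q ^ 4 * #M ≤ C4 * q ^ 4 * q ^ 15 := by gcongr
        _ = C4 * q ^ 19 := by ring
  -- rich planes
  set N : Finset V3 := (P.offDiag.image fun p => p.2 - p.1).image rep with hN
  have hNP : NP N := by
    refine hREP.np _ fun u hu => ?_
    obtain ⟨p, hp, rfl⟩ := mem_image.1 hu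
    exact sub_ne_zero.2 (mem_offDiag.1 hp).2.2.symm
  have hR := hC2 P N q hNP hq hn
  have hne : ∀ w ∈ W, w.2.2 - w.2.1 ≠ 0 := by
    intro w hw h
    obtain ⟨-, -, h3, h4⟩ := memW w hw
    apply (hQ1 _ _ h3 _ h4).2.2.2.2.2.2.2
    rw [h]; simp
  have hNm : ∀ w ∈ W, rep (w.2.2 - w.2.1) ∈ N := by
    intro w hw
    obtain ⟨-, -, h3, h4⟩ := memW w hw
    have := hQ1 _ _ h3 _ h4
    exact mem_image_of_mem _ (mem_image.2 ⟨w.2, mem_offDiag.2
      ⟨this.1, this.2.1, (sub_ne_zero.1 (hne w hw)).symm⟩, rfl⟩)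
  have hperp : ∀ w ∈ W, (w.1.2 - w.1.1) ⬝ᵥ rep (w.2.2 - w.2.1) = 0 := by
    intro w hw
    obtain ⟨-, -, h3, h4⟩ := memW w hw
    have := hQ1 _ _ h3 _ h4
    obtain ⟨t, -, ht⟩ := hREP.smul _ (hne w hw)
    rw [ht, dotProduct_smul, perp this.2.2.1 this.2.2.2.1, smul_zero]
  have fib : ∀ (a b ν : V3) (W' : Finset ((V3 × V3) × V3 × V3)), W' ⊆ W →
      (∀ w ∈ W', w.1 = (a, b) ∧ rep (w.2.2 - w.2.1) = ν) → #W' ≤ 3 := by
    intro a b ν W' hW' h
    rcases W'.eq_empty_or_nonempty with rfl | ⟨w0, hw0⟩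
    · simp
    have hab : a ≠ b := by
      have := (memW w0 (hW' hw0)).2.2.1
      rwa [(h w0 hw0).1] at this
    refine le_trans ?_ (hQ4 a b hab _ (hne w0 (hW' hw0)))
    refine card_le_card_of_injOn Prod.snd ?_ ?_
    · intro w hw
      have h4 := (memW w (hW' hw)).2.2.2
      rw [(h w hw).1] at h4
      exact mem_coe.2 (mem_filter.2 ⟨h4, (hREP.eq _ _ (hne w (hW' hw)) (hne w0 (hW' hw0))).1
        ((h w hw).2.trans (h w0 hw0).2.symm)⟩)
    · intro w hw w' hw' e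
      exact Prod.ext ((h w hw).1.trans (h w' hw').1.symm) e
  have t3 : #{w ∈ W | #(ln P w.1.1 w.1.2) ≤ q ^ 4 ∧
      q ^ 4 ≤ #(dirs (pl P w.1.1 (w.2.2 - w.2.1)) w.1.1)} ≤ 3 * #(RT P N (q ^ 4)) := by
    refine card_le_mul_card_image_of_maps_to
      (f := fun w => (w.1.1, w.1.2, rep (w.2.2 - w.2.1))) ?_ 3 ?_
    · intro w hw
      obtain ⟨hw, h⟩ := mem_filter.1 hw
      obtain ⟨h1, h2, h3, -⟩ := memW w hw
      simp only [RT, mem_filter, mem_product]
      refine ⟨⟨h1, h2, hNm w hw⟩, h3, hperp w hw, h.1, ?_⟩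
      rw [pl_rep hREP _ _ _ (hne w hw)]
      exact h.2
    · intro x _
      refine fib x.1 x.2.1 x.2.2 _ (fun w hw => (mem_filter.1 (mem_filter.1 hw).1).1) ?_
      intro w hw
      obtain ⟨-, rfl⟩ := mem_filter.1 hw
      exact ⟨rfl, rfl⟩
  have t4 : #{w ∈ W | #(ln P w.1.1 w.1.2) ≤ q ^ 4 ∧
      q ^ 4 ≤ #(dirs (pl P w.1.2 (w.2.2 - w.2.1)) w.1.2)} ≤ 3 * #(RT P N (q ^ 4)) := by
    refine card_le_mul_card_image_of_maps_to
      (f := fun w => (w.1.2, w.1.1, rep (w.2.2 - w.2.1))) ?_ 3 ?_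
    · intro w hw
      obtain ⟨hw, h⟩ := mem_filter.1 hw
      obtain ⟨h1, h2, h3, -⟩ := memW w hw
      simp only [RT, mem_filter, mem_product]
      refine ⟨⟨h2, h1, hNm w hw⟩, h3.symm, ?_, ?_, ?_⟩
      · rw [← neg_sub, neg_dotProduct, hperp w hw, neg_zero]
      · rw [hREP.ln P _ _ _ _ h3 h3.symm (mem_ln_right P _ h2) (mem_ln_left P _ h1)]
        exact h.1
      · rw [pl_rep hREP _ _ _ (hne w hw)]
        exact h.2
    · intro x _
      refine fib x.2.1 x.1 x.2.2 _ (fun w hw => (mem_filter.1 (mem_filter.1 hw).1).1) ?_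
      intro w hw
      obtain ⟨-, rfl⟩ := mem_filter.1 hw
      exact ⟨rfl, rfl⟩
  have cover : #W ≤ #{w ∈ W | q ^ 4 ≤ #(ln P w.1.1 w.1.2)} +
      #{w ∈ W | #(ln P w.1.1 w.1.2) ≤ q ^ 4 ∧
        #(dirs (pl P w.1.1 (w.2.2 - w.2.1)) w.1.1) ≤ q ^ 4 ∧
        #(dirs (pl P w.1.2 (w.2.2 - w.2.1)) w.1.2) ≤ q ^ 4} +
      #{w ∈ W | #(ln P w.1.1 w.1.2) ≤ q ^ 4 ∧
        q ^ 4 ≤ #(dirs (pl P w.1.1 (w.2.2 - w.2.1)) w.1.1)} +
      #{w ∈ W | #(ln P w.1.1 w.1.2) ≤ q ^ 4 ∧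
        q ^ 4 ≤ #(dirs (pl P w.1.2 (w.2.2 - w.2.1)) w.1.2)} := by
    refine le_trans (card_le_card ?_) (le_trans (card_union_le _ _) (Nat.add_le_add_right
      (le_trans (card_union_le _ _) (Nat.add_le_add_right (card_union_le _ _) _)) _))
    intro w hw
    simp only [mem_union, mem_filter, hw, true_and]
    omega
  have tot := card_filter_add_card_filter_not (s := tris P τ e) fun p => eval p.2.2 f = 0
  calc #(tris P τ e) ≤ (2 * C1 + 5) * q ^ 19 + (4 * C1 + 6) * q ^ 19 + 2 * C3 * q ^ 19 +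
        C4 * q ^ 19 + 6 * (C2 * q ^ 19) := by omega
    _ = _ := by ring

end Pool.Agent.MP_36f34d_co.H52
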