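import Pool.Agent.MP_36f34d_co.H52.Spec

/-! Triangles with the third vertex on the zero set. -/

namespace Pool.Agent.MP_36f34d_co.H52

open Finset Matrix MvPolynomial

namespace Zero

lemma fib (T : Finset (V3 × V3 × V3)) (P : Finset V3) (f : V3 × V3 × V3 → V3 × V3)
    (g : V3 × V3 × V3 → V3) (n : ℕ) (hf : ∀ p ∈ T, f p ∈ P ×ˢ P)
    (hinj : ∀ p q, f p = f q → g p = g q → p = q)
    (hS : ∀ y : V3 × V3, ∃ S : Finset V3, #S ≤ n ∧ ∀ p ∈ T, f p = y → g p ∈ S) :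
    #T ≤ n * #P ^ 2 := by
  classical
  have h := Finset.card_le_mul_card_image_of_maps_to hf n (fun y _ => by
    obtain ⟨S, h1, h2⟩ := hS y
    refine le_trans (Finset.card_le_card_of_injOn g ?_ ?_) h1
    · intro p hp
      obtain ⟨hp1, hp2⟩ := Finset.mem_filter.1 (Finset.mem_coe.1 hp)
      exact h2 p hp1 hp2
    · intro p hp q hq e
      exact hinj p q ((Finset.mem_filter.1 (Finset.mem_coe.1 hp)).2.trans
        (Finset.mem_filter.1 (Finset.mem_coe.1 hq)).2.symm) e)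
  rwa [Finset.card_product, ← sq] at h

lemma cross_ne {u ν : V3} (h : crossProduct u ν ≠ 0) : crossProduct u (crossProduct u ν) ≠ 0 := by
  intro h0
  have h1 := cross_dot_cross u (crossProduct u ν) u (crossProduct u ν)
  rw [h0, zero_dotProduct, dot_self_cross, zero_mul, sub_zero] at h1
  rcases mul_eq_zero.1 h1.symm with h2 | h2
  · rw [dotProduct_self_eq_zero] at h2
    apply h
    rw [h2, map_zero, LinearMap.zero_apply]
  · exact h (dotProduct_self_eq_zero.1 h2)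

lemma trip (w u ν : V3) : w ⬝ᵥ crossProduct u ν = crossProduct w u ⬝ᵥ ν := by
  simp [cross_apply, dotProduct, Fin.sum_univ_three]
  ring

lemma mem_tris {P : Finset V3} {τ e : ℝ} {p : V3 × V3 × V3} :
    p ∈ tris P τ e ↔ (p.1 ∈ P ∧ p.2.1 ∈ P ∧ p.2.2 ∈ P) ∧ Sh τ e p.1 p.2.1 p.2.2 := by
  simp only [tris, Finset.mem_filter, Finset.mem_product]

end Zero

theorem zero (hB : StmtBAD) (hC : StmtCIRC) (hG : StmtGEO) : StmtZERO := by
  classical
  intro P τ e f he hf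
  obtain ⟨bad, ν, hν, hbad⟩ := hB 3 (by norm_num) f hf
  have hpos : ∀ x : ℝ, 0 < x ^ 2 + e := fun x => add_pos_of_nonneg_of_pos (sq_nonneg x) he
  let A : V3 × V3 × V3 → Prop := fun p => crossProduct (p.2.1 - p.1) (p.2.2 - p.1) ⬝ᵥ ν p.2.2 = 0
  let B : V3 × V3 × V3 → Prop := fun p => crossProduct (p.2.2 - p.1) (ν p.2.2) = 0
  have h1 : #{p ∈ tris P τ e | eval p.2.2 f = 0 ∧ ¬A p} ≤ (2 * f.totalDegree + 1) * #P ^ 2 := by
    refine Zero.fib _ P (fun p => (p.1, p.2.1)) (fun p => p.2.2) _ (fun p hp => ?_) ?_ ?_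
    · have := (Zero.mem_tris.1 (Finset.mem_filter.1 hp).1).1
      exact Finset.mem_product.2 ⟨this.1, this.2.1⟩
    · rintro ⟨a, b, c⟩ ⟨a', b', c'⟩ e1 e2
      simp only [Prod.mk.injEq] at e1 e2 ⊢
      exact ⟨e1.1, e1.2, e2⟩
    · rintro ⟨a, b⟩
      by_cases hab : a = b
      · refine ⟨∅, by simp, ?_⟩
        rintro ⟨a', b', c⟩ hp e1
        simp only [Prod.mk.injEq] at e1
        obtain ⟨rfl, rfl⟩ := e1
        exact absurd hab (Zero.mem_tris.1 (Finset.mem_filter.1 hp).1).2.1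
      obtain ⟨γ, hγ⟩ := hC τ e a b he hab
      obtain ⟨z, hz⟩ := hγ.surj
      obtain ⟨b1, b2⟩ := hbad γ hγ.alg
      refine ⟨insert z ((bad γ).image γ), (Finset.card_insert_le _ _).trans
        (Nat.succ_le_succ (Finset.card_image_le.trans b1)), ?_⟩
      rintro ⟨a', b', c⟩ hp e1
      simp only [Prod.mk.injEq] at e1
      obtain ⟨rfl, rfl⟩ := e1
      obtain ⟨p1, p2, p3⟩ := Finset.mem_filter.1 hp
      rcases hz c (Zero.mem_tris.1 p1).2 with rfl | ⟨t, rfl⟩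
      · exact Finset.mem_insert_self _ _
      · refine Finset.mem_insert_of_mem (Finset.mem_image_of_mem γ ?_)
        by_contra hb
        exact p3 (hγ.tan t _ (b2 t p2 hb))
  have h2 : #{p ∈ tris P τ e | A p ∧ ¬B p} ≤ 2 * #P ^ 2 := by
    refine Zero.fib _ P (fun p => (p.1, p.2.2)) (fun p => p.2.1) _ (fun p hp => ?_) ?_ ?_
    · have := (Zero.mem_tris.1 (Finset.mem_filter.1 hp).1).1
      exact Finset.mem_product.2 ⟨this.1, this.2.2⟩
    · rintro ⟨a, b, c⟩ ⟨a', b', c'⟩ e1 e2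
      simp only [Prod.mk.injEq] at e1 e2 ⊢
      exact ⟨e1.1, e2, e1.2⟩
    · rintro ⟨a, c⟩
      by_cases hB : crossProduct (c - a) (ν c) = 0
      · refine ⟨∅, by simp, ?_⟩
        rintro ⟨a', b, c'⟩ hp e1
        simp only [Prod.mk.injEq] at e1
        obtain ⟨rfl, rfl⟩ := e1
        exact absurd hB (Finset.mem_filter.1 hp).2.2
      refine ⟨_, hG.two P (c - a) (crossProduct (c - a) (ν c)) a
        (a ⬝ᵥ (c - a) + τ * ((c - a) ⬝ᵥ (c - a) / (τ ^ 2 + e))) (a ⬝ᵥ crossProduct (c - a) (ν c))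
        ((c - a) ⬝ᵥ (c - a) / (τ ^ 2 + e)) (Zero.cross_ne hB), ?_⟩
      rintro ⟨a', b, c'⟩ hp e1
      simp only [Prod.mk.injEq] at e1
      obtain ⟨rfl, rfl⟩ := e1
      obtain ⟨p1, p2, -⟩ := Finset.mem_filter.1 hp
      obtain ⟨⟨-, q1, -⟩, -, q2, q3⟩ := Zero.mem_tris.1 p1
      simp only at q1 q2 q3
      have hR : (b - a') ⬝ᵥ (b - a') = (c' - a') ⬝ᵥ (c' - a') / (τ ^ 2 + e) := by
        rw [q3, mul_div_cancel_left₀ _ (hpos τ).ne']
      refine Finset.mem_filter.2 ⟨q1, ?_, ?_, hR⟩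
      · rw [← hR, ← q2, dotProduct_comm (c' - a'), sub_dotProduct]
        ring
      · have p4 : crossProduct (b - a') (c' - a') ⬝ᵥ ν c' = 0 := p2
        rw [← Zero.trip, sub_dotProduct] at p4
        exact sub_eq_zero.1 p4
  have h3 : #{p ∈ tris P τ e | B p} ≤ 2 * #P ^ 2 := by
    refine Zero.fib _ P (fun p => p.2) (fun p => p.1) _ (fun p hp => ?_) ?_ ?_
    · have := (Zero.mem_tris.1 (Finset.mem_filter.1 hp).1).1
      exact Finset.mem_product.2 this.2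
    · rintro ⟨a, y⟩ ⟨a', y'⟩ e1 e2
      exact Prod.ext e2 e1
    · rintro ⟨b, c⟩
      refine ⟨_, hG.one P c (ν c) c
        ((τ ^ 2 + e) * ((c - b) ⬝ᵥ (c - b) / ((τ - 1) ^ 2 + e))) (hν c), ?_⟩
      rintro ⟨a, b', c'⟩ hp e1
      simp only [Prod.mk.injEq] at e1
      obtain ⟨rfl, rfl⟩ := e1
      obtain ⟨p1, p2⟩ := Finset.mem_filter.1 hp
      obtain ⟨⟨q1, -, -⟩, -, q2, q3⟩ := Zero.mem_tris.1 p1
      simp only at q1 q2 q3
      refine Finset.mem_filter.2 ⟨q1, ?_, ?_⟩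
      · have p4 : crossProduct (c' - a) (ν c') = 0 := p2
        rw [← neg_sub, map_neg, LinearMap.neg_apply, p4, neg_zero]
      · have e2 : c' - b' = (c' - a) - (b' - a) := by abel
        have e3 : (c' - b') ⬝ᵥ (c' - b') = ((τ - 1) ^ 2 + e) * ((b' - a) ⬝ᵥ (b' - a)) := by
          rw [e2, sub_dotProduct (c' - a), dotProduct_sub (c' - a) (c' - a),
            dotProduct_sub (b' - a) (c' - a), dotProduct_comm (b' - a) (c' - a), q2, q3]
          ring
        rw [e3, mul_div_cancel_left₀ _ (hpos (τ - 1)).ne', ← q3, ← neg_sub c' a, neg_dotProduct,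
          dotProduct_neg, neg_neg]
  have hsub : {p ∈ tris P τ e | eval p.2.2 f = 0} ⊆ {p ∈ tris P τ e | eval p.2.2 f = 0 ∧ ¬A p} ∪
      ({p ∈ tris P τ e | A p ∧ ¬B p} ∪ {p ∈ tris P τ e | B p}) := by
    intro p hp
    obtain ⟨p1, p2⟩ := Finset.mem_filter.1 hp
    simp only [Finset.mem_union, Finset.mem_filter]
    by_cases hA : A p
    · by_cases hB : B p
      · exact Or.inr (Or.inr ⟨p1, hB⟩)
      · exact Or.inr (Or.inl ⟨p1, hA, hB⟩)
    · exact Or.inl ⟨p1, p2, hA⟩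
  have h4 := (Finset.card_le_card hsub).trans ((Finset.card_union_le _ _).trans
    (Nat.add_le_add h1 ((Finset.card_union_le _ _).trans (Nat.add_le_add h2 h3))))
  refine h4.trans (le_of_eq ?_)
  ring

end Pool.Agent.MP_36f34d_co.H52
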