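import Pool.Agent.MP_36f34d_co.H52.BU
import Pool.Agent.MP_36f34d_co.H52.Ham
import Pool.Agent.MP_36f34d_co.H52.Part
import Pool.Agent.MP_36f34d_co.H52.Alg
import Pool.Agent.MP_36f34d_co.H52.Rep
import Pool.Agent.MP_36f34d_co.H52.PST
import Pool.Agent.MP_36f34d_co.H52.RL
import Pool.Agent.MP_36f34d_co.H52.Beck
import Pool.Agent.MP_36f34d_co.H52.RB
import Pool.Agent.MP_36f34d_co.H52.Circ
import Pool.Agent.MP_36f34d_co.H52.Zero
import Pool.Agent.MP_36f34d_co.H52.Cons
import Pool.Agent.MP_36f34d_co.H52.Poor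
import Pool.Agent.MP_36f34d_co.H52.Tri

/-! The modules without hypotheses. -/

namespace Pool.Agent.MP_36f34d_co.H52

theorem HAM : StmtHAM := ham bu
theorem PART : StmtPART := part HAM
theorem PST : StmtPST := pst PART alg bad gap rep'
theorem RP : StmtRP := rp rep' PST
theorem RL' : StmtRL := rl rep' RP
theorem BECK : StmtBECK := beck rep' RL'
theorem RB' : StmtRB := rb rep' PST RP RL'
theorem CIRC : StmtCIRC := circ' alg
theorem ZERO : StmtZERO := zero bad CIRC geo
theorem CONS : StmtCONS := cons gap CIRC rep'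
theorem LINE : StmtLINE := line rep' RL' geo
theorem POOR : StmtPOOR := poor rep' BECK geo
theorem TRI : StmtTRI := tri PART rep' RB' ZERO CONS LINE POOR

end Pool.Agent.MP_36f34d_co.H52
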