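import Pool.Agent.MP_36f34d_co.H52.Spec2

/-!
The circle of fourth vertices, and consecutive tetrahedra over a base.
-/

namespace Pool.Agent.MP_36f34d_co.H52

open Finset Matrix MvPolynomial

namespace Cons2

open CircAux

variable {e L : ℝ} {u v : V3}

/-- The fourth vertex runs through a circle. -/
theorem dpt_circ {a b : V3} (F : Frame e L (b - a) u v) (hL : 0 < L) (τ τ' p h t : ℝ) :
    dpt τ τ' p h a b (circ (a + τ • (b - a)) u v t) =
      circ (a + τ' • (b - a)) (p • u + h • v) (p • v - h • u) t := by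
  have h1 : √((b - a) ⬝ᵥ (b - a)) = L := by rw [F.ww, Real.sqrt_sq hL.le]
  have h2 : crossProduct (b - a) (τ • (b - a) + co t • u + si t • v) =
      L • (co t • v - si t • u) := by
    rw [map_add, map_add, map_smul, map_smul, map_smul, cross_self, F.cwu, F.cwv]
    simp only [smul_zero, zero_add, smul_sub, smul_neg, smul_smul, mul_comm]
    abel
  have h3 : h / L * L = h := div_mul_cancel₀ _ hL.ne'
  rw [← sub_left_inj (a := a), circ_sub]
  unfold dpt
  rw [circ_sub, h1, h2, smul_smul, h3]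
  generalize b - a = w
  module

/-- The parametrised circle over a base, with the frame exposed. -/
theorem circ_frame (halg : StmtALG) {a b : V3} (τ : ℝ) (he : 0 < e) (hab : a ≠ b) (hL : 0 < L)
    (F : Frame e L (b - a) u v) : Circ τ e a b (circ (a + τ • (b - a)) u v) := by
  have heL : e * L ^ 2 ≠ 0 := by positivity
  refine ⟨(halg 3).2 _ _ _, ?_, ?_, ?_, ?_, ?_, ?_⟩
  · intro s t hst
    have h : τ • (b - a) + co s • u + si s • v = τ • (b - a) + co t • u + si t • v := by
      rw [← circ_sub, ← circ_sub, hst]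
    have h1 : co s = co t := by
      have := congrArg (· ⬝ᵥ u) h
      simp only [F.du] at this
      exact mul_right_cancel₀ heL this
    have h2 : si s = si t := by
      have := congrArg (· ⬝ᵥ v) h
      simp only [F.dv] at this
      exact mul_right_cancel₀ heL this
    rw [(recover s).1, (recover t).1, h1] at h2
    exact mul_right_cancel₀ (recover t).2.ne' h2
  · intro t
    refine ⟨hab, ?_, ?_⟩
    · rw [circ_sub, F.dw, F.ww]
    · rw [circ_sub, F.dd, F.ww, co_sq_add, one_mul]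
  · refine ⟨a + τ • (b - a) - u, fun c hc => ?_⟩
    obtain ⟨p, q, r, hc'⟩ := F.span he hL (c - a)
    obtain ⟨-, h1, h2⟩ := hc
    rw [hc', F.dw, F.ww] at h1
    have hp : p = τ := mul_right_cancel₀ (by positivity) h1
    subst hp
    rw [hc', F.dd, F.ww] at h2
    have h3 : q ^ 2 + r ^ 2 = 1 := by
      have h4 := mul_right_cancel₀ (by positivity) h2
      have h5 : (q ^ 2 + r ^ 2) * e = 1 * e := by linarith
      exact mul_right_cancel₀ he.ne' h5
    by_cases hq : q = -1
    · left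
      subst hq
      have hr : r = 0 := by nlinarith
      subst hr
      rw [sub_eq_iff_eq_add.1 hc']
      simp only [neg_smul, one_smul, zero_smul]
      abel
    · right
      obtain ⟨t, ht1, ht2⟩ := exists_param h3 hq
      refine ⟨t, ?_⟩
      rw [← sub_left_inj (a := a), circ_sub, ht1, ht2, hc']
  · intro t ν h
    rw [(hasDeriv _ u v t).deriv, smul_dotProduct, smul_eq_mul] at h
    have h1 : (co t • v - si t • u) ⬝ᵥ ν = 0 := (mul_eq_zero.1 h).resolve_left (by positivity)
    have h2 : crossProduct (b - a) (τ • (b - a) + co t • u + si t • v) =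
        L • (co t • v - si t • u) := by
      rw [map_add, map_add, map_smul, map_smul, map_smul, cross_self, F.cwu, F.cwv]
      simp only [smul_zero, zero_add, smul_sub, smul_neg, smul_smul, mul_comm]
      abel
    rw [circ_sub, h2, smul_dotProduct, h1, smul_zero]
  · intro t s hts h1 h2 h0
    have h := congrArg (· ⬝ᵥ (b - a)) h0
    simp only [circ_sub_circ, circ_sub, F.cross_dw, zero_dotProduct, chord_eq] at h
    have h3 : 0 < 1 + s * t := one_add_mul_pos h1 h2 hts.le le_rfl le_rfl hts.le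
    have h4 : 0 < s - t := sub_pos.2 hts
    have h5 : 0 < 2 * (s - t) * (1 + s * t) / ((1 + s ^ 2) * (1 + t ^ 2)) * (e * L ^ 3) := by
      positivity
    linarith
  · intro t s t' s' hts hst hts' h1 h2 h0
    have h := congrArg (· ⬝ᵥ (b - a)) h0
    have hc := F.cross_dw (co s - co t) (si s - si t) 0 (co s' - co t') (si s' - si t')
    rw [zero_smul, zero_add] at hc
    simp only [circ_sub_circ, hc, zero_dotProduct, mono_eq] at h
    have h3 : 0 < 1 + t * t' := one_add_mul_pos h1 h2 le_rfl (by linarith) (by linarith) hts'.le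
    have h4 : 0 < 1 + s * s' := one_add_mul_pos h1 h2 hts.le (by linarith) (by linarith) le_rfl
    have h5 : 0 < s - t := sub_pos.2 hts
    have h6 : 0 < s' - t' := sub_pos.2 hts'
    have h7 : 0 < s' - s := by linarith
    have h8 : 0 < t' - t := by linarith
    refine absurd h (ne_of_gt ?_)
    positivity

end Cons2

open CircAux Cons2 in
theorem circ2 : StmtCIRC2 := by
  intro τ e τ' p h a b he hab
  have hw : b - a ≠ 0 := sub_ne_zero.2 hab.symm
  obtain ⟨L, u, v, hL, F⟩ := exists_frame he hw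
  refine ⟨circ (a + τ • (b - a)) u v, circ_frame alg τ he hab hL F, ?_, ?_⟩
  · have h1 : (fun t => dpt τ τ' p h a b (circ (a + τ • (b - a)) u v t)) =
        circ (a + τ' • (b - a)) (p • u + h • v) (p • v - h • u) :=
      funext fun t => dpt_circ F hL τ τ' p h t
    rw [h1]
    exact (alg 3).2 _ _ _
  · intro t s hts h1 h2 h0
    simp only [circ_sub_circ, circ_sub, F.cross_dw, chord_eq] at h0
    have h3 : 0 < 1 + s * t := one_add_mul_pos h1 h2 hts.le le_rfl le_rfl hts.le
    have h4 : 0 < s - t := sub_pos.2 hts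
    have h5 : 0 < 2 * (s - t) * (1 + s * t) / ((1 + s ^ 2) * (1 + t ^ 2)) * (e * L ^ 3) := by
      positivity
    linarith

open Cons in
theorem cons2 : StmtCIRC2 → StmtCONS2 := by
  classical
  intro hcirc P r D f cls τ e τ' p h a b hP he hab
  obtain ⟨γ, hγ, hδ, hnd⟩ := hcirc τ e τ' p h a b he hab
  obtain ⟨z, hz⟩ := hγ.surj
  rcases hγ.alg.few f with h0 | ⟨Z0, hZ0, hZ⟩
  · refine ⟨∅, by simp, by simp, ?_, by simp⟩
    refine le_trans (card_le_card (t := {z}) ?_) (by simp)
    intro c hc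
    rw [mem_filter] at hc
    rcases hz c hc.2.1 with h1 | ⟨t, rfl⟩
    · simp [h1]
    · exact absurd (h0 t) hc.2.2.2.1
  rcases hδ.few f with h0 | ⟨Z1, hZ1, hZ'⟩
  · refine ⟨∅, by simp, by simp, ?_, by simp⟩
    refine le_trans (card_le_card (t := {z}) ?_) (by simp)
    intro c hc
    rw [mem_filter] at hc
    rcases hz c hc.2.1 with h1 | ⟨t, rfl⟩
    · simp [h1]
    · exact absurd (h0 t) hc.2.2.2.2
  set S : Finset ℝ := (P.preimage γ hγ.inj.injOn).filter fun t =>
    dpt τ τ' p h a b (γ t) ∈ P ∧ eval (γ t) f ≠ 0 ∧ eval (dpt τ τ' p h a b (γ t)) f ≠ 0 with hS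
  have hmem : ∀ t, t ∈ S ↔ γ t ∈ P ∧ dpt τ τ' p h a b (γ t) ∈ P ∧ eval (γ t) f ≠ 0 ∧
      eval (dpt τ τ' p h a b (γ t)) f ≠ 0 := by
    intro t
    rw [hS, mem_filter, mem_preimage]
  obtain ⟨S', nx, hsub, hcard, hnx⟩ := gap S (insert 1 (insert (-1) (Z0 ∪ Z1)))
  have hone : ∀ t ∈ S', (1 : ℝ) ∉ Set.Icc t (nx t) := fun t ht =>
    (hnx t ht).2.2.1 1 (mem_insert_self _ _)
  have hneg : ∀ t ∈ S', (-1 : ℝ) ∉ Set.Icc t (nx t) := fun t ht =>
    (hnx t ht).2.2.1 (-1) (mem_insert_of_mem (mem_insert_self _ _))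
  have hinj : Function.Injective fun t => (γ t, γ (nx t)) := fun t t' h1 =>
    hγ.inj (congrArg Prod.fst h1)
  refine ⟨S'.image fun t => (γ t, γ (nx t)), ?_, ?_, ?_, ?_⟩
  · intro x hx
    obtain ⟨t, ht, rfl⟩ := mem_image.1 hx
    obtain ⟨h1, h2, h3, -⟩ := hnx t ht
    have h4 := (hmem t).1 (hsub ht)
    have h5 := (hmem _).1 h1
    refine ⟨h4.1, h5.1, h4.2.1, h5.2.1, hγ.sh _, hγ.sh _, hnd _ _ h2 (hone t ht) (hneg t ht),
      ⟨h5.2.2.1, ?_⟩, h5.2.2.2, ?_⟩
    · refine (hP.loc γ hγ.alg.diff.continuous t (nx t) h2.le fun u hu hu0 => ?_).symm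
      exact h3 u (mem_insert_of_mem (mem_insert_of_mem (mem_union_left _ (hZ u hu0)))) hu
    · refine (hP.loc _ hδ.diff.continuous t (nx t) h2.le fun u hu hu0 => ?_).symm
      exact h3 u (mem_insert_of_mem (mem_insert_of_mem (mem_union_right _ (hZ' u hu0)))) hu
  · intro x hx x' hx' h1
    obtain ⟨t, -, rfl⟩ := mem_image.1 hx
    obtain ⟨t', -, rfl⟩ := mem_image.1 hx'
    rw [hγ.inj h1]
  · rw [card_image_of_injective _ hinj]
    have h1 : #{c ∈ P | Sh τ e a b c ∧ dpt τ τ' p h a b c ∈ P ∧ eval c f ≠ 0 ∧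
        eval (dpt τ τ' p h a b c) f ≠ 0} ≤ #(insert z (S.image γ)) := by
      refine card_le_card fun c hc => ?_
      rw [mem_filter] at hc
      rcases hz c hc.2.1 with h1 | ⟨t, rfl⟩
      · rw [h1]
        exact mem_insert_self _ _
      · exact mem_insert_of_mem (mem_image_of_mem _ ((hmem t).2 ⟨hc.1, hc.2.2⟩))
    have h2 := card_insert_le z (S.image γ)
    have h3 : #(S.image γ) ≤ #S := card_image_le
    have h4 := card_insert_le (1 : ℝ) (insert (-1) (Z0 ∪ Z1))
    have h5 := card_insert_le (-1 : ℝ) (Z0 ∪ Z1)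
    have h6 := hP.deg
    have h7 := card_union_le Z0 Z1
    omega
  · intro ν hν
    rw [filter_image]
    refine le_trans card_image_le ?_
    have key : ∀ t ∈ S', ∀ t' ∈ S', crossProduct (γ (nx t) - γ t) ν = 0 →
        crossProduct (γ (nx t') - γ t') ν = 0 → reg t = reg t' → ¬ t < t' := by
      intro t ht t' ht' h1 h2 h3 hlt
      obtain ⟨x, hx⟩ := rep'.par _ _ hν h1
      obtain ⟨y, hy⟩ := rep'.par _ _ hν h2
      refine hγ.mono t (nx t) t' (nx t') (hnx t ht).2.1 ((hnx t ht).2.2.2 t' (hsub ht') hlt)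
        (hnx t' ht').2.1 (not_mem (hnx t ht).2.1 (hone t ht) (hone t' ht') (reg_one h3))
        (not_mem (hnx t ht).2.1 (hneg t ht) (hneg t' ht') (reg_neg h3)) ?_
      rw [hx, hy]
      simp
    refine le_trans (card_le_card_of_injOn (t := range 3) reg
      (fun t _ => by simpa using reg_lt t) ?_) (by simp)
    intro t ht t' ht' h1
    have ht1 := mem_filter.1 (mem_coe.1 ht)
    have ht2 := mem_filter.1 (mem_coe.1 ht')
    exact le_antisymm (not_lt.1 (key t' ht2.1 t ht1.1 ht2.2 ht1.2 h1.symm))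
      (not_lt.1 (key t ht1.1 t' ht2.1 ht1.2 ht2.2 h1))

end Pool.Agent.MP_36f34d_co.H52
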