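import Pool.Agent.MP_36f34d_co.H52.Spec2

/-! Elementary facts on the fourth vertex. -/

namespace Pool.Agent.MP_36f34d_co.H52

open Matrix

namespace Dpt

theorem dot3 (u v : V3) : u ⬝ᵥ v = u 0 * v 0 + u 1 * v 1 + u 2 * v 2 := by
  simp [dotProduct, Fin.sum_univ_three]

theorem cr0 (u v : V3) : crossProduct u v 0 = u 1 * v 2 - u 2 * v 1 := by simp [cross_apply]

theorem cr1 (u v : V3) : crossProduct u v 1 = u 2 * v 0 - u 0 * v 2 := by simp [cross_apply]

theorem cr2 (u v : V3) : crossProduct u v 2 = u 0 * v 1 - u 1 * v 0 := by simp [cross_apply]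

theorem ext3 {u v : V3} (h0 : u 0 = v 0) (h1 : u 1 = v 1) (h2 : u 2 = v 2) : u = v := by
  funext i
  fin_cases i
  exacts [h0, h1, h2]

theorem dot_pos {a b : V3} (h : a ≠ b) : 0 < (b - a) ⬝ᵥ (b - a) := by
  refine lt_of_le_of_ne ?_ fun h1 => h (sub_eq_zero.1 (dotProduct_self_eq_zero.1 h1.symm)).symm
  exact Finset.sum_nonneg fun i _ => mul_self_nonneg _

theorem gsq {a b : V3} (hab : a ≠ b) (h : ℝ) :
    (h / √((b - a) ⬝ᵥ (b - a))) ^ 2 * ((b - a) ⬝ᵥ (b - a)) = h ^ 2 := by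
  have h1 := dot_pos hab
  rw [div_pow, Real.sq_sqrt h1.le, div_mul_cancel₀ _ h1.ne']

theorem sub_a (τ τ' p h : ℝ) (a b c : V3) : dpt τ τ' p h a b c - a =
    τ' • (b - a) + p • (c - a - τ • (b - a)) +
      (h / √((b - a) ⬝ᵥ (b - a))) • crossProduct (b - a) (c - a) := by
  unfold dpt
  abel

theorem sub_d (τ τ' p h : ℝ) (a b c c' : V3) : dpt τ τ' p h a b c' - dpt τ τ' p h a b c =
    p • (c' - c) + (h / √((b - a) ⬝ᵥ (b - a))) • crossProduct (b - a) (c' - c) := by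
  unfold dpt
  generalize h / √((b - a) ⬝ᵥ (b - a)) = g
  refine ext3 ?_ ?_ ?_ <;>
    simp only [Pi.add_apply, Pi.sub_apply, Pi.smul_apply, smul_eq_mul, cr0, cr1, cr2] <;> ring

theorem perp {τ e : ℝ} {a b c c' : V3} (h : Sh τ e a b c) (h' : Sh τ e a b c') :
    (c' - c) ⬝ᵥ (b - a) = 0 := by
  rw [show c' - c = (c' - a) - (c - a) by abel, sub_dotProduct, h.2.1, h'.2.1, sub_self]

theorem len (p g : ℝ) (w u : V3) : (p • u + g • crossProduct w u) ⬝ᵥ (p • u + g • crossProduct w u) =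
    (p ^ 2 + g ^ 2 * (w ⬝ᵥ w)) * (u ⬝ᵥ u) - g ^ 2 * (u ⬝ᵥ w) ^ 2 := by
  simp only [dot3, Pi.add_apply, Pi.smul_apply, smul_eq_mul, cr0, cr1, cr2]
  ring

theorem par {w x y : V3} {g : ℝ} (hw : y ⬝ᵥ w = 0) (hx : y ⬝ᵥ x = 0)
    (hv : crossProduct w x ⬝ᵥ crossProduct w x ≠ 0)
    (hy : y ⬝ᵥ y = g ^ 2 * (crossProduct w x ⬝ᵥ crossProduct w x)) :
    y = g • crossProduct w x ∨ y = (-g) • crossProduct w x := by
  have h1 : (crossProduct w x ⬝ᵥ crossProduct w x) • y = (y ⬝ᵥ crossProduct w x) • crossProduct w x +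
      ((y ⬝ᵥ w) * (x ⬝ᵥ x) - (y ⬝ᵥ x) * (x ⬝ᵥ w)) • w +
      ((y ⬝ᵥ x) * (w ⬝ᵥ w) - (y ⬝ᵥ w) * (x ⬝ᵥ w)) • x := by
    refine ext3 ?_ ?_ ?_ <;>
      simp only [dot3, Pi.add_apply, Pi.smul_apply, smul_eq_mul, cr0, cr1, cr2] <;> ring
  rw [hw, hx] at h1
  generalize crossProduct w x = v at *
  have h2 : y = ((v ⬝ᵥ v)⁻¹ * (y ⬝ᵥ v)) • v := by
    rw [mul_smul, eq_inv_smul_iff₀ hv]
    simpa using h1
  generalize (v ⬝ᵥ v)⁻¹ * (y ⬝ᵥ v) = t at h2
  subst h2
  rw [smul_dotProduct, dotProduct_smul, smul_eq_mul, smul_eq_mul, ← mul_assoc, ← sq] at hy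
  rcases sq_eq_sq_iff_eq_or_eq_neg.1 (mul_right_cancel₀ hv hy) with h | h
  · exact Or.inl (by rw [h])
  · exact Or.inr (by rw [h])

end Dpt

open Dpt

theorem dpt' : StmtDPT where
  swap τ e a b c h := by
    obtain ⟨h1, h2, h3⟩ := h
    simp only [dot3, Pi.sub_apply] at h2 h3
    refine ⟨h1.symm, ?_, ?_⟩ <;> simp only [dot3, Pi.sub_apply]
    · linear_combination -h2
    · linear_combination h3 - 2 * h2
  nds a b c c' h h1 := by
    refine h ?_
    simp only [dot3, Pi.sub_apply, cr0, cr1, cr2] at h1 ⊢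
    linear_combination -h1
  sh τ e τ' p h a b c hs := by
    obtain ⟨h1, h2, h3⟩ := hs
    have h4 := gsq h1 h
    refine ⟨h1, ?_, ?_⟩ <;> rw [sub_a] <;> generalize h / √((b - a) ⬝ᵥ (b - a)) = g at * <;>
      generalize b - a = w at * <;> generalize c - a = z at * <;>
      simp only [dot3, Pi.add_apply, Pi.sub_apply, Pi.smul_apply, smul_eq_mul, cr0, cr1,
        cr2] at h2 h3 h4 ⊢
    · linear_combination p * h2
    · linear_combination (2 * τ' * p - 2 * τ * p ^ 2 - g ^ 2 * (z 0 * w 0 + z 1 * w 1 + z 2 * w 2 +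
        τ * (w 0 * w 0 + w 1 * w 1 + w 2 * w 2))) * h2 +
        (p ^ 2 + g ^ 2 * (w 0 * w 0 + w 1 * w 1 + w 2 * w 2)) * h3 +
        e * (w 0 * w 0 + w 1 * w 1 + w 2 * w 2) * h4
  inj τ e τ' p h a b c c' h0 hs hs' hd := by
    have h1 := len p (h / √((b - a) ⬝ᵥ (b - a))) (b - a) (c' - c)
    rw [← sub_d τ τ', ← hd, sub_self, perp hs hs', gsq hs.1, zero_dotProduct] at h1
    have h2 : (p ^ 2 + h ^ 2) * ((c' - c) ⬝ᵥ (c' - c)) = 0 := by linear_combination -h1
    exact (sub_eq_zero.1 (dotProduct_self_eq_zero.1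
      ((mul_eq_zero.1 h2).resolve_left (by positivity)))).symm
  nd τ e τ' p h a b c c' h0 hs _ hn h1 := by
    rw [sub_d, sub_a] at h1
    have h2 := gsq hs.1 h
    have h3 : (p ^ 2 + h ^ 2) * (crossProduct (c' - c) (c - a) ⬝ᵥ (b - a)) = 0 := by
      rw [← h2, ← h1]
      generalize h / √((b - a) ⬝ᵥ (b - a)) = g
      generalize b - a = w
      generalize c - a = z
      generalize c' - c = u
      simp only [dot3, Pi.add_apply, Pi.sub_apply, Pi.smul_apply, smul_eq_mul, cr0, cr1, cr2]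
      ring
    exact hn ((mul_eq_zero.1 h3).resolve_left (by positivity))
  ang τ e τ' p h a b c c' h0 hs hs' := by
    have h1 : p ^ 2 + h ^ 2 ≠ 0 := by positivity
    rw [Ang, sub_d, len, perp hs hs', gsq hs.1, dotProduct_add, dotProduct_smul, dotProduct_smul,
      dot_cross_self, smul_zero, smul_eq_mul]
    field_simp
    ring
  ex τ e τ' e' σ he hσ := by
    have h1 : 0 < e * e' - (σ - τ * τ') ^ 2 := by linarith
    obtain ⟨p, hp⟩ : ∃ p, p * e = σ - τ * τ' := ⟨_, div_mul_cancel₀ _ he.ne'⟩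
    obtain ⟨h, h0, hh⟩ : ∃ h : ℝ, h ≠ 0 ∧ h ^ 2 * e = e' - p ^ 2 * e := by
      refine ⟨√(e * e' - (σ - τ * τ') ^ 2) / e, by positivity, ?_⟩
      rw [div_pow, Real.sq_sqrt h1.le, ← hp]
      field_simp
    refine ⟨p, h, h0, fun a b c d hc hd hcd => ?_⟩
    obtain ⟨hab, h2, h3⟩ := hc
    obtain ⟨-, h4, h5⟩ := hd
    have h6 := gsq hab h
    have h7 := dot_pos hab
    have hv : crossProduct (b - a) (c - a) ⬝ᵥ crossProduct (b - a) (c - a) =
        e * ((b - a) ⬝ᵥ (b - a)) ^ 2 := by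
      rw [cross_dot_cross, h3, h2, dotProduct_comm (b - a) (c - a), h2]
      ring
    have h8 := par (w := b - a) (x := c - a) (g := h / √((b - a) ⬝ᵥ (b - a)))
      (y := d - a - τ' • (b - a) - p • (c - a - τ • (b - a))) ?_ ?_ (by rw [hv]; positivity) ?_
    · unfold dpt
      rw [neg_div]
      refine h8.imp (fun h => ?_) fun h => ?_ <;> rw [← h] <;> abel
    · generalize b - a = w at *
      generalize c - a = z at *
      generalize d - a = y at *
      simp only [sub_dotProduct, smul_dotProduct, smul_eq_mul, h2, h4]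
      ring
    · generalize b - a = w at *
      generalize c - a = z at *
      generalize d - a = y at *
      simp only [sub_dotProduct, smul_dotProduct, smul_eq_mul, h3, dotProduct_comm w z, h2,
        dotProduct_comm y z, hcd]
      linear_combination (-(w ⬝ᵥ w)) * hp
    · rw [hv]
      generalize h / √((b - a) ⬝ᵥ (b - a)) = g at *
      generalize b - a = w at *
      generalize c - a = z at *
      generalize d - a = y at *
      simp only [sub_dotProduct, dotProduct_sub, smul_dotProduct, dotProduct_smul, smul_eq_mul,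
        dotProduct_comm w z, dotProduct_comm w y, dotProduct_comm y z, h2, h3, h4, h5, hcd]
      linear_combination (-(e * (w ⬝ᵥ w))) * h6 - (w ⬝ᵥ w) * hh + 2 * p * (w ⬝ᵥ w) * hp

end Pool.Agent.MP_36f34d_co.H52
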