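import Pool.Agent.MP_36f34d_co.H52.Spec2

/-! The bound for tetrahedra with free parameters. -/

namespace Pool.Agent.MP_36f34d_co.H52

open Finset Matrix MvPolynomial TriAux

namespace GenAux

theorem nd_ne {a b c c' : V3} (h : ND a b c c') : c' - c ≠ 0 := by
  intro e
  apply h
  rw [e]; simp

theorem ang_smul {κ s t : ℝ} {u v : V3} (h : Ang κ u v) : Ang κ (s • u) (t • v) := by
  unfold Ang at h ⊢
  simp only [smul_dotProduct, dotProduct_smul, smul_eq_mul]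
  linear_combination (s ^ 2 * t ^ 2) * h

theorem flat_rep (P : Finset V3) (x ν : V3) (k : ℕ) (hν : ν ≠ 0) :
    Flat P x (rep ν) k ↔ Flat P x ν k := by
  unfold Flat
  rw [pl_rep rep' _ _ _ hν]

open Classical in
/-- Counting over pairs in one class. -/
theorem poor_count {α : Type} {C k : ℕ} {P : Finset V3} {τ e : ℝ} {M : Finset (V3 × V3)}
    (hP : ∀ c c' : V3,
      #{x ∈ P ×ˢ P | Sh τ e x.1 x.2 c ∧ Sh τ e x.1 x.2 c' ∧ ND x.1 x.2 c c' ∧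
      #(dirs (pl P x.1 (c' - c)) x.1) ≤ k ∧ Flat P x.1 (c' - c) k} ≤ C * k)
    (W : Finset α) (b g : α → V3 × V3) (hg : ∀ w ∈ W, g w ∈ M)
    (hinj : ∀ w ∈ W, ∀ w' ∈ W, b w = b w' → g w = g w' → w = w')
    (h : ∀ w ∈ W, (b w).1 ∈ P ∧ (b w).2 ∈ P ∧ Sh τ e (b w).1 (b w).2 (g w).1 ∧
      Sh τ e (b w).1 (b w).2 (g w).2 ∧ ND (b w).1 (b w).2 (g w).1 (g w).2 ∧
      #(dirs (pl P (b w).1 ((g w).2 - (g w).1)) (b w).1) ≤ k ∧
      Flat P (b w).1 ((g w).2 - (g w).1) k) : #W ≤ C * k * #M := by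
  refine card_le_mul_card_image_of_maps_to hg (C * k) fun x _ => le_trans ?_ (hP x.1 x.2)
  refine card_le_card_of_injOn b ?_ ?_
  · intro w hw
    obtain ⟨hw1, rfl⟩ := mem_filter.1 hw
    obtain ⟨h1, h2, h3⟩ := h w hw1
    exact mem_coe.2 (mem_filter.2 ⟨mem_product.2 ⟨h1, h2⟩, h3⟩)
  · intro w hw w' hw' e
    exact hinj w (mem_filter.1 hw).1 w' (mem_filter.1 hw').1 e
      ((mem_filter.1 hw).2.trans (mem_filter.1 hw').2.symm)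

theorem card_le_eight {α : Type} [DecidableEq α] (W : Finset α) (p₁ p₂ p₃ p₄ p₅ p₆ p₇ p₈ : α → Prop)
    [DecidablePred p₁] [DecidablePred p₂] [DecidablePred p₃] [DecidablePred p₄] [DecidablePred p₅]
    [DecidablePred p₆] [DecidablePred p₇] [DecidablePred p₈]
    (h : ∀ w ∈ W, p₁ w ∨ p₂ w ∨ p₃ w ∨ p₄ w ∨ p₅ w ∨ p₆ w ∨ p₇ w ∨ p₈ w) :
    #W ≤ #(W.filter p₁) + #(W.filter p₂) + #(W.filter p₃) + #(W.filter p₄) + #(W.filter p₅) +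
      #(W.filter p₆) + #(W.filter p₇) + #(W.filter p₈) := by
  simp only [card_filter, ← sum_add_distrib]
  rw [card_eq_sum_ones]
  refine sum_le_sum fun w hw => ?_
  rcases h w hw with h | h | h | h | h | h | h | h <;> simp only [if_pos h] <;> omega

theorem eight_cases {k l a b a' b' : ℕ} {Fa Fb Fa' Fb' La Lb La' Lb' : Prop} (hl : l ≤ k)
    (A : a ≤ k → Fa ∨ La) (B : b ≤ k → Fb ∨ Lb) (A' : a' ≤ k → Fa' ∨ La') (B' : b' ≤ k → Fb' ∨ Lb')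
    (t1 : La → b ≤ k → k < l) (t2 : La' → b' ≤ k → k < l) :
    (a ≤ k ∧ Fa) ∨ (b ≤ k ∧ Fb) ∨ (a' ≤ k ∧ Fa') ∨ (b' ≤ k ∧ Fb') ∨ (k ≤ a ∧ k ≤ a') ∨
      (k ≤ b ∧ k ≤ b') ∨ (La ∧ Lb') ∨ (Lb ∧ La') := by
  rcases le_total k a with h1 | h1
  · rcases le_total k a' with h2 | h2
    · exact .inr (.inr (.inr (.inr (.inl ⟨h1, h2⟩))))
    rcases A' h2 with c | c
    · exact .inr (.inr (.inl ⟨h2, c⟩))
    rcases le_total k b' with h3 | h3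
    · rcases le_total k b with h4 | h4
      · exact .inr (.inr (.inr (.inr (.inr (.inl ⟨h4, h3⟩)))))
      rcases B h4 with d | d
      · exact .inr (.inl ⟨h4, d⟩)
      · exact .inr (.inr (.inr (.inr (.inr (.inr (.inr ⟨d, c⟩))))))
    · exact absurd (t2 c h3) (by omega)
  rcases A h1 with c | c
  · exact .inl ⟨h1, c⟩
  rcases le_total k b with h4 | h4
  · rcases le_total k b' with h3 | h3
    · exact .inr (.inr (.inr (.inr (.inr (.inl ⟨h4, h3⟩)))))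
    rcases B' h3 with d | d
    · exact .inr (.inr (.inr (.inl ⟨h3, d⟩)))
    · exact .inr (.inr (.inr (.inr (.inr (.inr (.inl ⟨c, d⟩))))))
  · exact absurd (t1 c h4) (by omega)

theorem final_arith (C1 C2 C3 C4 A B F G H : ℕ) :
    12 * (C1 * A) + 8 * A + 8 * B + 4 * (C2 * F) + 6 * (C3 * G) + 6 * (C4 * H) ≤
      (12 * C1 + 8 + 4 * C2 + 6 * C3 + 6 * C4) * (A + B + F + G + H) := by
  have : (12 * C1 + 8 + 4 * C2 + 6 * C3 + 6 * C4) * (A + B + F + G + H) =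
      12 * (C1 * A) + 8 * A + 8 * B + 4 * (C2 * F) + 6 * (C3 * G) + 6 * (C4 * H) +
      (12 * C1 * (B + F + G + H) + 8 * (F + G + H) + 4 * C2 * (A + B + G + H) +
        6 * C3 * (A + B + F + H) + 6 * C4 * (A + B + F + G)) := by ring
  omega

end GenAux

open GenAux

theorem gen (hD : StmtDPT) (hC : StmtCONS2) (hZ : StmtZERO2) (hS : StmtSPLIT) (hP : StmtPOOR2)
    (hR : StmtRR) (hM : StmtMIX) : StmtGEN := by
  classical
  obtain ⟨C1, hC1⟩ := PART 3 (by norm_num)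
  obtain ⟨C2, hC2⟩ := hP
  obtain ⟨C3, hC3⟩ := hR
  obtain ⟨C4, hC4⟩ := hM
  refine ⟨12 * C1 + 8 + 4 * C2 + 6 * C3 + 6 * C4,
    fun P E τ e τ' p h j k r ρ m lam y ι he hh hk hjk hr hρ hE hm hlam hy hι => ?_⟩
  obtain ⟨f, cls, hf⟩ := hC1 P r hr
  have hph : 0 < p ^ 2 + h ^ 2 := by positivity
  have he' : 0 < (p ^ 2 + h ^ 2) * e := by positivity
  have hκ0 : 0 ≤ p ^ 2 / (p ^ 2 + h ^ 2) := by positivity
  have hκ1 : p ^ 2 / (p ^ 2 + h ^ 2) < 1 := by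
    rw [div_lt_one hph]
    have : 0 < h ^ 2 := by positivity
    linarith
  set κ := p ^ 2 / (p ^ 2 + h ^ 2) with hκ
  set D := dpt τ τ' p h with hDD
  have hQ0 := fun (a b : V3) (hab : a ≠ b) => hC P r (C1 * r) f cls τ e τ' p h a b hf he hab
  choose! Q hQ1 hQ2 hQ3 hQ4 using hQ0
  set W : Finset ((V3 × V3) × V3 × V3) :=
    {w ∈ (P ×ˢ P) ×ˢ P ×ˢ P | w.1 ∈ E ∧ w.1.1 ≠ w.1.2 ∧ w.2 ∈ Q w.1.1 w.1.2} with hW
  have memW : ∀ w ∈ W, w.1.1 ∈ P ∧ w.1.2 ∈ P ∧ w.1 ∈ E ∧ w.1.1 ≠ w.1.2 ∧ w.2 ∈ Q w.1.1 w.1.2 := by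
    intro w hw
    simp only [hW, mem_filter, mem_product] at hw
    exact ⟨hw.1.1.1, hw.1.1.2, hw.2.1, hw.2.2.1, hw.2.2.2⟩
  have hdeg := hf.deg
  set T := {x ∈ tets P τ e τ' p h | (x.1, x.2.1) ∈ E} with hT
  have memT : ∀ x ∈ T, x.1 ∈ P ∧ x.2.1 ∈ P ∧ x.2.2 ∈ P ∧ Sh τ e x.1 x.2.1 x.2.2 ∧
      D x.1 x.2.1 x.2.2 ∈ P ∧ (x.1, x.2.1) ∈ E := by
    intro x hx
    simp only [hT, tets, tris, mem_filter, mem_product] at hx
    exact ⟨hx.1.1.1.1, hx.1.1.1.2.1, hx.1.1.1.2.2, hx.1.1.2, hx.1.2, hx.2⟩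
  -- the zero set
  have z1 : #{x ∈ T | eval x.2.2 f = 0} ≤ (2 * (C1 * r) + 1) * #E + 4 * #P ^ 2 := by
    refine le_trans (card_le_card ?_) ((hZ P E τ e f he hf.ne).trans (by gcongr))
    intro x hx
    obtain ⟨hx1, hx2⟩ := mem_filter.1 hx
    obtain ⟨h1, h2, h3, h4, -, h6⟩ := memT x hx1
    simp only [tris, mem_filter, mem_product]
    exact ⟨⟨⟨h1, h2, h3⟩, h4⟩, h6, hx2⟩
  have z2 : #{x ∈ T | eval (D x.1 x.2.1 x.2.2) f = 0} ≤ (2 * (C1 * r) + 1) * #E + 4 * #P ^ 2 := by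
    refine le_trans ?_ ((hZ P E τ' _ f he' hf.ne).trans (by gcongr))
    refine card_le_card_of_injOn (fun x => (x.1, x.2.1, D x.1 x.2.1 x.2.2)) ?_ ?_
    · intro x hx
      obtain ⟨hx1, hx2⟩ := mem_filter.1 hx
      obtain ⟨h1, h2, h3, h4, h5, h6⟩ := memT x hx1
      refine mem_coe.2 (mem_filter.2 ⟨mem_filter.2 ⟨mem_product.2 ⟨h1, mem_product.2 ⟨h2, h5⟩⟩,
        hD.sh τ e τ' p h _ _ _ h4⟩, h6, hx2⟩)
    · intro x hx x' hx' e1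
      simp only [Prod.mk.injEq] at e1
      obtain ⟨a1, a2, a3⟩ := e1
      have s1 := (memT x (mem_filter.1 hx).1).2.2.2.1
      have s2 := (memT x' (mem_filter.1 hx').1).2.2.2.1
      rw [← a1, ← a2] at s2 a3
      exact Prod.ext a1 (Prod.ext a2 (hD.inj τ e τ' p h _ _ _ _ hh s1 s2 a3))
  -- off the zero set
  have z3 : #{x ∈ T | eval x.2.2 f ≠ 0 ∧ eval (D x.1 x.2.1 x.2.2) f ≠ 0} ≤
      #W + (8 * (C1 * r) + 6) * #E := by
    have a1 : #{x ∈ T | eval x.2.2 f ≠ 0 ∧ eval (D x.1 x.2.1 x.2.2) f ≠ 0} ≤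
        ∑ x ∈ E, (#{w ∈ W | w.1 = x} + (8 * (C1 * r) + 6)) := by
      rw [card_eq_sum_card_fiberwise (f := fun x : V3 × V3 × V3 => (x.1, x.2.1)) (t := E)
        (fun x hx => (memT x (mem_filter.1 hx).1).2.2.2.2.2)]
      refine sum_le_sum fun x hx => ?_
      rcases (filter (fun z : V3 × V3 × V3 => (z.1, z.2.1) = x)
        {x ∈ T | eval x.2.2 f ≠ 0 ∧ eval (D x.1 x.2.1 x.2.2) f ≠ 0}).eq_empty_or_nonempty with
        h0 | ⟨z0, hz0⟩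
      · rw [h0]; exact Nat.zero_le _
      obtain ⟨hz1, hz2⟩ := mem_filter.1 hz0
      obtain ⟨h1, h2, -, h4, -, -⟩ := memT z0 (mem_filter.1 hz1).1
      have hx1 : x.1 ∈ P := hz2 ▸ h1
      have hx2 : x.2 ∈ P := hz2 ▸ h2
      have hx3 : x.1 ≠ x.2 := hz2 ▸ h4.1
      have b1 : #{z ∈ {x ∈ T | eval x.2.2 f ≠ 0 ∧ eval (D x.1 x.2.1 x.2.2) f ≠ 0} |
          (z.1, z.2.1) = x} ≤ #{c ∈ P | Sh τ e x.1 x.2 c ∧ D x.1 x.2 c ∈ P ∧ eval c f ≠ 0 ∧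
            eval (D x.1 x.2 c) f ≠ 0} := by
        refine card_le_card_of_injOn (fun z => z.2.2) ?_ ?_
        · intro z hz
          obtain ⟨hz3, rfl⟩ := mem_filter.1 hz
          obtain ⟨hz4, hz5⟩ := mem_filter.1 hz3
          obtain ⟨-, -, g3, g4, g5, -⟩ := memT z hz4
          exact mem_coe.2 (mem_filter.2 ⟨g3, g4, g5, hz5⟩)
        · intro z hz z' hz' e1
          have := (mem_filter.1 hz).2.trans (mem_filter.1 hz').2.symm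
          simp only [Prod.mk.injEq] at this
          exact Prod.ext this.1 (Prod.ext this.2 e1)
      have b2 : #(Q x.1 x.2) ≤ #{w ∈ W | w.1 = x} := by
        refine card_le_card_of_injOn (fun z => (x, z)) ?_ ?_
        · intro z hz
          have := hQ1 x.1 x.2 hx3 z hz
          exact mem_coe.2 (mem_filter.2 ⟨mem_filter.2 ⟨mem_product.2 ⟨mem_product.2 ⟨hx1, hx2⟩,
            mem_product.2 ⟨this.1, this.2.1⟩⟩, hx, hx3, hz⟩, rfl⟩)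
        · intro z _ z' _ e1
          exact (Prod.ext_iff.1 e1).2
      exact b1.trans ((hQ3 x.1 x.2 hx3).trans (by omega))
    rw [sum_add_distrib, ← card_eq_sum_card_fiberwise (f := Prod.fst)
      (fun w hw => (memW w hw).2.2.1), sum_const, smul_eq_mul, mul_comm] at a1
    exact a1
  have z4 : #T ≤ #{x ∈ T | eval x.2.2 f = 0} + #{x ∈ T | eval (D x.1 x.2.1 x.2.2) f = 0} +
      #{x ∈ T | eval x.2.2 f ≠ 0 ∧ eval (D x.1 x.2.1 x.2.2) f ≠ 0} := by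
    refine le_trans (card_le_card ?_) (le_trans (card_union_le _ _)
      (Nat.add_le_add_right (card_union_le _ _) _))
    intro x hx
    simp only [mem_union, mem_filter, hx, true_and]
    tauto
  -- the data of an element of W
  set d : (V3 × V3) × V3 × V3 → V3 × V3 := fun w => (D w.1.1 w.1.2 w.2.1, D w.1.1 w.1.2 w.2.2)
    with hd
  set M := {x ∈ P ×ˢ P | eval x.2 f ≠ 0 ∧ cls x.2 = cls x.1} with hMM
  have hMm : #M ≤ m := Nat.le_of_mul_le_mul_left ((pairs hf).trans hm) (by positivity)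
  have fc : ∀ w ∈ W, w.2 ∈ M ∧ Sh τ e w.1.1 w.1.2 w.2.1 ∧ Sh τ e w.1.1 w.1.2 w.2.2 ∧
      ND w.1.1 w.1.2 w.2.1 w.2.2 := by
    intro w hw
    obtain ⟨-, -, -, h4, h5⟩ := memW w hw
    obtain ⟨g1, g2, -, -, g5, g6, g7, g8, -⟩ := hQ1 _ _ h4 _ h5
    exact ⟨mem_filter.2 ⟨mem_product.2 ⟨g1, g2⟩, g8⟩, g5, g6, g7⟩
  have fd : ∀ w ∈ W, d w ∈ M ∧ Sh τ' ((p ^ 2 + h ^ 2) * e) w.1.1 w.1.2 (d w).1 ∧
      Sh τ' ((p ^ 2 + h ^ 2) * e) w.1.1 w.1.2 (d w).2 ∧ ND w.1.1 w.1.2 (d w).1 (d w).2 := by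
    intro w hw
    obtain ⟨-, -, -, h4, h5⟩ := memW w hw
    obtain ⟨-, -, g3, g4, g5, g6, g7, -, g9⟩ := hQ1 _ _ h4 _ h5
    exact ⟨mem_filter.2 ⟨mem_product.2 ⟨g3, g4⟩, g9⟩, hD.sh τ e τ' p h _ _ _ g5,
      hD.sh τ e τ' p h _ _ _ g6, hD.nd τ e τ' p h _ _ _ _ hh g5 g6 g7⟩
  have dinj : ∀ w ∈ W, ∀ w' ∈ W, w.1 = w'.1 → d w = d w' → w = w' := by
    intro w hw w' hw' e1 e2
    obtain ⟨-, s1, s2, -⟩ := fc w hw
    obtain ⟨-, s3, s4, -⟩ := fc w' hw'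
    simp only [hd, Prod.mk.injEq] at e2
    rw [← e1] at s3 s4 e2
    exact Prod.ext e1 (Prod.ext (hD.inj τ e τ' p h _ _ _ _ hh s1 s3 e2.1)
      (hD.inj τ e τ' p h _ _ _ _ hh s2 s4 e2.2))
  set ν : (V3 × V3) × V3 × V3 → V3 := fun w => w.2.2 - w.2.1 with hν
  set ν' : (V3 × V3) × V3 × V3 → V3 := fun w => (d w).2 - (d w).1 with hν'
  have k1 : 1 ≤ k := by omega
  have p1 : #{w ∈ W | #(dirs (pl P w.1.1 (ν w)) w.1.1) ≤ k ∧ Flat P w.1.1 (ν w) k} ≤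
      C2 * k * #M := by
    refine poor_count (fun c c' => hC2 P τ e k c c' he k1) _ Prod.fst Prod.snd
      (fun w hw => (fc w (mem_filter.1 hw).1).1) (fun w _ w' _ e1 e2 => Prod.ext e1 e2) ?_
    intro w hw
    obtain ⟨hw1, hw2⟩ := mem_filter.1 hw
    obtain ⟨-, s1, s2, s3⟩ := fc w hw1
    exact ⟨(memW w hw1).1, (memW w hw1).2.1, s1, s2, s3, hw2⟩
  have p2 : #{w ∈ W | #(dirs (pl P w.1.2 (ν w)) w.1.2) ≤ k ∧ Flat P w.1.2 (ν w) k} ≤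
      C2 * k * #M := by
    refine poor_count (fun c c' => hC2 P (1 - τ) e k c c' he k1) _ (fun w => w.1.swap) Prod.snd
      (fun w hw => (fc w (mem_filter.1 hw).1).1)
      (fun w _ w' _ e1 e2 => Prod.ext (Prod.swap_injective e1) e2) ?_
    intro w hw
    obtain ⟨hw1, hw2⟩ := mem_filter.1 hw
    obtain ⟨-, s1, s2, s3⟩ := fc w hw1
    exact ⟨(memW w hw1).2.1, (memW w hw1).1, hD.swap _ _ _ _ _ s1, hD.swap _ _ _ _ _ s2,
      hD.nds _ _ _ _ s3, hw2⟩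
  have p3 : #{w ∈ W | #(dirs (pl P w.1.1 (ν' w)) w.1.1) ≤ k ∧ Flat P w.1.1 (ν' w) k} ≤
      C2 * k * #M := by
    refine poor_count (fun c c' => hC2 P τ' _ k c c' he' k1) _ Prod.fst d
      (fun w hw => (fd w (mem_filter.1 hw).1).1)
      (fun w hw w' hw' => dinj w (mem_filter.1 hw).1 w' (mem_filter.1 hw').1) ?_
    intro w hw
    obtain ⟨hw1, hw2⟩ := mem_filter.1 hw
    obtain ⟨-, s1, s2, s3⟩ := fd w hw1
    exact ⟨(memW w hw1).1, (memW w hw1).2.1, s1, s2, s3, hw2⟩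
  have p4 : #{w ∈ W | #(dirs (pl P w.1.2 (ν' w)) w.1.2) ≤ k ∧ Flat P w.1.2 (ν' w) k} ≤
      C2 * k * #M := by
    refine poor_count (fun c c' => hC2 P (1 - τ') _ k c c' he' k1) _ (fun w => w.1.swap) d
      (fun w hw => (fd w (mem_filter.1 hw).1).1)
      (fun w hw w' hw' e1 => dinj w (mem_filter.1 hw).1 w' (mem_filter.1 hw').1
        (Prod.swap_injective e1)) ?_
    intro w hw
    obtain ⟨hw1, hw2⟩ := mem_filter.1 hw
    obtain ⟨-, s1, s2, s3⟩ := fd w hw1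
    exact ⟨(memW w hw1).2.1, (memW w hw1).1, hD.swap _ _ _ _ _ s1, hD.swap _ _ _ _ _ s2,
      hD.nds _ _ _ _ s3, hw2⟩
  -- rich planes
  set N : Finset V3 := (P.offDiag.image fun x => x.2 - x.1).image rep with hN
  have hNP : NP N := by
    refine rep'.np _ fun u hu => ?_
    obtain ⟨x, hx, rfl⟩ := mem_image.1 hu
    exact sub_ne_zero.2 (mem_offDiag.1 hx).2.2.symm
  have hNm : ∀ x ∈ M, x.2 - x.1 ≠ 0 → rep (x.2 - x.1) ∈ N := by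
    intro x hx h0
    have := mem_product.1 (mem_filter.1 hx).1
    exact mem_image_of_mem _ (mem_image.2 ⟨x, mem_offDiag.2
      ⟨this.1, this.2, (sub_ne_zero.1 h0).symm⟩, rfl⟩)
  have n1 : ∀ w ∈ W, ν w ≠ 0 := fun w hw => nd_ne (fc w hw).2.2.2
  have n2 : ∀ w ∈ W, ν' w ≠ 0 := fun w hw => nd_ne (fd w hw).2.2.2
  have q1 : ∀ w ∈ W, (w.1.2 - w.1.1) ⬝ᵥ ν w = 0 := fun w hw =>
    perp (fc w hw).2.1 (fc w hw).2.2.1
  have q2 : ∀ w ∈ W, (w.1.2 - w.1.1) ⬝ᵥ ν' w = 0 := fun w hw =>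
    perp (fd w hw).2.1 (fd w hw).2.2.1
  have neg : ∀ {a b u : V3}, (b - a) ⬝ᵥ u = 0 → (a - b) ⬝ᵥ u = 0 := by
    intro a b u h0
    rw [← neg_sub, neg_dotProduct, h0, neg_zero]
  have prp : ∀ {z u : V3}, u ≠ 0 → z ⬝ᵥ u = 0 → z ⬝ᵥ rep u = 0 := by
    intro z u h0 h1
    obtain ⟨t, -, ht⟩ := rep'.smul u h0
    rw [ht, dotProduct_smul, h1, smul_zero]
  have lat : ∀ {x u : V3}, u ≠ 0 → LineAt P x u k → LineAt P x (rep u) k := by
    rintro x u h0 ⟨y, h1, h2, h3, h4⟩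
    exact ⟨y, h1, h2, prp h0 h3, h4⟩
  have ang : ∀ w ∈ W, Ang κ (rep (ν w)) (rep (ν' w)) := by
    intro w hw
    obtain ⟨s, -, hs⟩ := rep'.smul _ (n1 w hw)
    obtain ⟨t, -, ht⟩ := rep'.smul _ (n2 w hw)
    rw [hs, ht]
    exact ang_smul (hD.ang τ e τ' p h _ _ _ _ hh (fc w hw).2.1 (fc w hw).2.2.1)
  have lnj : ∀ w ∈ W, #(ln P w.1.1 w.1.2) ≤ j := fun w hw => hE _ (memW w hw).2.2.1
  have lns : ∀ w ∈ W, ln P w.1.2 w.1.1 = ln P w.1.1 w.1.2 := by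
    intro w hw
    obtain ⟨h1, h2, -, h3, -⟩ := memW w hw
    exact rep'.ln P _ _ _ _ h3 h3.symm (mem_ln_right P _ h2) (mem_ln_left P _ h1)
  have fib : ∀ (a b μ : V3) (W' : Finset ((V3 × V3) × V3 × V3)), W' ⊆ W →
      (∀ w ∈ W', w.1 = (a, b) ∧ rep (ν w) = μ) → #W' ≤ 3 := by
    intro a b μ W' hW' h0
    rcases W'.eq_empty_or_nonempty with rfl | ⟨w0, hw0⟩
    · simp
    have hab : a ≠ b := by
      have := (memW w0 (hW' hw0)).2.2.2.1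
      rwa [(h0 w0 hw0).1] at this
    refine le_trans ?_ (hQ4 a b hab _ (n1 w0 (hW' hw0)))
    refine card_le_card_of_injOn Prod.snd ?_ ?_
    · intro w hw
      have h4 := (memW w (hW' hw)).2.2.2.2
      rw [(h0 w hw).1] at h4
      exact mem_coe.2 (mem_filter.2 ⟨h4, (rep'.eq _ _ (n1 w (hW' hw)) (n1 w0 (hW' hw0))).1
        ((h0 w hw).2.trans (h0 w0 hw0).2.symm)⟩)
    · intro w hw w' hw' e1
      exact Prod.ext ((h0 w hw).1.trans (h0 w' hw').1.symm) e1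
  have wa : ∀ w ∈ W, (w.1.1, w.1.2, rep (ν w), rep (ν' w)) ∈ P ×ˢ P ×ˢ N ×ˢ N ∧
      Wedge κ (w.1.1, w.1.2, rep (ν w), rep (ν' w)) := by
    intro w hw
    obtain ⟨h1, h2, -, h3, -⟩ := memW w hw
    simp only [mem_product]
    exact ⟨⟨h1, h2, hNm _ (fc w hw).1 (n1 w hw), hNm _ (fd w hw).1 (n2 w hw)⟩, h3,
      prp (n1 w hw) (q1 w hw), prp (n2 w hw) (q2 w hw), ang w hw⟩
  have wb : ∀ w ∈ W, (w.1.2, w.1.1, rep (ν w), rep (ν' w)) ∈ P ×ˢ P ×ˢ N ×ˢ N ∧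
      Wedge κ (w.1.2, w.1.1, rep (ν w), rep (ν' w)) := by
    intro w hw
    obtain ⟨h1, h2, -, h3, -⟩ := memW w hw
    simp only [mem_product]
    exact ⟨⟨h2, h1, hNm _ (fc w hw).1 (n1 w hw), hNm _ (fd w hw).1 (n2 w hw)⟩, h3.symm,
      prp (n1 w hw) (neg (q1 w hw)), prp (n2 w hw) (neg (q2 w hw)), ang w hw⟩
  have ca : ∀ (W' : Finset ((V3 × V3) × V3 × V3)) (U : Finset (V3 × V3 × V3 × V3)), W' ⊆ W →
      (∀ w ∈ W', (w.1.1, w.1.2, rep (ν w), rep (ν' w)) ∈ U) → #W' ≤ 3 * #U := by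
    intro W' U h1 h2
    refine card_le_mul_card_image_of_maps_to h2 3 fun x _ => ?_
    refine fib x.1 x.2.1 x.2.2.1 _ (fun w hw => h1 (mem_filter.1 hw).1) fun w hw => ?_
    obtain ⟨-, rfl⟩ := mem_filter.1 hw
    exact ⟨rfl, rfl⟩
  have cb : ∀ (W' : Finset ((V3 × V3) × V3 × V3)) (U : Finset (V3 × V3 × V3 × V3)), W' ⊆ W →
      (∀ w ∈ W', (w.1.2, w.1.1, rep (ν w), rep (ν' w)) ∈ U) → #W' ≤ 3 * #U := by
    intro W' U h1 h2
    refine card_le_mul_card_image_of_maps_to h2 3 fun x _ => ?_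
    refine fib x.2.1 x.1 x.2.2.1 _ (fun w hw => h1 (mem_filter.1 hw).1) fun w hw => ?_
    obtain ⟨-, rfl⟩ := mem_filter.1 hw
    exact ⟨rfl, rfl⟩
  have hRR := hC3 P N κ j k ρ lam y hNP hκ0 hκ1 hk hρ hlam hy
  have hMX := hC4 P N κ k lam ι hNP hκ0 hκ1 hk hlam hι
  have p5 : #{w ∈ W | k ≤ #(dirs (pl P w.1.1 (ν w)) w.1.1) ∧
      k ≤ #(dirs (pl P w.1.1 (ν' w)) w.1.1)} ≤ 3 * (C3 * (j * #P * y)) := by
    refine le_trans (ca _ _ (filter_subset _ _) fun w hw => ?_) (Nat.mul_le_mul_left 3 hRR)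
    obtain ⟨hw1, hw2⟩ := mem_filter.1 hw
    refine mem_filter.2 ⟨(wa w hw1).1, (wa w hw1).2, lnj w hw1, ?_⟩
    dsimp only
    rw [pl_rep rep' _ _ _ (n1 w hw1), pl_rep rep' _ _ _ (n2 w hw1)]
    exact hw2
  have p6 : #{w ∈ W | k ≤ #(dirs (pl P w.1.2 (ν w)) w.1.2) ∧
      k ≤ #(dirs (pl P w.1.2 (ν' w)) w.1.2)} ≤ 3 * (C3 * (j * #P * y)) := by
    refine le_trans (cb _ _ (filter_subset _ _) fun w hw => ?_) (Nat.mul_le_mul_left 3 hRR)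
    obtain ⟨hw1, hw2⟩ := mem_filter.1 hw
    refine mem_filter.2 ⟨(wb w hw1).1, (wb w hw1).2, ?_, ?_⟩
    · dsimp only
      rw [lns w hw1]
      exact lnj w hw1
    · dsimp only
      rw [pl_rep rep' _ _ _ (n1 w hw1), pl_rep rep' _ _ _ (n2 w hw1)]
      exact hw2
  have p7 : #{w ∈ W | LineAt P w.1.1 (ν w) k ∧ LineAt P w.1.2 (ν' w) k} ≤
      3 * (C4 * (lam * ι)) := by
    refine le_trans (ca _ _ (filter_subset _ _) fun w hw => ?_) (Nat.mul_le_mul_left 3 hMX)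
    obtain ⟨hw1, hw2⟩ := mem_filter.1 hw
    exact mem_filter.2 ⟨(wa w hw1).1, (wa w hw1).2, (lnj w hw1).trans hjk,
      lat (n1 w hw1) hw2.1, lat (n2 w hw1) hw2.2⟩
  have p8 : #{w ∈ W | LineAt P w.1.2 (ν w) k ∧ LineAt P w.1.1 (ν' w) k} ≤
      3 * (C4 * (lam * ι)) := by
    refine le_trans (cb _ _ (filter_subset _ _) fun w hw => ?_) (Nat.mul_le_mul_left 3 hMX)
    obtain ⟨hw1, hw2⟩ := mem_filter.1 hw
    refine mem_filter.2 ⟨(wb w hw1).1, (wb w hw1).2, ?_,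
      lat (n1 w hw1) hw2.1, lat (n2 w hw1) hw2.2⟩
    dsimp only
    rw [lns w hw1]
    exact (lnj w hw1).trans hjk
  have cover := card_le_eight W
    (fun w => #(dirs (pl P w.1.1 (ν w)) w.1.1) ≤ k ∧ Flat P w.1.1 (ν w) k)
    (fun w => #(dirs (pl P w.1.2 (ν w)) w.1.2) ≤ k ∧ Flat P w.1.2 (ν w) k)
    (fun w => #(dirs (pl P w.1.1 (ν' w)) w.1.1) ≤ k ∧ Flat P w.1.1 (ν' w) k)
    (fun w => #(dirs (pl P w.1.2 (ν' w)) w.1.2) ≤ k ∧ Flat P w.1.2 (ν' w) k)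
    (fun w => k ≤ #(dirs (pl P w.1.1 (ν w)) w.1.1) ∧ k ≤ #(dirs (pl P w.1.1 (ν' w)) w.1.1))
    (fun w => k ≤ #(dirs (pl P w.1.2 (ν w)) w.1.2) ∧ k ≤ #(dirs (pl P w.1.2 (ν' w)) w.1.2))
    (fun w => LineAt P w.1.1 (ν w) k ∧ LineAt P w.1.2 (ν' w) k)
    (fun w => LineAt P w.1.2 (ν w) k ∧ LineAt P w.1.1 (ν' w) k) (by
      intro w hw
      obtain ⟨h1, h2, -, h3, -⟩ := memW w hw
      have hl := (lnj w hw).trans hjk
      have A := hS.one P w.1.1 (ν w) k k1 h1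
      have B := hS.one P w.1.2 (ν w) k k1 h2
      have A' := hS.one P w.1.1 (ν' w) k k1 h1
      have B' := hS.one P w.1.2 (ν' w) k k1 h2
      have t1 := hS.two P _ _ (ν w) k h1 h2 h3 (q1 w hw)
      have t2 := hS.two P _ _ (ν' w) k h1 h2 h3 (q2 w hw)
      exact eight_cases hl A B A' B' t1 t2)
  have e1 : C2 * k * #M ≤ C2 * (k * m) := by rw [mul_assoc]; gcongr
  have e2 : #E ≤ r * #E := Nat.le_mul_of_pos_left _ hr
  have e3 : (2 * (C1 * r) + 1) * #E = 2 * (C1 * (r * #E)) + #E := by ring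
  have e4 : (8 * (C1 * r) + 6) * #E = 8 * (C1 * (r * #E)) + 6 * #E := by ring
  have fin : #T ≤ 12 * (C1 * (r * #E)) + 8 * (r * #E) + 8 * #P ^ 2 + 4 * (C2 * (k * m)) +
      6 * (C3 * (j * #P * y)) + 6 * (C4 * (lam * ι)) := by omega
  exact fin.trans (final_arith ..)

end Pool.Agent.MP_36f34d_co.H52
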