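import Pool.Agent.MP_36f34d_co.H52.Spec2

/-!
Wedges whose planes contain rich lines.
-/

namespace Pool.Agent.MP_36f34d_co.H52

open Finset Matrix MvPolynomial

namespace MixAux

theorem left_mem {P : Finset V3} {a : V3} (ha : a ∈ P) (y : V3) : a ∈ ln P a y := by
  simp [ln, ha]

theorem right_mem {P : Finset V3} {y : V3} (hy : y ∈ P) (a : V3) : y ∈ ln P a y := by
  simp [ln, hy]

theorem exists_dir (P : Finset V3) : ∀ l ∈ lines P, ∃ x u : V3, u ≠ 0 ∧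
    (∀ z ∈ l, crossProduct (z - x) u = 0) ∧
    ∀ a y, a ≠ y → l = ln P a y → ∃ t : ℝ, t ≠ 0 ∧ u = t • (y - a) := by
  intro l hl
  obtain ⟨⟨x, z⟩, hp, rfl⟩ := mem_image.1 hl
  obtain ⟨hx, hz, hxz⟩ := mem_offDiag.1 hp
  have hu : z - x ≠ 0 := sub_ne_zero.2 hxz.symm
  refine ⟨x, z - x, hu, fun w hw => (mem_filter.1 hw).2, fun a y hay h => ?_⟩
  have h1 : x ∈ ln P a y := h ▸ left_mem hx z
  have h2 : z ∈ ln P a y := h ▸ right_mem hz x
  obtain ⟨s, hs⟩ := rep'.par _ _ (sub_ne_zero.2 hay.symm) (mem_filter.1 h1).2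
  obtain ⟨t, ht⟩ := rep'.par _ _ (sub_ne_zero.2 hay.symm) (mem_filter.1 h2).2
  have h3 : z - x = (t - s) • (y - a) := by
    rw [sub_smul, ← hs, ← ht]
    abel
  refine ⟨t - s, fun h0 => hu ?_, h3⟩
  rw [h3, h0, zero_smul]

theorem cross_normal {u w ν : V3} (h1 : u ⬝ᵥ ν = 0) (h2 : w ⬝ᵥ ν = 0) :
    crossProduct (crossProduct u w) ν = 0 := by
  rw [cross_cross_eq_smul_sub_smul, h1, h2]
  simp

theorem ang_smul {κ : ℝ} {u v : V3} (h : Ang κ u v) (s t : ℝ) : Ang κ (s • u) (t • v) := by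
  unfold Ang at h ⊢
  simp only [smul_dotProduct, dotProduct_smul, smul_eq_mul]
  linear_combination (s * t) ^ 2 * h

theorem normal_eq {N : Finset V3} (hN : NP N) {u w ν μ : V3} (hν : ν ∈ N) (hμ : μ ∈ N)
    (h0 : crossProduct u w ≠ 0) (h1 : u ⬝ᵥ ν = 0) (h2 : w ⬝ᵥ ν = 0) (h3 : u ⬝ᵥ μ = 0)
    (h4 : w ⬝ᵥ μ = 0) : ν = μ := by
  obtain ⟨t, ht⟩ := rep'.par _ _ (hN.ne ν hν) (cross_normal h1 h2)
  have h5 := cross_normal h3 h4
  rw [ht, map_smul, LinearMap.smul_apply] at h5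
  refine hN.inj ν hν μ hμ ((smul_eq_zero.1 h5).resolve_left fun h => h0 ?_)
  rw [ht, h, zero_smul]

theorem mem_of_cross {P : Finset V3} {a y c u : V3} {t : ℝ} (ht : t ≠ 0) (hu : u = t • (y - a))
    (hc : c ∈ P) (h : crossProduct u (c - a) = 0) : c ∈ ln P a y := by
  refine mem_filter.2 ⟨hc, ?_⟩
  rw [hu, map_smul, LinearMap.smul_apply] at h
  rw [← cross_anticomm, (smul_eq_zero.1 h).resolve_left ht, neg_zero]

end MixAux

open MixAux Classical in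
theorem mix : StmtMIX0 → StmtMIX := by
  intro h0
  obtain ⟨C, hC⟩ := RL'
  refine ⟨5 * C ^ 2, fun P N κ k lam ι hN hκ0 hκ1 hk hlam hι => ?_⟩
  choose! o u hu hline hdir using exists_dir P
  set L := {l ∈ lines P | k ≤ #l} with hL
  set F : Finset V3 → Finset V3 → Finset (V3 × V3 × V3 × V3) := fun l l' =>
    {x ∈ l ×ˢ l' ×ˢ N ×ˢ N | Wedge κ x ∧ u l ⬝ᵥ x.2.2.1 = 0 ∧ u l' ⬝ᵥ x.2.2.2 = 0 ∧
      crossProduct (u l) (x.2.1 - x.1) ≠ 0 ∧ crossProduct (u l') (x.2.1 - x.1) ≠ 0} with hF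
  have hsub : {x ∈ P ×ˢ P ×ˢ N ×ˢ N | Wedge κ x ∧ #(ln P x.1 x.2.1) ≤ k ∧
      LineAt P x.1 x.2.2.1 k ∧ LineAt P x.2.1 x.2.2.2 k} ⊆
      L.biUnion fun l => L.biUnion fun l' => F l l' := by
    rintro ⟨a, b, ν, μ⟩ hx
    simp only [mem_filter, mem_product] at hx
    obtain ⟨⟨ha, hb, hν, hμ⟩, hw, hab, ⟨y, hy, hay, hyν, hky⟩, ⟨z, hz, hbz, hzμ, hkz⟩⟩ := hx
    have hl : ln P a y ∈ lines P := mem_image.2 ⟨(a, y), mem_offDiag.2 ⟨ha, hy, hay⟩, rfl⟩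
    have hl' : ln P b z ∈ lines P := mem_image.2 ⟨(b, z), mem_offDiag.2 ⟨hb, hz, hbz⟩, rfl⟩
    obtain ⟨s, hs0, hs⟩ := hdir _ hl a y hay rfl
    obtain ⟨t, ht0, ht⟩ := hdir _ hl' b z hbz rfl
    refine mem_biUnion.2 ⟨ln P a y, mem_filter.2 ⟨hl, hky.le⟩,
      mem_biUnion.2 ⟨ln P b z, mem_filter.2 ⟨hl', hkz.le⟩, ?_⟩⟩
    simp only [hF, mem_filter, mem_product]
    refine ⟨⟨left_mem ha y, left_mem hb z, hν, hμ⟩, hw, ?_, ?_, fun h => ?_, fun h => ?_⟩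
    · rw [hs, smul_dotProduct, hyν, smul_zero]
    · rw [ht, smul_dotProduct, hzμ, smul_zero]
    · have := rep'.ln P a y a b hay hw.1 (left_mem ha y) (mem_of_cross hs0 hs hb h)
      rw [this] at hab
      omega
    · have h' : crossProduct (u (ln P b z)) (a - b) = 0 := by
        rw [← neg_sub, map_neg, h, neg_zero]
      have := rep'.ln P b z a b hbz hw.1 (mem_of_cross ht0 ht ha h') (left_mem hb z)
      rw [this] at hab
      omega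
  have hcard : ∀ l ∈ L, ∀ l' ∈ L, #(F l l') ≤ 3 * #l + 2 * #l' := by
    intro l hl l' hl'
    obtain ⟨h1, h2⟩ := mem_filter.1 hl
    obtain ⟨h3, -⟩ := mem_filter.1 hl'
    have h4 := h0 l l' (o l) (u l) (o l') (u l') κ (hu l h1) (hu l' h3) hκ0 hκ1 (hline l h1)
      (hline l' h3)
    refine le_trans (card_le_card_of_injOn (fun x => (x.1, x.2.1)) ?_ ?_) (h4.trans (by omega))
    · rintro ⟨a, b, ν, μ⟩ hx
      simp only [hF, coe_filter, mem_product, Set.mem_ofPred_eq] at hx ⊢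
      obtain ⟨⟨ha, hb, hν, hμ⟩, ⟨-, w1, w2, w3⟩, e1, e2, n1, n2⟩ := hx
      obtain ⟨s, hs⟩ := rep'.par _ _ (hN.ne ν hν) (cross_normal e1 w1)
      obtain ⟨t, ht⟩ := rep'.par _ _ (hN.ne μ hμ) (cross_normal e2 w2)
      refine ⟨⟨ha, hb⟩, n1, n2, ?_⟩
      rw [hs, ht]
      exact ang_smul w3 s t
    · rintro ⟨a, b, ν, μ⟩ hx ⟨a', b', ν', μ'⟩ hx' h
      simp only [Prod.mk.injEq] at h
      obtain ⟨rfl, rfl⟩ := h
      simp only [hF, coe_filter, mem_product, Set.mem_ofPred_eq] at hx hx'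
      obtain ⟨⟨-, -, hν, hμ⟩, ⟨-, w1, w2, -⟩, e1, e2, n1, n2⟩ := hx
      obtain ⟨⟨-, -, hν', hμ'⟩, ⟨-, w1', w2', -⟩, e1', e2', -, -⟩ := hx'
      rw [normal_eq hN hν hν' n1 e1 w1 e1' w1', normal_eq hN hμ hμ' n2 e2 w2 e2' w2']
  set S := ∑ l ∈ L, #l with hS
  have hRL : k ^ 2 * S ≤ C * (#P ^ 2 + k ^ 2 * #P) := hC P k hk
  have hk0 : 0 < k := by omega
  have h1 : S ≤ C * ι := by
    refine Nat.le_of_mul_le_mul_left (hRL.trans ?_) (pow_pos hk0 2)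
    calc C * (#P ^ 2 + k ^ 2 * #P) ≤ C * (k ^ 2 * ι) := Nat.mul_le_mul_left _ hι
      _ = _ := by ring
  have h2 : #L ≤ C * lam := by
    have h3 : #L * k ≤ S := card_nsmul_le_sum L _ k fun l hl => (mem_filter.1 hl).2
    refine Nat.le_of_mul_le_mul_left ?_ (pow_pos hk0 3)
    calc k ^ 3 * #L = k ^ 2 * (#L * k) := by ring
      _ ≤ k ^ 2 * S := Nat.mul_le_mul_left _ h3
      _ ≤ C * (k ^ 3 * lam) := hRL.trans (Nat.mul_le_mul_left _ hlam)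
      _ = _ := by ring
  calc _ ≤ ∑ l ∈ L, ∑ l' ∈ L, (3 * #l + 2 * #l') :=
        (card_le_card hsub).trans (card_biUnion_le.trans (sum_le_sum fun l hl =>
          card_biUnion_le.trans (sum_le_sum fun l' hl' => hcard l hl l' hl')))
    _ = 5 * (#L * S) := by
        simp only [sum_add_distrib, sum_const, smul_eq_mul, ← mul_sum, ← hS]
        ring
    _ ≤ 5 * (C * lam * (C * ι)) := Nat.mul_le_mul_left _ (Nat.mul_le_mul h2 h1)
    _ = _ := by ring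

end Pool.Agent.MP_36f34d_co.H52
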