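import Pool.Agent.MP_36f34d_co.H52.Spec2

/-! Points on two lines that span planes at a fixed angle. -/

namespace Pool.Agent.MP_36f34d_co.H52

open Finset Matrix

namespace Mix0A

theorem scal {e p q A B C κ s t : ℝ} (he : e ≠ 0) (hD : A * C - B ^ 2 ≠ 0) (hz : e * C - q ^ 2 ≠ 0)
    (hκ : κ ≠ 1) (hs : s ≠ 0) (ht : t ≠ 0) (hst : s ≠ t)
    (h0 : (p * C - q * B) ^ 2 = κ * (A * C - B ^ 2) * (e * C - q ^ 2))
    (h1 : (p * C - q * B + s * (p * B - q * A)) ^ 2 =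
      κ * (A * C - B ^ 2) * (e * (C + 2 * s * B + s ^ 2 * A) - (q + s * p) ^ 2))
    (h2 : (p * C - q * B + t * (p * B - q * A)) ^ 2 =
      κ * (A * C - B ^ 2) * (e * (C + 2 * t * B + t ^ 2 * A) - (q + t * p) ^ 2)) :
    p = 0 ∧ q = 0 := by
  have c3 : (p * B - q * A) ^ 2 = κ * (A * C - B ^ 2) * (e * A - p ^ 2) :=
    mul_left_cancel₀ (mul_ne_zero (mul_ne_zero hs ht) (sub_ne_zero.2 hst))
      (by linear_combination t * h1 - s * h2 + (s - t) * h0)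
  have c2 : (p * C - q * B) * (p * B - q * A) = κ * (A * C - B ^ 2) * (e * B - p * q) :=
    mul_left_cancel₀ (mul_ne_zero two_ne_zero hs) (by linear_combination h1 - h0 - s ^ 2 * c3)
  have c4 : (κ * (A * C - B ^ 2)) ^ 2 * e *
      (e * (A * C - B ^ 2) - p * (p * C - q * B) + q * (p * B - q * A)) = 0 := by
    linear_combination (-(p * B - q * A) ^ 2) * h0 - κ * (A * C - B ^ 2) * (e * C - q ^ 2) * c3 +
      ((p * C - q * B) * (p * B - q * A) + κ * (A * C - B ^ 2) * (e * B - p * q)) * c2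
  have hk : κ = 0 := by
    by_contra hk
    have c5 := (mul_eq_zero.1 c4).resolve_left
      (mul_ne_zero (pow_ne_zero 2 (mul_ne_zero hk hD)) he)
    exact mul_ne_zero (mul_ne_zero (sub_ne_zero.2 hκ) hD) hz (by linear_combination -h0 - C * c5)
  rw [hk, zero_mul, zero_mul, sq_eq_zero_iff] at h0 c3
  exact ⟨mul_left_cancel₀ hD (by linear_combination A * h0 - B * c3),
    mul_left_cancel₀ hD (by linear_combination B * h0 - C * c3)⟩

/-- The planes spanned by `w` with `u` and with `u'` make the given angle. -/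
def G (κ : ℝ) (u u' w : V3) : Prop :=
  crossProduct u w ≠ 0 ∧ crossProduct u' w ≠ 0 ∧ Ang κ (crossProduct u w) (crossProduct u' w)

theorem G.symm {κ : ℝ} {u u' w : V3} (h : G κ u u' w) : G κ u' u w :=
  ⟨h.2.1, h.1, by
    have := h.2.2
    unfold Ang at this ⊢
    rw [dotProduct_comm, this, mul_comm (_ ⬝ᵥ _)]⟩

theorem fib {κ s t : ℝ} {u u' z : V3} (hu : u ≠ 0) (hκ : κ < 1) (h0 : G κ u u' z)
    (h1 : G κ u u' (z + s • u')) (h2 : G κ u u' (z + t • u')) (hs : s ≠ 0) (ht : t ≠ 0)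
    (hst : s ≠ t) : u ⬝ᵥ u' = 0 ∧ u ⬝ᵥ z = 0 := by
  have key : ∀ s : ℝ, G κ u u' (z + s • u') →
      (u ⬝ᵥ u' * z ⬝ᵥ z - u ⬝ᵥ z * u' ⬝ᵥ z + s * (u ⬝ᵥ u' * u' ⬝ᵥ z - u ⬝ᵥ z * u' ⬝ᵥ u')) ^ 2 =
      κ * (u' ⬝ᵥ u' * z ⬝ᵥ z - (u' ⬝ᵥ z) ^ 2) *
        (u ⬝ᵥ u * (z ⬝ᵥ z + 2 * s * u' ⬝ᵥ z + s ^ 2 * u' ⬝ᵥ u') - (u ⬝ᵥ z + s * u ⬝ᵥ u') ^ 2) := by
    intro s h
    have := h.2.2
    simp only [Ang, cross_dot_cross, dotProduct_add, add_dotProduct, dotProduct_smul,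
      smul_dotProduct, smul_eq_mul, dotProduct_comm z u, dotProduct_comm z u',
      dotProduct_comm u' u] at this
    linear_combination this
  have ne : ∀ v : V3, crossProduct v z ≠ 0 → v ⬝ᵥ v * z ⬝ᵥ z - (v ⬝ᵥ z) ^ 2 ≠ 0 := fun v hv h =>
    hv (dotProduct_self_eq_zero.1 (by rw [cross_dot_cross, dotProduct_comm z v, ← sq, h]))
  exact scal (mt dotProduct_self_eq_zero.1 hu) (ne _ h0.2.1) (ne _ h0.1) hκ.ne hs ht hst
    (by linear_combination key 0 (by simpa using h0)) (key s h1) (key t h2)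

theorem three {κ : ℝ} {u u' : V3} (hu : u ≠ 0) (hκ : κ < 1) (T : Finset (V3 × V3))
    (h : ∀ x ∈ T, G κ u u' (x.2 - x.1) ∧ ¬(u ⬝ᵥ u' = 0 ∧ u ⬝ᵥ (x.2 - x.1) = 0))
    (h2 : ∀ x ∈ T, ∀ y ∈ T, ∃ s : ℝ, y.2 - y.1 = x.2 - x.1 + s • u')
    (h3 : ∀ x ∈ T, ∀ y ∈ T, x.2 - x.1 = y.2 - y.1 → x = y) : #T ≤ 2 := by
  by_contra hc
  obtain ⟨x, y, z, hx, hy, hz, n1, n2, n3⟩ := two_lt_card_iff.1 (not_le.1 hc)
  obtain ⟨s, hs⟩ := h2 x hx y hy
  obtain ⟨t, ht⟩ := h2 x hx z hz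
  refine (h x hx).2 (fib (s := s) (t := t) hu hκ (h x hx).1 (hs ▸ (h y hy).1) (ht ▸ (h z hz).1)
    ?_ ?_ ?_)
  · rintro rfl
    exact n1 (h3 x hx y hy (by simp [hs]))
  · rintro rfl
    exact n2 (h3 x hx z hz (by simp [ht]))
  · rintro rfl
    exact n3 (h3 y hy z hz (hs.trans ht.symm))

theorem onl {u a₀ a a' : V3} (hu : u ≠ 0) (h : crossProduct (a - a₀) u = 0)
    (h' : crossProduct (a' - a₀) u = 0) : ∃ s : ℝ, a' = a + s • u := by
  obtain ⟨s, hs⟩ := rep'.par _ _ hu h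
  obtain ⟨t, ht⟩ := rep'.par _ _ hu h'
  exact ⟨t - s, by rw [sub_smul, ← hs, ← ht]; abel⟩

end Mix0A

open Mix0A

theorem mix0 : StmtMIX0 := by
  classical
  intro S S' a₀ u b₀ u' κ hu hu' _ hκ hS hS'
  set T := {x ∈ S ×ˢ S' | crossProduct u (x.2 - x.1) ≠ 0 ∧ crossProduct u' (x.2 - x.1) ≠ 0 ∧
    Ang κ (crossProduct u (x.2 - x.1)) (crossProduct u' (x.2 - x.1))} with hT
  have hm : ∀ x ∈ T, (x.1 ∈ S ∧ x.2 ∈ S') ∧ G κ u u' (x.2 - x.1) := fun x hx =>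
    ⟨mem_product.1 (mem_filter.1 hx).1, (mem_filter.1 hx).2⟩
  have h1 : #{x ∈ T | ¬(u ⬝ᵥ u' = 0 ∧ u ⬝ᵥ (x.2 - x.1) = 0)} ≤ 2 * #S := by
    refine card_le_mul_card_image_of_maps_to (f := Prod.fst)
      (fun x hx => (hm x (mem_filter.1 hx).1).1.1) 2 fun a _ => three (u' := u') hu hκ _
      (fun x hx => ?_) (fun x hx y hy => ?_) fun x hx y hy e => ?_
    all_goals simp only [mem_filter] at hx
    · exact ⟨(hm x hx.1.1).2, hx.1.2⟩
    all_goals simp only [mem_filter] at hy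
    · obtain ⟨s, hs⟩ := onl hu' (hS' _ (hm x hx.1.1).1.2) (hS' _ (hm y hy.1.1).1.2)
      exact ⟨s, by rw [hs, hx.2, hy.2]; abel⟩
    · rw [hx.2, hy.2, sub_left_inj] at e
      exact Prod.ext (hx.2.trans hy.2.symm) e
  have h2 : #{x ∈ T | ¬(u' ⬝ᵥ u = 0 ∧ u' ⬝ᵥ (x.2 - x.1) = 0)} ≤ 2 * #S' := by
    refine card_le_mul_card_image_of_maps_to (f := Prod.snd)
      (fun x hx => (hm x (mem_filter.1 hx).1).1.2) 2 fun a _ => three (u' := u) hu' hκ _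
      (fun x hx => ?_) (fun x hx y hy => ?_) fun x hx y hy e => ?_
    all_goals simp only [mem_filter] at hx
    · exact ⟨(hm x hx.1.1).2.symm, hx.1.2⟩
    all_goals simp only [mem_filter] at hy
    · obtain ⟨s, hs⟩ := onl hu (hS _ (hm x hx.1.1).1.1) (hS _ (hm y hy.1.1).1.1)
      exact ⟨-s, by rw [hs, hx.2, hy.2, neg_smul]; abel⟩
    · rw [hx.2, hy.2, sub_right_inj] at e
      exact Prod.ext e (hx.2.trans hy.2.symm)
  have h3 : #{x ∈ T | u ⬝ᵥ u' = 0 ∧ u ⬝ᵥ (x.2 - x.1) = 0 ∧ u' ⬝ᵥ (x.2 - x.1) = 0} ≤ 1 := by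
    refine card_le_one.2 fun x hx y hy => ?_
    obtain ⟨hx, e0, e1, e2⟩ := mem_filter.1 hx
    obtain ⟨hy, -, e3, e4⟩ := mem_filter.1 hy
    obtain ⟨s, hs⟩ := onl hu (hS _ (hm x hx).1.1) (hS _ (hm y hy).1.1)
    obtain ⟨t, ht⟩ := onl hu' (hS' _ (hm x hx).1.2) (hS' _ (hm y hy).1.2)
    have e : y.2 - y.1 = x.2 - x.1 + t • u' - s • u := by rw [hs, ht]; abel
    rw [e, dotProduct_sub, dotProduct_add, dotProduct_smul, dotProduct_smul] at e3 e4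
    rw [dotProduct_comm u' u] at e4
    have s0 : s = 0 := by simpa [e0, e1, hu] using e3
    have t0 : t = 0 := by simpa [e0, e2, hu'] using e4
    exact Prod.ext (by simp [hs, s0]) (by simp [ht, t0])
  refine le_trans (card_le_card fun x hx => ?_) (((card_union_le _ _).trans
    (add_le_add_left (card_union_le _ _) _)).trans (add_le_add (add_le_add h1 h2) h3))
  simp only [mem_union, mem_filter (s := T), hx, true_and, dotProduct_comm u' u]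
  tauto

end Pool.Agent.MP_36f34d_co.H52
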