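import Pool.Agent.MP_36f34d_co.H52.Spec2

/-! Poor planes are flat or contain a rich line, and bases over a chord with a flat plane. -/

namespace Pool.Agent.MP_36f34d_co.H52

open Finset Matrix MvPolynomial LP

namespace P2

theorem ln_pl {P : Finset V3} {x ν y z : V3} (hy : y ∈ pl P x ν) (hz : z ∈ pl P x ν) (h : y ≠ z) :
    ln (pl P x ν) y z = ln P y z := by
  ext w
  simp only [ln, pl, mem_filter] at hy hz ⊢
  refine ⟨fun a => ⟨a.1.1, a.2⟩, fun a => ⟨⟨a.1, ?_⟩, a.2⟩⟩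
  obtain ⟨t, ht⟩ := rep'.par _ _ (sub_ne_zero.2 h.symm) a.2
  have e : w - x = (y - x) + t • ((z - x) - (y - x)) := by
    rw [sub_sub_sub_cancel_right, ← ht]
    abel
  rw [e, add_dotProduct, smul_dotProduct, sub_dotProduct (z - x), hy.2, hz.2]
  simp

theorem self_mem {P : Finset V3} {x : V3} (ν : V3) (hx : x ∈ P) : x ∈ pl P x ν := by
  simp [pl, hx]

theorem on_line {P : Finset V3} {x ν y z w : V3} {k : ℕ} (hy : y ∈ pl P x ν) (hz : z ∈ pl P x ν)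
    (h : y ≠ z) (hw : w ∈ pl P x ν) (hk : k < #(ln P y z)) (hd : #(dirs (pl P x ν) w) ≤ k) :
    w ∈ ln P y z := by
  rw [← ln_pl hy hz h] at hk ⊢
  by_contra hn
  exact absurd ((sees rep' h hw hn).trans hd) (not_le.2 hk)

end P2

open P2

theorem split : StmtSPLIT := by
  refine ⟨fun P x ν k _ hx hd => ?_, fun P a b ν k ha hb hab h0 ⟨y, hy, ay, y0, hk⟩ hd => ?_⟩
  · rw [or_iff_not_imp_left]
    intro hF
    simp only [Flat, not_forall, not_le] at hF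
    obtain ⟨y, hy, z, hz, yz, hk⟩ := hF
    have m := on_line hy hz yz (self_mem ν hx) hk hd
    obtain ⟨y1, y2⟩ := mem_filter.1 hy
    obtain ⟨z1, z2⟩ := mem_filter.1 hz
    by_cases e : x = y
    · exact ⟨z, z1, e ▸ yz, z2, e ▸ hk⟩
    · exact ⟨y, y1, e, y2, by rwa [rep'.ln P y z x y yz e m (left_mem z y1)]⟩
  · rw [pl_eq P (show b ⬝ᵥ ν = a ⬝ᵥ ν by rwa [sub_dotProduct, sub_eq_zero] at h0)] at hd
    have m := on_line (self_mem ν ha) (mem_filter.2 ⟨hy, y0⟩) ay (mem_filter.2 ⟨hb, h0⟩) hk hd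
    rwa [rep'.ln P a y a b ay hab (left_mem y ha) m]

theorem poor2 : StmtSPLIT → StmtPOOR2 := by
  classical
  intro _
  obtain ⟨C, hC⟩ := BECK
  refine ⟨2 * C, fun P τ e k c c' he hk => ?_⟩
  suffices H : ∀ Q : Finset (V3 × V3), (∀ p ∈ Q, (p.1 ∈ P ∧ p.2 ∈ P) ∧ Sh τ e p.1 p.2 c ∧
      Sh τ e p.1 p.2 c' ∧ ND p.1 p.2 c c' ∧ #(dirs (pl P p.1 (c' - c)) p.1) ≤ k ∧
      Flat P p.1 (c' - c) k) → #Q ≤ 2 * C * k from H _ fun p hp => by
    rw [mem_filter, mem_product] at hp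
    exact hp
  intro Q mQ
  rcases Q.eq_empty_or_nonempty with rfl | ⟨p₀, h₀⟩
  · simp
  set K := pl P p₀.1 (c' - c) with hK
  set A := {x ∈ K | #(dirs K x) ≤ k} with hA
  have hAP : A ⊆ P := (filter_subset _ _).trans (filter_subset _ _)
  have mA : ∀ p ∈ Q, p.1 ∈ A := by
    intro p hp
    obtain ⟨⟨a1, -⟩, a3, a4, -, a5, -⟩ := mQ p hp
    obtain ⟨-, b3, b4, -⟩ := mQ p₀ h₀
    have e1 : p.1 ⬝ᵥ (c' - c) = p₀.1 ⬝ᵥ (c' - c) := by linarith [(bis a3 a4).1, (bis b3 b4).1]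
    rw [pl_eq P e1] at a5
    exact mem_filter.2 ⟨mem_filter.2 ⟨a1, by rw [sub_dotProduct, e1, sub_self]⟩, a5⟩
  have d1 : ∀ x ∈ A, #(dirs A x) ≤ k := fun x hx =>
    (card_le_card (image_subset_image (erase_subset_erase _ (filter_subset _ _)))).trans
      (mem_filter.1 hx).2
  have d2 : ∀ x ∈ A, ∀ y ∈ A, x ≠ y → #(ln A x y) ≤ k := fun x hx y hy hxy =>
    (card_le_card (filter_subset_filter _ hAP)).trans
      ((mQ p₀ h₀).2.2.2.2.2 x (mem_filter.1 hx).1 y (mem_filter.1 hy).1 hxy)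
  have h1 : #Q ≤ 2 * #A := by
    refine card_le_mul_card_image_of_maps_to (f := Prod.fst) mA 2 fun a _ => ?_
    rcases Finset.eq_empty_or_nonempty {p ∈ Q | p.1 = a} with h0 | ⟨⟨x, y⟩, h0⟩
    · rw [h0]
      simp
    obtain ⟨g0, g1⟩ := mem_filter.1 h0
    obtain rfl : x = a := g1
    obtain ⟨-, b3, -, b4, -⟩ := mQ _ g0
    refine le_trans ?_ (geo.two P (c' - c) (c - x) x (x ⬝ᵥ (c' - c))
      (x ⬝ᵥ (c - x) + τ * ((y - x) ⬝ᵥ (y - x))) ((y - x) ⬝ᵥ (y - x))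
      fun z => b4 (by rw [z, zero_dotProduct]))
    refine card_le_card_of_injOn Prod.snd (fun p hp => ?_) fun p hp p' hp' h => ?_
    · obtain ⟨hp, e1⟩ := mem_filter.1 hp
      obtain ⟨⟨-, a2⟩, a3, a4, -⟩ := mQ p hp
      have e1 : p.1 = x := e1
      rw [e1] at a3 a4
      have m1 : (p.2 - x) ⬝ᵥ (p.2 - x) = (y - x) ⬝ᵥ (y - x) :=
        mul_left_cancel₀ (by positivity : τ ^ 2 + e ≠ 0) (a3.2.2.symm.trans b3.2.2)
      refine mem_coe.2 (mem_filter.2 ⟨a2, (bis a3 a4).2, ?_, m1⟩)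
      rw [← m1, ← a3.2.1, dotProduct_comm (c - x), sub_dotProduct p.2 x, add_sub_cancel]
    · exact Prod.ext ((mem_filter.1 hp).2.trans (mem_filter.1 hp').2.symm) h
  calc #Q ≤ 2 * (C * k) := h1.trans (Nat.mul_le_mul_left _ (hC A k hk d2 d1))
    _ = _ := by ring

end Pool.Agent.MP_36f34d_co.H52
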