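import Pool.Agent.MP_36f34d_co.H52.Spec2

/-! Row RR: both planes are rich as seen from the first point. -/

namespace Pool.Agent.MP_36f34d_co.H52

open Finset Matrix

namespace RRAux

theorem dot_pos {u : V3} (h : u ≠ 0) : 0 < u ⬝ᵥ u :=
  lt_of_le_of_ne (sum_nonneg fun i _ => mul_self_nonneg (u i))
    fun h0 => h (dotProduct_self_eq_zero.1 h0.symm)

theorem cross_ne {κ : ℝ} (hκ : κ < 1) {u v : V3} (hu : u ≠ 0) (hv : v ≠ 0) (h : Ang κ u v) :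
    crossProduct u v ≠ 0 := by
  intro h0
  have h1 := cross_dot_cross u v u v
  rw [h0, zero_dotProduct, dotProduct_comm v u] at h1
  have h2 := mul_pos (dot_pos hu) (dot_pos hv)
  unfold Ang at h
  nlinarith

theorem L_le {C : ℕ} (hC : ∀ A B : Finset V3, NP A → NP B → ∀ k, 2 ≤ k →
      (∀ v ∈ B, k ≤ #{u ∈ A | u ⬝ᵥ v = 0}) →
      k ^ 2 * #{p ∈ A ×ˢ B | p.1 ⬝ᵥ p.2 = 0} ≤ C * (#A ^ 2 + k ^ 2 * #A))
    {P N : Finset V3} (hN : NP N) {k lam : ℕ} (hk : 2 ≤ k)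
    (hP : #P ^ 2 + k ^ 2 * #P ≤ k ^ 3 * lam) (x : V3) : #(RBAux.L P N k x) ≤ C * lam := by
  have h1 : ∀ v ∈ RBAux.L P N k x, k ≤ #{u ∈ dirs P x | u ⬝ᵥ v = 0} := fun v hv => by
    refine (mem_filter.1 hv).2.trans (card_le_card fun u hu => ?_)
    obtain ⟨y, hy, rfl⟩ := mem_image.1 hu
    obtain ⟨h2, h3⟩ := mem_erase.1 hy
    obtain ⟨h4, h5⟩ := mem_filter.1 h3
    exact mem_filter.2 ⟨mem_image_of_mem _ (mem_erase.2 ⟨h2, h4⟩),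
      RBAux.rep_dot rep' (sub_ne_zero.2 h2) h5⟩
  have h2 := hC _ _ (RBAux.np_dirs rep' P x) (RBAux.NP.mono hN (filter_subset _ _)) k hk h1
  have h3 : #(RBAux.L P N k x) * k ≤ #{p ∈ dirs P x ×ˢ RBAux.L P N k x | p.1 ⬝ᵥ p.2 = 0} := by
    rw [card_filter, sum_product_right, ← smul_eq_mul]
    exact card_nsmul_le_sum _ _ _ fun v hv => (h1 v hv).trans (card_filter _ _).le
  have h4 : #(dirs P x) ≤ #P := card_image_le.trans card_erase_le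
  refine Nat.le_of_mul_le_mul_left ?_ (show 0 < k ^ 3 by positivity)
  calc _ = k ^ 2 * (#(RBAux.L P N k x) * k) := by ring
    _ ≤ C * (#(dirs P x) ^ 2 + k ^ 2 * #(dirs P x)) := (Nat.mul_le_mul_left _ h3).trans h2
    _ ≤ C * (#P ^ 2 + k ^ 2 * #P) := by gcongr
    _ ≤ C * (k ^ 3 * lam) := Nat.mul_le_mul_left _ hP
    _ = _ := by ring

theorem fib {P : Finset V3} {κ : ℝ} (h1 : κ < 1) {j m : ℕ} (S : Finset (V3 × V3 × V3 × V3))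
    (Q : V3 → Finset (V3 × V3)) (hQ : ∀ a, #(Q a) ≤ m)
    (hS : ∀ x ∈ S, x.1 ∈ P ∧ x.2.1 ∈ P ∧ x.2.2.1 ≠ 0 ∧ x.2.2.2 ≠ 0 ∧ Wedge κ x ∧
      #(ln P x.1 x.2.1) ≤ j ∧ x.2.2 ∈ Q x.1) : #S ≤ j * (#P * m) := by
  have hT : #(P.biUnion fun a => (Q a).image fun p => (a, p)) ≤ #P * m :=
    card_biUnion_le_card_mul _ _ _ fun a _ => card_image_le.trans (hQ a)
  refine le_trans (card_le_mul_card_image_of_maps_to (f := fun x => (x.1, x.2.2))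
    (t := P.biUnion fun a => (Q a).image fun p => (a, p))
    (fun x hx => ?_) j fun z _ => ?_) (Nat.mul_le_mul_left _ hT)
  · exact mem_biUnion.2 ⟨x.1, (hS x hx).1, mem_image.2 ⟨x.2.2, (hS x hx).2.2.2.2.2.2, rfl⟩⟩
  · rcases ({x ∈ S | (x.1, x.2.2) = z}).eq_empty_or_nonempty with h | ⟨x, hx⟩
    · rw [h]
      exact Nat.zero_le _
    obtain ⟨h2, h7⟩ := mem_filter.1 hx
    obtain ⟨-, -, h3, h4, h5, h6, -⟩ := hS x h2
    have hw := cross_ne h1 h3 h4 h5.2.2.2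
    refine le_trans (card_le_card_of_injOn (t := ln P x.1 x.2.1) (fun x => x.2.1)
      (fun x' hx' => ?_) fun x' hx' x'' hx'' h => ?_) h6
    · obtain ⟨h9, h10⟩ := mem_filter.1 hx'
      obtain ⟨-, h8, -, -, ⟨-, h11, h12, -⟩, -⟩ := hS x' h9
      obtain ⟨e1, e2⟩ := Prod.mk.inj (h10.trans h7.symm)
      rw [e1, e2, dotProduct_comm] at h11 h12
      obtain ⟨t, ht⟩ := rep'.par _ _ hw (RL.cross_perp _ _ _ h11 h12)
      obtain ⟨t', ht'⟩ := rep'.par _ _ hw (RL.cross_perp _ _ (x.2.1 - x.1)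
        ((dotProduct_comm _ _).trans h5.2.1) ((dotProduct_comm _ _).trans h5.2.2.1))
      refine mem_filter.2 ⟨h8, ?_⟩
      rw [ht, ht']
      simp
    · obtain ⟨e1, e2⟩ := Prod.mk.inj ((mem_filter.1 hx').2.trans (mem_filter.1 hx'').2.symm)
      exact Prod.ext e1 (Prod.ext h e2)

end RRAux

open Classical in
theorem rr : StmtUD → StmtRR := by
  rintro ⟨C₂, hU⟩
  obtain ⟨C₁, hR⟩ := RP
  refine ⟨C₂ * (2 * C₁ + C₁ ^ 2), fun P N κ j k ρ lam y hN h0 h1 hk hρ hP hy => ?_⟩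
  have hpair : ∀ a : V3, #{p ∈ RBAux.L P N k a ×ˢ RBAux.L P N k a | Ang κ p.1 p.2} ≤
      C₂ * (2 * C₁ + C₁ ^ 2) * y := by
    intro a
    have hL := RRAux.L_le hR hN hk hP a
    have hn : NP (RBAux.L P N k a) := RBAux.NP.mono hN (filter_subset _ _)
    have hρ3 : ρ ^ 2 ≤ ρ ^ 3 := Nat.pow_le_pow_right hρ (by norm_num)
    refine Nat.le_of_mul_le_mul_left ?_ (show 0 < ρ ^ 2 by positivity)
    calc _ ≤ _ := hU _ _ κ hn hn h0 h1 ρ hρ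
      _ ≤ C₂ * (ρ ^ 3 * (C₁ * lam) + (C₁ * lam) ^ 2 + ρ ^ 3 * (C₁ * lam)) := by
        gcongr
      _ ≤ C₂ * ((2 * C₁ + C₁ ^ 2) * (ρ ^ 3 * lam + lam ^ 2)) := by
        refine Nat.mul_le_mul_left _ ?_
        calc _ ≤ ρ ^ 3 * (C₁ * lam) + (C₁ * lam) ^ 2 + ρ ^ 3 * (C₁ * lam) +
              (2 * C₁ * lam ^ 2 + C₁ ^ 2 * (ρ ^ 3 * lam)) := Nat.le_add_right _ _
          _ = _ := by ring
      _ ≤ C₂ * ((2 * C₁ + C₁ ^ 2) * (ρ ^ 2 * y)) := by gcongr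
      _ = _ := by ring
  refine (RRAux.fib (P := P) (j := j) h1 _ _ hpair fun x hx => ?_).trans_eq (by ring)
  obtain ⟨h2, h5, h6, h7, h8⟩ := mem_filter.1 hx
  obtain ⟨h3, h2⟩ := mem_product.1 h2
  obtain ⟨h4, h2⟩ := mem_product.1 h2
  obtain ⟨h9, h10⟩ := mem_product.1 h2
  exact ⟨h3, h4, hN.ne _ h9, hN.ne _ h10, h5, h6, mem_filter.2 ⟨mem_product.2
    ⟨mem_filter.2 ⟨h9, h7⟩, mem_filter.2 ⟨h10, h8⟩⟩, h5.2.2.2⟩⟩

end Pool.Agent.MP_36f34d_co.H52
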