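import Pool.Agent.MP_36f34d_co.H52.Spec2

/-! The bound for tetrahedra from the bound with free parameters (dyadic classes). -/

namespace Pool.Agent.MP_36f34d_co.H52

open Finset Matrix MvPolynomial

namespace Tet2

theorem geom (a : ℕ → ℕ) (M : ℕ) (h : ∀ i, 2 ^ i * a i ≤ M) (N : ℕ) :
    2 ^ N * ∑ i ∈ range N, a i + 2 * M ≤ 2 ^ N * (2 * M) := by
  induction N with
  | zero => simp
  | succ N ih =>
    rw [sum_range_succ, pow_succ]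
    have := h N
    nlinarith

theorem geom' (a : ℕ → ℕ) (M : ℕ) (h : ∀ i, 2 ^ i * a i ≤ M) (N : ℕ) :
    ∑ i ∈ range N, a i ≤ 2 * M := by
  have h1 := geom a M h N
  have h2 : 0 < 2 ^ N := by positivity
  exact Nat.le_of_mul_le_mul_left (le_trans (Nat.le_add_right _ _) h1) h2

theorem le_mul_div (a b : ℕ) (hb : 0 < b) : a ≤ b * (a / b + 1) := by
  have h1 := Nat.div_add_mod a b
  have h2 := Nat.mod_lt a hb
  nlinarith

theorem two_le (P : Finset V3) (a b : V3) (ha : a ∈ P) (hb : b ∈ P) (hab : a ≠ b) :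
    2 ≤ #(ln P a b) := by
  have h : ({a, b} : Finset V3) ⊆ ln P a b := by
    intro z hz
    rcases mem_insert.1 hz with rfl | hz
    · simp [ln, ha]
    · rw [mem_singleton.1 hz]
      simp [ln, hb]
  have := card_le_card h
  rwa [card_pair hab] at this

/-- The parameter `lam`. -/
def lam (q t : ℕ) : ℕ := q ^ 42 / t ^ 6 + q ^ 31 / t ^ 2 + 2

theorem lam_le (q t : ℕ) (hq : 1 ≤ q) (ht : 1 ≤ t) (htq : t ≤ q ^ 8) :
    t ^ 3 * lam q t ≤ 4 * q ^ 42 := by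
  have h1 : t ^ 3 * (q ^ 42 / t ^ 6) ≤ q ^ 42 :=
    calc t ^ 3 * (q ^ 42 / t ^ 6) ≤ t ^ 6 * (q ^ 42 / t ^ 6) :=
          Nat.mul_le_mul_right _ (Nat.pow_le_pow_right ht (by norm_num))
      _ ≤ q ^ 42 := Nat.mul_div_le _ _
  have h2 : t ^ 3 * (q ^ 31 / t ^ 2) ≤ q ^ 42 :=
    calc t ^ 3 * (q ^ 31 / t ^ 2) = t * (t ^ 2 * (q ^ 31 / t ^ 2)) := by ring
      _ ≤ q ^ 8 * q ^ 31 := Nat.mul_le_mul htq (Nat.mul_div_le _ _)
      _ = q ^ 39 := by ring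
      _ ≤ q ^ 42 := Nat.pow_le_pow_right hq (by norm_num)
  have h3 : t ^ 3 ≤ q ^ 42 :=
    calc t ^ 3 ≤ (q ^ 8) ^ 3 := Nat.pow_le_pow_left htq 3
      _ = q ^ 24 := by ring
      _ ≤ q ^ 42 := Nat.pow_le_pow_right hq (by norm_num)
  unfold lam
  rw [mul_add, mul_add]
  omega

theorem c1 (q t n : ℕ) (ht : 1 ≤ t) (hn : n ≤ q ^ 51) :
    n ^ 2 ≤ (t * q ^ 5) ^ 3 * (q ^ 87 / t ^ 3 + 1) :=
  calc n ^ 2 ≤ (q ^ 51) ^ 2 := Nat.pow_le_pow_left hn 2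
    _ = q ^ 15 * q ^ 87 := by ring
    _ ≤ q ^ 15 * (t ^ 3 * (q ^ 87 / t ^ 3 + 1)) :=
        Nat.mul_le_mul_left _ (le_mul_div _ _ (by positivity))
    _ = _ := by ring

theorem c2 (q t n : ℕ) (ht : 1 ≤ t) (hn : n ≤ q ^ 51) :
    n ^ 2 + (t ^ 2 * q ^ 20) ^ 2 * n ≤ (t ^ 2 * q ^ 20) ^ 3 * lam q t := by
  have h1 : n ^ 2 ≤ (t ^ 2 * q ^ 20) ^ 3 * (q ^ 42 / t ^ 6 + 1) :=
    calc n ^ 2 ≤ (q ^ 51) ^ 2 := Nat.pow_le_pow_left hn 2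
      _ = q ^ 60 * q ^ 42 := by ring
      _ ≤ q ^ 60 * (t ^ 6 * (q ^ 42 / t ^ 6 + 1)) :=
          Nat.mul_le_mul_left _ (le_mul_div _ _ (by positivity))
      _ = _ := by ring
  have h2 : (t ^ 2 * q ^ 20) ^ 2 * n ≤ (t ^ 2 * q ^ 20) ^ 3 * (q ^ 31 / t ^ 2 + 1) :=
    calc (t ^ 2 * q ^ 20) ^ 2 * n ≤ (t ^ 2 * q ^ 20) ^ 2 * q ^ 51 := Nat.mul_le_mul_left _ hn
      _ = (t ^ 4 * q ^ 60) * q ^ 31 := by ring
      _ ≤ (t ^ 4 * q ^ 60) * (t ^ 2 * (q ^ 31 / t ^ 2 + 1)) :=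
          Nat.mul_le_mul_left _ (le_mul_div _ _ (by positivity))
      _ = _ := by ring
  calc _ ≤ _ := Nat.add_le_add h1 h2
    _ = _ := by unfold lam; ring

theorem c3 (q t : ℕ) (hq : 1 ≤ q) (ht : 1 ≤ t) (htq : t ≤ q ^ 8) :
    (q ^ 14) ^ 3 * lam q t + lam q t ^ 2 ≤ (q ^ 14) ^ 2 * (5 * q ^ 14 * lam q t) := by
  have h1 : lam q t ≤ 4 * q ^ 42 :=
    le_trans (Nat.le_mul_of_pos_left _ (by positivity)) (lam_le q t hq ht htq)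
  have h2 : lam q t ^ 2 ≤ 4 * q ^ 42 * lam q t := by
    rw [sq]; exact Nat.mul_le_mul_right _ h1
  calc _ ≤ (q ^ 14) ^ 3 * lam q t + 4 * q ^ 42 * lam q t := Nat.add_le_add_left h2 _
    _ = _ := by ring

theorem c4 (q t n : ℕ) (hq : 1 ≤ q) (ht : 1 ≤ t) (hn : n ≤ q ^ 51) :
    n ^ 2 + (t ^ 2 * q ^ 20) ^ 2 * n ≤ (t ^ 2 * q ^ 20) ^ 2 * (2 * q ^ 62) := by
  have h1 : n ^ 2 ≤ (t ^ 2 * q ^ 20) ^ 2 * q ^ 62 :=
    calc n ^ 2 ≤ (q ^ 51) ^ 2 := Nat.pow_le_pow_left hn 2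
      _ = q ^ 102 := by ring
      _ ≤ t ^ 4 * q ^ 102 := Nat.le_mul_of_pos_left _ (by positivity)
      _ = _ := by ring
  have h2 : (t ^ 2 * q ^ 20) ^ 2 * n ≤ (t ^ 2 * q ^ 20) ^ 2 * q ^ 62 :=
    Nat.mul_le_mul_left _ (hn.trans (Nat.pow_le_pow_right hq (by norm_num)))
  calc _ ≤ _ := Nat.add_le_add h1 h2
    _ = _ := by ring

theorem b1 (q t n E C : ℕ) (hq : 1 ≤ q) (ht : 1 ≤ t) (htq : t ≤ q ^ 8) (hn : n ≤ q ^ 51)
    (hE : (t ^ 2 + 1) ^ 2 * E ≤ C * (4 * t ^ 2) * (n ^ 2 + (t ^ 2 + 1) ^ 2 * n)) :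
    t * (t * q ^ 5 * E) ≤ 20 * C * q ^ 107 := by
  have ht2 : 1 ≤ t ^ 2 := Nat.one_le_pow _ _ ht
  have h1 : n ^ 2 ≤ q ^ 102 :=
    calc n ^ 2 ≤ (q ^ 51) ^ 2 := Nat.pow_le_pow_left hn 2
      _ = _ := by ring
  have h2 : (t ^ 2 + 1) ^ 2 * n ≤ 4 * q ^ 102 :=
    calc (t ^ 2 + 1) ^ 2 * n ≤ (2 * (q ^ 8) ^ 2) ^ 2 * q ^ 51 := by
          refine Nat.mul_le_mul (Nat.pow_le_pow_left ?_ 2) hn
          have := Nat.pow_le_pow_left htq 2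
          omega
      _ = 4 * q ^ 83 := by ring
      _ ≤ 4 * q ^ 102 := Nat.mul_le_mul_left _ (Nat.pow_le_pow_right hq (by norm_num))
  have h3 : t ^ 2 * (t ^ 2 * E) ≤ t ^ 2 * (20 * C * q ^ 102) :=
    calc t ^ 2 * (t ^ 2 * E) = (t ^ 2) ^ 2 * E := by ring
      _ ≤ (t ^ 2 + 1) ^ 2 * E :=
          Nat.mul_le_mul_right _ (Nat.pow_le_pow_left (Nat.le_succ _) 2)
      _ ≤ _ := hE
      _ ≤ C * (4 * t ^ 2) * (q ^ 102 + 4 * q ^ 102) :=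
          Nat.mul_le_mul_left _ (Nat.add_le_add h1 h2)
      _ = _ := by ring
  have h4 := Nat.le_of_mul_le_mul_left h3 (by positivity)
  calc t * (t * q ^ 5 * E) = q ^ 5 * (t ^ 2 * E) := by ring
    _ ≤ q ^ 5 * (20 * C * q ^ 102) := Nat.mul_le_mul_left _ h4
    _ = _ := by ring

theorem b2 (q t : ℕ) (hq : 1 ≤ q) (htq : t ≤ q ^ 8) :
    t * (t ^ 2 * q ^ 20 * (q ^ 87 / t ^ 3 + 1)) ≤ 2 * q ^ 107 := by
  have h1 : t ^ 3 ≤ q ^ 87 :=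
    calc t ^ 3 ≤ (q ^ 8) ^ 3 := Nat.pow_le_pow_left htq 3
      _ = q ^ 24 := by ring
      _ ≤ q ^ 87 := Nat.pow_le_pow_right hq (by norm_num)
  calc t * (t ^ 2 * q ^ 20 * (q ^ 87 / t ^ 3 + 1))
        = q ^ 20 * (t ^ 3 * (q ^ 87 / t ^ 3) + t ^ 3) := by ring
    _ ≤ q ^ 20 * (q ^ 87 + q ^ 87) :=
        Nat.mul_le_mul_left _ (Nat.add_le_add (Nat.mul_div_le _ _) h1)
    _ = _ := by ring

theorem b3 (q t n : ℕ) (hq : 1 ≤ q) (ht : 1 ≤ t) (htq : t ≤ q ^ 8) (hn : n ≤ q ^ 51) :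
    t * (4 * t ^ 2 * n * (5 * q ^ 14 * lam q t)) ≤ 80 * q ^ 107 :=
  calc t * (4 * t ^ 2 * n * (5 * q ^ 14 * lam q t))
        = 20 * q ^ 14 * (n * (t ^ 3 * lam q t)) := by ring
    _ ≤ 20 * q ^ 14 * (q ^ 51 * (4 * q ^ 42)) :=
        Nat.mul_le_mul_left _ (Nat.mul_le_mul hn (lam_le q t hq ht htq))
    _ = _ := by ring

theorem b4 (q t : ℕ) (hq : 1 ≤ q) (ht : 1 ≤ t) (htq : t ≤ q ^ 8) :
    t * (lam q t * (2 * q ^ 62)) ≤ 8 * q ^ 107 :=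
  calc t * (lam q t * (2 * q ^ 62)) = 2 * q ^ 62 * (t ^ 1 * lam q t) := by ring
    _ ≤ 2 * q ^ 62 * (t ^ 3 * lam q t) :=
        Nat.mul_le_mul_left _ (Nat.mul_le_mul_right _ (Nat.pow_le_pow_right ht (by norm_num)))
    _ ≤ 2 * q ^ 62 * (4 * q ^ 42) := Nat.mul_le_mul_left _ (lam_le q t hq ht htq)
    _ = 8 * q ^ 104 := by ring
    _ ≤ 8 * q ^ 107 := Nat.mul_le_mul_left _ (Nat.pow_le_pow_right hq (by norm_num))

/-- The pairs of one dyadic class. -/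
noncomputable def cl (P : Finset V3) (t : ℕ) : Finset (V3 × V3) :=
  {x ∈ P.offDiag | t ^ 2 + 1 ≤ #(ln P x.1 x.2) ∧ #(ln P x.1 x.2) ≤ 4 * t ^ 2}

theorem one (hG : StmtGEN) (hP : StmtPAIRS) :
    ∃ C K : ℕ, ∀ (P : Finset V3) (τ e τ' p h : ℝ) (q t : ℕ), 0 < e → h ≠ 0 → 2 ≤ q → 1 ≤ t →
      t ≤ q ^ 8 → #P ≤ q ^ 51 → ∃ A : ℕ, t * A ≤ K * q ^ 107 ∧
        #{x ∈ tets P τ e τ' p h | (x.1, x.2.1) ∈ cl P t} ≤ C * (A + q ^ 102) := by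
  obtain ⟨C, hG⟩ := hG
  obtain ⟨C', hP⟩ := hP
  refine ⟨C, 20 * C' + 90, fun P τ e τ' p h q t he hh hq ht htq hn => ?_⟩
  have hq1 : 1 ≤ q := by omega
  have ht2 : 1 ≤ t ^ 2 := Nat.one_le_pow _ _ ht
  have hq20 : 4 ≤ q ^ 20 :=
    calc 4 = 2 ^ 2 := by norm_num
      _ ≤ q ^ 2 := Nat.pow_le_pow_left hq 2
      _ ≤ q ^ 20 := Nat.pow_le_pow_right hq1 (by norm_num)
  have hjk : 4 * t ^ 2 ≤ t ^ 2 * q ^ 20 := by
    rw [mul_comm]; exact Nat.mul_le_mul_left _ hq20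
  have h1 := hG P (cl P t) τ e τ' p h (4 * t ^ 2) (t ^ 2 * q ^ 20) (t * q ^ 5) (q ^ 14)
    (q ^ 87 / t ^ 3 + 1) (lam q t) (5 * q ^ 14 * lam q t) (2 * q ^ 62) he hh (by omega) hjk
    (Nat.one_le_iff_ne_zero.2 (by positivity)) (Nat.one_le_pow _ _ hq1)
    (fun x hx => (mem_filter.1 hx).2.2) (c1 q t _ ht hn) (c2 q t _ ht hn) (c3 q t hq1 ht htq)
    (c4 q t _ hq1 ht hn)
  have h2 := b1 q t _ _ C' hq1 ht htq hn (hP P (t ^ 2 + 1) (4 * t ^ 2) (by omega))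
  have h3 := b2 q t hq1 htq
  have h4 := b3 q t _ hq1 ht htq hn
  have h5 := b4 q t hq1 ht htq
  have h6 : #P ^ 2 ≤ q ^ 102 :=
    calc #P ^ 2 ≤ (q ^ 51) ^ 2 := Nat.pow_le_pow_left hn 2
      _ = _ := by ring
  refine ⟨t * q ^ 5 * #(cl P t) + t ^ 2 * q ^ 20 * (q ^ 87 / t ^ 3 + 1) +
    4 * t ^ 2 * #P * (5 * q ^ 14 * lam q t) + lam q t * (2 * q ^ 62), ?_, ?_⟩
  · rw [mul_add, mul_add, mul_add]
    calc _ ≤ _ := Nat.add_le_add (Nat.add_le_add (Nat.add_le_add h2 h3) h4) h5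
      _ = _ := by ring
  · refine h1.trans (Nat.mul_le_mul_left _ ?_)
    omega

end Tet2

open Tet2 in
theorem tet : StmtGEN → StmtPAIRS → StmtTET := by
  classical
  intro hG hP
  obtain ⟨C, K, h1⟩ := one hG hP
  obtain ⟨L, hL⟩ := LINE
  refine ⟨1 + 2 * L + C * (2 * K + 8), fun P τ e τ' p h q he hh hq1 hn => ?_⟩
  have hsub : tets P τ e τ' p h ⊆ tris P τ e := filter_subset _ _
  have hmem : ∀ x ∈ tets P τ e τ' p h, x.1 ∈ P ∧ x.2.1 ∈ P ∧ x.1 ≠ x.2.1 := by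
    intro x hx
    have := hsub hx
    simp only [tris, mem_filter, mem_product] at this
    exact ⟨this.1.1, this.1.2.1, this.2.1⟩
  rcases eq_or_lt_of_le hq1 with rfl | hq
  · have : tets P τ e τ' p h = ∅ := by
      refine eq_empty_of_forall_notMem fun x hx => ?_
      obtain ⟨ha, hb, hab⟩ := hmem x hx
      rw [one_pow] at hn
      exact hab (card_le_one.1 hn _ ha _ hb)
    simp [this]
  have hq : 2 ≤ q := hq
  have hA : ∀ i : ℕ, ∃ A : ℕ, 2 ^ i * A ≤ K * q ^ 107 ∧ (2 ^ i ≤ q ^ 8 →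
      #{x ∈ tets P τ e τ' p h | (x.1, x.2.1) ∈ cl P (2 ^ i)} ≤ C * (A + q ^ 102)) := by
    intro i
    by_cases hi : 2 ^ i ≤ q ^ 8
    · obtain ⟨A, hA1, hA2⟩ := h1 P τ e τ' p h q (2 ^ i) he hh hq (Nat.one_le_two_pow) hi hn
      exact ⟨A, hA1, fun _ => hA2⟩
    · exact ⟨0, by simp, fun h' => absurd h' hi⟩
  choose A hA1 hA2 using hA
  have hcov : tets P τ e τ' p h ⊆ {x ∈ tris P τ e | q ^ 16 ≤ #(ln P x.1 x.2.1)} ∪
      ({i ∈ range (8 * q) | 2 ^ i ≤ q ^ 8}.biUnion fun i =>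
        {x ∈ tets P τ e τ' p h | (x.1, x.2.1) ∈ cl P (2 ^ i)}) := by
    intro x hx
    obtain ⟨ha, hb, hab⟩ := hmem x hx
    by_cases hs : q ^ 16 ≤ #(ln P x.1 x.2.1)
    · exact mem_union_left _ (mem_filter.2 ⟨hsub hx, hs⟩)
    refine mem_union_right _ (mem_biUnion.2 ?_)
    have h2 := two_le P _ _ ha hb hab
    set s := #(ln P x.1 x.2.1) with hsdef
    have hlo : 4 ^ Nat.log 4 (s - 1) ≤ s - 1 := Nat.pow_log_le_self 4 (by omega)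
    have hhi : s - 1 < 4 ^ (Nat.log 4 (s - 1) + 1) := Nat.lt_pow_succ_log_self (by norm_num) _
    set i := Nat.log 4 (s - 1)
    have h4 : (2 ^ i) ^ 2 = 4 ^ i := by rw [← pow_mul, mul_comm, pow_mul]; norm_num
    have hi : 2 ^ i ≤ q ^ 8 := by
      refine le_of_not_gt fun hlt => ?_
      have := Nat.pow_le_pow_left hlt.le 2
      have h16 : (q ^ 8) ^ 2 = q ^ 16 := by ring
      rw [h4, h16] at this
      omega
    have hi8 : i < 8 * q := by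
      have h5 : q ^ 8 < (2 ^ q) ^ 8 := Nat.pow_lt_pow_left Nat.lt_two_pow_self (by norm_num)
      rw [← pow_mul, mul_comm] at h5
      exact (Nat.pow_lt_pow_iff_right (by norm_num : 1 < 2)).1 (lt_of_le_of_lt hi h5)
    refine ⟨i, mem_filter.2 ⟨mem_range.2 hi8, hi⟩, mem_filter.2 ⟨hx, ?_⟩⟩
    refine mem_filter.2 ⟨mem_offDiag.2 ⟨ha, hb, hab⟩, ?_⟩
    rw [pow_succ] at hhi
    simp only [h4, ← hsdef]
    omega
  have hrich : #{x ∈ tris P τ e | q ^ 16 ≤ #(ln P x.1 x.2.1)} ≤ 2 * L * q ^ 107 := by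
    have hq16 : 2 ≤ q ^ 16 := hq.trans (Nat.le_self_pow (by norm_num) q)
    have h2 := hL P τ e (q ^ 16) he hq16
    have h3 : #P ^ 2 ≤ q ^ 102 :=
      calc #P ^ 2 ≤ (q ^ 51) ^ 2 := Nat.pow_le_pow_left hn 2
        _ = _ := by ring
    have h4 : (q ^ 16) ^ 2 * #P ≤ q ^ 102 :=
      calc (q ^ 16) ^ 2 * #P ≤ (q ^ 16) ^ 2 * q ^ 51 := Nat.mul_le_mul_left _ hn
        _ = q ^ 83 := by ring
        _ ≤ q ^ 102 := Nat.pow_le_pow_right hq1 (by norm_num)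
    refine Nat.le_of_mul_le_mul_left (h2.trans ?_) (by positivity)
    calc L * #P * (#P ^ 2 + (q ^ 16) ^ 2 * #P) ≤ L * q ^ 51 * (q ^ 102 + q ^ 102) :=
          Nat.mul_le_mul (Nat.mul_le_mul_left _ hn) (Nat.add_le_add h3 h4)
      _ = 2 * L * q ^ 153 := by ring
      _ ≤ 2 * L * q ^ 155 := Nat.mul_le_mul_left _ (Nat.pow_le_pow_right hq1 (by norm_num))
      _ = _ := by ring
  have hsum : ∑ i ∈ range (8 * q), C * (A i + q ^ 102) ≤ C * (2 * K + 8) * q ^ 107 := by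
    rw [← mul_sum, sum_add_distrib, sum_const, card_range, smul_eq_mul, mul_assoc C]
    refine Nat.mul_le_mul_left _ ?_
    have h2 := geom' A _ hA1 (8 * q)
    have h3 : 8 * q * q ^ 102 ≤ 8 * q ^ 107 :=
      calc 8 * q * q ^ 102 = 8 * q ^ 103 := by ring
        _ ≤ _ := Nat.mul_le_mul_left _ (Nat.pow_le_pow_right hq1 (by norm_num))
    calc _ ≤ _ := Nat.add_le_add h2 h3
      _ = _ := by ring
  calc #(tets P τ e τ' p h) ≤ _ := card_le_card hcov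
    _ ≤ _ := card_union_le _ _
    _ ≤ 2 * L * q ^ 107 + C * (2 * K + 8) * q ^ 107 := by
        refine Nat.add_le_add hrich (card_biUnion_le.trans (le_trans ?_ hsum))
        exact (sum_le_sum fun i hi => hA2 i (mem_filter.1 hi).2).trans
          (sum_le_sum_of_subset (filter_subset _ _))
    _ ≤ _ := by
        rw [add_mul, add_mul, one_mul]
        omega

end Pool.Agent.MP_36f34d_co.H52
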