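import Pool.Agent.MP_36f34d_co.H52.Spec2

/-! Row UD: unit distances on the sphere from the partition of the plane. -/

namespace Pool.Agent.MP_36f34d_co.H52

open Finset Matrix MvPolynomial

namespace UDAux

lemma dbl {α β : Type} [DecidableEq α] (B : Finset β) (T : Finset α) (Q : β → Finset α) (n : ℕ)
    (h1 : ∀ v ∈ B, Q v ⊆ T) (h2 : ∀ p ∈ T, #{v ∈ B | p ∈ Q v} ≤ n) :
    ∑ v ∈ B, #(Q v) ≤ n * #T := by
  have h3 : ∑ v ∈ B, #(Q v) = ∑ v ∈ B, #{p ∈ T | p ∈ Q v} :=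
    sum_congr rfl fun v hv => by rw [filter_mem_eq_inter, inter_eq_right.2 (h1 v hv)]
  rw [h3]
  simp only [card_filter]
  rw [sum_comm]
  simp only [← card_filter]
  rw [mul_comm, ← smul_eq_mul]
  exact sum_le_card_nsmul _ _ _ h2

/-- The projection that drops the coordinate `k`. -/
def pr (k : Fin 3) (x : V3) : Fin 2 → ℝ := fun i => x (k.succAbove i)

lemma eval_pr (k : Fin 3) (x : V3) (f : MvPolynomial (Fin 2) ℝ) :
    eval x (rename k.succAbove f) = eval (pr k x) f := eval_rename _ _ _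

lemma dot_pr (k : Fin 3) (x y : V3) : x ⬝ᵥ y = x k * y k + pr k x ⬝ᵥ pr k y :=
  Fin.sum_univ_succAbove (fun i => x i * y i) k

lemma pr_ins (k : Fin 3) (ν : Fin 2 → ℝ) : pr k (k.insertNth 0 ν) = ν := by
  funext i
  simp [pr]

lemma has_pr (k : Fin 3) {γ : ℝ → V3} (h : Differentiable ℝ γ) (t : ℝ) :
    HasDerivAt (fun t => pr k (γ t)) (pr k (deriv γ t)) t :=
  hasDerivAt_pi.2 fun _ => hasDerivAt_pi.1 (h t).hasDerivAt _

lemma alg_pr (k : Fin 3) {γ : ℝ → V3} (h : Alg γ) : Alg fun t => pr k (γ t) := by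
  refine ⟨fun t => (has_pr k h.diff t).differentiableAt, fun f => ?_⟩
  rcases h.few (rename k.succAbove f) with h0 | ⟨Z, h1, h2⟩
  · exact .inl fun t => by rw [← eval_pr, h0]
  · exact .inr ⟨Z, h1.trans (Nat.mul_le_mul_left _ (totalDegree_rename_le _ _)),
      fun t ht => h2 t (by rw [eval_pr, ht])⟩

lemma pr_inj (k : Fin 3) {x y : V3} (hx : x ⬝ᵥ x = 1) (hy : y ⬝ᵥ y = 1) (hx' : 0 < x k)
    (hy' : 0 < y k) (h : pr k x = pr k y) : x = y := by
  rw [dot_pr k] at hx hy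
  rw [h] at hx
  have h1 : x k = y k := (mul_self_inj hx'.le hy'.le).1 (by linarith)
  funext i
  rcases eq_or_ne i k with rfl | hi
  · exact h1
  · obtain ⟨j, rfl⟩ := Fin.exists_succAbove_eq hi
    exact congrFun h j

lemma sh_iff {c : ℝ} {v x : V3} (hv : v ⬝ᵥ v = 1) :
    Sh c (1 - c ^ 2) 0 v x ↔ x ⬝ᵥ v = c ∧ x ⬝ᵥ x = 1 := by
  have h : (0 : V3) ≠ v := by
    rintro rfl
    simp at hv
  simp [Sh, hv, h]

open Classical in
/-- Points on an open hemisphere and circles of a fixed radius. -/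
lemma hemi : ∃ C : ℕ, ∀ (k : Fin 3) (X B : Finset V3) (c : ℝ), c ^ 2 < 1 →
    (∀ x ∈ X, x ⬝ᵥ x = 1 ∧ 0 < x k) → (∀ v ∈ B, v ⬝ᵥ v = 1) → ∀ r, 1 ≤ r →
    r ^ 2 * ∑ v ∈ B, #{x ∈ X | x ⬝ᵥ v = c} ≤ C * (r ^ 3 * #B + #X ^ 2 + r ^ 2 * #X) := by
  obtain ⟨C, hC⟩ := PART 2 (by norm_num)
  refine ⟨6 * C + 7, fun k X B c hc hX hB r hr => ?_⟩
  obtain ⟨f, cls, hP⟩ := hC (X.image (pr k)) r hr
  obtain ⟨bd, ν, hν, hbad⟩ := bad 2 (by norm_num) f hP.ne
  have he : 0 < 1 - c ^ 2 := sub_pos.2 hc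
  have hv0 : ∀ v ∈ B, (0 : V3) ≠ v := by
    rintro v hv rfl
    simpa using hB _ hv
  have hP3 : Part X 1 (C * r) (rename k.succAbove f) fun x => cls (pr k x) := by
    refine ⟨fun h => hP.ne (rename_injective _ Fin.succAbove_right_injective (h.trans
      (map_zero _).symm)), (totalDegree_rename_le _ _).trans hP.deg, fun i => ?_,
      fun γ hγ s t hst h => hP.loc (fun t => pr k (γ t)) ?_ s t hst fun u hu => ?_⟩
    · rw [one_pow, one_mul]
      exact card_filter_le _ _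
    · unfold pr
      fun_prop
    · rw [← eval_pr]
      exact h u hu
  choose! Q hQ _ hQ' _ using fun v (hv : v ∈ B) =>
    CONS X 1 (C * r) _ _ c (1 - c ^ 2) 0 v hP3 he (hv0 v hv)
  set G : V3 → Finset V3 := fun v =>
    {x ∈ X | x ⬝ᵥ v = c ∧ v ⬝ᵥ crossProduct x (k.insertNth 0 (ν (pr k x))) = 0} with hG
  have h1 : ∀ v ∈ B, #{x ∈ X | x ⬝ᵥ v = c} ≤ #(G v) + #(Q v) + (6 * C + 7) * r := by
    intro v hv
    obtain ⟨γ, hγ⟩ := CIRC c (1 - c ^ 2) 0 v he (hv0 v hv)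
    obtain ⟨z, hz⟩ := hγ.surj
    obtain ⟨k1, k2⟩ := hbad _ (alg_pr k hγ.alg)
    have k3 : {x ∈ X | x ⬝ᵥ v = c} ⊆
        (G v ∪ insert z ((bd fun t => pr k (γ t)).image γ)) ∪
        {x ∈ X | Sh c (1 - c ^ 2) 0 v x ∧ eval x (rename k.succAbove f) ≠ 0} := by
      intro x hx
      obtain ⟨x1, x2⟩ := mem_filter.1 hx
      have x0 := (sh_iff (hB v hv)).2 ⟨x2, (hX x x1).1⟩
      by_cases x3 : eval (pr k x) f = 0
      · refine mem_union_left _ ?_
        rcases hz x x0 with rfl | ⟨t, rfl⟩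
        · exact mem_union_right _ (mem_insert_self _ _)
        by_cases x4 : t ∈ bd fun t => pr k (γ t)
        · exact mem_union_right _ (mem_insert_of_mem (mem_image_of_mem _ x4))
        · have x5 := k2 t x3 x4
          rw [(has_pr k hγ.alg.diff t).deriv] at x5
          have x6 := hγ.tan t (k.insertNth 0 (ν (pr k (γ t)))) (by
            rw [dot_pr k, pr_ins, x5]
            simp)
          rw [sub_zero, sub_zero, ← Zero.trip] at x6
          exact mem_union_left _ (mem_filter.2 ⟨x1, x2, x6⟩)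
      · exact mem_union_right _ (mem_filter.2 ⟨x1, x0, by rwa [eval_pr]⟩)
    have k4 := (card_le_card k3).trans ((card_union_le _ _).trans
      (add_le_add ((card_union_le _ _).trans (add_le_add le_rfl ((card_insert_le _ _).trans
        (Nat.succ_le_succ card_image_le)))) (hQ' v hv)))
    have k5 := hP.deg
    have k6 : (6 * C + 7) * r = 6 * (C * r) + 7 * r := by ring
    omega
  have h2 : ∑ v ∈ B, #(G v) ≤ 2 * #X := by
    refine dbl B X G 2 (fun v _ => filter_subset _ _) fun x hx => ?_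
    have k1 : crossProduct x (k.insertNth 0 (ν (pr k x))) ≠ 0 := fun h => by
      obtain ⟨t, ht⟩ := rep'.par _ _ (fun h0 => hν (pr k x) (by
        rw [← pr_ins k (ν (pr k x)), h0]
        rfl)) h
      have k2 := congrFun ht k
      rw [Pi.smul_apply, Fin.insertNth_apply_same, smul_zero] at k2
      exact (hX x hx).2.ne' k2
    refine le_trans (card_le_card fun v hv => ?_) (geo.two B x _ 0 c 0 1 (Zero.cross_ne k1))
    obtain ⟨v1, v2⟩ := mem_filter.1 hv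
    obtain ⟨-, v3, v4⟩ := mem_filter.1 v2
    exact mem_filter.2 ⟨v1, by rwa [dotProduct_comm], v4, by rw [sub_zero, hB v v1]⟩
  have h3 : r ^ 2 * ∑ v ∈ B, #(Q v) ≤ 2 * #X ^ 2 := by
    have k0 := dbl B (B.biUnion Q) Q 2 (fun v hv => subset_biUnion_of_mem Q hv) fun p hp => by
      obtain ⟨w, hw, hp⟩ := mem_biUnion.1 hp
      have k1 : crossProduct p.2 p.1 ≠ 0 := by
        have := (hQ w hw p hp).2.2.2.2.2.2.2
        rwa [sub_zero, map_sub, LinearMap.sub_apply, cross_self, sub_zero] at this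
      refine le_trans (card_le_card fun v hv => ?_) (geo.two B p.2 p.1 0 c c 1 k1)
      obtain ⟨v1, v2⟩ := mem_filter.1 hv
      obtain ⟨-, -, v3, v4, -⟩ := hQ v v1 p v2
      exact mem_filter.2 ⟨v1, by rw [dotProduct_comm, ((sh_iff (hB v v1)).1 v4).1],
        by rw [dotProduct_comm, ((sh_iff (hB v v1)).1 v3).1], by rw [sub_zero, hB v v1]⟩
    have k1 : B.biUnion Q ⊆ X.biUnion (fun x => ({y ∈ X | eval (pr k y) f ≠ 0 ∧
        cls (pr k y) = cls (pr k x)} : Finset V3).image (Prod.mk x)) := by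
      intro p hp
      obtain ⟨v, hv, hp⟩ := mem_biUnion.1 hp
      obtain ⟨p1, p2, -, -, -, p3, p4, -⟩ := hQ v hv p hp
      exact mem_biUnion.2 ⟨p.1, p1, mem_image.2
        ⟨p.2, mem_filter.2 ⟨p2, by rwa [← eval_pr], p4⟩, rfl⟩⟩
    have k2 : r ^ 2 * #(B.biUnion Q) ≤ #X ^ 2 := by
      refine (Nat.mul_le_mul_left _ ((card_le_card k1).trans card_biUnion_le)).trans ?_
      rw [mul_sum, sq (#X), ← smul_eq_mul (#X)]
      refine sum_le_card_nsmul _ _ _ fun x _ => (Nat.mul_le_mul_left _ (card_image_le.trans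
        ?_)).trans ((hP.size (cls (pr k x))).trans card_image_le)
      refine card_le_card_of_injOn (pr k) (fun y hy => ?_) fun y hy y' hy' h => ?_
      · obtain ⟨y1, y2⟩ := mem_filter.1 (mem_coe.1 hy)
        exact mem_coe.2 (mem_filter.2 ⟨mem_image_of_mem _ y1, y2⟩)
      · have y1 := hX y (mem_filter.1 (mem_coe.1 hy)).1
        have y2 := hX y' (mem_filter.1 (mem_coe.1 hy')).1
        exact pr_inj k y1.1 y2.1 y1.2 y2.2 h
    calc _ ≤ r ^ 2 * (2 * #(B.biUnion Q)) := Nat.mul_le_mul_left _ k0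
      _ = 2 * (r ^ 2 * #(B.biUnion Q)) := by ring
      _ ≤ _ := Nat.mul_le_mul_left _ k2
  have h4 := sum_le_sum h1
  rw [sum_add_distrib, sum_add_distrib, sum_const, smul_eq_mul] at h4
  calc r ^ 2 * ∑ v ∈ B, #{x ∈ X | x ⬝ᵥ v = c}
      ≤ r ^ 2 * (2 * #X + ∑ v ∈ B, #(Q v) + #B * ((6 * C + 7) * r)) :=
        Nat.mul_le_mul_left _ (by omega)
    _ = 2 * (r ^ 2 * #X) + r ^ 2 * ∑ v ∈ B, #(Q v) + (6 * C + 7) * (r ^ 3 * #B) := by ring
    _ ≤ 2 * (r ^ 2 * #X) + 2 * #X ^ 2 + (6 * C + 7) * (r ^ 3 * #B) := by omega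
    _ ≤ _ := by nlinarith [Nat.zero_le (C * (#X ^ 2 + r ^ 2 * #X)), Nat.zero_le (#X ^ 2),
        Nat.zero_le (r ^ 2 * #X)]

/-- The unit vector in the direction of `u`, with the sign of `s`. -/
noncomputable def un (s : ℝ) (u : V3) : V3 := (s / (|s| * √(u ⬝ᵥ u))) • u

lemma coef_sq {s : ℝ} {u : V3} (hs : s ≠ 0) (hu : u ≠ 0) :
    (s / (|s| * √(u ⬝ᵥ u))) ^ 2 * (u ⬝ᵥ u) = 1 := by
  have h := CircAux.dot_pos hu
  rw [div_pow, mul_pow, sq_abs, Real.sq_sqrt h.le]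
  field_simp

lemma un_dot {s : ℝ} {u : V3} (hs : s ≠ 0) (hu : u ≠ 0) : un s u ⬝ᵥ un s u = 1 := by
  rw [un, smul_dotProduct, dotProduct_smul, smul_eq_mul, smul_eq_mul, ← coef_sq hs hu]
  ring

lemma un_pos {u : V3} {k : Fin 3} (h : u k ≠ 0) : 0 < un (u k) u k := by
  have hu : u ≠ 0 := fun h0 => h (congrFun h0 k)
  have h1 := Real.sqrt_pos.2 (CircAux.dot_pos hu)
  rw [un, Pi.smul_apply, smul_eq_mul, div_mul_eq_mul_div]
  exact div_pos (mul_self_pos.2 h) (mul_pos (abs_pos.2 h) h1)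

lemma un_inj {A : Finset V3} (hA : NP A) {s t : ℝ} {u v : V3} (hu : u ∈ A) (hv : v ∈ A)
    (hs : s ≠ 0) (h : un s u = un t v) : u = v := by
  refine hA.inj u hu v hv ?_
  have h1 := congrArg (fun x => crossProduct x v) h
  simp only [un, map_smul, LinearMap.smul_apply, cross_self, smul_zero] at h1
  refine (smul_eq_zero.1 h1).resolve_left fun h0 => ?_
  have h2 := coef_sq hs (hA.ne u hu)
  rw [h0] at h2
  simp at h2

lemma un_ang {κ s : ℝ} {u v : V3} (hs : s ≠ 0) (hu : u ≠ 0) (hv : v ≠ 0) (h : Ang κ u v) :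
    (un s u ⬝ᵥ un 1 v) ^ 2 = κ := by
  rw [un, un, smul_dotProduct, dotProduct_smul, smul_eq_mul, smul_eq_mul, mul_pow, mul_pow, h]
  linear_combination κ * (1 / (|1| * √(v ⬝ᵥ v))) ^ 2 * (v ⬝ᵥ v) * coef_sq hs hu +
    κ * coef_sq one_ne_zero hv

open Classical in
lemma piece : ∃ C : ℕ, ∀ (k : Fin 3) (A B : Finset V3) (c : ℝ), c ^ 2 < 1 → NP A → NP B →
    ∀ r, 1 ≤ r → r ^ 2 * #{p ∈ A ×ˢ B | p.1 k ≠ 0 ∧ un (p.1 k) p.1 ⬝ᵥ un 1 p.2 = c} ≤
      C * (r ^ 3 * #B + #A ^ 2 + r ^ 2 * #A) := by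
  obtain ⟨C, hC⟩ := hemi
  refine ⟨C, fun k A B c hc hA hB r hr => ?_⟩
  have key := hC k (({u ∈ A | u k ≠ 0} : Finset V3).image fun u => un (u k) u) (B.image (un 1)) c
    hc (fun x hx => by
      obtain ⟨u, hu, rfl⟩ := mem_image.1 hx
      obtain ⟨u1, u2⟩ := mem_filter.1 hu
      exact ⟨un_dot u2 (hA.ne u u1), un_pos u2⟩) (fun x hx => by
      obtain ⟨v, hv, rfl⟩ := mem_image.1 hx
      exact un_dot one_ne_zero (hB.ne v hv)) r hr
  have h2 : #(({u ∈ A | u k ≠ 0} : Finset V3).image fun u => un (u k) u) ≤ #A :=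
    card_image_le.trans (card_filter_le _ _)
  have h3 : #(B.image (un 1)) ≤ #B := card_image_le
  refine (Nat.mul_le_mul_left _ ?_).trans (key.trans (Nat.mul_le_mul_left _ (by gcongr)))
  rw [← card_sigma]
  refine card_le_card_of_injOn (fun p => ⟨un 1 p.2, un (p.1 k) p.1⟩) (fun p hp => ?_)
    fun p hp p' hp' h => ?_
  · obtain ⟨p1, p2, p5⟩ := mem_filter.1 (mem_coe.1 hp)
    obtain ⟨p3, p4⟩ := mem_product.1 p1
    exact mem_coe.2 (mem_sigma.2 ⟨mem_image_of_mem _ p4,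
      mem_filter.2 ⟨mem_image_of_mem (fun u => un (u k) u) (mem_filter.2 ⟨p3, p2⟩), p5⟩⟩)
  · obtain ⟨e1, e2⟩ := Sigma.mk.inj_iff.1 h
    obtain ⟨p1, p2, -⟩ := mem_filter.1 (mem_coe.1 hp)
    have p3 := mem_product.1 p1
    have p4 := mem_product.1 (mem_filter.1 (mem_coe.1 hp')).1
    exact Prod.ext (un_inj hA p3.1 p4.1 p2 (eq_of_heq e2)) (un_inj hB p3.2 p4.2 one_ne_zero e1)

end UDAux

open UDAux in
theorem ud : StmtUD := by
  classical
  obtain ⟨C, hC⟩ := piece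
  refine ⟨6 * C, fun A B κ hA hB h0 h1 r hr => ?_⟩
  have h2 : {p ∈ A ×ˢ B | Ang κ p.1 p.2} ⊆ (univ : Finset (Fin 3 × Bool)).biUnion fun i =>
      {p ∈ A ×ˢ B | p.1 i.1 ≠ 0 ∧ un (p.1 i.1) p.1 ⬝ᵥ un 1 p.2 = if i.2 then √κ else -√κ} := by
    intro p hp
    obtain ⟨p1, p2⟩ := mem_filter.1 hp
    obtain ⟨p3, p4⟩ := mem_product.1 p1
    obtain ⟨k, hk⟩ := Function.ne_iff.1 (hA.ne _ p3)
    have p5 := un_ang hk (hA.ne _ p3) (hB.ne _ p4) p2
    rw [← Real.sq_sqrt h0] at p5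
    rcases sq_eq_sq_iff_eq_or_eq_neg.1 p5 with h | h
    · exact mem_biUnion.2 ⟨(k, true), mem_univ _, mem_filter.2 ⟨p1, hk, h⟩⟩
    · exact mem_biUnion.2 ⟨(k, false), mem_univ _, mem_filter.2 ⟨p1, hk, h⟩⟩
  refine le_trans (Nat.mul_le_mul_left _ (le_trans (le_of_eq (by congr))
    ((card_le_card h2).trans card_biUnion_le))) ?_
  rw [mul_sum]
  refine (sum_le_card_nsmul _ _ (C * (r ^ 3 * #B + #A ^ 2 + r ^ 2 * #A)) fun i _ => ?_).trans ?_
  · refine le_trans (le_of_eq (by congr)) (hC i.1 A B (if i.2 then √κ else -√κ) ?_ hA hB r hr)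
    split_ifs
    · rwa [Real.sq_sqrt h0]
    · rwa [neg_sq, Real.sq_sqrt h0]
  · simp [mul_assoc]

end Pool.Agent.MP_36f34d_co.H52
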