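import Pool.Agent.MP_36f34d_co.H52.Spec2

/-! Triangles with base in a given set and the third vertex on the zero set; pairs on lines of a
given richness. -/

namespace Pool.Agent.MP_36f34d_co.H52

open Finset Matrix MvPolynomial

namespace Zero2

lemma fib (T : Finset (V3 × V3 × V3)) (E : Finset (V3 × V3)) (f : V3 × V3 × V3 → V3 × V3)
    (g : V3 × V3 × V3 → V3) (n : ℕ) (hf : ∀ p ∈ T, f p ∈ E)
    (hinj : ∀ p q, f p = f q → g p = g q → p = q)
    (hS : ∀ y : V3 × V3, ∃ S : Finset V3, #S ≤ n ∧ ∀ p ∈ T, f p = y → g p ∈ S) :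
    #T ≤ n * #E := by
  classical
  refine Finset.card_le_mul_card_image_of_maps_to hf n fun y _ => ?_
  obtain ⟨S, h1, h2⟩ := hS y
  refine le_trans (Finset.card_le_card_of_injOn g ?_ ?_) h1
  · intro p hp
    obtain ⟨hp1, hp2⟩ := Finset.mem_filter.1 (Finset.mem_coe.1 hp)
    exact h2 p hp1 hp2
  · intro p hp q hq e
    exact hinj p q ((Finset.mem_filter.1 (Finset.mem_coe.1 hp)).2.trans
      (Finset.mem_filter.1 (Finset.mem_coe.1 hq)).2.symm) e

end Zero2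

theorem zero2 : StmtZERO2 := by
  classical
  intro P E τ e f he hf
  have hB := bad
  have hC := CIRC
  have hG := geo
  obtain ⟨bad, ν, hν, hbad⟩ := hB 3 (by norm_num) f hf
  have hpos : ∀ x : ℝ, 0 < x ^ 2 + e := fun x => add_pos_of_nonneg_of_pos (sq_nonneg x) he
  let A : V3 × V3 × V3 → Prop := fun p => crossProduct (p.2.1 - p.1) (p.2.2 - p.1) ⬝ᵥ ν p.2.2 = 0
  let B : V3 × V3 × V3 → Prop := fun p => crossProduct (p.2.2 - p.1) (ν p.2.2) = 0
  have h1 : #{p ∈ tris P τ e | (p.1, p.2.1) ∈ E ∧ eval p.2.2 f = 0 ∧ ¬A p} ≤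
      (2 * f.totalDegree + 1) * #E := by
    refine Zero2.fib _ E (fun p => (p.1, p.2.1)) (fun p => p.2.2) _ (fun p hp => ?_) ?_ ?_
    · exact (Finset.mem_filter.1 hp).2.1
    · rintro ⟨a, b, c⟩ ⟨a', b', c'⟩ e1 e2
      simp only [Prod.mk.injEq] at e1 e2 ⊢
      exact ⟨e1.1, e1.2, e2⟩
    · rintro ⟨a, b⟩
      by_cases hab : a = b
      · refine ⟨∅, by simp, ?_⟩
        rintro ⟨a', b', c⟩ hp e1
        simp only [Prod.mk.injEq] at e1
        obtain ⟨rfl, rfl⟩ := e1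
        exact absurd hab (Zero.mem_tris.1 (Finset.mem_filter.1 hp).1).2.1
      obtain ⟨γ, hγ⟩ := hC τ e a b he hab
      obtain ⟨z, hz⟩ := hγ.surj
      obtain ⟨b1, b2⟩ := hbad γ hγ.alg
      refine ⟨insert z ((bad γ).image γ), (Finset.card_insert_le _ _).trans
        (Nat.succ_le_succ (Finset.card_image_le.trans b1)), ?_⟩
      rintro ⟨a', b', c⟩ hp e1
      simp only [Prod.mk.injEq] at e1
      obtain ⟨rfl, rfl⟩ := e1
      obtain ⟨p1, -, p2, p3⟩ := Finset.mem_filter.1 hp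
      rcases hz c (Zero.mem_tris.1 p1).2 with rfl | ⟨t, rfl⟩
      · exact Finset.mem_insert_self _ _
      · refine Finset.mem_insert_of_mem (Finset.mem_image_of_mem γ ?_)
        by_contra hb
        exact p3 (hγ.tan t _ (b2 t p2 hb))
  have h2 : #{p ∈ tris P τ e | A p ∧ ¬B p} ≤ 2 * #P ^ 2 := by
    refine Zero.fib _ P (fun p => (p.1, p.2.2)) (fun p => p.2.1) _ (fun p hp => ?_) ?_ ?_
    · have := (Zero.mem_tris.1 (Finset.mem_filter.1 hp).1).1
      exact Finset.mem_product.2 ⟨this.1, this.2.2⟩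
    · rintro ⟨a, b, c⟩ ⟨a', b', c'⟩ e1 e2
      simp only [Prod.mk.injEq] at e1 e2 ⊢
      exact ⟨e1.1, e2, e1.2⟩
    · rintro ⟨a, c⟩
      by_cases hB : crossProduct (c - a) (ν c) = 0
      · refine ⟨∅, by simp, ?_⟩
        rintro ⟨a', b, c'⟩ hp e1
        simp only [Prod.mk.injEq] at e1
        obtain ⟨rfl, rfl⟩ := e1
        exact absurd hB (Finset.mem_filter.1 hp).2.2
      refine ⟨_, hG.two P (c - a) (crossProduct (c - a) (ν c)) a
        (a ⬝ᵥ (c - a) + τ * ((c - a) ⬝ᵥ (c - a) / (τ ^ 2 + e))) (a ⬝ᵥ crossProduct (c - a) (ν c))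
        ((c - a) ⬝ᵥ (c - a) / (τ ^ 2 + e)) (Zero.cross_ne hB), ?_⟩
      rintro ⟨a', b, c'⟩ hp e1
      simp only [Prod.mk.injEq] at e1
      obtain ⟨rfl, rfl⟩ := e1
      obtain ⟨p1, p2, -⟩ := Finset.mem_filter.1 hp
      obtain ⟨⟨-, q1, -⟩, -, q2, q3⟩ := Zero.mem_tris.1 p1
      simp only at q1 q2 q3
      have hR : (b - a') ⬝ᵥ (b - a') = (c' - a') ⬝ᵥ (c' - a') / (τ ^ 2 + e) := by
        rw [q3, mul_div_cancel_left₀ _ (hpos τ).ne']
      refine Finset.mem_filter.2 ⟨q1, ?_, ?_, hR⟩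
      · rw [← hR, ← q2, dotProduct_comm (c' - a'), sub_dotProduct]
        ring
      · have p4 : crossProduct (b - a') (c' - a') ⬝ᵥ ν c' = 0 := p2
        rw [← Zero.trip, sub_dotProduct] at p4
        exact sub_eq_zero.1 p4
  have h3 : #{p ∈ tris P τ e | B p} ≤ 2 * #P ^ 2 := by
    refine Zero.fib _ P (fun p => p.2) (fun p => p.1) _ (fun p hp => ?_) ?_ ?_
    · have := (Zero.mem_tris.1 (Finset.mem_filter.1 hp).1).1
      exact Finset.mem_product.2 this.2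
    · rintro ⟨a, y⟩ ⟨a', y'⟩ e1 e2
      exact Prod.ext e2 e1
    · rintro ⟨b, c⟩
      refine ⟨_, hG.one P c (ν c) c
        ((τ ^ 2 + e) * ((c - b) ⬝ᵥ (c - b) / ((τ - 1) ^ 2 + e))) (hν c), ?_⟩
      rintro ⟨a, b', c'⟩ hp e1
      simp only [Prod.mk.injEq] at e1
      obtain ⟨rfl, rfl⟩ := e1
      obtain ⟨p1, p2⟩ := Finset.mem_filter.1 hp
      obtain ⟨⟨q1, -, -⟩, -, q2, q3⟩ := Zero.mem_tris.1 p1
      simp only at q1 q2 q3
      refine Finset.mem_filter.2 ⟨q1, ?_, ?_⟩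
      · have p4 : crossProduct (c' - a) (ν c') = 0 := p2
        rw [← neg_sub, map_neg, LinearMap.neg_apply, p4, neg_zero]
      · have e2 : c' - b' = (c' - a) - (b' - a) := by abel
        have e3 : (c' - b') ⬝ᵥ (c' - b') = ((τ - 1) ^ 2 + e) * ((b' - a) ⬝ᵥ (b' - a)) := by
          rw [e2, sub_dotProduct (c' - a), dotProduct_sub (c' - a) (c' - a),
            dotProduct_sub (b' - a) (c' - a), dotProduct_comm (b' - a) (c' - a), q2, q3]
          ring
        rw [e3, mul_div_cancel_left₀ _ (hpos (τ - 1)).ne', ← q3, ← neg_sub c' a, neg_dotProduct,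
          dotProduct_neg, neg_neg]
  have hsub : {p ∈ tris P τ e | (p.1, p.2.1) ∈ E ∧ eval p.2.2 f = 0} ⊆
      {p ∈ tris P τ e | (p.1, p.2.1) ∈ E ∧ eval p.2.2 f = 0 ∧ ¬A p} ∪
      ({p ∈ tris P τ e | A p ∧ ¬B p} ∪ {p ∈ tris P τ e | B p}) := by
    intro p hp
    obtain ⟨p1, p2⟩ := Finset.mem_filter.1 hp
    simp only [Finset.mem_union, Finset.mem_filter]
    by_cases hA : A p
    · by_cases hB : B p
      · exact Or.inr (Or.inr ⟨p1, hB⟩)
      · exact Or.inr (Or.inl ⟨p1, hA, hB⟩)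
    · exact Or.inl ⟨p1, p2.1, p2.2, hA⟩
  have h4 := (Finset.card_le_card hsub).trans ((Finset.card_union_le _ _).trans
    (Nat.add_le_add h1 ((Finset.card_union_le _ _).trans (Nat.add_le_add h2 h3))))
  refine h4.trans (le_of_eq ?_)
  ring

theorem pairs' : StmtPAIRS := by
  classical
  obtain ⟨C, hC⟩ := RL'
  refine ⟨C, fun P k j hk => ?_⟩
  have h1 : #{x ∈ P.offDiag | k ≤ #(ln P x.1 x.2) ∧ #(ln P x.1 x.2) ≤ j} ≤
      j * ∑ l ∈ lines P with k ≤ #l, #l := by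
    rw [Finset.card_eq_sum_card_fiberwise (f := fun x : V3 × V3 => ln P x.1 x.2)
      (t := {l ∈ lines P | k ≤ #l}), Finset.mul_sum]
    · refine Finset.sum_le_sum fun l _ => ?_
      by_cases hj : #l ≤ j
      · refine le_trans (Finset.card_le_card (t := l ×ˢ l) fun x hx => ?_) ?_
        · obtain ⟨h1, rfl⟩ := Finset.mem_filter.1 hx
          obtain ⟨a, b, -⟩ := Finset.mem_offDiag.1 (Finset.mem_filter.1 h1).1
          exact Finset.mem_product.2 ⟨Finset.mem_filter.2 ⟨a, by simp⟩,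
            Finset.mem_filter.2 ⟨b, cross_self _⟩⟩
        · rw [Finset.card_product]
          exact Nat.mul_le_mul_right _ hj
      · refine le_trans (le_of_eq (Finset.card_eq_zero.2 ?_)) (Nat.zero_le _)
        refine Finset.eq_empty_of_forall_notMem fun x hx => hj ?_
        obtain ⟨h1, rfl⟩ := Finset.mem_filter.1 hx
        exact (Finset.mem_filter.1 h1).2.2
    · intro x hx
      obtain ⟨h1, h2⟩ := Finset.mem_filter.1 (Finset.mem_coe.1 hx)
      exact Finset.mem_coe.2 (Finset.mem_filter.2 ⟨Finset.mem_image_of_mem _ h1, h2.1⟩)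
  calc k ^ 2 * #{x ∈ P.offDiag | k ≤ #(ln P x.1 x.2) ∧ #(ln P x.1 x.2) ≤ j}
      ≤ k ^ 2 * (j * ∑ l ∈ lines P with k ≤ #l, #l) := Nat.mul_le_mul_left _ h1
    _ = j * (k ^ 2 * ∑ l ∈ lines P with k ≤ #l, #l) := by ring
    _ ≤ j * (C * (#P ^ 2 + k ^ 2 * #P)) := Nat.mul_le_mul_left _ (hC P k hk)
    _ = C * j * (#P ^ 2 + k ^ 2 * #P) := by ring

end Pool.Agent.MP_36f34d_co.H52
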