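import Pool.Agent.MP_36f34d_co.H52.Tet
import Pool.Agent.MP_36f34d_co.H52.UD
import Pool.Agent.MP_36f34d_co.H52.Dpt
import Pool.Agent.MP_36f34d_co.H52.Cons2
import Pool.Agent.MP_36f34d_co.H52.Zero2
import Pool.Agent.MP_36f34d_co.H52.Poor2
import Pool.Agent.MP_36f34d_co.H52.RR
import Pool.Agent.MP_36f34d_co.H52.Mix0
import Pool.Agent.MP_36f34d_co.H52.Mix
import Pool.Agent.MP_36f34d_co.H52.Tet2
import Pool.Agent.MP_36f34d_co.H52.Gen

/-! From ordered tetrahedra of a given orientation to subsets similar to a tetrahedron. -/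

namespace Pool.Agent.MP_36f34d_co.H52

open Finset Matrix TetAux

theorem TET : StmtTET :=
  tet (gen dpt' (cons2 circ2) zero2 split (poor2 split) (rr ud) (mix mix0)) pairs'

theorem triple_of_not_coplanar {A B C D : E3} (h : ¬ Coplanar ℝ ({A, B, C, D} : Set E3)) :
    crossProduct (B.ofLp - A.ofLp) (C.ofLp - A.ofLp) ⬝ᵥ (D.ofLp - A.ofLp) ≠ 0 := by
  intro h0
  have hn := dot_self_pos (cross_of_not_coplanar h)
  apply h
  set w := B.ofLp - A.ofLp with hw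
  set u := C.ofLp - A.ofLp with hu
  set v := D.ofLp - A.ofLp with hv
  set n := crossProduct w u with hn'
  have key : ∀ i, (n ⬝ᵥ n) * v i =
      (crossProduct v u ⬝ᵥ n) * w i + (crossProduct w v ⬝ᵥ n) * u i + (n ⬝ᵥ v) * n i := by
    intro i
    fin_cases i <;> simp [hn', cross_apply, dotProduct, Fin.sum_univ_three] <;> ring
  have hD : D ∈ affineSpan ℝ ({A, B, C} : Set E3) := by
    have hA : A ∈ affineSpan ℝ ({A, B, C} : Set E3) := mem_affineSpan ℝ (by simp)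
    have hB : B ∈ affineSpan ℝ ({A, B, C} : Set E3) := mem_affineSpan ℝ (by simp)
    have hC : C ∈ affineSpan ℝ ({A, B, C} : Set E3) := mem_affineSpan ℝ (by simp)
    have e : D = (((crossProduct v u ⬝ᵥ n) / (n ⬝ᵥ n)) • (B -ᵥ A) +
        ((crossProduct w v ⬝ᵥ n) / (n ⬝ᵥ n)) • (C -ᵥ A)) +ᵥ A := by
      ext i
      have := key i
      rw [h0, zero_mul, add_zero] at this
      simp only [hw, hu, hv, Pi.sub_apply] at this
      simp only [vsub_eq_sub, vadd_eq_add, PiLp.add_apply, PiLp.smul_apply, PiLp.sub_apply,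
        smul_eq_mul]
      field_simp
      linear_combination this
    rw [e]
    exact AffineSubspace.vadd_mem_of_mem_direction (Submodule.add_mem _
      (Submodule.smul_mem _ _ (AffineSubspace.vsub_mem_direction hB hA))
      (Submodule.smul_mem _ _ (AffineSubspace.vsub_mem_direction hC hA))) hA
  have := (coplanar_insert_iff_of_mem_affineSpan hD).2 (coplanar_triple ℝ A B C)
  convert this using 1
  ext x
  simp only [Set.mem_insert_iff, Set.mem_singleton_iff]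
  tauto

theorem gram (w u v : V3) : (crossProduct w u ⬝ᵥ v) ^ 2 * (w ⬝ᵥ w) =
    (w ⬝ᵥ w * u ⬝ᵥ u - (u ⬝ᵥ w) ^ 2) * (w ⬝ᵥ w * v ⬝ᵥ v - (v ⬝ᵥ w) ^ 2) -
      (w ⬝ᵥ w * u ⬝ᵥ v - u ⬝ᵥ w * v ⬝ᵥ w) ^ 2 := by
  simp [cross_apply, dotProduct, Fin.sum_univ_three]
  ring

/-- The subsets similar to a tetrahedron come from the two orientations. -/
theorem tet_le2 (T : Finset E3) (h4 : #T = 4) (hT : ¬ Coplanar ℝ (T : Set E3)) :
    ∃ τ e τ' p h : ℝ, 0 < e ∧ h ≠ 0 ∧ ∀ P : Finset E3,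
      {S : Finset E3 | S ⊆ P ∧ ∃ (φ : E3 ≃ᵢ E3) (l : ℝ), 0 < l ∧
        (S : Set E3) = (fun x => l • φ x) '' T}.ncard ≤
        #(tets (P.image WithLp.ofLp) τ e τ' p h) + #(tets (P.image WithLp.ofLp) τ e τ' p (-h)) := by
  classical
  obtain ⟨D, T', hD, rfl, h3⟩ := card_eq_succ.1 h4
  obtain ⟨A, B, C, hAB, -, -, rfl⟩ := card_eq_three.1 h3
  have hT' : ¬ Coplanar ℝ ({A, B, C, D} : Set E3) := by
    convert hT using 2
    ext x
    simp only [Set.mem_insert_iff, Set.mem_singleton_iff, coe_insert, coe_singleton]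
    tauto
  have hcr := cross_of_not_coplanar hT'
  have htr := triple_of_not_coplanar hT'
  set w := B.ofLp - A.ofLp with hw
  set u := C.ofLp - A.ofLp with hu
  set v := D.ofLp - A.ofLp with hv
  have hw0 : 0 < w ⬝ᵥ w :=
    dot_self_pos (sub_ne_zero.2 fun e => hAB (WithLp.ofLp_injective 2 e).symm)
  have he : 0 < u ⬝ᵥ u / (w ⬝ᵥ w) - (u ⬝ᵥ w / (w ⬝ᵥ w)) ^ 2 := by
    have h1 := cross_dot_cross w u w u
    have h2 := dot_self_pos hcr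
    rw [h1, dotProduct_comm w u] at h2
    have : u ⬝ᵥ u / (w ⬝ᵥ w) - (u ⬝ᵥ w / (w ⬝ᵥ w)) ^ 2 =
        (w ⬝ᵥ w * u ⬝ᵥ u - u ⬝ᵥ w * u ⬝ᵥ w) / (w ⬝ᵥ w) ^ 2 := by
      field_simp
    rw [this]
    positivity
  have hg : (u ⬝ᵥ v / (w ⬝ᵥ w) - u ⬝ᵥ w / (w ⬝ᵥ w) * (v ⬝ᵥ w / (w ⬝ᵥ w))) ^ 2 <
      (u ⬝ᵥ u / (w ⬝ᵥ w) - (u ⬝ᵥ w / (w ⬝ᵥ w)) ^ 2) *
        (v ⬝ᵥ v / (w ⬝ᵥ w) - (v ⬝ᵥ w / (w ⬝ᵥ w)) ^ 2) := by
    rw [← sub_pos]
    have h1 := gram w u v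
    have : (u ⬝ᵥ u / (w ⬝ᵥ w) - (u ⬝ᵥ w / (w ⬝ᵥ w)) ^ 2) *
        (v ⬝ᵥ v / (w ⬝ᵥ w) - (v ⬝ᵥ w / (w ⬝ᵥ w)) ^ 2) -
        (u ⬝ᵥ v / (w ⬝ᵥ w) - u ⬝ᵥ w / (w ⬝ᵥ w) * (v ⬝ᵥ w / (w ⬝ᵥ w))) ^ 2 =
        (crossProduct w u ⬝ᵥ v) ^ 2 * (w ⬝ᵥ w) / (w ⬝ᵥ w) ^ 4 := by
      rw [h1]
      field_simp
    rw [this]
    positivity
  obtain ⟨p, h, hh, hex⟩ := dpt'.ex _ _ _ _ _ he hg
  refine ⟨u ⬝ᵥ w / (w ⬝ᵥ w), _, v ⬝ᵥ w / (w ⬝ᵥ w), p, h, he, hh, fun P => ?_⟩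
  set τ := u ⬝ᵥ w / (w ⬝ᵥ w) with hτ
  set τ' := v ⬝ᵥ w / (w ⬝ᵥ w) with hτ'
  set e := u ⬝ᵥ u / (w ⬝ᵥ w) - τ ^ 2 with he'
  set P' := P.image WithLp.ofLp with hP'
  let g : ℝ → V3 × V3 × V3 → Finset E3 := fun η x =>
    {WithLp.toLp 2 (dpt τ τ' p η x.1 x.2.1 x.2.2), WithLp.toLp 2 x.1, WithLp.toLp 2 x.2.1,
      WithLp.toLp 2 x.2.2}
  refine le_trans (Set.ncard_le_ncard (t := ↑((tets P' τ e τ' p h).image (g h) ∪
    (tets P' τ e τ' p (-h)).image (g (-h)))) ?_) ?_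
  · rintro S ⟨hS, φ, l, hl, hS'⟩
    have mem : ∀ X ∈ ({D, A, B, C} : Finset E3), (l • φ X).ofLp ∈ P' := fun X hX =>
      mem_image_of_mem _ (hS (by
        rw [← mem_coe, hS']
        exact ⟨X, hX, rfl⟩))
    have e0 := sim_dot φ l A B B
    have hne : (l • φ A).ofLp ≠ (l • φ B).ofLp := by
      intro h'
      rw [h', sub_self, zero_dotProduct] at e0
      have : 0 < l ^ 2 * (w ⬝ᵥ w) := by positivity
      exact this.ne e0
    have s1 : Sh τ e (l • φ A).ofLp (l • φ B).ofLp (l • φ C).ofLp := by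
      refine ⟨hne, ?_, ?_⟩
      · rw [sim_dot, sim_dot, ← hw, ← hu, hτ]; field_simp
      · rw [sim_dot, sim_dot, ← hw, ← hu, he']; field_simp; ring
    have s2 : Sh τ' (v ⬝ᵥ v / (w ⬝ᵥ w) - τ' ^ 2) (l • φ A).ofLp (l • φ B).ofLp (l • φ D).ofLp := by
      refine ⟨hne, ?_, ?_⟩
      · rw [sim_dot, sim_dot, ← hw, ← hv, hτ']; field_simp
      · rw [sim_dot, sim_dot, ← hw, ← hv]; field_simp; ring
    have s3 := hex _ _ _ _ s1 s2 (by rw [sim_dot, sim_dot, ← hw, ← hv, ← hu]; field_simp)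
    have tr : ((l • φ A).ofLp, (l • φ B).ofLp, (l • φ C).ofLp) ∈ tris P' τ e :=
      mem_filter.2 ⟨mem_product.2 ⟨mem A (by simp),
        mem_product.2 ⟨mem B (by simp), mem C (by simp)⟩⟩, s1⟩
    have fin : ∀ η, (l • φ D).ofLp = dpt τ τ' p η (l • φ A).ofLp (l • φ B).ofLp (l • φ C).ofLp →
        S ∈ (tets P' τ e τ' p η).image (g η) := by
      intro η hη
      refine mem_image.2 ⟨_, mem_filter.2 ⟨tr, hη ▸ mem D (by simp)⟩, ?_⟩
      apply coe_injective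
      rw [hS']
      simp only [g, ← hη]
      simp [Set.image_insert_eq]
    exact mem_coe.2 (mem_union.2 (s3.imp (fin h) (fin (-h))))
  · rw [Set.ncard_coe_finset]
    exact (card_union_le _ _).trans (Nat.add_le_add card_image_le card_image_le)

end Pool.Agent.MP_36f34d_co.H52
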