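import Pool.Agent.MP_36f34d_co.H52.Spec

/-! Triangles with the base on a rich line, and pairs of third vertices with a poor plane. -/

namespace Pool.Agent.MP_36f34d_co.H52

open Finset Matrix MvPolynomial

namespace LP

theorem left_mem {P : Finset V3} {a : V3} (b : V3) (ha : a ∈ P) : a ∈ ln P a b := by
  simp [ln, ha]

theorem right_mem {P : Finset V3} (a : V3) {b : V3} (hb : b ∈ P) : b ∈ ln P a b := by
  simp [ln, hb]

theorem dot_pos {u : V3} (h : u ≠ 0) : 0 < u ⬝ᵥ u :=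
  lt_of_le_of_ne (Finset.sum_nonneg fun _ _ => mul_self_nonneg _)
    fun e => h (dotProduct_self_eq_zero.1 e.symm)

/-- two bases on one line with the same third vertex have the same length -/
theorem len (R : StmtREP) {τ e : ℝ} (he : 0 < e) {x y a b c : V3} (h1 : Sh τ e x y c)
    (h2 : Sh τ e a b c) (ha : crossProduct (a - x) (y - x) = 0)
    (hb : crossProduct (b - x) (y - x) = 0) : (b - a) ⬝ᵥ (b - a) = (y - x) ⬝ᵥ (y - x) := by
  have u0 : y - x ≠ 0 := sub_ne_zero.2 h1.1.symm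
  obtain ⟨s, hs⟩ := R.par _ _ u0 ha
  obtain ⟨t, ht⟩ := R.par _ _ u0 hb
  obtain ⟨-, p1, p2⟩ := h1
  obtain ⟨q0, q1, q2⟩ := h2
  have e1 : b - a = (t - s) • (y - x) := by rw [sub_smul, ← hs, ← ht, sub_sub_sub_cancel_right]
  have e2 : c - a = (c - x) - s • (y - x) := by rw [← hs, sub_sub_sub_cancel_right]
  have d0 : t - s ≠ 0 := fun h => q0 (by
    rw [h, zero_smul] at e1
    exact (sub_eq_zero.1 e1).symm)
  have n0 := dot_pos u0
  rw [e1, e2] at q1 q2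
  rw [e1]
  generalize y - x = u at *
  generalize c - x = w at *
  simp only [dotProduct_smul, smul_dotProduct, sub_dotProduct, dotProduct_sub, smul_eq_mul,
    dotProduct_comm u w, p1, p2] at q1 q2 ⊢
  generalize u ⬝ᵥ u = n at *
  have r1 : τ - s = τ * (t - s) := by
    refine mul_left_cancel₀ (mul_ne_zero d0 n0.ne') ?_
    linear_combination q1
  have r2 : (τ - s) ^ 2 + e = (τ ^ 2 + e) * (t - s) ^ 2 := by
    refine mul_left_cancel₀ n0.ne' ?_
    linear_combination q2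
  have r3 : (t - s) ^ 2 = 1 := by
    refine mul_left_cancel₀ he.ne' ?_
    rw [r1] at r2
    linear_combination -r2
  linear_combination n * r3

theorem far {τ e : ℝ} {a b c : V3} (h : Sh τ e a b c) :
    (a - c) ⬝ᵥ (a - c) = (τ ^ 2 + e) * ((b - a) ⬝ᵥ (b - a)) ∧
      (b - c) ⬝ᵥ (b - c) = ((τ - 1) ^ 2 + e) * ((b - a) ⬝ᵥ (b - a)) := by
  obtain ⟨-, p1, p2⟩ := h
  simp only [dotProduct, Fin.sum_univ_three, Pi.sub_apply] at *
  exact ⟨by linear_combination p2, by linear_combination p2 - 2 * p1⟩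

theorem bis {τ e : ℝ} {a b c c' : V3} (h : Sh τ e a b c) (h' : Sh τ e a b c') :
    2 * (a ⬝ᵥ (c' - c)) = c' ⬝ᵥ c' - c ⬝ᵥ c ∧ b ⬝ᵥ (c' - c) = a ⬝ᵥ (c' - c) := by
  obtain ⟨-, p1, p2⟩ := h
  obtain ⟨-, q1, q2⟩ := h'
  simp only [dotProduct, Fin.sum_univ_three, Pi.sub_apply] at *
  exact ⟨by linear_combination p2 - q2, by linear_combination q1 - p1⟩

theorem pl_eq (P : Finset V3) {x y ν : V3} (h : x ⬝ᵥ ν = y ⬝ᵥ ν) : pl P x ν = pl P y ν := by
  ext z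
  simp only [pl, mem_filter, sub_dotProduct, h]

/-- a point off a line sees the points of the line in different directions -/
theorem sees (R : StmtREP) {A : Finset V3} {x y z : V3} (hxy : x ≠ y) (hz : z ∈ A)
    (h : z ∉ ln A x y) : #(ln A x y) ≤ #(dirs A z) := by
  have ne : ∀ w ∈ ln A x y, w ≠ z := fun w hw e => h (e ▸ hw)
  refine card_le_card_of_injOn (fun w => rep (w - z)) (fun w hw => ?_) fun w hw w' hw' e => ?_
  · exact mem_coe.2 (mem_image_of_mem _ (mem_erase.2 ⟨ne w hw, (mem_filter.1 hw).1⟩))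
  · by_contra hne
    have c1 := (R.eq _ _ (sub_ne_zero.2 (ne w hw)) (sub_ne_zero.2 (ne w' hw'))).1 e
    refine h ?_
    rw [← R.ln A x y w w' hxy hne hw hw']
    refine mem_filter.2 ⟨hz, ?_⟩
    have : z - w = -(w - z) := (neg_sub _ _).symm
    rw [show w' - w = (w' - z) + (z - w) by abel, map_add, cross_self, add_zero, this, map_neg,
      LinearMap.neg_apply, c1, neg_zero]

end LP

open LP

theorem line (R : StmtREP) (hRL : StmtRL) (G : StmtGEO) : StmtLINE := by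
  classical
  obtain ⟨C, hC⟩ := hRL
  refine ⟨4 * C, fun P τ e k he hk => ?_⟩
  have h1 : #{p ∈ tris P τ e | k ≤ #(ln P p.1 p.2.1)} ≤
      4 * #({l ∈ lines P | k ≤ #l} ×ˢ P) := by
    refine card_le_mul_card_image_of_maps_to (f := fun p => (ln P p.1 p.2.1, p.2.2))
      (fun p hp => ?_) 4 fun q _ => ?_
    · simp only [tris, mem_filter, mem_product] at hp
      obtain ⟨⟨⟨a1, a2, a3⟩, a4⟩, a5⟩ := hp
      exact mem_product.2 ⟨mem_filter.2 ⟨mem_image.2 ⟨(p.1, p.2.1),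
        mem_offDiag.2 ⟨a1, a2, a4.1⟩, rfl⟩, a5⟩, a3⟩
    · rcases Finset.eq_empty_or_nonempty {p ∈ {p ∈ tris P τ e | k ≤ #(ln P p.1 p.2.1)} |
        (ln P p.1 p.2.1, p.2.2) = q} with h0 | ⟨⟨x, y, c⟩, h0⟩
      · rw [h0]
        simp
      simp only [tris, mem_filter, mem_product] at h0
      obtain ⟨⟨⟨-, s0⟩, -⟩, rfl⟩ := h0
      have u0 : y - x ≠ 0 := sub_ne_zero.2 s0.1.symm
      have b1 := G.one P x (y - x) c ((τ ^ 2 + e) * ((y - x) ⬝ᵥ (y - x))) u0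
      have b2 := G.one P x (y - x) c (((τ - 1) ^ 2 + e) * ((y - x) ⬝ᵥ (y - x))) u0
      refine le_trans ?_ ((card_product _ _).trans_le (Nat.mul_le_mul b1 b2))
      refine card_le_card_of_injOn (fun p => (p.1, p.2.1)) (fun p hp => ?_) fun p hp p' hp' h => ?_
      · simp only [tris, coe_filter, mem_filter, mem_product, Set.mem_ofPred_eq, Prod.mk.injEq] at hp
        obtain ⟨⟨⟨⟨a1, a2, -⟩, a4⟩, -⟩, a5, a6⟩ := hp
        rw [a6] at a4
        have m1 := (mem_filter.1 (a5 ▸ left_mem p.2.1 a1)).2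
        have m2 := (mem_filter.1 (a5 ▸ right_mem p.1 a2)).2
        have m3 := len R he s0 a4 m1 m2
        have m4 := far a4
        rw [m3] at m4
        exact mem_coe.2 (mem_product.2 ⟨mem_filter.2 ⟨a1, m1, m4.1⟩, mem_filter.2 ⟨a2, m2, m4.2⟩⟩)
      · have e1 := (Prod.ext_iff.1 (mem_filter.1 hp).2).2
        have e2 := (Prod.ext_iff.1 (mem_filter.1 hp').2).2
        obtain ⟨e3, e4⟩ := Prod.ext_iff.1 h
        exact Prod.ext e3 (Prod.ext e4 (e1.trans e2.symm))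
  have h2 : #{l ∈ lines P | k ≤ #l} * k ≤ ∑ l ∈ lines P with k ≤ #l, #l :=
    card_nsmul_le_sum _ _ _ fun l hl => (mem_filter.1 hl).2
  have h3 := hC P k hk
  rw [card_product] at h1
  calc _ ≤ k ^ 3 * (4 * (#{l ∈ lines P | k ≤ #l} * #P)) := Nat.mul_le_mul_left _ h1
    _ = 4 * #P * (k ^ 2 * (#{l ∈ lines P | k ≤ #l} * k)) := by ring
    _ ≤ 4 * #P * (C * (#P ^ 2 + k ^ 2 * #P)) :=
      Nat.mul_le_mul_left _ ((Nat.mul_le_mul_left _ h2).trans h3)
    _ = _ := by ring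

theorem poor (R : StmtREP) (hB : StmtBECK) (G : StmtGEO) : StmtPOOR := by
  classical
  obtain ⟨C, hC⟩ := hB
  refine ⟨2 * C, fun P τ e k c c' he hk => ?_⟩
  suffices H : ∀ Q : Finset (V3 × V3), (∀ p ∈ Q, (p.1 ∈ P ∧ p.2 ∈ P) ∧ Sh τ e p.1 p.2 c ∧
      Sh τ e p.1 p.2 c' ∧ crossProduct (c' - c) (c - p.1) ≠ 0 ∧ #(ln P p.1 p.2) ≤ k ∧
      #(dirs (pl P p.1 (c' - c)) p.1) ≤ k ∧ #(dirs (pl P p.2 (c' - c)) p.2) ≤ k) →
      #Q ≤ 2 * C * k from H _ fun p hp => by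
    rw [mem_filter, mem_product] at hp
    exact hp
  intro Q mQ
  rcases Q.eq_empty_or_nonempty with rfl | ⟨p₀, h₀⟩
  · simp
  set K := pl P p₀.1 (c' - c) with hK
  set A := {x ∈ K | #(dirs K x) ≤ k} with hA
  have hAP : A ⊆ P := (filter_subset _ _).trans (filter_subset _ _)
  have mA : ∀ p ∈ Q, p.1 ∈ A ∧ p.2 ∈ A := by
    intro p hp
    obtain ⟨⟨a1, a2⟩, a3, a4, -, -, a5, a6⟩ := mQ p hp
    obtain ⟨-, b3, b4, -⟩ := mQ p₀ h₀
    have e1 : p.1 ⬝ᵥ (c' - c) = p₀.1 ⬝ᵥ (c' - c) := by linarith [(bis a3 a4).1, (bis b3 b4).1]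
    have e2 : p.2 ⬝ᵥ (c' - c) = p₀.1 ⬝ᵥ (c' - c) := (bis a3 a4).2.trans e1
    rw [pl_eq P e1] at a5
    rw [pl_eq P e2] at a6
    exact ⟨mem_filter.2 ⟨mem_filter.2 ⟨a1, by rw [sub_dotProduct, e1, sub_self]⟩, a5⟩,
      mem_filter.2 ⟨mem_filter.2 ⟨a2, by rw [sub_dotProduct, e2, sub_self]⟩, a6⟩⟩
  have d1 : ∀ x ∈ A, #(dirs A x) ≤ k := fun x hx =>
    (card_le_card (image_subset_image (erase_subset_erase _ (filter_subset _ _)))).trans
      (mem_filter.1 hx).2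
  have d2 : ∀ x ∈ A, ∀ y ∈ A, x ≠ y → #(ln A x y) ≤ k := by
    intro x _ y _ hxy
    by_contra hlt
    have all : ∀ z ∈ A, z ∈ ln A x y := fun z hz => by
      by_contra hn
      exact hlt ((sees R hxy hz hn).trans (d1 z hz))
    obtain ⟨-, b3, -, -, b5, -⟩ := mQ p₀ h₀
    rw [← R.ln A x y p₀.1 p₀.2 hxy b3.1 (all _ (mA p₀ h₀).1) (all _ (mA p₀ h₀).2)] at hlt
    exact hlt ((card_le_card (filter_subset_filter _ hAP)).trans b5)
  have h1 : #Q ≤ 2 * #A := by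
    refine card_le_mul_card_image_of_maps_to (f := Prod.fst) (fun p hp => (mA p hp).1) 2
      fun a _ => ?_
    rcases Finset.eq_empty_or_nonempty {p ∈ Q | p.1 = a} with h0 | ⟨⟨x, y⟩, h0⟩
    · rw [h0]
      simp
    obtain ⟨g0, g1⟩ := mem_filter.1 h0
    obtain rfl : x = a := g1
    obtain ⟨-, b3, -, b4, -⟩ := mQ _ g0
    refine le_trans ?_ (G.two P (c' - c) (c - x) x (x ⬝ᵥ (c' - c))
      (x ⬝ᵥ (c - x) + τ * ((y - x) ⬝ᵥ (y - x))) ((y - x) ⬝ᵥ (y - x)) b4)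
    refine card_le_card_of_injOn Prod.snd (fun p hp => ?_) fun p hp p' hp' h => ?_
    · obtain ⟨hp, e1⟩ := mem_filter.1 hp
      obtain ⟨⟨-, a2⟩, a3, a4, -⟩ := mQ p hp
      have e1 : p.1 = x := e1
      rw [e1] at a3 a4
      have m1 : (p.2 - x) ⬝ᵥ (p.2 - x) = (y - x) ⬝ᵥ (y - x) :=
        mul_left_cancel₀ (by positivity : τ ^ 2 + e ≠ 0) (a3.2.2.symm.trans b3.2.2)
      refine mem_coe.2 (mem_filter.2 ⟨a2, (bis a3 a4).2, ?_, m1⟩)
      rw [← m1, ← a3.2.1, dotProduct_comm (c - x), sub_dotProduct p.2 x, add_sub_cancel]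
    · exact Prod.ext ((mem_filter.1 hp).2.trans (mem_filter.1 hp').2.symm) h
  calc #Q ≤ 2 * (C * k) := h1.trans (Nat.mul_le_mul_left _ (hC A k hk d2 d1))
    _ = _ := by ring

end Pool.Agent.MP_36f34d_co.H52
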