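import Mathlib

/-!
Similar triangles and tetrahedra in space: an upper bound with exponent `19/9`.
Definitions and the statements of the modules.
-/

namespace Pool.Agent.MP_36f34d_co.H52

open Finset Matrix MvPolynomial

/-- Vectors in space. -/
abbrev V3 : Type := Fin 3 → ℝ

/-! ### Partitioning -/

/-- The theorem of Borsuk and Ulam. -/
def StmtBU : Prop :=
  ∀ (N : ℕ) (g : (Fin (N + 1) → ℝ) → Fin N → ℝ), Continuous g → (∀ v, g (-v) = -g v) →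
    ∃ v, v ≠ 0 ∧ g v = 0

/-- The ham sandwich theorem for finite sets. -/
def StmtHAM : Prop :=
  ∀ (ι κ X : Type) [Fintype ι] [Fintype κ], Fintype.card ι < Fintype.card κ →
    ∀ (S : ι → Finset X) (φ : X → κ → ℝ), ∃ h : κ → ℝ, h ≠ 0 ∧ ∀ i,
      2 * #{x ∈ S i | 0 < h ⬝ᵥ φ x} ≤ #(S i) ∧ 2 * #{x ∈ S i | h ⬝ᵥ φ x < 0} ≤ #(S i)

/-- A polynomial partition: the points off the zero set fall into small classes, and the class is
constant along paths that miss the zero set. -/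
structure Part {d : ℕ} (P : Finset (Fin d → ℝ)) (r D : ℕ) (f : MvPolynomial (Fin d) ℝ)
    (cls : (Fin d → ℝ) → ℕ) : Prop where
  ne : f ≠ 0
  deg : f.totalDegree ≤ D
  size : ∀ i, r ^ d * #{y ∈ P | eval y f ≠ 0 ∧ cls y = i} ≤ #P
  loc : ∀ γ : ℝ → Fin d → ℝ, Continuous γ → ∀ s t, s ≤ t →
    (∀ u ∈ Set.Icc s t, eval (γ u) f ≠ 0) → cls (γ s) = cls (γ t)

/-- Polynomial partitioning. -/
def StmtPART : Prop :=
  ∀ d, 1 ≤ d → ∃ C : ℕ, ∀ (P : Finset (Fin d → ℝ)) (r : ℕ), 1 ≤ r →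
    ∃ f cls, Part P r (C * r) f cls

/-- A differentiable curve on which a polynomial vanishes identically or at few parameters. -/
structure Alg {d : ℕ} (γ : ℝ → Fin d → ℝ) : Prop where
  diff : Differentiable ℝ γ
  few : ∀ f : MvPolynomial (Fin d) ℝ, (∀ t, eval (γ t) f = 0) ∨
    ∃ Z : Finset ℝ, #Z ≤ 2 * f.totalDegree ∧ ∀ t, eval (γ t) f = 0 → t ∈ Z

/-- The rational parametrisation of a circle (or ellipse). -/
noncomputable def circ {d : ℕ} (o u v : Fin d → ℝ) (t : ℝ) : Fin d → ℝ :=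
  o + ((1 - t ^ 2) / (1 + t ^ 2)) • u + (2 * t / (1 + t ^ 2)) • v

/-- Lines and circles are algebraic curves. -/
def StmtALG : Prop :=
  ∀ d, (∀ p u : Fin d → ℝ, Alg fun t : ℝ => p + t • u) ∧ ∀ o u v : Fin d → ℝ, Alg (circ o u v)

/-- On the zero set: up to few bad parameters on each curve, the tangents at a point lie in a
hyperplane that depends on the point only. -/
def StmtBAD : Prop :=
  ∀ d, 1 ≤ d → ∀ f : MvPolynomial (Fin d) ℝ, f ≠ 0 →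
    ∃ (bad : (ℝ → Fin d → ℝ) → Finset ℝ) (ν : (Fin d → ℝ) → Fin d → ℝ), (∀ x, ν x ≠ 0) ∧
      ∀ γ, Alg γ → #(bad γ) ≤ 2 * f.totalDegree ∧
        ∀ t, eval (γ t) f = 0 → t ∉ bad γ → deriv γ t ⬝ᵥ ν (γ t) = 0

/-- Most elements of `S` are not separated from their successor by an element of `Z`. -/
def StmtGAP : Prop :=
  ∀ S Z : Finset ℝ, ∃ (S' : Finset ℝ) (nx : ℝ → ℝ), S' ⊆ S ∧ #S ≤ #S' + 2 * #Z + 1 ∧
    ∀ t ∈ S', nx t ∈ S ∧ t < nx t ∧ (∀ z ∈ Z, z ∉ Set.Icc t (nx t)) ∧ ∀ s ∈ S, t < s → nx t ≤ s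

/-! ### Incidences -/

/-- Nonzero, pairwise non-parallel vectors. -/
structure NP (A : Finset V3) : Prop where
  ne : ∀ u ∈ A, u ≠ 0
  inj : ∀ u ∈ A, ∀ v ∈ A, crossProduct u v = 0 → u = v

/-- The theorem of Szemeredi and Trotter in the projective plane, in linear form. -/
def StmtPST : Prop :=
  ∃ C : ℕ, ∀ A B : Finset V3, NP A → NP B → ∀ r, 1 ≤ r →
    r ^ 2 * #{p ∈ A ×ˢ B | p.1 ⬝ᵥ p.2 = 0} ≤ C * (r ^ 3 * #B + #A ^ 2 + r ^ 2 * #A)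

/-- The normalised representative of a direction. -/
noncomputable def rep (v : V3) : V3 :=
  if v 0 ≠ 0 then (v 0)⁻¹ • v else if v 1 ≠ 0 then (v 1)⁻¹ • v else (v 2)⁻¹ • v

/-- The points of `P` on the line `x y`. -/
noncomputable def ln (P : Finset V3) (x y : V3) : Finset V3 :=
  {z ∈ P | crossProduct (z - x) (y - x) = 0}

/-- The lines spanned by `P`. -/
noncomputable def lines (P : Finset V3) : Finset (Finset V3) :=
  P.offDiag.image fun p => ln P p.1 p.2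

/-- The directions from `x` to the other points of `P`. -/
noncomputable def dirs (P : Finset V3) (x : V3) : Finset V3 :=
  (P.erase x).image fun y => rep (y - x)

/-- The points of `P` on the plane through `x` with normal `ν`. -/
noncomputable def pl (P : Finset V3) (x ν : V3) : Finset V3 := {z ∈ P | (z - x) ⬝ᵥ ν = 0}

/-- Elementary facts on directions and lines. -/
structure StmtREP : Prop where
  smul : ∀ v : V3, v ≠ 0 → ∃ t : ℝ, t ≠ 0 ∧ rep v = t • v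
  eq : ∀ u v : V3, u ≠ 0 → v ≠ 0 → (rep u = rep v ↔ crossProduct u v = 0)
  np : ∀ A : Finset V3, (∀ u ∈ A, u ≠ 0) → NP (A.image rep)
  par : ∀ u v : V3, v ≠ 0 → crossProduct u v = 0 → ∃ t : ℝ, u = t • v
  ln : ∀ (P : Finset V3) (x y x' y' : V3), x ≠ y → x' ≠ y' → x' ∈ ln P x y → y' ∈ ln P x y →
    ln P x' y' = ln P x y
  gen : ∀ L : Finset (V3 × ℝ), (∀ p ∈ L, p.1 ≠ 0) → ∃ o : V3, ∀ p ∈ L, p.1 ⬝ᵥ o ≠ p.2

/-- Rich lines of the projective plane. -/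
def StmtRP : Prop :=
  ∃ C : ℕ, ∀ A B : Finset V3, NP A → NP B → ∀ k, 2 ≤ k →
    (∀ v ∈ B, k ≤ #{u ∈ A | u ⬝ᵥ v = 0}) →
      k ^ 2 * #{p ∈ A ×ˢ B | p.1 ⬝ᵥ p.2 = 0} ≤ C * (#A ^ 2 + k ^ 2 * #A)

/-- Incidences with rich lines in space. -/
def StmtRL : Prop :=
  ∃ C : ℕ, ∀ (P : Finset V3) (k : ℕ), 2 ≤ k →
    k ^ 2 * ∑ l ∈ lines P with k ≤ #l, #l ≤ C * (#P ^ 2 + k ^ 2 * #P)

/-- A theorem of Beck type. -/
def StmtBECK : Prop :=
  ∃ C : ℕ, ∀ (A : Finset V3) (k : ℕ), 1 ≤ k → (∀ x ∈ A, ∀ y ∈ A, x ≠ y → #(ln A x y) ≤ k) →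
    (∀ x ∈ A, #(dirs A x) ≤ k) → #A ≤ C * k

/-- Two points on a poor line in a plane that is rich as seen from the first point. -/
noncomputable def RT (P N : Finset V3) (k : ℕ) : Finset (V3 × V3 × V3) :=
  {p ∈ P ×ˢ P ×ˢ N | p.1 ≠ p.2.1 ∧ (p.2.1 - p.1) ⬝ᵥ p.2.2 = 0 ∧ #(ln P p.1 p.2.1) ≤ k ∧
    k ≤ #(dirs (pl P p.1 p.2.2) p.1)}

/-- A theorem of Elekes and Toth type. -/
def StmtRB : Prop :=
  ∃ C : ℕ, ∀ (P N : Finset V3) (q : ℕ), NP N → 1 ≤ q → #P ≤ q ^ 9 → #(RT P N (q ^ 4)) ≤ C * q ^ 19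

/-! ### Triangles -/

/-- The triangle `a b c` has the shape given by `τ` and `e`. -/
def Sh (τ e : ℝ) (a b c : V3) : Prop :=
  a ≠ b ∧ (c - a) ⬝ᵥ (b - a) = τ * ((b - a) ⬝ᵥ (b - a)) ∧
    (c - a) ⬝ᵥ (c - a) = (τ ^ 2 + e) * ((b - a) ⬝ᵥ (b - a))

open Classical in
/-- The triangles of a given shape. -/
noncomputable def tris (P : Finset V3) (τ e : ℝ) : Finset (V3 × V3 × V3) :=
  {p ∈ P ×ˢ P ×ˢ P | Sh τ e p.1 p.2.1 p.2.2}

/-- `γ` parametrises the circle of third vertices over the base `a b`. -/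
structure Circ (τ e : ℝ) (a b : V3) (γ : ℝ → V3) : Prop where
  alg : Alg γ
  inj : Function.Injective γ
  sh : ∀ t, Sh τ e a b (γ t)
  surj : ∃ z, ∀ c, Sh τ e a b c → c = z ∨ ∃ t, γ t = c
  tan : ∀ t ν, deriv γ t ⬝ᵥ ν = 0 → crossProduct (b - a) (γ t - a) ⬝ᵥ ν = 0
  chord : ∀ t s, t < s → (1 : ℝ) ∉ Set.Icc t s → (-1 : ℝ) ∉ Set.Icc t s →
    crossProduct (γ s - γ t) (γ t - a) ≠ 0
  mono : ∀ t s t' s', t < s → s ≤ t' → t' < s' → (1 : ℝ) ∉ Set.Icc t s' →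
    (-1 : ℝ) ∉ Set.Icc t s' → crossProduct (γ s - γ t) (γ s' - γ t') ≠ 0

def StmtCIRC : Prop := ∀ τ e a b, 0 < e → a ≠ b → ∃ γ, Circ τ e a b γ

/-- A line meets a sphere in at most two points. -/
structure StmtGEO : Prop where
  one : ∀ (S : Finset V3) (p u o : V3) (R : ℝ), u ≠ 0 →
    #{x ∈ S | crossProduct (x - p) u = 0 ∧ (x - o) ⬝ᵥ (x - o) = R} ≤ 2
  two : ∀ (S : Finset V3) (u v o : V3) (s t R : ℝ), crossProduct u v ≠ 0 →
    #{x ∈ S | x ⬝ᵥ u = s ∧ x ⬝ᵥ v = t ∧ (x - o) ⬝ᵥ (x - o) = R} ≤ 2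

/-- Triangles with the third vertex on the zero set. -/
def StmtZERO : Prop :=
  ∀ (P : Finset V3) (τ e : ℝ) (f : MvPolynomial (Fin 3) ℝ), 0 < e → f ≠ 0 →
    #{p ∈ tris P τ e | eval p.2.2 f = 0} ≤ (2 * f.totalDegree + 5) * #P ^ 2

open Classical in
/-- Consecutive third vertices in the same class. -/
def StmtCONS : Prop :=
  ∀ (P : Finset V3) (r D : ℕ) f cls (τ e : ℝ) (a b : V3), Part P r D f cls → 0 < e → a ≠ b →
    ∃ Q : Finset (V3 × V3),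
      (∀ p ∈ Q, p.1 ∈ P ∧ p.2 ∈ P ∧ Sh τ e a b p.1 ∧ Sh τ e a b p.2 ∧ eval p.1 f ≠ 0 ∧
        eval p.2 f ≠ 0 ∧ cls p.2 = cls p.1 ∧ crossProduct (p.2 - p.1) (p.1 - a) ≠ 0) ∧
      (∀ p ∈ Q, ∀ p' ∈ Q, p.1 = p'.1 → p = p') ∧
      #{c ∈ P | Sh τ e a b c ∧ eval c f ≠ 0} ≤ #Q + 4 * D + 6 ∧
      ∀ ν : V3, ν ≠ 0 → #{p ∈ Q | crossProduct (p.2 - p.1) ν = 0} ≤ 3

/-- Triangles whose base lies on a rich line. -/
def StmtLINE : Prop :=
  ∃ C : ℕ, ∀ (P : Finset V3) (τ e : ℝ) (k : ℕ), 0 < e → 2 ≤ k →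
    k ^ 3 * #{p ∈ tris P τ e | k ≤ #(ln P p.1 p.2.1)} ≤ C * #P * (#P ^ 2 + k ^ 2 * #P)

open Classical in
/-- Pairs of third vertices whose bisecting plane is poor as seen from both base points. -/
def StmtPOOR : Prop :=
  ∃ C : ℕ, ∀ (P : Finset V3) (τ e : ℝ) (k : ℕ) (c c' : V3), 0 < e → 1 ≤ k →
    #{p ∈ P ×ˢ P | Sh τ e p.1 p.2 c ∧ Sh τ e p.1 p.2 c' ∧
      crossProduct (c' - c) (c - p.1) ≠ 0 ∧ #(ln P p.1 p.2) ≤ k ∧
      #(dirs (pl P p.1 (c' - c)) p.1) ≤ k ∧ #(dirs (pl P p.2 (c' - c)) p.2) ≤ k} ≤ C * k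

/-- The bound for triangles. -/
def StmtTRI : Prop :=
  ∃ C : ℕ, ∀ (P : Finset V3) (τ e : ℝ) (q : ℕ), 0 < e → 1 ≤ q → #P ≤ q ^ 9 →
    #(tris P τ e) ≤ C * q ^ 19

end Pool.Agent.MP_36f34d_co.H52
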