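import Pool.Agent.MP_36f34d_co.H52.All

/-!
Similar tetrahedra in space: an upper bound with exponent `107/51`, using the fourth vertex.
Definitions and the statements of the modules.
-/

namespace Pool.Agent.MP_36f34d_co.H52

open Finset Matrix MvPolynomial

/-- The squared cosine of the angle between `u` and `v` is `κ`. -/
def Ang (κ : ℝ) (u v : V3) : Prop := (u ⬝ᵥ v) ^ 2 = κ * ((u ⬝ᵥ u) * (v ⬝ᵥ v))

open Classical in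
/-- Pairs of directions at a fixed angle (unit distances on the sphere), in linear form. -/
def StmtUD : Prop :=
  ∃ C : ℕ, ∀ (A B : Finset V3) (κ : ℝ), NP A → NP B → 0 ≤ κ → κ < 1 → ∀ r, 1 ≤ r →
    r ^ 2 * #{p ∈ A ×ˢ B | Ang κ p.1 p.2} ≤ C * (r ^ 3 * #B + #A ^ 2 + r ^ 2 * #A)

/-- The fourth vertex. -/
noncomputable def dpt (τ τ' p h : ℝ) (a b c : V3) : V3 :=
  a + τ' • (b - a) + p • (c - a - τ • (b - a)) +
    (h / √((b - a) ⬝ᵥ (b - a))) • crossProduct (b - a) (c - a)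

/-- The chord `c c'` of the circle about `a b` is not a diameter. -/
def ND (a b c c' : V3) : Prop := crossProduct (c' - c) (c - a) ⬝ᵥ (b - a) ≠ 0

/-- Elementary facts on the fourth vertex. -/
structure StmtDPT : Prop where
  swap : ∀ τ e a b c, Sh τ e a b c → Sh (1 - τ) e b a c
  nds : ∀ a b c c', ND a b c c' → ND b a c c'
  sh : ∀ τ e τ' p h a b c, Sh τ e a b c → Sh τ' ((p ^ 2 + h ^ 2) * e) a b (dpt τ τ' p h a b c)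
  inj : ∀ τ e τ' p h a b c c', h ≠ 0 → Sh τ e a b c → Sh τ e a b c' →
    dpt τ τ' p h a b c = dpt τ τ' p h a b c' → c = c'
  nd : ∀ τ e τ' p h a b c c', h ≠ 0 → Sh τ e a b c → Sh τ e a b c' → ND a b c c' →
    ND a b (dpt τ τ' p h a b c) (dpt τ τ' p h a b c')
  ang : ∀ τ e τ' p h a b c c', h ≠ 0 → Sh τ e a b c → Sh τ e a b c' →
    Ang (p ^ 2 / (p ^ 2 + h ^ 2)) (c' - c) (dpt τ τ' p h a b c' - dpt τ τ' p h a b c)
  ex : ∀ τ e τ' e' σ, 0 < e → (σ - τ * τ') ^ 2 < e * e' → ∃ p h, h ≠ 0 ∧ ∀ a b c d,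
    Sh τ e a b c → Sh τ' e' a b d → (c - a) ⬝ᵥ (d - a) = σ * ((b - a) ⬝ᵥ (b - a)) →
      d = dpt τ τ' p h a b c ∨ d = dpt τ τ' p (-h) a b c

/-- The circle of third vertices together with the circle of fourth vertices. -/
def StmtCIRC2 : Prop :=
  ∀ τ e τ' p h a b, 0 < e → a ≠ b → ∃ γ, Circ τ e a b γ ∧
    Alg (fun t => dpt τ τ' p h a b (γ t)) ∧
    ∀ t s, t < s → (1 : ℝ) ∉ Set.Icc t s → (-1 : ℝ) ∉ Set.Icc t s → ND a b (γ t) (γ s)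

open Classical in
/-- Consecutive tetrahedra over a base whose third and fourth vertices stay in their classes. -/
def StmtCONS2 : Prop :=
  ∀ (P : Finset V3) (r D : ℕ) f cls (τ e τ' p h : ℝ) (a b : V3), Part P r D f cls → 0 < e →
    a ≠ b → ∃ Q : Finset (V3 × V3),
      (∀ x ∈ Q, x.1 ∈ P ∧ x.2 ∈ P ∧ dpt τ τ' p h a b x.1 ∈ P ∧ dpt τ τ' p h a b x.2 ∈ P ∧
        Sh τ e a b x.1 ∧ Sh τ e a b x.2 ∧ ND a b x.1 x.2 ∧
        (eval x.2 f ≠ 0 ∧ cls x.2 = cls x.1) ∧ eval (dpt τ τ' p h a b x.2) f ≠ 0 ∧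
        cls (dpt τ τ' p h a b x.2) = cls (dpt τ τ' p h a b x.1)) ∧
      (∀ x ∈ Q, ∀ x' ∈ Q, x.1 = x'.1 → x = x') ∧
      #{c ∈ P | Sh τ e a b c ∧ dpt τ τ' p h a b c ∈ P ∧ eval c f ≠ 0 ∧
        eval (dpt τ τ' p h a b c) f ≠ 0} ≤ #Q + 8 * D + 6 ∧
      ∀ ν : V3, ν ≠ 0 → #{x ∈ Q | crossProduct (x.2 - x.1) ν = 0} ≤ 3

/-- Triangles with base in `E` and the third vertex on the zero set. -/
def StmtZERO2 : Prop :=
  ∀ (P : Finset V3) (E : Finset (V3 × V3)) (τ e : ℝ) (f : MvPolynomial (Fin 3) ℝ), 0 < e →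
    f ≠ 0 → #{x ∈ tris P τ e | (x.1, x.2.1) ∈ E ∧ eval x.2.2 f = 0} ≤
      (2 * f.totalDegree + 1) * #E + 4 * #P ^ 2

/-- No line in the plane through `x` with normal `ν` has more than `k` points. -/
def Flat (P : Finset V3) (x ν : V3) (k : ℕ) : Prop :=
  ∀ y ∈ pl P x ν, ∀ z ∈ pl P x ν, y ≠ z → #(ln P y z) ≤ k

/-- A line through `x` in the plane with normal `ν` has more than `k` points. -/
def LineAt (P : Finset V3) (x ν : V3) (k : ℕ) : Prop :=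
  ∃ y ∈ P, x ≠ y ∧ (y - x) ⬝ᵥ ν = 0 ∧ k < #(ln P x y)

/-- Planes that are poor as seen from a point. -/
structure StmtSPLIT : Prop where
  one : ∀ (P : Finset V3) (x ν : V3) (k : ℕ), 1 ≤ k → x ∈ P → #(dirs (pl P x ν) x) ≤ k →
    Flat P x ν k ∨ LineAt P x ν k
  two : ∀ (P : Finset V3) (a b ν : V3) (k : ℕ), a ∈ P → b ∈ P → a ≠ b → (b - a) ⬝ᵥ ν = 0 →
    LineAt P a ν k → #(dirs (pl P b ν) b) ≤ k → k < #(ln P a b)

open Classical in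
/-- Bases over a chord whose bisecting plane is flat and poor as seen from the first point. -/
def StmtPOOR2 : Prop :=
  ∃ C : ℕ, ∀ (P : Finset V3) (τ e : ℝ) (k : ℕ) (c c' : V3), 0 < e → 1 ≤ k →
    #{x ∈ P ×ˢ P | Sh τ e x.1 x.2 c ∧ Sh τ e x.1 x.2 c' ∧ ND x.1 x.2 c c' ∧
      #(dirs (pl P x.1 (c' - c)) x.1) ≤ k ∧ Flat P x.1 (c' - c) k} ≤ C * k

/-- Two points and two planes through them at a fixed angle. -/
def Wedge (κ : ℝ) (x : V3 × V3 × V3 × V3) : Prop :=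
  x.1 ≠ x.2.1 ∧ (x.2.1 - x.1) ⬝ᵥ x.2.2.1 = 0 ∧ (x.2.1 - x.1) ⬝ᵥ x.2.2.2 = 0 ∧
    Ang κ x.2.2.1 x.2.2.2

open Classical in
/-- Both planes are rich as seen from the first point. -/
def StmtRR : Prop :=
  ∃ C : ℕ, ∀ (P N : Finset V3) (κ : ℝ) (j k ρ lam y : ℕ), NP N → 0 ≤ κ → κ < 1 → 2 ≤ k → 1 ≤ ρ →
    #P ^ 2 + k ^ 2 * #P ≤ k ^ 3 * lam → ρ ^ 3 * lam + lam ^ 2 ≤ ρ ^ 2 * y →
    #{x ∈ P ×ˢ P ×ˢ N ×ˢ N | Wedge κ x ∧ #(ln P x.1 x.2.1) ≤ j ∧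
      k ≤ #(dirs (pl P x.1 x.2.2.1) x.1) ∧ k ≤ #(dirs (pl P x.1 x.2.2.2) x.1)} ≤ C * (j * #P * y)

open Classical in
/-- Points on two lines such that the planes spanned by one line and the other point make a fixed
angle. -/
def StmtMIX0 : Prop :=
  ∀ (S S' : Finset V3) (a₀ u b₀ u' : V3) (κ : ℝ), u ≠ 0 → u' ≠ 0 → 0 ≤ κ → κ < 1 →
    (∀ a ∈ S, crossProduct (a - a₀) u = 0) → (∀ b ∈ S', crossProduct (b - b₀) u' = 0) →
    #{x ∈ S ×ˢ S' | crossProduct u (x.2 - x.1) ≠ 0 ∧ crossProduct u' (x.2 - x.1) ≠ 0 ∧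
      Ang κ (crossProduct u (x.2 - x.1)) (crossProduct u' (x.2 - x.1))} ≤ 2 * #S + 2 * #S' + 1

open Classical in
/-- Each plane contains a rich line through one of the points. -/
def StmtMIX : Prop :=
  ∃ C : ℕ, ∀ (P N : Finset V3) (κ : ℝ) (k lam ι : ℕ), NP N → 0 ≤ κ → κ < 1 → 2 ≤ k →
    #P ^ 2 + k ^ 2 * #P ≤ k ^ 3 * lam → #P ^ 2 + k ^ 2 * #P ≤ k ^ 2 * ι →
    #{x ∈ P ×ˢ P ×ˢ N ×ˢ N | Wedge κ x ∧ #(ln P x.1 x.2.1) ≤ k ∧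
      LineAt P x.1 x.2.2.1 k ∧ LineAt P x.2.1 x.2.2.2 k} ≤ C * (lam * ι)

/-- Pairs on lines of a given richness. -/
def StmtPAIRS : Prop :=
  ∃ C : ℕ, ∀ (P : Finset V3) (k j : ℕ), 2 ≤ k →
    k ^ 2 * #{x ∈ P.offDiag | k ≤ #(ln P x.1 x.2) ∧ #(ln P x.1 x.2) ≤ j} ≤
      C * j * (#P ^ 2 + k ^ 2 * #P)

/-- The tetrahedra of a given shape and orientation. -/
noncomputable def tets (P : Finset V3) (τ e τ' p h : ℝ) : Finset (V3 × V3 × V3) :=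
  {x ∈ tris P τ e | dpt τ τ' p h x.1 x.2.1 x.2.2 ∈ P}

/-- The bound with free parameters. -/
def StmtGEN : Prop :=
  ∃ C : ℕ, ∀ (P : Finset V3) (E : Finset (V3 × V3)) (τ e τ' p h : ℝ) (j k r ρ m lam y ι : ℕ),
    0 < e → h ≠ 0 → 2 ≤ k → j ≤ k → 1 ≤ r → 1 ≤ ρ → (∀ x ∈ E, #(ln P x.1 x.2) ≤ j) →
    #P ^ 2 ≤ r ^ 3 * m → #P ^ 2 + k ^ 2 * #P ≤ k ^ 3 * lam →
    ρ ^ 3 * lam + lam ^ 2 ≤ ρ ^ 2 * y → #P ^ 2 + k ^ 2 * #P ≤ k ^ 2 * ι →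
    #{x ∈ tets P τ e τ' p h | (x.1, x.2.1) ∈ E} ≤
      C * (r * #E + #P ^ 2 + k * m + j * #P * y + lam * ι)

/-- The bound for tetrahedra. -/
def StmtTET : Prop :=
  ∃ C : ℕ, ∀ (P : Finset V3) (τ e τ' p h : ℝ) (q : ℕ), 0 < e → h ≠ 0 → 1 ≤ q → #P ≤ q ^ 51 →
    #(tets P τ e τ' p h) ≤ C * q ^ 107

end Pool.Agent.MP_36f34d_co.H52
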