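import Pool.Agent.MP_36f34d_co.H52.Spec

/-! From triangles to tetrahedra. -/

namespace Pool.Agent.MP_36f34d_co.H52

open Finset Matrix

/-- Euclidean space. -/
abbrev E3 : Type := EuclideanSpace ℝ (Fin 3)

namespace TetAux

theorem dot_self_pos {v : V3} (h : v ≠ 0) : 0 < v ⬝ᵥ v :=
  lt_of_le_of_ne (sum_nonneg fun i _ => mul_self_nonneg (v i)) fun e =>
    h (dotProduct_self_eq_zero.1 e.symm)

theorem cross_ne {τ e : ℝ} {a b c : V3} (he : 0 < e) (h : Sh τ e a b c) :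
    crossProduct (b - a) (c - a) ≠ 0 := by
  intro h0
  have h1 := cross_dot_cross (b - a) (c - a) (b - a) (c - a)
  have h2 := dot_self_pos (sub_ne_zero.2 h.1.symm)
  rw [h0, dotProduct_comm (b - a) (c - a), h.2.1, h.2.2, zero_dotProduct] at h1
  have : 0 < e * ((b - a) ⬝ᵥ (b - a)) ^ 2 := by positivity
  nlinarith

theorem dist_sq (x y : E3) : dist x y ^ 2 = (x.ofLp - y.ofLp) ⬝ᵥ (x.ofLp - y.ofLp) := by
  rw [EuclideanSpace.dist_sq_eq]
  simp only [dotProduct, Pi.sub_apply, Real.dist_eq, sq_abs]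
  exact sum_congr rfl fun i _ => sq _

theorem polar (a b c : V3) : 2 * ((c - a) ⬝ᵥ (b - a)) =
    (c - a) ⬝ᵥ (c - a) + (b - a) ⬝ᵥ (b - a) - (c - b) ⬝ᵥ (c - b) := by
  simp only [dotProduct, Fin.sum_univ_three, Pi.sub_apply]; ring

/-- Similarities scale inner products of differences. -/
theorem sim_dot (φ : E3 ≃ᵢ E3) (l : ℝ) (A B C : E3) :
    ((l • φ C).ofLp - (l • φ A).ofLp) ⬝ᵥ ((l • φ B).ofLp - (l • φ A).ofLp) =
      l ^ 2 * ((C.ofLp - A.ofLp) ⬝ᵥ (B.ofLp - A.ofLp)) := by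
  have key : ∀ X Y : E3, ((l • φ X).ofLp - (l • φ Y).ofLp) ⬝ᵥ ((l • φ X).ofLp - (l • φ Y).ofLp) =
      l ^ 2 * ((X.ofLp - Y.ofLp) ⬝ᵥ (X.ofLp - Y.ofLp)) := by
    intro X Y
    rw [← dist_sq, ← dist_sq, dist_smul₀, φ.dist_eq, mul_pow, Real.norm_eq_abs, sq_abs]
  have h1 := polar (l • φ A).ofLp (l • φ B).ofLp (l • φ C).ofLp
  have h2 := polar A.ofLp B.ofLp C.ofLp
  rw [key, key, key] at h1
  linear_combination (1 / 2) * h1 - l ^ 2 / 2 * h2

/-- Four points that are not coplanar: three of them span a triangle. -/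
theorem cross_of_not_coplanar {A B C D : E3} (h : ¬ Coplanar ℝ ({A, B, C, D} : Set E3)) :
    crossProduct (B.ofLp - A.ofLp) (C.ofLp - A.ofLp) ≠ 0 := by
  intro h0
  apply h
  have hc : Collinear ℝ ({A, B, C} : Set E3) := by
    by_cases hAB : B = A
    · rw [hAB, Set.insert_eq_of_mem (Set.mem_insert _ _)]
      exact collinear_pair ℝ A C
    have hne : B.ofLp - A.ofLp ≠ 0 := sub_ne_zero.2 fun e => hAB (WithLp.ofLp_injective 2 e)
    have hp := dot_self_pos hne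
    have h1 := cross_cross_eq_smul_sub_smul' (B.ofLp - A.ofLp) (B.ofLp - A.ofLp) (C.ofLp - A.ofLp)
    rw [h0, map_zero] at h1
    rw [collinear_iff_of_mem (p₀ := A) (Set.mem_insert _ _)]
    refine ⟨B - A, ?_⟩
    rintro p (rfl | rfl | rfl)
    · exact ⟨0, by simp⟩
    · exact ⟨1, by simp⟩
    · refine ⟨((B.ofLp - A.ofLp) ⬝ᵥ (p.ofLp - A.ofLp)) / ((B.ofLp - A.ofLp) ⬝ᵥ (B.ofLp - A.ofLp)),
        ?_⟩
      ext i
      have := congrFun h1 i
      simp only [Pi.zero_apply, Pi.sub_apply, Pi.smul_apply, smul_eq_mul] at this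
      simp only [vadd_eq_add, PiLp.add_apply, PiLp.smul_apply, PiLp.sub_apply, smul_eq_mul]
      field_simp
      linear_combination this
  have := hc.coplanar_insert D
  convert this using 1
  ext x
  simp only [Set.mem_insert_iff, Set.mem_singleton_iff]
  tauto

end TetAux

open TetAux

/-- The subsets similar to a tetrahedron are at most twice as many as the triangles of the shape
of a face. -/
theorem tet_le (hG : StmtGEO) (T : Finset E3) (h4 : #T = 4) (hT : ¬ Coplanar ℝ (T : Set E3)) :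
    ∃ τ e : ℝ, 0 < e ∧ ∀ P : Finset E3,
      {S : Finset E3 | S ⊆ P ∧ ∃ (φ : E3 ≃ᵢ E3) (l : ℝ), 0 < l ∧
        (S : Set E3) = (fun x => l • φ x) '' T}.ncard ≤
        2 * #(tris (P.image WithLp.ofLp) τ e) := by
  classical
  obtain ⟨D, T', hD, rfl, h3⟩ := card_eq_succ.1 h4
  obtain ⟨A, B, C, hAB, -, -, rfl⟩ := card_eq_three.1 h3
  have hT' : ¬ Coplanar ℝ ({A, B, C, D} : Set E3) := by
    convert hT using 2
    ext x
    simp only [Set.mem_insert_iff, Set.mem_singleton_iff, coe_insert, coe_singleton]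
    tauto
  have hcr := cross_of_not_coplanar hT'
  set w := B.ofLp - A.ofLp with hw
  set u := C.ofLp - A.ofLp with hu
  set v := D.ofLp - A.ofLp with hv
  have hw0 : 0 < w ⬝ᵥ w :=
    dot_self_pos (sub_ne_zero.2 fun e => hAB (WithLp.ofLp_injective 2 e).symm)
  have he : 0 < u ⬝ᵥ u / (w ⬝ᵥ w) - (u ⬝ᵥ w / (w ⬝ᵥ w)) ^ 2 := by
    have h1 := cross_dot_cross w u w u
    have h2 := dot_self_pos hcr
    rw [h1, dotProduct_comm w u] at h2
    have : u ⬝ᵥ u / (w ⬝ᵥ w) - (u ⬝ᵥ w / (w ⬝ᵥ w)) ^ 2 =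
        (w ⬝ᵥ w * u ⬝ᵥ u - u ⬝ᵥ w * u ⬝ᵥ w) / (w ⬝ᵥ w) ^ 2 := by
      field_simp
    rw [this]
    positivity
  refine ⟨u ⬝ᵥ w / (w ⬝ᵥ w), _, he, fun P => ?_⟩
  set τ := u ⬝ᵥ w / (w ⬝ᵥ w) with hτ
  set e := u ⬝ᵥ u / (w ⬝ᵥ w) - τ ^ 2 with he'
  set P' := P.image WithLp.ofLp with hP'
  set Q : Finset ((V3 × V3 × V3) × V3) := {x ∈ tris P' τ e ×ˢ P' |
    (x.2 - x.1.1) ⬝ᵥ (x.1.2.1 - x.1.1) = v ⬝ᵥ w / (w ⬝ᵥ w) * ((x.1.2.1 - x.1.1) ⬝ᵥ (x.1.2.1 - x.1.1)) ∧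
    (x.2 - x.1.1) ⬝ᵥ (x.1.2.2 - x.1.1) = v ⬝ᵥ u / (w ⬝ᵥ w) * ((x.1.2.1 - x.1.1) ⬝ᵥ (x.1.2.1 - x.1.1)) ∧
    (x.2 - x.1.1) ⬝ᵥ (x.2 - x.1.1) = v ⬝ᵥ v / (w ⬝ᵥ w) * ((x.1.2.1 - x.1.1) ⬝ᵥ (x.1.2.1 - x.1.1))}
    with hQ
  have c1 : #Q ≤ 2 * #(tris P' τ e) := by
    refine card_le_mul_card_image_of_maps_to (f := Prod.fst)
      (fun x hx => (mem_product.1 (mem_filter.1 hx).1).1) 2 ?_
    rintro ⟨a, b, c⟩ hx
    have hs : Sh τ e a b c := (mem_filter.1 hx).2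
    refine le_trans ?_ (hG.two P' (b - a) (c - a) a
      (a ⬝ᵥ (b - a) + v ⬝ᵥ w / (w ⬝ᵥ w) * ((b - a) ⬝ᵥ (b - a)))
      (a ⬝ᵥ (c - a) + v ⬝ᵥ u / (w ⬝ᵥ w) * ((b - a) ⬝ᵥ (b - a)))
      (v ⬝ᵥ v / (w ⬝ᵥ w) * ((b - a) ⬝ᵥ (b - a))) (cross_ne he hs))
    refine card_le_card_of_injOn Prod.snd ?_ ?_
    · rintro ⟨x, d⟩ hx
      obtain ⟨hx1, rfl⟩ := mem_filter.1 hx
      obtain ⟨h1, h2, h3, h4⟩ := mem_filter.1 hx1
      refine mem_coe.2 (mem_filter.2 ⟨(mem_product.1 h1).2, ?_, ?_, h4⟩)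
      · rw [← h2, sub_dotProduct]; simp
      · rw [← h3, sub_dotProduct]; simp
    · intro x hx x' hx' h
      exact Prod.ext ((mem_filter.1 hx).2.trans (mem_filter.1 hx').2.symm) h
  refine le_trans ?_ c1
  let g : (V3 × V3 × V3) × V3 → Finset E3 := fun x =>
    {WithLp.toLp 2 x.2, WithLp.toLp 2 x.1.1, WithLp.toLp 2 x.1.2.1, WithLp.toLp 2 x.1.2.2}
  refine le_trans (Set.ncard_le_ncard (t := ↑(Q.image g)) ?_) ?_
  · rintro S ⟨hS, φ, l, hl, hS'⟩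
    have mem : ∀ X ∈ ({D, A, B, C} : Finset E3), (l • φ X).ofLp ∈ P' := fun X hX =>
      mem_image_of_mem _ (hS (by
        rw [← mem_coe, hS']
        exact ⟨X, hX, rfl⟩))
    have e0 := sim_dot φ l A B B
    refine mem_coe.2 (mem_image.2 ⟨(((l • φ A).ofLp, (l • φ B).ofLp, (l • φ C).ofLp),
      (l • φ D).ofLp), ?_, ?_⟩)
    · refine mem_filter.2 ⟨mem_product.2 ⟨mem_filter.2 ⟨mem_product.2 ⟨mem A (by simp),
        mem_product.2 ⟨mem B (by simp), mem C (by simp)⟩⟩, ?_, ?_, ?_⟩, mem D (by simp)⟩,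
        ?_, ?_, ?_⟩
      · intro h
        have h' : (l • φ A).ofLp = (l • φ B).ofLp := h
        rw [h', sub_self, zero_dotProduct] at e0
        have : 0 < l ^ 2 * (w ⬝ᵥ w) := by positivity
        exact this.ne e0
      · dsimp only; rw [sim_dot, sim_dot, ← hw, ← hu, hτ]; field_simp
      · dsimp only; rw [sim_dot, sim_dot, ← hw, ← hu, he']; field_simp; ring
      · dsimp only; rw [sim_dot, sim_dot, ← hw, ← hv]; field_simp
      · dsimp only; rw [sim_dot, sim_dot, ← hw, ← hv, ← hu]; field_simp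
      · dsimp only; rw [sim_dot, sim_dot, ← hw, ← hv]; field_simp
    · apply coe_injective
      rw [hS']
      simp [g, Set.image_insert_eq]
  · rw [Set.ncard_coe_finset]
    exact card_image_le

end Pool.Agent.MP_36f34d_co.H52
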